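import Pool.Agent.SPD.Defs

/-!
# Statements, part F : abstract flows

Adapted from `CPD.StF`: the flow `Hm` along a combing is replaced by an abstract flow `H`
(`Adm M T V g0 g1 l H`, see `Defs`), all identities of which hold at all cells.
`u = c + 1`, cells are `x = (g, i)`, `|x| = M.L.l x.1`.
-/

set_option autoImplicit false

namespace Pool.Agent.SPD

open Matrix Pool.Agent.CPD

/-- [F0] Elementary facts. (1) `Five` holds for `D, E, Ps, Ph, h` and for the conjugate transposes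
`Dᴴ, Eᴴ`. (2), (3) supports of `op A`. (4) finiteness of a linear operator on a ball.
Proof. (1) fields and `star_coeff`, `l g⁻¹ = l g`; compare `CPD.F0`. (2), (3) `row_apply`, `bl_apply`,
compare `CPD.F7`. (4) finitely many cells in a ball, each image has finite support. -/
def St_F0 : Prop := ∀ (G : Type) [Group G] (M : Pk G) (Λ : Type) [Ring Λ] [StarRing Λ]
  (T : G → G → unitary Λ),
  (Five M M.D ∧ Five M M.E ∧ Five M M.Ps ∧ Five M M.Ph ∧ Five M M.h ∧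
    Five M M.Dᴴ ∧ Five M M.Eᴴ) ∧
  (∀ (A : Matrix M.I M.I (ZG G)) (x y : G × M.I), op M T A (Finsupp.single x 1) y ≠ 0 →
    (A x.2 y.2).coeff (x.1⁻¹ * y.1) ≠ 0) ∧
  (∀ (A : Matrix M.I M.I (ZG G)) (x y : G × M.I), op M T A (Finsupp.single x 1) y =
    (((A x.2 y.2).coeff (x.1⁻¹ * y.1) : ℤ) : Λ) * (T x.1 (x.1⁻¹ * y.1) : Λ)) ∧
  (∀ (H : Ch M Λ →ₗ[Λ] Ch M Λ) (n : ℕ), ∃ n' : ℕ, ∀ x y : G × M.I, M.L.l x.1 ≤ n →
    H (Finsupp.single x 1) y ≠ 0 → M.L.l y.1 ≤ n')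

/-- [F6] (uses F0, `CPD.St_F1`) Composition of lifts. Proof: as `CPD.F6`. -/
def St_F6 : Prop := ∀ (G : Type) [Group G] (M : Pk G) (Λ : Type) [Ring Λ] [StarRing Λ]
  (T : G → G → unitary Λ) (V : Set G), GoodV M T V →
  (∀ (A B : Matrix M.I M.I (ZG G)) (a : Ch M Λ), Five M A → Five M B →
    (∀ x, a x ≠ 0 → x.1 ∈ V) → op M T B (op M T A a) = op M T (A * B) a) ∧
  (∀ (A B : Matrix M.I M.I (ZG G)) (a : Ch M Λ), op M T (A + B) a = op M T A a + op M T B a ∧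
    op M T (A - B) a = op M T A a - op M T B a) ∧
  (∀ a : Ch M Λ, op M T 0 a = 0)

/-- [F9] (uses `CPD.St_F1`) Transposition law. Proof: as `CPD.F9`. -/
def St_F9 : Prop := ∀ (G : Type) [Group G] (M : Pk G) (Λ : Type) [Ring Λ] [StarRing Λ]
  (T : G → G → unitary Λ) (V : Set G) (A : Matrix M.I M.I (ZG G)) (ξ : Ch M Λ) (x : G × M.I),
  GoodV M T V → Five M A → (∀ y, ξ y ≠ 0 → M.L.l (x.1⁻¹ * y.1) ≤ M.c → y.1 ∈ V) →
  pair (op M T A (Finsupp.single x 1)) (fun y => star (ξ y)) = star (op M T Aᴴ ξ x)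

/-- [F10a] (uses F0, F6, F9) The transposed flow identity, for chains which are far away.
Proof. As `CPD.F10a`, simplified: (1) `tH b z = 0` for `|z| ≤ g0 + 10 u ≤ g1` by `src`. (2) for
every `z`: `E z - D H z - H D z = r z`, supported in `|y| ≤ l` (`ret`), so with `N2 ≥ l`, `N2 ≥ g1 + 20 u`
the pairing of `r z` with `star ∘ b` vanishes; the other terms as in `CPD.F10a` (F9 at the chains
`b`, `op Dᴴ b`-free form, and `ξ = trunc Q (tH b)`, supported in `|v| > g0 + 10 u`, in `V`). -/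
def St_F10a : Prop := ∀ (G : Type) [Group G] (M : Pk G) (Λ : Type) [Ring Λ] [StarRing Λ]
  (T : G → G → unitary Λ) (V : Set G) (g0 g1 l : ℕ) (H : Ch M Λ →ₗ[Λ] Ch M Λ),
  Adm M T V g0 g1 l H → ∃ N2 : ℕ,
  ∀ b : Ch M Λ, (∀ y, b y ≠ 0 → N2 < M.L.l y.1) →
    (∀ z : G × M.I, M.L.l z.1 ≤ g0 + 10 * M.u → tH M H b z = 0) ∧
    (∀ (Q : ℕ) (z : G × M.I), M.L.l z.1 + M.c ≤ Q →
      op M T M.Eᴴ b z = tH M H (op M T M.Dᴴ b) z + op M T M.Dᴴ (trunc M Q (tH M H b)) z)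

/-- [F10b] (uses F0, F6, F10a) The outward flow. Proof: as `CPD.F10b`. -/
def St_F10b : Prop := ∀ (G : Type) [Group G] (M : Pk G) (Λ : Type) [Ring Λ] [StarRing Λ]
  (T : G → G → unitary Λ) (V : Set G) (g0 g1 l : ℕ) (H : Ch M Λ →ₗ[Λ] Ch M Λ),
  Adm M T V g0 g1 l H → ∃ N1 : ℕ,
  ∀ (Q : ℕ) (x y : G × M.I), N1 < M.L.l x.1 → M.L.l x.1 + 10 * M.u ≤ Q →
    (op M T M.E (Finsupp.single x 1) - op M T M.D (Ho M T H Q (Finsupp.single x 1)) -
      Ho M T H Q (op M T M.D (Finsupp.single x 1))) y ≠ 0 → Q < M.L.l y.1 + 4 * M.u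

/-- [F11] (uses F0) The outward flow does not come back, and raises the degree by one.
Proof. As `CPD.F11`, with F0 (4) in place of `CPD.F7`, and `deg` of `Flow`. -/
def St_F11 : Prop := ∀ (G : Type) [Group G] (M : Pk G) (Λ : Type) [Ring Λ] [StarRing Λ]
  (T : G → G → unitary Λ) (g1 l : ℕ) (H : Ch M Λ →ₗ[Λ] Ch M Λ), Flow M T g1 l H →
  (∀ R : ℕ, ∃ R' : ℕ, ∀ (Q : ℕ) (x y : G × M.I), R' < M.L.l x.1 →
    Ho M T H Q (Finsupp.single x 1) y ≠ 0 → R < M.L.l y.1) ∧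
  (∀ (Q : ℕ) (x y : G × M.I), Ho M T H Q (Finsupp.single x 1) y ≠ 0 →
    M.deg y.2 = M.deg x.2 + 1)

/-- [F12] (uses F0, F6, F10a) `E` is absorbed by the outward flow, far away. Proof: as
`CPD.F12`. -/
def St_F12 : Prop := ∀ (G : Type) [Group G] (M : Pk G) (Λ : Type) [Ring Λ] [StarRing Λ]
  (T : G → G → unitary Λ) (V : Set G) (g0 g1 l : ℕ) (H : Ch M Λ →ₗ[Λ] Ch M Λ),
  Adm M T V g0 g1 l H → ∃ N1 : ℕ,
  ∀ (Q : ℕ) (x : G × M.I), N1 < M.L.l x.1 →
    op M T M.E (Ho M T H Q (Finsupp.single x 1)) = Ho M T H Q (Finsupp.single x 1) ∧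
    Ho M T H Q (op M T M.E (Finsupp.single x 1)) = Ho M T H Q (Finsupp.single x 1)

/-- [B1] (uses F0) Base change of a flow along a homomorphism of star rings.
Proof. `bc c := c.mapRange θ`. `op M T' A (bc c) = bc (op M T A c)`: on single cells by F0 (3), and
`θ` is multiplicative; in general by additivity. `H' := linearCombination Λ' (fun x => bc (H x))`:
`H' (bc c) = bc (H c)`, `bc (l • c) = θ l • bc c`. All clauses of `Flow` are about single cells; a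
coefficient of `bc c` which is not `0` comes from one of `c`. -/
def St_B1 : Prop := ∀ (G : Type) [Group G] (M : Pk G) (Λ Λ' : Type) [Ring Λ] [StarRing Λ]
  [Ring Λ'] [StarRing Λ'] (θ : Λ →+* Λ') (T : G → G → unitary Λ) (T' : G → G → unitary Λ')
  (g1 l : ℕ) (H : Ch M Λ →ₗ[Λ] Ch M Λ), (∀ a, θ (star a) = star (θ a)) →
  (∀ v h, (T' v h : Λ') = θ (T v h : Λ)) → Flow M T g1 l H →
  ∃ H' : Ch M Λ' →ₗ[Λ'] Ch M Λ', Flow M T' g1 l H' ∧
    ∀ x y, H' (Finsupp.single x 1) y = θ (H (Finsupp.single x 1) y)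

/-- [B2] (uses F0) Base change of the endomorphism of the zone.
Proof. `H` and `H'` correspond on cells, so `H' (bc c) = bc (H c)` (`bc c = c.mapRange θ`), as in B1;
the same for `op`, `cut`. `tH H' (bc a) x = θ (tH H a x)` (`star`), `trunc` commutes with `θ`,
`bl T' b c = bc (bl T b c)`, so `Ho`, `th`, `ka` correspond on cells. -/
def St_B2 : Prop := ∀ (G : Type) [Group G] (M : Pk G) (Λ Λ' : Type) [Ring Λ] [StarRing Λ]
  [Ring Λ'] [StarRing Λ'] (θ : Λ →+* Λ') (T : G → G → unitary Λ) (T' : G → G → unitary Λ')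
  (H : Ch M Λ →ₗ[Λ] Ch M Λ) (H' : Ch M Λ' →ₗ[Λ'] Ch M Λ'),
  (∀ a, θ (star a) = star (θ a)) → (∀ v h, (T' v h : Λ') = θ (T v h : Λ)) →
  (∀ x y, H' (Finsupp.single x 1) y = θ (H (Finsupp.single x 1) y)) →
  ∀ (n' N' Q : ℕ) (x y : G × M.I), ka M T' H' n' N' Q (Finsupp.single x 1) y =
    θ (ka M T H n' N' Q (Finsupp.single x 1) y)

end Pool.Agent.SPD
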