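import Pool.Agent.SPD.Defs

/-!
# Statements, part W : words, labels, levels

`X - B_N` is the complement of the ball `Bl L N`. `hol f τ v w` is the product of the labels `τ`
along the path which starts at `v` and reads `w`. Final theorems of this part: `St_W7` (levels
exist) and `St_W8` (the homomorphism between two levels).
-/

set_option autoImplicit false

namespace Pool.Agent.SPD

open Matrix Pool.Agent.CPD

/-- [W0] Elementary facts on `winv`, `hol`, `Avoids`, `Iw`. Proof: inductions on lists, and
`CPD.St_D0`. (8): the vertices of the empty word. -/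
def St_W0 : Prop := ∀ (G α : Type) [Group G] (f : α → G),
  (∀ w : List (α × Bool), value f (winv w) = (value f w)⁻¹ ∧ winv (winv w) = w ∧
    (winv w).length = w.length) ∧
  (∀ u v : List (α × Bool), value f (u ++ v) = value f u * value f v ∧
    winv (u ++ v) = winv v ++ winv u) ∧
  (∀ (K : Set G) (g : G) (u v : List (α × Bool)),
    Avoids f K g (u ++ v) ↔ Avoids f K g u ∧ Avoids f K (g * value f u) v) ∧
  (∀ (K : Set G) (g : G) (w : List (α × Bool)),
    Avoids f K g w ↔ Avoids f K (g * value f w) (winv w)) ∧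
  (∀ (Γ : Type) [Group Γ] (τ : G → (α × Bool) → Γ) (g : G) (u v : List (α × Bool)),
    hol f τ g (u ++ v) = hol f τ g u * hol f τ (g * value f u) v) ∧
  (∀ (π W : Type) [Group π] [AddCommGroup W] [Module (ZG π) W] (T : G → G → π)
    (β : G → (α × Bool) → W) (g : G) (u v : List (α × Bool)),
    Iw f T β g (u ++ v) = Iw f T β g u + gr (hol f (lab f T) g u) • Iw f T β (g * value f u) v) ∧
  (∀ (K K' : Set G) (g : G) (w : List (α × Bool)), K ⊆ K' → Avoids f K' g w → Avoids f K g w) ∧
  (∀ (K : Set G) (g : G) (w : List (α × Bool)), Avoids f K g w → g ∉ K ∧ g * value f w ∉ K) ∧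
  (∀ (K K' : Set G) (R : Set (List (α × Bool))) (g : G) (w w' : List (α × Bool)), K ⊆ K' →
    Relation.EqvGen (Move f R K' g) w w' → Relation.EqvGen (Move f R K g) w w')

/-- [W1] (uses W0, `CPD.St_D0`) Invariance of holonomies and integrals under homotopies.
Proof. One `Move`: `back`: the two labels multiply to `1` by `edge` (both end points are outside `K`),
the two integrals add up to `0`; `rel`: `cell`, and `value f r = 1`. Then `EqvGen`. The last two
clauses: `w ++ winv w` is homotopic to `[]` (`CPD.St_D0`, last clause). -/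
def St_W1 : Prop := ∀ (G α : Type) [Group G] (f : α → G) (R : Set (List (α × Bool))) (K : Set G),
  (∀ r ∈ R, value f r = 1) →
  (∀ (Γ : Type) [Group Γ] (τ : G → (α × Bool) → Γ), IsLabel f R K τ → ∀ g w w',
    Relation.EqvGen (Move f R K g) w w' → hol f τ g w = hol f τ g w' ∧ value f w = value f w') ∧
  (∀ (π W : Type) [Group π] [AddCommGroup W] [Module (ZG π) W] (T : G → G → π)
    (β : G → (α × Bool) → W), IsLabel f R K (lab f T) → WCoc f R K T β → ∀ g w w',
    Relation.EqvGen (Move f R K g) w w' → Iw f T β g w = Iw f T β g w') ∧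
  (∀ (g : G) (w w' : List (α × Bool)), Relation.EqvGen (Move f R K g) w w' → w = w' ∨
    (Avoids f K g w ∧ Avoids f K g w')) ∧
  (∀ (Γ : Type) [Group Γ] (τ : G → (α × Bool) → Γ), IsLabel f R K τ → ∀ g w, Avoids f K g w →
    hol f τ (g * value f w) (winv w) = (hol f τ g w)⁻¹)

/-- [W2] (uses `CPD.St_E0`, `CPD.St_E6b`, W0) Word length and joining by words.
Proof. Choose `e : α ≃ Fin n` and apply E0 to `f ∘ e.symm`; `wlen` is the same for `f` and `f ∘ e.symm`
(map the words). `len`: a word of length one; `word`: `wlen` is attained (`Nat.sInf_mem`, words exist by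
surjectivity). `rel`: `mk r` is in the kernel of `FreeGroup.lift f`, `value f r = FreeGroup.lift f
(mk r)`. `join`: E6b gives `Joined L {v | n < L.l v} v v'`; a step `a, b` with `L.l (a⁻¹ * b) ≤ 1` has
`a⁻¹ * b = value f w` with `w.length ≤ 1`; concatenate the words along the `ReflTransGen`. -/
def St_W2 : Prop := ∀ (G : Type) [Group G] [Infinite G] (α : Type) [Finite α] (f : α → G)
  (R : Set (List (α × Bool))), Nonempty (PDM G) → R.Finite → IsPresentation f R →
  ∃ L : Len G, Base f R L

/-- [W3] (uses W0, W1) Extension of a cocycle by zero, with induced coefficients.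
`τ` are faithful labels on the complement of `K` with values in `Γ`; on the subset `O` the gauge
transforms by `γ` are values of `T` in the subgroup `P`; `β` is a cocycle on `O` with values in a
`ℤ[P]`-module, which vanishes on all edges in `O` of 2-cells that are not contained in `O`. Then
the integral of `β` over a closed word in `O` with trivial holonomy is zero.

Proof. For `v ∈ G`, a letter `a` and `g : Γ` put `B v a g := gr ⟨g * (γ v)⁻¹, h⟩ • β v a` if `v ∈ O`,
`v * letter f a ∈ O` and `h : g * (γ v)⁻¹ ∈ P`; otherwise `0`. Let `s (v, a)` be the permutation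
`(g, m) ↦ (g * τ v a, m + B v a g)` of `Γ × W` if `v ∉ K` and `v * letter f a ∉ K` (its inverse is
`(g, m) ↦ (g * (τ v a)⁻¹, m - B v a (g * (τ v a)⁻¹))`), and the identity otherwise. Labels
`τ^ v a := MulOpposite.op (s (v, a))` in `(Equiv.Perm (Γ × W))ᵐᵒᵖ`: the product along a word applies
the permutations from left to right. `IsLabel f R K τ^`: `edge`: on `Γ` by `edge` of `τ`. If `v` and `v a`
are in `O` then `g (τ v a) (γ (v a))⁻¹ = g (γ v)⁻¹ * T v (letter f a)` (hypothesis on `T`), so both
coset conditions are equivalent, and the sum is `gr (g (γ v)⁻¹) • (β v a + gr (T ..) • β (v a) a⁻¹) = 0`;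
otherwise both `B` are `0`. `cell`, `Avoids f K v r`: on `Γ` by `cell` of `τ`. If all vertices are in `O`:
the coset condition is the same at all vertices, the sum is `gr (g (γ v)⁻¹) • Iw f T β v r = 0` or all
terms are `0`. Otherwise `β` vanishes on all edges of the cell in `O`. By `faith` (the product of the `τ`
along `w` is `(γ v)⁻¹ * (hol of T) * γ v = 1`) `w` is homotopic to `[]` outside `K`; by W1 its `τ^`-
holonomy is the identity. Apply it to `(γ v, 0)`: the second component is `Iw f T β v w` (induction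
on the word in `O`: from `(g, m)` with `g * (γ v)⁻¹ = p ∈ P` one arrives at `m + gr p • Iw f T β v w`). -/
def St_W3 : Prop := ∀ (G α Γ : Type) [Group G] [Group Γ] (f : α → G) (R : Set (List (α × Bool)))
  (K O : Set G) (τ : G → (α × Bool) → Γ) (P : Subgroup Γ) (γ : G → Γ) (T : G → G → P)
  (W : Type) [AddCommGroup W] [Module (ZG P) W] (β : G → (α × Bool) → W),
  (∀ r ∈ R, value f r = 1) → IsLabel f R K τ →
  (∀ v w, value f w = 1 → Avoids f K v w → hol f τ v w = 1 →
    Relation.EqvGen (Move f R K v) w []) →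
  (∀ v ∈ O, v ∉ K) →
  (∀ v a, v ∈ O → v * letter f a ∈ O →
    ((T v (letter f a) : P) : Γ) = γ v * τ v a * (γ (v * letter f a))⁻¹) →
  WCoc f R Oᶜ T β →
  (∀ r ∈ R, ∀ v, Avoids f K v r → ¬ Avoids f Oᶜ v r → ∀ r1 a r2, r = r1 ++ a :: r2 →
    v * value f r1 ∈ O → v * value f r1 * letter f a ∈ O → β (v * value f r1) a = 0) →
  ∀ v w, value f w = 1 → Avoids f Oᶜ v w → hol f (lab f T) v w = 1 → Iw f T β v w = 0

/-- The data behind a level: faithful labels `τ` on the complement of the ball of radius `N`, with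
values in `Γ`, an asymptotic local system `T0` with the same labels, a gauge `γ`, and the stable
image `P`. -/
structure Pre {G α Γ : Type} [Group G] [Group Γ] (f : α → G) (R : Set (List (α × Bool)))
    (L : Len G) (N n0 : ℕ) (τ : G → (α × Bool) → Γ) (T0 : G → G → Γ) (γ : G → Γ)
    (P : Subgroup Γ) : Prop where
  le : N ≤ n0
  lab : IsLabel f R (Bl L N) τ
  faith : ∀ v w, value f w = 1 → Avoids f (Bl L N) v w → hol f τ v w = 1 →
    Relation.EqvGen (Move f R (Bl L N) v) w []
  als0 : IsALS T0
  tau : ∀ v a, n0 < L.l v → T0 v (letter f a) = τ v a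
  mem : ∀ v w, Avoids f (Bl L n0) v w → γ v * hol f τ v w * (γ (v * value f w))⁻¹ ∈ P
  surj : ∀ k, ∃ k', ∀ v, k' < L.l v → ∀ p ∈ P, ∃ w, value f w = 1 ∧ Avoids f (Bl L k) v w ∧
    γ v * hol f τ v w * (γ v)⁻¹ = p

/-- [W4] (uses `CPD.St_D2`, `CPD.St_D3`, W0, W1) Pre-levels exist.
Proof. `K := Bl L N` (finite). D2 gives `Γ, τ` with `IsLabel` and `faith`; D3 gives `T0` with `IsALS T0`
and `T0 v (letter f a) = τ v a` for almost all `v`. Semistability for `K` gives a finite `D`; let
`m ≥ N` with `D ⊆ Bl L m` (every finite set is in a ball), `R1 ≥ m` from `join m`. Fix `v0` with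
`|v0| > R1` (`G` infinite, balls finite). For `|v| > R1` let `p v` be a word from `v0` to `v` outside
`Bl L m`; `γ v := hol f τ v0 (p v)` (and `γ v := 1` for the other `v`). `P := {hol f τ v0 w | value f w = 1,
Avoids f (Bl L m) v0 w}`, a subgroup: products by concatenation, inverses by `winv` (W1). `n0 ≥ R1`,
`n0 ≥ N` and `n0` larger than the length of all `v` with `T0 v (letter f a) ≠ τ v a` for some letter
(finitely many letters). `mem`: `w` from `v` to `v'` outside `Bl L n0`, both ends beyond `R1`:
`γ v * hol f τ v w * (γ v')⁻¹ = hol f τ v0 (p v ++ w ++ winv (p v'))` (W0, W1). `surj`: `C := Bl L k`, `C'`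
from semistability, `k' ≥ R1` with `C' ⊆ Bl L k'`. For `|v| > k'` and `q = hol f τ v0 w0 ∈ P` apply
semistability to `v0, w0` and the path `p v` (outside `Bl L m ⊇ D`): `w0 ~ p v ++ w' ++ winv (p v)`
outside `K`, so `q = γ v * hol f τ v w' * (γ v)⁻¹` (W1; if the two words are equal it is clear). -/
def St_W4 : Prop := ∀ (G : Type) [Group G] (α : Type) (f : α → G)
  (R : Set (List (α × Bool))) (L : Len G), Base f R L → StrongSemistable f R → ∀ N : ℕ,
  ∃ (Γ : Type) (_ : Group Γ) (τ : G → (α × Bool) → Γ) (T0 : G → G → Γ) (γ : G → Γ)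
    (P : Subgroup Γ) (n0 : ℕ), Pre f R L N n0 τ T0 γ P

/-- [W5] (uses W0, W1) The stable image is finitely generated.
Proof. `FGAtInfinity` for `K := Bl L n0` gives `D ⊇ Bl L n0`; choose `k` with `D ⊆ Bl L k`, `k'` from
`surj k`, `C := Bl L k'`: `v ∉ C`, `S`. For `p ∈ P`: `p = γ v * hol f τ v w * (γ v)⁻¹` with `w` outside
`Bl L k`, so outside `D`; `w ~ us.flatten` outside `Bl L n0 ⊇ Bl L N`, so `hol f τ v w` is the product of
the `hol f τ v s`, `s ∈ us` (all closed: if `winv s ∈ S` then `value f s = 1`; W1), each is `hol f τ v s`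
or `(hol f τ v (winv s))⁻¹` with `s`, `winv s` in `S`. So `P` is the closure of the finitely many
elements `γ v * hol f τ v s * (γ v)⁻¹`, `s ∈ S`, which are in `P` by `mem` (`D ⊇ Bl L n0`). -/
def St_W5 : Prop := ∀ (G : Type) [Group G] (α Γ : Type) [Group Γ] (f : α → G)
  (R : Set (List (α × Bool))) (L : Len G) (N n0 : ℕ) (τ : G → (α × Bool) → Γ)
  (T0 : G → G → Γ) (γ : G → Γ) (P : Subgroup Γ), Base f R L → FGAtInfinity f R →
  Pre f R L N n0 τ T0 γ P → Group.FG P

/-- [W6] (uses W0, W1, W3) From a pre-level to a level.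
Proof. `T v h := ⟨γ v * T0 v h * (γ (v h))⁻¹, _⟩` if this is in `P`, else `1`. For a fixed `h` choose a
word `c` with value `h`: for almost all `v`, `T0 v h = hol f τ v c` (iterate `als0` along `c`, and `tau`; also
`T0 v 1 = 1` for almost all `v`), `c` avoids `Bl L n0` from `v`, so by `mem` the element is in `P`. So
`IsALS T`. If `|v| > n0` and `|v a| > n0` then `T v (letter f a) = γ v * τ v a * (γ (v a))⁻¹` (`tau`, `mem`
for the word `[a]`). So `hol f (lab f T) v w = γ v * hol f τ v w * (γ (v w))⁻¹` for words outside `Bl L n0`: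
`lab`, `faith`, `surj` (for `max k n0`). `ind`: W3 with `K := Bl L N`, `O := {v | n < L.l v}`,
`l := n + 1 +` the maximal length of a relator: if a relator from `v` is not outside `Bl L n` then all
its vertices have length `≤ n + ` its length, so `β` vanishes on its edges in `O`. -/
def St_W6 : Prop := ∀ (G : Type) [Group G] (α Γ : Type) [Group Γ] (f : α → G)
  (R : Set (List (α × Bool))) (L : Len G) (N n0 : ℕ) (τ : G → (α × Bool) → Γ)
  (T0 : G → G → Γ) (γ : G → Γ) (P : Subgroup Γ), Base f R L → Group.FG P →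
  Pre f R L N n0 τ T0 γ P → ∃ T : G → G → P, Lvl f R L N n0 T

/-- [W7] (uses W4, W5, W6) Levels exist. -/
def St_W7 : Prop := ∀ (G : Type) [Group G] (α : Type) (f : α → G)
  (R : Set (List (α × Bool))) (L : Len G), Base f R L → StrongSemistable f R →
  FGAtInfinity f R → ∀ N : ℕ, ∃ (π : Type) (_ : Group π) (T : G → G → π) (n0 : ℕ),
    Lvl f R L N n0 T

/-- [W9] (uses W0, W1) From one ray to all paths.
Proof. Let `r, a` be the ray. Given `K`, let `D1 ⊇ K` be from the ray condition for `K`, `m` with
`D1 ⊆ Bl L m`, `R1 ≥ m` from `join m`, `D := Bl L R1`. Given `C` let `k ≥ R1` with `C ∪ D ⊆ Bl L k`,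
`R2 ≥ k` from `join k`, and `C' := Bl L R2`. Choose `t0` such that `|r i| > R2` for all `i ≥ t0`. Let `v, w, p`
be given, `u := v * value f p ∉ C'`. (a) Claim: every closed word `x` at `u` outside `Bl L m` is
homotopic outside `K` to a closed word outside `C`. Let `q` be a word from `u` to `r t0` outside
`Bl L k`. The loop `winv q ++ x ++ q` at `r t0` is outside `D1` and the ray is outside `D1` from `t0` on;
so it is homotopic outside `K` to `seg ++ x' ++ winv seg` (`seg = seg a t0 n`, `x'` outside `Bl L k`);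
`seg` is outside `Bl L R2`. So `x ~ q ++ seg ++ x' ++ winv seg ++ winv q`, outside `Bl L k ⊇ C`. (b) `p` is
outside `D`, `w` too; the loop `x := winv p ++ w ++ p` at `u` is outside `D ⊇ Bl L m`. By (a) `x ~ w'`
outside `K`, `w'` outside `C`; and `w ~ p ++ x ++ winv p ~ p ++ w' ++ winv p`. (Contexts:
`CPD.St_D1`; cancellation of `p ++ winv p`: `CPD.St_D0`. Vertices of `seg a s n` from `r s` are
`r s, …, r (s + n)`.) -/
def St_W9 : Prop := ∀ (G : Type) [Group G] (α : Type) (f : α → G)
  (R : Set (List (α × Bool))) (L : Len G), Base f R L → SemistableAtInfinity f R →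
  StrongSemistable f R

/-- [W8] (uses W0, W1) The homomorphism between two levels.
Proof. `surj` of `T'` for `k := n0'`: `k'`; fix `v0` with `|v0| > k'`. For `g : π'` choose a closed word
`w_g` at `v0` outside `Bl L n0'` with `T'`-holonomy `g`; `φ g := hol f (lab f T) v0 w_g`. If `w` is a closed
word at `v0` outside `Bl L n0'` with `T'`-holonomy `1` then `w ~ []` outside `Bl L N'` (`faith` of `T'`), so
also outside `Bl L n0` (`n0 ≤ N'`, W0), and its `T`-holonomy is `1` (W1). So for any closed `w` at `v0`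
outside `Bl L n0'`: `φ (hol' w) = hol w` (apply this to `w_g ++ winv w`), and `φ` is a homomorphism. Let
`m1` be from `join n0'`, `m1 ≥ k'`. For `|v| > m1` let `p` be a word from `v0` to `v` outside `Bl L n0'`
(`|v0| > m1` may be assumed), `t' := hol' v0 p`, `t := hol v0 p`. For `w` at `v`: `hol' (p w p⁻¹) = t' hol'(w)
t'⁻¹`, so `φ (hol' w) = (φ t')⁻¹ t hol(w) t⁻¹ φ t'`. -/
def St_W8 : Prop := ∀ (G : Type) [Group G] (α π π' : Type) [Group π] [Group π'] (f : α → G)
  (R : Set (List (α × Bool))) (L : Len G) (N n0 N' n0' : ℕ) (T : G → G → π) (T' : G → G → π'),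
  Base f R L → Lvl f R L N n0 T → Lvl f R L N' n0' T' → n0 ≤ N' →
  ∃ (φ : π' →* π) (m1 : ℕ), n0' ≤ m1 ∧ ∀ v, m1 < L.l v → ∃ g : π, ∀ w, value f w = 1 →
    Avoids f (Bl L m1) v w →
      φ (hol f (lab f T') v w) = g * hol f (lab f T) v w * g⁻¹

end Pool.Agent.SPD
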