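import Pool.Agent.SPD.StT

/-!
# Statements, part K : the core theorem and the conclusion
-/

set_option autoImplicit false

namespace Pool.Agent.SPD

open Matrix Pool.Agent.CPD

/-- The torsion hypothesis on a homomorphism between two levels: Baumslag-Solitar relations become
trivial. -/
def Tor {π ρ : Type} [Group π] [Group ρ] (φ : π →* ρ) : Prop :=
  ∀ (y t : π) (k : ℕ), 3 ≤ k → t * y * t⁻¹ = y ^ k →
    (orderOf (φ y) ≠ 0 → orderOf (φ y) ∣ k - 1) → φ y = 1

/-- The image of a coefficient system under a homomorphism. -/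
def mapT {G π ρ : Type} [Group π] [Group ρ] (φ : π →* ρ) (T : G → G → π) : G → G → ρ :=
  fun v h => φ (T v h)

/-- [K1] (uses G1a, G1b, G5, B2, `CPD.St_Z5`, `HSP.St_PER`, `HSP.St_CON`) The Euler number of the
geometric zone over `ℤ[ρ]`.

Proof. Combine G1a, G1b for `T, H` (over `ℤ[π]`) and for the trivial system over `ℚ` with `H0`
(`LevOK` for `univ` and the constant `30`: immediate), and G5: for radii in the intersection all
three zones (over `ℤ[π]`, `ℤ[ρ]`, `ℚ`) exist; their index sets `W` (the cells off `Bs n ∪ Zs N`), degrees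
and instances are the same. `κ = ka ..` by definition (`mkZone`, `th`). Let `k, k', k0` be the matrices.
B2 for `θ = MonoidAlgebra.mapDomainRingHom` (entries `mapDomain φ`) and for the augmentation
`ℤ[π] → ℚ`: `k' x y = mapDomain φ (k x y)`, `k0 x y = (au (k x y) : ℚ)` (compatibility with `star`: on
single elements). Z5 for the zone over `ℤ[π]` gives `Dn`, `Zr`, `d k = k d`, `NullH`. If
`str (chi (cj y)) deg k ≠ 0` then PER with `m := orderOf (φ y)` (or `1` if this is `0`) gives `q ≥ 3`,
`m ∣ q - 1`, `t y t⁻¹ = y ^ q`; `Tor` gives `φ y = 1`. CON with `s := au` (as an additive map):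
`str t deg k' = str au deg k`, and the rational number `(str au deg k : ℚ) = str id deg k0 = -2` by G5. -/
def St_K1 : Prop := ∀ (G : Type) [Group G] [Infinite G] (M : Pk G) (π ρ : Type) [Group π]
  [Group ρ] (φ : π →* ρ) (T : G → G → π) (g0 g1 l : ℕ)
  (H : Ch M (ZG π) →ₗ[ZG π] Ch M (ZG π)) (H' : Ch M (ZG ρ) →ₗ[ZG ρ] Ch M (ZG ρ))
  (H0 : Ch M ℚ →ₗ[ℚ] Ch M ℚ) (lev : G → ℕ) (t : ZG ρ →+ ℤ),
  Adm (Λ := ZG π) M (tw T) {v | g0 < M.L.l v} g0 g1 l H →
  Adm (Λ := ZG ρ) M (tw (mapT φ T)) {v | g0 < M.L.l v} g0 g1 l H' →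
  Adm M (triv G ℚ) Set.univ g0 g1 l H0 → LevOK M {v | g0 < M.L.l v} g1 lev →
  (∀ x y, H' (Finsupp.single x 1) y = MonoidAlgebra.mapDomain φ (H (Finsupp.single x 1) y)) →
  (∀ x y, H0 (Finsupp.single x 1) y = ((au (H (Finsupp.single x 1) y) : ℤ) : ℚ)) →
  Tor φ → (∀ a, t a = a.coeff 1) → Ev fun n => Ev4 fun n' N' N Q =>
    ∀ (hA : ZA (Λ := ZG ρ) M (tw (mapT φ T)) H' lev n n' N' N)
      (hB : ZB (Λ := ZG ρ) M (tw (mapT φ T)) H' lev n' N' N Q),
      str t (mkZone hA hB).degW ((mkZone hA hB).mat (mkZone hA hB).κ) = -2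

/-- [K2] (uses `CPD.St_TR1`, `CPD.St_KAP`, `CPD.St_Z9`, G0, G1a, G1b, G2, G3b, B1, K1) The core
theorem.

Proof. As `CPD.G7`. `GoodAt M.L (tw T) (20 u)` holds beyond some `g0` (G0 (1); `IsALS (tw T)`), then also
for `tw (mapT φ T)`. `g1 := g0 + 100 u`; `H, l` from the hypothesis; B1 for `ℤ[π] → ℤ[ρ]` and for the
augmentation `ℤ[π] → ℚ` gives `H'`, `H0` (flows for the same `g1, l`); the three `Adm` statements; `lev`
from G0 (2). Choose `n` large for G1a, G2, G3b (with `R`) for `tw (mapT φ T), H'`, and K1, then `R1` from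
G3b, `D := {v | |v| ≤ R1}`; for a closed sequence outside `D` choose the radii, Z9 with
`l = 1 - star (single (tr ..) 1)`. -/
def St_K2 : Prop := ∀ (G : Type) [Group G] [Infinite G] (M : Pk G) (π ρ : Type) [Group π]
  [Group ρ] (φ : π →* ρ) (T : G → G → π), IsALS T →
  (∀ g1 : ℕ, ∃ (l : ℕ) (H : Ch M (ZG π) →ₗ[ZG π] Ch M (ZG π)),
    Flow (Λ := ZG π) M (tw T) g1 l H) →
  Tor φ → TrivAtInf M.L (mapT φ T)

/-- [K3] Holonomy along a word as a product along a sequence, and the package `Pk`.
Proof. (1) Induction on the word, generalizing the start: `value f ((a :: w).take (i + 1)) =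
letter f a * value f (w.take i)`; compare `CPD.D4`. (2) The finitely many lengths in the supports of
the entries of the five matrices have a common bound. -/
def St_K3 : Prop :=
  (∀ (G α π : Type) [Group G] [Group π] (f : α → G) (T : G → G → π) (v : G)
    (w : List (α × Bool)), tr T (fun i => v * value f (w.take i)) 0 w.length =
      hol f (lab f T) v w) ∧
  ∀ (G : Type) [Group G] (_ : PDM G) (L : Len G), ∃ M : Pk G, M.L = L

/-- [FIN] (uses `CPD.St_E4`, W0, W2, W7, W8, W9, FL, TT, K2, K3) The theorem.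

Proof. `G` finite: `D := univ`. Let `G` be infinite. E4 gives a `PDM G`, W2 gives `L` with `Base f R L`,
K3 (2) gives `M : Pk G` with `M.L = L`. `StrongSemistable` by W9. Let `K` be finite, `K ⊆ Bl L N`. W7:
a level `T` over `π` for `N`, with `n0`. TT gives `N1`. `N' := max N1 n0`, W7: a level `T'` over `π'` for
`N'`, with `n0'`. W8: `φ : π' →* π` and `m1`. FL: flows for `T'`. `Tor φ` by TT. K2 (with `π', π` in the
roles of `π, ρ`): `TrivAtInf L (mapT φ T')`; with `R := 1` this gives a finite `D₁`. `D := D₁ ∪ Bl L m1 ∪ K ∪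
Bl L n0`. Let `w` be a closed word at `v` outside `D`. By K3 (1) the product of `mapT φ T'` along the
sequence of its vertices is `hol f (lab f (mapT φ T')) v w = φ (hol f (lab f T') v w)`, so this is `1`
(closed sequence, steps of length `≤ 1` as `Base.len`, vertices outside `D₁`); by W8 (`|v| > m1`, `w`
outside `Bl L m1`) `hol f (lab f T) v w = 1`; by `faith` `w ~ []` outside `Bl L N ⊇ K`, hence outside `K`
(W0). -/
def St_FIN : Prop := ∀ (G : Type) [Group G], IsOrientablePD3 G →
  ∀ (α : Type) [Finite α] (f : α → G) (R : Set (List (α × Bool))), R.Finite →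
    IsPresentation f R → SemistableAtInfinity f R → FGAtInfinity f R →
    OneConnectedAtInfinity f R

end Pool.Agent.SPD
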