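import Pool.Agent.SPD.StF

/-! SPD, module B1 (helper85): base change of a flow. -/

set_option autoImplicit false

namespace Pool.Agent.SPD

open Matrix Pool.Agent.CPD

/-- base change of chains -/
private noncomputable def B1_bc {X Λ Λ' : Type} [Ring Λ] [Ring Λ'] (θ : Λ →+* Λ') :
    (X →₀ Λ) →+ (X →₀ Λ') := Finsupp.mapRange.addMonoidHom θ.toAddMonoidHom

private lemma B1_apply {X Λ Λ' : Type} [Ring Λ] [Ring Λ'] (θ : Λ →+* Λ') (c : X →₀ Λ) (y : X) :
    B1_bc θ c y = θ (c y) := rfl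

private lemma B1_single {X Λ Λ' : Type} [Ring Λ] [Ring Λ'] (θ : Λ →+* Λ') (x : X) (a : Λ) :
    B1_bc θ (Finsupp.single x a) = Finsupp.single x (θ a) := by
  classical
  ext y
  rw [B1_apply, Finsupp.single_apply, Finsupp.single_apply]
  split_ifs
  · rfl
  · exact map_zero θ

private lemma B1_smul {X Λ Λ' : Type} [Ring Λ] [Ring Λ'] (θ : Λ →+* Λ') (a : Λ) (c : X →₀ Λ) :
    B1_bc θ (a • c) = θ a • B1_bc θ c := by
  ext y
  rw [B1_apply, Finsupp.smul_apply, Finsupp.smul_apply, B1_apply, smul_eq_mul, smul_eq_mul,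
    map_mul]

/-- two linear maps which correspond on cells correspond -/
private lemma B1_lin {X Λ Λ' : Type} [Ring Λ] [Ring Λ'] (θ : Λ →+* Λ')
    (F : (X →₀ Λ) →ₗ[Λ] (X →₀ Λ)) (F' : (X →₀ Λ') →ₗ[Λ'] (X →₀ Λ'))
    (h : ∀ x, F' (Finsupp.single x 1) = B1_bc θ (F (Finsupp.single x 1))) (c : X →₀ Λ) :
    F' (B1_bc θ c) = B1_bc θ (F c) := by
  induction c using Finsupp.induction_linear with
  | zero => rw [map_zero, map_zero, map_zero, map_zero]
  | add a b ha hb => rw [map_add, map_add, map_add, map_add, ha, hb]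
  | single x l =>
    have h1 : Finsupp.single x l = l • (Finsupp.single x 1 : X →₀ Λ) := by
      rw [Finsupp.smul_single, smul_eq_mul, mul_one]
    have h2 : Finsupp.single x (θ l) = θ l • (Finsupp.single x 1 : X →₀ Λ') := by
      rw [Finsupp.smul_single, smul_eq_mul, mul_one]
    rw [B1_single, h2, map_smul, h, h1, map_smul, B1_smul]

theorem B1 (h0 : St_F0) : St_B1 := by
  intro G _ M Λ Λ' _ _ _ _ θ T T' g1 l H _ hT hF
  obtain ⟨-, -, h3, -⟩ := h0 G M Λ T
  obtain ⟨-, -, h3', -⟩ := h0 G M Λ' T'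
  have hop1 : ∀ (A : Matrix M.I M.I (ZG G)) (x : G × M.I),
      op M T' A (Finsupp.single x 1) = B1_bc θ (op M T A (Finsupp.single x 1)) := by
    intro A x
    ext y
    rw [B1_apply, h3', h3, RingHom.map_mul θ, map_intCast θ, hT]
  have hop : ∀ (A : Matrix M.I M.I (ZG G)) (c : Ch M Λ),
      op M T' A (B1_bc θ c) = B1_bc θ (op M T A c) := fun A c =>
    B1_lin θ (op M T A) (op M T' A) (hop1 A) c
  let H' : Ch M Λ' →ₗ[Λ'] Ch M Λ' :=
    Finsupp.linearCombination Λ' (fun x => B1_bc θ (H (Finsupp.single x 1)))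
  have hH1 : ∀ x : G × M.I, H' (Finsupp.single x 1) = B1_bc θ (H (Finsupp.single x 1)) := by
    intro x
    show Finsupp.linearCombination Λ' (fun x => B1_bc θ (H (Finsupp.single x 1)))
      (Finsupp.single x 1) = _
    rw [Finsupp.linearCombination_single, one_smul]
  have hH : ∀ c : Ch M Λ, H' (B1_bc θ c) = B1_bc θ (H c) := fun c => B1_lin θ H H' hH1 c
  have hHy : ∀ x y : G × M.I, H' (Finsupp.single x 1) y = θ (H (Finsupp.single x 1) y) :=
    fun x y => by rw [hH1, B1_apply]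
  have hne : ∀ x y : G × M.I, H' (Finsupp.single x 1) y ≠ 0 → H (Finsupp.single x 1) y ≠ 0 := by
    intro x y h h'
    rw [hHy, h', map_zero] at h
    exact h rfl
  refine ⟨H', ⟨fun x y h => hF.deg x y (hne x y h), fun x y h => hF.src x y (hne x y h),
    fun x y h => hF.tgt x y (hne x y h), ?_, ?_, ?_⟩, hHy⟩
  · intro x
    rw [hH1, hop, hF.EH]
  · intro x
    rw [hop1, hH, hF.HE, hH1]
  · intro x y h
    refine hF.ret x y fun h' => h ?_
    have e : op M T' M.E (Finsupp.single x 1) - op M T' M.D (H' (Finsupp.single x 1)) -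
        H' (op M T' M.D (Finsupp.single x 1)) =
        B1_bc θ (op M T M.E (Finsupp.single x 1) - op M T M.D (H (Finsupp.single x 1)) -
          H (op M T M.D (Finsupp.single x 1))) := by
      rw [hop1, hop1, hH, hH1, hop, map_sub, map_sub]
    rw [e, B1_apply, h', map_zero]

end Pool.Agent.SPD
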