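import Pool.Agent.SPD.StF

/-!
# B2: base change of the endomorphism of the zone
-/

set_option autoImplicit false

namespace Pool.Agent.SPD

open Matrix Pool.Agent.CPD

section

variable {X Λ Λ' : Type} [Ring Λ] [Ring Λ'] (θ : Λ →+* Λ')

/-- corresponding chains -/
private def B2_C (c : X →₀ Λ) (c' : X →₀ Λ') : Prop := ∀ y, c' y = θ (c y)

/-- corresponding operators -/
private def B2_O (F : (X →₀ Λ) →ₗ[Λ] (X →₀ Λ)) (F' : (X →₀ Λ') →ₗ[Λ'] (X →₀ Λ')) : Prop :=
  ∀ x, B2_C θ (F (Finsupp.single x 1)) (F' (Finsupp.single x 1))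

private lemma B2_sum (F : (X →₀ Λ) →ₗ[Λ] (X →₀ Λ)) (c : X →₀ Λ) (s : Finset X)
    (hs : c.support ⊆ s) (y : X) :
    F c y = ∑ x ∈ s, c x * F (Finsupp.single x 1) y := by
  have h1 : c = ∑ x ∈ s, c x • Finsupp.single x (1 : Λ) := by
    conv_lhs => rw [← Finsupp.sum_single c]
    rw [Finsupp.sum_of_support_subset c hs _ (fun x _ => Finsupp.single_zero x)]
    refine Finset.sum_congr rfl fun x _ => ?_
    rw [Finsupp.smul_single, smul_eq_mul, mul_one]
  have h2 : F c = ∑ x ∈ s, c x • F (Finsupp.single x 1) := by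
    conv_lhs => rw [h1]
    rw [map_sum]
    refine Finset.sum_congr rfl fun x _ => ?_
    rw [map_smul]
  rw [h2, Finsupp.finsetSum_apply]
  rfl

variable {θ}

private lemma B2_supp {c : X →₀ Λ} {c' : X →₀ Λ'} (h : B2_C θ c c') : c'.support ⊆ c.support := by
  intro x hx
  rw [Finsupp.mem_support_iff] at hx ⊢
  intro h0
  apply hx
  rw [h x, h0, map_zero]

private lemma B2_app {F : (X →₀ Λ) →ₗ[Λ] (X →₀ Λ)} {F' : (X →₀ Λ') →ₗ[Λ'] (X →₀ Λ')}
    (hF : B2_O θ F F') {c : X →₀ Λ} {c' : X →₀ Λ'} (h : B2_C θ c c') : B2_C θ (F c) (F' c') := by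
  intro y
  rw [B2_sum F c c.support subset_rfl, B2_sum F' c' c.support (B2_supp h), map_sum]
  refine Finset.sum_congr rfl fun x _ => ?_
  rw [map_mul, h x, hF x y]

private lemma B2_comp {F K : (X →₀ Λ) →ₗ[Λ] (X →₀ Λ)} {F' K' : (X →₀ Λ') →ₗ[Λ'] (X →₀ Λ')}
    (hF : B2_O θ F F') (hK : B2_O θ K K') : B2_O θ (F ∘ₗ K) (F' ∘ₗ K') := by
  intro x
  rw [LinearMap.comp_apply, LinearMap.comp_apply]
  exact B2_app hF (hK x)

private lemma B2_add {F K : (X →₀ Λ) →ₗ[Λ] (X →₀ Λ)} {F' K' : (X →₀ Λ') →ₗ[Λ'] (X →₀ Λ')}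
    (hF : B2_O θ F F') (hK : B2_O θ K K') : B2_O θ (F + K) (F' + K') := by
  intro x y
  rw [LinearMap.add_apply, LinearMap.add_apply, Finsupp.add_apply, Finsupp.add_apply, map_add,
    hF x y, hK x y]

private lemma B2_sub {F K : (X →₀ Λ) →ₗ[Λ] (X →₀ Λ)} {F' K' : (X →₀ Λ') →ₗ[Λ'] (X →₀ Λ')}
    (hF : B2_O θ F F') (hK : B2_O θ K K') : B2_O θ (F - K) (F' - K') := by
  intro x y
  rw [LinearMap.sub_apply, LinearMap.sub_apply, Finsupp.sub_apply, Finsupp.sub_apply, map_sub,
    hF x y, hK x y]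

private lemma B2_single (x : X) : B2_C θ (Finsupp.single x 1) (Finsupp.single x 1) := by
  classical
  intro y
  rw [Finsupp.single_apply, Finsupp.single_apply]
  split_ifs
  · rw [map_one]
  · rw [map_zero]

private lemma B2_cut (S : Set X) : B2_O θ (cut S) (cut S) := by
  intro x y
  by_cases hy : y ∈ S
  · rw [cut_apply_of_mem S _ hy, cut_apply_of_mem S _ hy]
    exact B2_single x y
  · rw [cut_apply_of_notMem S _ hy, cut_apply_of_notMem S _ hy, map_zero]

end

theorem B2 : St_B2 := by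
  classical
  intro G _ M Λ Λ' _ _ _ _ θ T T' H H' hstar hT hH
  have hbl : ∀ (b : G) (c : (G × M.I) →₀ ℤ), B2_C θ (bl T b c) (bl T' b c) := by
    intro b c y
    rw [bl_apply, bl_apply, map_mul, map_intCast, hT]
  have hop : ∀ A : Matrix M.I M.I (ZG G), B2_O θ (op M T A) (op M T' A) := by
    intro A x y
    unfold op
    rw [lo_single, lo_single, one_smul, one_smul]
    exact hbl _ _ y
  have hH' : B2_O θ H H' := fun x y => hH x y
  have htH : ∀ (a : Ch M Λ) (a' : Ch M Λ'), B2_C θ a a' → ∀ x,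
      tH M H' a' x = θ (tH M H a x) := by
    intro a a' ha x
    unfold tH
    have h1 : (a'.sum fun y l => l * star (H' (Finsupp.single x 1) y)) =
        ∑ y ∈ a.support, a' y * star (H' (Finsupp.single x 1) y) :=
      Finsupp.sum_of_support_subset a' (B2_supp ha) (fun y l => l * star (H' (Finsupp.single x 1) y))
        (fun y _ => zero_mul _)
    rw [h1]
    unfold Finsupp.sum
    rw [map_sum]
    refine Finset.sum_congr rfl fun y _ => ?_
    rw [map_mul, hstar, ha y, hH x y]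
  have htr : ∀ (Q : ℕ) (f : G × M.I → Λ) (f' : G × M.I → Λ'), (∀ x, f' x = θ (f x)) →
      B2_C θ (trunc M Q f) (trunc M Q f') := by
    intro Q f f' hf y
    change (if M.L.l y.1 ≤ Q then f' y else 0) = θ (if M.L.l y.1 ≤ Q then f y else 0)
    split_ifs
    · exact hf y
    · rw [map_zero]
  have hHo : ∀ Q : ℕ, B2_O θ (Ho M T H Q) (Ho M T' H' Q) := by
    intro Q x y
    unfold Ho
    rw [Finsupp.linearCombination_single, Finsupp.linearCombination_single, one_smul, one_smul,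
      Finsupp.sub_apply, Finsupp.sub_apply, map_sub, hbl x.1 (row M.h x) y,
      B2_app (hop M.Ph) (htr Q _ _ (htH _ _ (hbl x.1 (row M.Ps x)))) y]
  intro n' N' Q x y
  have hth : B2_O θ (th M T H n' N' Q) (th M T' H' n' N' Q) := by
    unfold th
    exact B2_add (B2_comp hH' (B2_comp (B2_cut _) (hop _)))
      (B2_comp (hHo Q) (B2_comp (B2_cut _) (hop _)))
  have hka : B2_O θ (ka M T H n' N' Q) (ka M T' H' n' N' Q) := by
    unfold ka
    exact B2_sub (B2_sub (hop _) (B2_comp (hop _) hth)) (B2_comp hth (hop _))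
  exact hka x y

end Pool.Agent.SPD
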