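import Pool.Agent.SPD.StC
import Pool.Agent.SPD.StW
import Pool.Agent.CPD.D0

/-!
# [C0] Cocycles which vanish on a thick shell (helper82)
-/

set_option autoImplicit false

namespace Pool.Agent.SPD

open Matrix Pool.Agent.CPD

private theorem C0_gr_mul {π : Type} [Group π] (g h : π) : gr g * gr h = gr (g * h) := by
  unfold gr
  rw [MonoidAlgebra.single_mul_single, mul_one]

private theorem C0_gr_one {π : Type} [Group π] : gr (1 : π) = 1 := rfl

private theorem C0_gr_cancel {π W : Type} [Group π] [AddCommGroup W] [Module (ZG π) W] (g : π) (x : W)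
    (h : gr g • x = 0) : x = 0 := by
  have h1 : gr g⁻¹ • gr g • x = 0 := by rw [h, smul_zero]
  rwa [smul_smul, C0_gr_mul, inv_mul_cancel, C0_gr_one, one_smul] at h1

private theorem C0_b_zero {Λ X W : Type} [Ring Λ] [AddCommGroup W] [Module Λ W] (b : (X →₀ Λ) →ₗ[Λ] W) (c : X →₀ Λ)
    (h : ∀ x, c x ≠ 0 → b (Finsupp.single x 1) = 0) : b c = 0 := by
  rw [← Finsupp.sum_single c, Finsupp.sum, map_sum]
  apply Finset.sum_eq_zero
  intro x hx
  have h1 : (Finsupp.single x (c x) : X →₀ Λ) = c x • Finsupp.single x 1 := by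
    rw [Finsupp.smul_single, smul_eq_mul, mul_one]
  rw [h1, map_smul, h x (Finsupp.mem_support_iff.1 hx), smul_zero]

section words

variable {G α : Type} [Group G]

private theorem C0_len (f : α → G) (L : Len G) (hL : ∀ a : α × Bool, L.l (letter f a) ≤ 1) (w : List (α × Bool)) :
    L.l (value f w) ≤ w.length := by
  induction w with
  | nil =>
    rw [d0_value_nil, L.one]
    exact Nat.zero_le _
  | cons a w ih =>
    rw [d0_value_cons, List.length_cons]
    have h1 := L.mul (letter f a) (value f w)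
    have h2 := hL a
    omega

private theorem C0_tri (L : Len G) (v h : G) : L.l v ≤ L.l (v * h) + L.l h := by
  have h1 := L.mul (v * h) h⁻¹
  rw [mul_inv_cancel_right, L.inv] at h1
  exact h1

/-- short words starting far away stay far away -/
private theorem C0_avoids (f : α → G) (L : Len G) (hL : ∀ a : α × Bool, L.l (letter f a) ≤ 1) (m : ℕ) (v : G)
    (w : List (α × Bool)) (h : m + w.length < L.l v) : Avoids f (Bl L m) v w := by
  intro n hn hmem
  have h1 : L.l (v * value f (w.take n)) ≤ m := hmem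
  have h2 := C0_tri L v (value f (w.take n))
  have h3 := C0_len f L hL (w.take n)
  rw [List.length_take] at h3
  omega

private theorem C0_Iw_zero {π W : Type} [Group π] [AddCommGroup W] [Module (ZG π) W] (f : α → G) (L : Len G)
    (hL : ∀ a : α × Bool, L.l (letter f a) ≤ 1) (T : G → G → π) (β : G → (α × Bool) → W) (w : List (α × Bool)) :
    ∀ v, (∀ u a, L.l u ≤ L.l v + w.length → β u a = 0) → Iw f T β v w = 0 := by
  induction w with
  | nil =>
    intro v _
    rfl
  | cons a w ih =>
    intro v h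
    have h1 : Iw f T β v (a :: w) = β v a + gr (T v (letter f a)) • Iw f T β (v * letter f a) w := rfl
    rw [h1, h v a (by omega), ih (v * letter f a), smul_zero, add_zero]
    intro u c hu
    apply h
    rw [List.length_cons]
    have h2 := L.mul v (letter f a)
    have h3 := hL a
    omega

/-- the holonomy of a short word -/
private theorem C0_hol {π : Type} [Group π] (f : α → G) (L : Len G) (hL : ∀ a : α × Bool, L.l (letter f a) ≤ 1)
    (T : G → G → π) (n K : ℕ) (hT : ∀ v, n < L.l v → GoodT L T K v) (w : List (α × Bool)) :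
    ∀ v, w.length + 1 ≤ K → Avoids f (Bl L n) v w → hol f (lab f T) v w = T v (value f w) := by
  induction w with
  | nil =>
    intro v hK hA
    rw [d0_avoids_nil] at hA
    have h1 : n < L.l v := by
      by_contra hcon
      exact hA (show L.l v ≤ n by omega)
    have h2 := hT v h1 1 1 (by rw [L.one]; exact Nat.zero_le _) (by rw [L.one]; exact Nat.zero_le _)
    rw [mul_one, mul_one] at h2
    rw [d0_value_nil]
    show 1 = T v 1
    have h3 : T v 1 * T v 1 = T v 1 * 1 := by rw [h2, mul_one]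
    exact (mul_left_cancel h3).symm
  | cons a w ih =>
    intro v hK hA
    rw [d0_avoids_cons] at hA
    rw [List.length_cons] at hK
    have h1 : n < L.l v := by
      by_contra hcon
      exact hA.1 (show L.l v ≤ n by omega)
    have h2 : hol f (lab f T) v (a :: w) = T v (letter f a) * hol f (lab f T) (v * letter f a) w := rfl
    rw [h2, ih (v * letter f a) (by omega) hA.2, d0_value_cons]
    have h3 := hL a
    have h4 := C0_len f L hL w
    exact hT v h1 (letter f a) (value f w) (by omega) (by omega)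

end words

/-- **C0** -/
theorem C0 (hW0 : St_W0) (hW1 : St_W1) (hL2 : St_L2) (hL3 : St_L3) : St_C0 := by
  classical
  intro G α π _ _ f Rel M R 𝓛 N n0 n T hD
  obtain ⟨hB, hlen, hlvl, hn0, hgood⟩ := hD
  obtain ⟨-, hval, havo, hwinv, holap, hIwap, -, -, -⟩ := hW0 G α f
  have hρ := 𝓛.hR
  obtain ⟨m, hm⟩ : ∃ m, m = n + 𝓛.ρ := ⟨_, rfl⟩
  obtain ⟨R1, hR1, hjoin⟩ := hB.join m
  obtain ⟨k', hk'⟩ := hlvl.surj m
  obtain ⟨l1, hl1⟩ := hlvl.ind m (by omega)
  refine ⟨R1 + R + k' + m, by omega, ?_⟩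
  intro a ha l0
  -- generators of `π`
  obtain ⟨_, S, -, hS⟩ := Group.fg_iff'.1 hlvl.fg
  choose wg hwg1 hwg2 hwg3 using hk' a (by omega)
  have hq : ∀ v, ∃ q, R1 < M.L.l v → Avoids f (Bl M.L m) v q ∧ v * value f q = a := by
    intro v
    by_cases hv : R1 < M.L.l v
    · obtain ⟨q, hq⟩ := hjoin v a hv (by omega)
      exact ⟨q, fun _ => hq⟩
    · exact ⟨[], fun h => absurd h hv⟩
  choose q hq using hq
  obtain ⟨l, hl⟩ : ∃ l, l = l0 + l1 + 𝓛.ρ + M.L.l a + ∑ g ∈ S, (wg g).length + ∑ v ∈ M.L.ball l0, (q v).length := ⟨_, rfl⟩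
  refine ⟨l, by omega, ?_⟩
  intro W _ _ b hCoc hb
  obtain ⟨-, -, -, hbe1, hbe2, hbe3⟩ := hL3 G M R 𝓛 π T n W b hgood hCoc
  rw [← hm] at hbe1 hbe2 hbe3
  have hW := hbe3 α f Rel hB.len fun r hr => ⟨hlen r hr, hB.rel r hr⟩
  -- `β` vanishes on the shell
  have hβ0 : ∀ v h, M.L.l v + 𝓛.ρ ≤ l → be M T 𝓛 b v h = 0 := by
    intro v h hv
    apply C0_b_zero
    intro x hx
    have h1 := (hL2 G M R 𝓛 π T v).2.2.2.1 _ x hx
    have h2 := 𝓛.es_supp _ _ h1
    apply hb x h2.1
    have h3 := M.L.mul v (v⁻¹ * x.1)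
    rw [mul_inv_cancel_left] at h3
    have h4 : M.L.l (v⁻¹ * x.1) ≤ 𝓛.ρ := h2.2
    omega
  obtain ⟨β, hβ⟩ : ∃ β : G → (α × Bool) → W, β = fun v a => be M T 𝓛 b v (letter f a) := ⟨_, rfl⟩
  have hbe2' : ∀ (v : G) (w : List (α × Bool)), w.length ≤ R → Avoids f (Bl M.L m) v w →
      Iw f T β v w = be M T 𝓛 b v (value f w) := by
    rw [hβ]
    exact hbe2 α f hB.len
  rw [← hβ] at hW
  have hβ1 : ∀ v a, M.L.l v + 𝓛.ρ ≤ l → β v a = 0 := by
    intro v a hv
    rw [hβ]
    exact hβ0 v _ hv
  have hlab : IsLabel f Rel (Bl M.L m) (lab f T) := by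
    have hsub : Bl M.L n0 ⊆ Bl M.L m := fun x hx => by
      have h1 : M.L.l x ≤ n0 := hx
      show M.L.l x ≤ m
      omega
    have h1 := hlvl.lab
    refine ⟨fun g a b h2 h3 => h1.edge g a b (fun h => h2 (hsub h)) (fun h => h3 (hsub h)), fun r hr g h2 => ?_⟩
    exact h1.cell r hr g fun i hi h => h2 i hi (hsub h)
  obtain ⟨-, -, -, hholinv⟩ := hW1 G α f Rel (Bl M.L m) hB.rel
  -- closed words with trivial holonomy
  have hI0 : ∀ v w, value f w = 1 → Avoids f (Bl M.L m) v w → hol f (lab f T) v w = 1 → Iw f T β v w = 0 := by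
    apply hl1 W β hW
    intro v c _ hv
    exact hβ1 v c (by omega)
  have haM : Avoids f (Bl M.L m) a [] := by
    rw [d0_avoids_nil]
    intro h
    have h1 : M.L.l a ≤ m := h
    omega
  -- closed words with given holonomy and integral zero
  have hgen : ∀ g : π, ∃ w, value f w = 1 ∧ Avoids f (Bl M.L m) a w ∧ hol f (lab f T) a w = g ∧ Iw f T β a w = 0 := by
    intro g
    have hg : g ∈ Subgroup.closure (S : Set π) := by
      rw [hS]
      exact Subgroup.mem_top g
    induction hg using Subgroup.closure_induction with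
    | mem g hg =>
      refine ⟨wg g, hwg1 g, hwg2 g, hwg3 g, C0_Iw_zero f M.L hB.len T β (wg g) a fun u c hu => hβ1 u c ?_⟩
      have h1 : (wg g).length ≤ ∑ g ∈ S, (wg g).length :=
        Finset.single_le_sum (f := fun g => (wg g).length) (fun _ _ => Nat.zero_le _) hg
      omega
    | one =>
      exact ⟨[], d0_value_nil f, haM, rfl, rfl⟩
    | mul x y _ _ hx hy =>
      obtain ⟨u, hu1, hu2, hu3, hu4⟩ := hx
      obtain ⟨v, hv1, hv2, hv3, hv4⟩ := hy
      refine ⟨u ++ v, ?_, ?_, ?_, ?_⟩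
      · rw [(hval u v).1, hu1, hv1, mul_one]
      · rw [havo, hu1, mul_one]
        exact ⟨hu2, hv2⟩
      · rw [holap, hu1, mul_one, hu3, hv3]
      · rw [hIwap, hu1, mul_one, hu4, hv4, smul_zero, add_zero]
    | inv x _ hx =>
      obtain ⟨u, hu1, hu2, hu3, hu4⟩ := hx
      have h1 : value f (winv u) = 1 := by
        rw [(hW0 G α f).1 u |>.1, hu1, inv_one]
      have h2 : Avoids f (Bl M.L m) a (winv u) := by
        have := (hwinv (Bl M.L m) a u).1 hu2
        rwa [hu1, mul_one] at this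
      have h3 : hol f (lab f T) a (winv u) = x⁻¹ := by
        have := hholinv π (lab f T) hlab a u hu2
        rwa [hu1, mul_one, hu3] at this
      refine ⟨winv u, h1, h2, h3, ?_⟩
      have h4 := hI0 a (u ++ winv u) (by rw [(hval _ _).1, hu1, h1, mul_one]) (by
        rw [havo, hu1, mul_one]
        exact ⟨hu2, h2⟩) (by rw [holap, hu1, mul_one, hu3, h3, mul_inv_cancel])
      rw [hIwap, hu1, mul_one, hu4, zero_add] at h4
      exact C0_gr_cancel _ _ h4
  -- all closed words at `a`
  have hcl : ∀ w, value f w = 1 → Avoids f (Bl M.L m) a w → Iw f T β a w = 0 := by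
    intro w hw1 hw2
    obtain ⟨u, hu1, hu2, hu3, hu4⟩ := hgen (hol f (lab f T) a w)⁻¹
    have h4 := hI0 a (w ++ u) (by rw [(hval _ _).1, hu1, hw1, mul_one]) (by
      rw [havo, hw1, mul_one]
      exact ⟨hw2, hu2⟩) (by rw [holap, hw1, mul_one, hu3, mul_inv_cancel])
    rwa [hIwap, hw1, mul_one, hu4, smul_zero, add_zero] at h4
  -- independence of the word
  have hind : ∀ v u w, Avoids f (Bl M.L m) v u → v * value f u = a → Avoids f (Bl M.L m) v w → v * value f w = a →
      Iw f T β v u = Iw f T β v w := by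
    intro v u w hu1 hu2 hw1 hw2
    have h1 : Avoids f (Bl M.L m) a (winv u) := by
      have := (hwinv (Bl M.L m) v u).1 hu1
      rwa [hu2] at this
    have h2 : value f (winv u) = a⁻¹ * v := by
      rw [(hW0 G α f).1 u |>.1, ← hu2, _root_.mul_inv_rev, inv_mul_cancel_right]
    have h3 : a * value f (winv u) = v := by rw [h2, mul_inv_cancel_left]
    have key : ∀ w, Avoids f (Bl M.L m) v w → v * value f w = a →
        Iw f T β a (winv u) + gr (hol f (lab f T) a (winv u)) • Iw f T β v w = 0 := by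
      intro w hw1 hw2
      have h4 := hcl (winv u ++ w) (by rw [(hval _ _).1, h2, mul_assoc, hw2, inv_mul_cancel]) (by
        rw [havo, h3]
        exact ⟨h1, hw1⟩)
      rwa [hIwap, h3] at h4
    have h5 := key u hu1 hu2
    have h6 := key w hw1 hw2
    have h7 : gr (hol f (lab f T) a (winv u)) • (Iw f T β v u - Iw f T β v w) = 0 := by
      rw [smul_sub, sub_eq_zero]
      exact add_left_cancel (h5.trans h6.symm)
    exact sub_eq_zero.1 (C0_gr_cancel _ _ h7)
  refine ⟨fun v => Iw f T β v (q v), ?_, ?_, ?_⟩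
  · intro v h hv hh
    obtain ⟨c, hc1, hc2⟩ := hB.word h
    have hcA : Avoids f (Bl M.L m) v c := C0_avoids f M.L hB.len m v c (by omega)
    have hvh : R1 < M.L.l (v * h) := by
      have := C0_tri M.L v h
      omega
    obtain ⟨hq1, hq2⟩ := hq v (by omega)
    obtain ⟨hq3, hq4⟩ := hq (v * h) hvh
    have h1 := hind v (q v) (c ++ q (v * h)) hq1 hq2 (by
      rw [havo, hc1]
      exact ⟨hcA, hq3⟩) (by rw [(hval _ _).1, hc1, ← mul_assoc, hq4])
    have h2 : hol f (lab f T) v c = T v h := by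
      rw [C0_hol f M.L hB.len T n 𝓛.kap hgood c v ?_ ?_, hc1]
      · have h3 : 𝓛.kap = 4 * 𝓛.ρ + 20 * M.u := rfl
        have h4 : M.u = M.c + 1 := rfl
        omega
      · intro i hi hmem
        apply hcA i hi
        have h5 : M.L.l (v * value f (c.take i)) ≤ n := hmem
        show M.L.l (v * value f (c.take i)) ≤ m
        omega
    have h3 := hbe2' v c (by omega) hcA
    rw [hIwap, hc1, h2, h3, hc1] at h1
    show be M T 𝓛 b v h = Iw f T β v (q v) - gr (T v h) • Iw f T β (v * h) (q (v * h))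
    rw [h1, add_sub_cancel_right]
  · obtain ⟨hq1, hq2⟩ := hq a (by omega)
    exact hcl (q a) (mul_left_cancel (hq2.trans (mul_one a).symm)) hq1
  · intro v hv1 hv2
    apply C0_Iw_zero f M.L hB.len T β (q v) v
    intro u c hu
    apply hβ1
    have h1 : (q v).length ≤ ∑ v ∈ M.L.ball l0, (q v).length :=
      Finset.single_le_sum (f := fun v => (q v).length) (fun _ _ => Nat.zero_le _) ((Len.mem_ball _ _ _).2 hv2)
    omega

end Pool.Agent.SPD
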