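import Pool.Agent.SPD.StF

/-!
# SPD, F10a (helper85): the transposed flow identity, for chains which are far away
-/

set_option autoImplicit false

namespace Pool.Agent.SPD

open Matrix Pool.Agent.CPD

private lemma F10a_mem {X Λ : Type} [Ring Λ] (S : Submodule Λ (X →₀ Λ)) (v : X →₀ Λ)
    (h : ∀ x, v x ≠ 0 → Finsupp.single x 1 ∈ S) : v ∈ S := by
  rw [← Finsupp.sum_single v]
  refine S.sum_mem fun x hx => ?_
  have h1 : Finsupp.single x (v x) = v x • (Finsupp.single x 1 : X →₀ Λ) := by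
    rw [Finsupp.smul_single, smul_eq_mul, mul_one]
  rw [h1]
  exact S.smul_mem _ (h x (Finsupp.mem_support_iff.1 hx))

private lemma F10a_supp {X Λ : Type} [Ring Λ] (F : (X →₀ Λ) →ₗ[Λ] (X →₀ Λ)) (v : X →₀ Λ) (y : X)
    (h : F v y ≠ 0) : ∃ x, v x ≠ 0 ∧ F (Finsupp.single x 1) y ≠ 0 := by
  by_contra hcon
  push Not at hcon
  apply h
  let K : Submodule Λ (X →₀ Λ) := LinearMap.ker ((Finsupp.lapply y) ∘ₗ F)
  have h1 : v ∈ K := by
    apply F10a_mem
    intro x hx
    rw [LinearMap.mem_ker]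
    exact hcon x hx
  exact h1

/-- the pairing as a linear map -/
private noncomputable def F10a_pl {X Λ : Type} [Ring Λ] (f : X → Λ) : (X →₀ Λ) →ₗ[Λ] Λ :=
  Finsupp.linearCombination Λ f

private lemma F10a_pl_eq {X Λ : Type} [Ring Λ] (f : X → Λ) (c : X →₀ Λ) :
    pair c f = F10a_pl f c := rfl

/-- the pairing of the image of a chain -/
private lemma F10a_pair {X Λ : Type} [Ring Λ] (F : (X →₀ Λ) →ₗ[Λ] (X →₀ Λ)) (v : X →₀ Λ)
    (f : X → Λ) : pair (F v) f = pair v (fun x => pair (F (Finsupp.single x 1)) f) := by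
  rw [F10a_pl_eq, F10a_pl_eq]
  induction v using Finsupp.induction_linear with
  | zero => rw [map_zero, map_zero, map_zero]
  | add a b ha hb => rw [map_add, map_add, map_add, ha, hb]
  | single x l =>
    have h1 : Finsupp.single x l = l • (Finsupp.single x 1 : X →₀ Λ) := by
      rw [Finsupp.smul_single, smul_eq_mul, mul_one]
    rw [h1, map_smul, map_smul, map_smul]
    congr 1
    unfold F10a_pl
    rw [Finsupp.linearCombination_single, one_smul]
    rfl

private lemma F10a_congr {X Λ : Type} [Ring Λ] (v : X →₀ Λ) (f g : X → Λ)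
    (h : ∀ x, v x ≠ 0 → f x = g x) : pair v f = pair v g := by
  unfold pair
  refine Finsupp.sum_congr fun x hx => ?_
  rw [h x (Finsupp.mem_support_iff.1 hx)]

private lemma F10a_zero {X Λ : Type} [Ring Λ] (v : X →₀ Λ) (f : X → Λ)
    (h : ∀ x, v x ≠ 0 → f x = 0) : pair v f = 0 := by
  unfold pair
  refine Finset.sum_eq_zero fun x hx => ?_
  show v x * f x = 0
  rw [h x (Finsupp.mem_support_iff.1 hx), mul_zero]

/-- exchanging the roles of two finite chains -/
private lemma F10a_star {X Λ : Type} [Ring Λ] [StarRing Λ] (a v : X →₀ Λ) :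
    a.sum (fun y l => l * star (v y)) = star (pair v (fun y => star (a y))) := by
  classical
  unfold pair
  have e1 : a.sum (fun y l => l * star (v y)) =
      ∑ y ∈ a.support ∪ v.support, a y * star (v y) :=
    Finsupp.sum_of_support_subset a Finset.subset_union_left _ (fun i _ => zero_mul _)
  have e2 : v.sum (fun y l => l * star (a y)) =
      ∑ y ∈ a.support ∪ v.support, v y * star (a y) :=
    Finsupp.sum_of_support_subset v Finset.subset_union_right _ (fun i _ => zero_mul _)
  rw [e1, e2, star_sum]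
  refine Finset.sum_congr rfl fun y _ => ?_
  rw [star_mul, star_star]

private lemma F10a_trunc {G : Type} [Group G] (M : Pk G) {Λ : Type} [Ring Λ] [StarRing Λ] (Q : ℕ)
    (f : G × M.I → Λ) (x : G × M.I) (h : M.L.l x.1 ≤ Q) : trunc M Q f x = f x := by
  unfold trunc
  rw [Finsupp.onFinset_apply]
  exact if_pos h

private lemma F10a_trunc' {G : Type} [Group G] (M : Pk G) {Λ : Type} [Ring Λ] [StarRing Λ] (Q : ℕ)
    (f : G × M.I → Λ) (x : G × M.I) (h : f x = 0) : trunc M Q f x = 0 := by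
  unfold trunc
  rw [Finsupp.onFinset_apply]
  by_cases h' : M.L.l x.1 ≤ Q
  · exact (if_pos h').trans h
  · exact if_neg h'

private lemma F10a_len {G : Type} [Group G] (L : Len G) (g x : G) :
    L.l g ≤ L.l x + L.l (g⁻¹ * x) := by
  have h1 : g = x * (g⁻¹ * x)⁻¹ := by group
  have h2 := L.mul x (g⁻¹ * x)⁻¹
  rw [← h1, L.inv] at h2
  exact h2

private lemma F10a_len' {G : Type} [Group G] (L : Len G) (g x : G) :
    L.l x ≤ L.l g + L.l (g⁻¹ * x) := by
  have h1 : x = g * (g⁻¹ * x) := by group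
  have h2 := L.mul g (g⁻¹ * x)
  rw [← h1] at h2
  exact h2

theorem F10a (h0 : St_F0) (h9 : St_F9) : St_F10a := by
  intro G _ M Λ _ _ T V g0 g1 l H hAdm
  obtain ⟨⟨hFD, hFE, _, _, _, hFDH, hFEH⟩, h7a, _, _⟩ := h0 G M Λ T
  have hgap := hAdm.gap
  have hcu : M.c + 1 = M.u := rfl
  obtain ⟨N2, hN2⟩ : ∃ N2, N2 = l + g1 + 20 * M.u := ⟨_, rfl⟩
  -- supports of the images
  have hsup : ∀ (A : Matrix M.I M.I (ZG G)), Five M A → ∀ (b : Ch M Λ) (z : G × M.I),
      op M T A b z ≠ 0 → ∃ y, b y ≠ 0 ∧ M.L.l (y.1⁻¹ * z.1) ≤ M.c := by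
    intro A hA b z hz
    obtain ⟨y, hy1, hy2⟩ := F10a_supp _ _ _ hz
    exact ⟨y, hy1, hA _ _ _ (h7a A y z hy2)⟩
  -- (1)
  have h1 : ∀ b : Ch M Λ, ∀ z : G × M.I, M.L.l z.1 ≤ g0 + 10 * M.u → tH M H b z = 0 := by
    intro b z hz
    unfold tH
    refine Finset.sum_eq_zero fun y hy => ?_
    show b y * star (H (Finsupp.single z 1) y) = 0
    by_cases h : H (Finsupp.single z 1) y = 0
    · rw [h, star_zero, mul_zero]
    · exfalso
      have h2 := hAdm.flow.src z y h
      omega
  have htH : ∀ (b : Ch M Λ) (z : G × M.I), tH M H b z =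
      star (pair (H (Finsupp.single z 1)) (fun y => star (b y))) := fun b z =>
    F10a_star b _
  refine ⟨N2 + M.u, fun b hb => ?_⟩
  have hb' : ∀ y, b y ≠ 0 → N2 < M.L.l y.1 := fun y hy => by
    have := hb y hy
    omega
  have hbV : ∀ y, b y ≠ 0 → y.1 ∈ V := fun y hy => hAdm.far _ (by
    have := hb' y hy
    omega)
  refine ⟨h1 b, fun Q z hQ => ?_⟩
  obtain ⟨ξ, hξ⟩ : ∃ ξ : Ch M Λ, ξ = trunc M Q (tH M H b) := ⟨_, rfl⟩
  rw [← hξ]
  have hξ0 : ∀ y, ξ y ≠ 0 → g0 + 10 * M.u < M.L.l y.1 := by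
    intro y hy
    by_contra hle
    rw [hξ] at hy
    exact hy (F10a_trunc' M Q _ y (h1 b y (by omega)))
  have hpair : pair (op M T M.E (Finsupp.single z 1)) (fun y => star (b y)) -
      pair (op M T M.D (H (Finsupp.single z 1))) (fun y => star (b y)) -
      pair (H (op M T M.D (Finsupp.single z 1))) (fun y => star (b y)) = 0 := by
    have h2 : pair (op M T M.E (Finsupp.single z 1) - op M T M.D (H (Finsupp.single z 1)) -
        H (op M T M.D (Finsupp.single z 1))) (fun y => star (b y)) = 0 := by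
      apply F10a_zero
      intro y hy
      by_cases h : b y = 0
      · rw [h, star_zero]
      · exfalso
        have h3 := hb' y h
        have h4 := hAdm.flow.ret z y hy
        omega
    simp only [F10a_pl_eq] at h2 ⊢
    rw [map_sub, map_sub] at h2
    exact h2
  have e1 : pair (op M T M.E (Finsupp.single z 1)) (fun y => star (b y)) =
      star (op M T M.Eᴴ b z) :=
    h9 G M Λ T V M.E b z hAdm.good hFE (fun y hy _ => hbV y hy)
  have e3 : pair (op M T M.D (H (Finsupp.single z 1))) (fun y => star (b y)) =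
      star (tH M H (op M T M.Dᴴ b) z) := by
    rw [htH, star_star, F10a_pair]
    apply F10a_congr
    intro v _
    exact h9 G M Λ T V M.D b v hAdm.good hFD (fun y hy _ => hbV y hy)
  have e4 : pair (H (op M T M.D (Finsupp.single z 1))) (fun y => star (b y)) =
      star (op M T M.Dᴴ ξ z) := by
    rw [F10a_pair, ← h9 G M Λ T V M.D ξ z hAdm.good hFD (fun y hy _ => hAdm.far _ (by
      have := hξ0 y hy
      omega))]
    apply F10a_congr
    intro v hv
    have h2 := hFD _ _ _ (h7a M.D z v hv)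
    have h3 := F10a_len' M.L z.1 v.1
    rw [hξ, F10a_trunc M Q _ v (by omega), htH, star_star]
  rw [e1, e3, e4, sub_sub, ← star_add, sub_eq_zero] at hpair
  exact star_injective hpair

end Pool.Agent.SPD
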