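import Pool.Agent.SPD.StF

/-!
# [F11] The outward flow does not come back, and raises the degree by one (helper18)
-/

set_option autoImplicit false

namespace Pool.Agent.SPD

open Matrix Pool.Agent.CPD

private theorem F11_bl {G I Λ : Type} [Group G] [Ring Λ] [StarRing Λ] (T : G → G → unitary Λ)
    (b : G) (c : (G × I) →₀ ℤ) (y : G × I) (h : bl T b c y ≠ 0) : c y ≠ 0 := by
  intro h0
  rw [bl_apply, h0, Int.cast_zero, zero_mul] at h
  exact h rfl

private theorem F11_row {G I Λ : Type} [Group G] [Fintype I] [Ring Λ] [StarRing Λ]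
    (T : G → G → unitary Λ) (A : Matrix I I (ZG G)) (x y : G × I)
    (h : bl T x.1 (row A x) y ≠ 0) : (A x.2 y.2).coeff (x.1⁻¹ * y.1) ≠ 0 := by
  have h1 := F11_bl T x.1 (row A x) y h
  rwa [CPD.row_apply] at h1

private theorem F11_op {G : Type} [Group G] (M : Pk G) {Λ : Type} [Ring Λ] [StarRing Λ]
    (T : G → G → unitary Λ) (A : Matrix M.I M.I (ZG G)) (ξ : Ch M Λ) (y : G × M.I)
    (h : op M T A ξ y ≠ 0) : ∃ z, ξ z ≠ 0 ∧ (A z.2 y.2).coeff (z.1⁻¹ * y.1) ≠ 0 := by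
  unfold op lo at h
  rw [Finsupp.linearCombination_apply, Finsupp.sum, Finsupp.finsetSum_apply] at h
  obtain ⟨z, hz, hne⟩ := Finset.exists_ne_zero_of_sum_ne_zero h
  rw [Finsupp.smul_apply, smul_eq_mul] at hne
  exact ⟨z, left_ne_zero_of_mul hne, F11_row T A z y (right_ne_zero_of_mul hne)⟩

private theorem F11_Ho {G : Type} [Group G] (M : Pk G) {Λ : Type} [Ring Λ] [StarRing Λ]
    (T : G → G → unitary Λ) (H : Ch M Λ →ₗ[Λ] Ch M Λ) (Q : ℕ) (x y : G × M.I)
    (h : Ho M T H Q (Finsupp.single x 1) y ≠ 0) :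
    (M.h x.2 y.2).coeff (x.1⁻¹ * y.1) ≠ 0 ∨
    ∃ z a : G × M.I, (M.Ph z.2 y.2).coeff (z.1⁻¹ * y.1) ≠ 0 ∧
      H (Finsupp.single z 1) a ≠ 0 ∧ (M.Ps x.2 a.2).coeff (x.1⁻¹ * a.1) ≠ 0 := by
  by_cases hh : bl T x.1 (row M.h x) y = 0
  · right
    unfold Ho at h
    rw [Finsupp.linearCombination_single, one_smul, Finsupp.sub_apply, hh, sub_zero] at h
    obtain ⟨z, hz, hzy⟩ := F11_op M T M.Ph _ y h
    have h1 : tH M H (bl T x.1 (row M.Ps x)) z ≠ 0 := by
      intro h0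
      apply hz
      unfold trunc
      rw [Finsupp.onFinset_apply, h0]
      split_ifs <;> rfl
    unfold tH at h1
    rw [Finsupp.sum] at h1
    obtain ⟨a, -, ha⟩ := Finset.exists_ne_zero_of_sum_ne_zero h1
    refine ⟨z, a, hzy, ?_, F11_row T M.Ps x a (left_ne_zero_of_mul ha)⟩
    intro h0
    rw [h0, star_zero, mul_zero] at ha
    exact ha rfl
  · exact Or.inl (F11_row T M.h x y hh)

private theorem F11_len {G : Type} [Group G] (L : Len G) (x y : G) :
    L.l x ≤ L.l y + L.l (x⁻¹ * y) := by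
  have h1 : x = y * (x⁻¹ * y)⁻¹ := by group
  have h2 := L.mul y (x⁻¹ * y)⁻¹
  rw [L.inv, ← h1] at h2
  exact h2

theorem F11 (h0 : St_F0) : St_F11 := by
  intro G _ M Λ _ _ T g1 l H hF
  obtain ⟨-, -, -, f5⟩ := h0 G M Λ T
  constructor
  · intro R
    obtain ⟨n', hn'⟩ := f5 H (R + M.u)
    refine ⟨n' + R + 2 * M.u, fun Q x y hx h => ?_⟩
    by_contra hR
    push Not at hR
    have hu : M.u = M.c + 1 := rfl
    rcases F11_Ho M T H Q x y h with h1 | ⟨z, a, h1, h2, h3⟩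
    · have e1 := M.prop_h _ _ _ h1
      have e2 := F11_len M.L x.1 y.1
      omega
    · have e1 := M.prop_Ph _ _ _ h1
      have e2 := F11_len M.L z.1 y.1
      have e3 := hn' z a (by omega) h2
      have e4 := M.prop_Ps _ _ _ h3
      have e5 := F11_len M.L x.1 a.1
      omega
  · intro Q x y h
    rcases F11_Ho M T H Q x y h with h1 | ⟨z, a, h1, h2, h3⟩
    · refine M.h_deg _ _ fun h0 => h1 ?_
      rw [h0]
      rfl
    · have h4 := hF.deg z a h2
      have e1 := M.Ph_deg z.2 y.2 fun h0 => h1 (by rw [h0]; rfl)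
      have e2 := M.Ps_deg x.2 a.2 fun h0 => h3 (by rw [h0]; rfl)
      omega

end Pool.Agent.SPD
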