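import Pool.Agent.SPD.StF

/-!
# SPD F12 : `E` is absorbed by the outward flow, far away (adapted from `CPD.F12`, helper46)
-/

set_option autoImplicit false

namespace Pool.Agent.SPD

open Matrix Pool.Agent.CPD

section

variable {G : Type} [Group G] (M : Pk G) {Λ : Type} [Ring Λ] [StarRing Λ] (T : G → G → unitary Λ)
  (H : Ch M Λ →ₗ[Λ] Ch M Λ)

private theorem F12_trunc (Q : ℕ) (f : G × M.I → Λ) (x : G × M.I) (h : M.L.l x.1 ≤ Q) :
    trunc M Q f x = f x := by
  unfold trunc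
  rw [Finsupp.onFinset_apply]
  exact if_pos h

private theorem F12_trunc' (Q : ℕ) (f : G × M.I → Λ) (x : G × M.I) (h : ¬ M.L.l x.1 ≤ Q) :
    trunc M Q f x = 0 := by
  unfold trunc
  rw [Finsupp.onFinset_apply]
  exact if_neg h

private theorem F12_tH_add (a b : Ch M Λ) (x : G × M.I) :
    tH M H (a + b) x = tH M H a x + tH M H b x :=
  map_add (Finsupp.linearCombination Λ
    (fun y => star (H (Finsupp.single x 1) y)) : Ch M Λ →ₗ[Λ] Λ) a b

private theorem F12_tH_smul (l : Λ) (a : Ch M Λ) (x : G × M.I) :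
    tH M H (l • a) x = l * tH M H a x :=
  map_smul (Finsupp.linearCombination Λ
    (fun y => star (H (Finsupp.single x 1) y)) : Ch M Λ →ₗ[Λ] Λ) l a

/-- the truncated transposed flow as a linear map -/
private noncomputable def F12_X (Q : ℕ) : Ch M Λ →ₗ[Λ] Ch M Λ where
  toFun a := trunc M Q (tH M H a)
  map_add' a b := by
    ext x
    rw [Finsupp.add_apply]
    by_cases h : M.L.l x.1 ≤ Q
    · rw [F12_trunc M Q _ x h, F12_trunc M Q _ x h, F12_trunc M Q _ x h, F12_tH_add]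
    · rw [F12_trunc' M Q _ x h, F12_trunc' M Q _ x h, F12_trunc' M Q _ x h, add_zero]
  map_smul' l a := by
    ext x
    rw [RingHom.id_apply, Finsupp.smul_apply, smul_eq_mul]
    by_cases h : M.L.l x.1 ≤ Q
    · rw [F12_trunc M Q _ x h, F12_trunc M Q _ x h, F12_tH_smul]
    · rw [F12_trunc' M Q _ x h, F12_trunc' M Q _ x h, mul_zero]

private theorem F12_X_apply (Q : ℕ) (a : Ch M Λ) :
    F12_X M H Q a = trunc M Q (tH M H a) := rfl

private theorem F12_op_single (A : Matrix M.I M.I (ZG G)) (x : G × M.I) :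
    op M T A (Finsupp.single x 1) = bl T x.1 (row A x) := by
  unfold op
  rw [lo_single, one_smul]

private theorem F12_Ho (Q : ℕ) (a : Ch M Λ) : Ho M T H Q a =
    op M T M.Ph (F12_X M H Q (op M T M.Ps a)) - op M T M.h a := by
  have h : Ho M T H Q = op M T M.Ph ∘ₗ F12_X M H Q ∘ₗ op M T M.Ps - op M T M.h := by
    apply Finsupp.lhom_ext'
    intro x
    apply LinearMap.ext_ring
    change Ho M T H Q (Finsupp.single x 1) = op M T M.Ph (F12_X M H Q (op M T M.Ps
      (Finsupp.single x 1))) - op M T M.h (Finsupp.single x 1)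
    rw [F12_op_single, F12_op_single, F12_X_apply]
    unfold Ho
    rw [Finsupp.linearCombination_single, one_smul]
  rw [h]
  rfl

private theorem F12_len (L : Len G) (g x : G) : L.l g ≤ L.l x + L.l (g⁻¹ * x) := by
  have h1 : g = x * (g⁻¹ * x)⁻¹ := by group
  have h2 := L.mul x (g⁻¹ * x)⁻¹
  rw [← h1, L.inv] at h2
  exact h2

end

theorem F12 (h0 : St_F0) (h6 : St_F6) (ha : St_F10a) : St_F12 := by
  intro G _ M Λ _ _ T V g0 g1 l H hAdm
  obtain ⟨N2, hN2⟩ := ha G M Λ T V g0 g1 l H hAdm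
  obtain ⟨⟨_, hFE, hFPs, hFPh, hFh, _, _⟩, h7a, _⟩ := h0 G M Λ T
  obtain ⟨h6a, _, _⟩ := h6 G M Λ T V hAdm.good
  refine ⟨N2 + M.u + g0, fun Q x hx => ?_⟩
  have hcu : M.c + 1 = M.u := rfl
  have hxV : ∀ y : G × M.I, (Finsupp.single x (1 : Λ)) y ≠ 0 → y.1 ∈ V := by
    intro y hy
    have hyx : y = x := by
      by_contra h
      exact hy (Finsupp.single_eq_of_ne h)
    rw [hyx]
    exact hAdm.far _ (by omega)
  have hb : ∀ y, op M T M.Ps (Finsupp.single x 1) y ≠ 0 → N2 < M.L.l y.1 := by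
    intro y hy
    have h1 := hFPs _ _ _ (h7a M.Ps x y hy)
    have h2 := F12_len M.L x.1 y.1
    omega
  have h1 := (hN2 _ hb).1
  set ξ : Ch M Λ := F12_X M H Q (op M T M.Ps (Finsupp.single x 1)) with hξ
  have hξV : ∀ y, ξ y ≠ 0 → y.1 ∈ V := by
    intro y hy
    apply hAdm.far
    by_contra hle
    apply hy
    rw [hξ, F12_X_apply]
    by_cases h : M.L.l y.1 ≤ Q
    · rw [F12_trunc M Q _ y h]
      exact h1 y (by omega)
    · exact F12_trunc' M Q _ y h
  refine ⟨?_, ?_⟩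
  · rw [F12_Ho, map_sub, ← hξ, h6a M.Ph M.E ξ hFPh hFE hξV, M.PhE,
      h6a M.h M.E _ hFh hFE hxV, M.hE]
  · rw [F12_Ho, F12_Ho, h6a M.E M.Ps _ hFE hFPs hxV, M.EPs, h6a M.E M.h _ hFE hFh hxV, M.Eh]

end Pool.Agent.SPD
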