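import Pool.Agent.SPD.StF
import Pool.Agent.CPD.StF

/-!
# SPD, F9: transposition law
-/

set_option autoImplicit false

namespace Pool.Agent.SPD

open Matrix Pool.Agent.CPD

private lemma F9_row {G : Type} [Group G] {I : Type} [Fintype I] (A : Matrix I I (ZG G))
    (x y : G × I) : row Aᴴ y x = row A x y := by
  rw [Pool.Agent.CPD.row_apply, Pool.Agent.CPD.row_apply, Matrix.conjTranspose_apply, star_coeff,
    _root_.mul_inv_rev, inv_inv]

theorem F9 (h1 : Pool.Agent.CPD.St_F1) : St_F9 := by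
  intro G _ M Λ _ _ T V A ξ x hV hA hξ
  classical
  have hL : op M T A (Finsupp.single x 1) = bl T x.1 (row A x) := by
    show lo T (row A) (Finsupp.single x 1) = _
    rw [lo_single, one_smul]
  have hR : op M T Aᴴ ξ x =
      ξ.sum (fun y l => l * (((row Aᴴ y x : ℤ) : Λ) * (T y.1 (y.1⁻¹ * x.1) : Λ))) := by
    show (Finsupp.linearCombination Λ (fun y => bl T y.1 (row Aᴴ y)) ξ) x = _
    rw [Finsupp.linearCombination_apply, Finsupp.sum_apply]
    rfl
  have hterm : ∀ y : G × M.I, bl T x.1 (row A x) y * star (ξ y) =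
      star (ξ y * (((row Aᴴ y x : ℤ) : Λ) * (T y.1 (y.1⁻¹ * x.1) : Λ))) := by
    intro y
    rw [F9_row, bl_apply]
    by_cases hn : row A x y = 0
    · rw [hn, Int.cast_zero, zero_mul, zero_mul, zero_mul, mul_zero, star_zero]
    by_cases hy : ξ y = 0
    · rw [hy, star_zero, mul_zero, zero_mul, star_zero]
    have hc : M.L.l (x.1⁻¹ * y.1) ≤ M.c := by
      rw [Pool.Agent.CPD.row_apply] at hn
      exact hA _ _ _ hn
    have hyV := hξ y hy hc
    have hK : M.L.l (y.1⁻¹ * x.1) ≤ 20 * M.u := by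
      have e1 : y.1⁻¹ * x.1 = (x.1⁻¹ * y.1)⁻¹ := by rw [_root_.mul_inv_rev, inv_inv]
      rw [e1, M.L.inv]
      have e3 : M.u = M.c + 1 := rfl
      rw [e3]
      omega
    have hT := (h1 G M.L M.I Λ T (20 * M.u) y.1 (hV y.1 hyV)).2.2.2 (y.1⁻¹ * x.1) hK
    have e1 : y.1 * (y.1⁻¹ * x.1) = x.1 := mul_inv_cancel_left _ _
    have e2 : (y.1⁻¹ * x.1)⁻¹ = x.1⁻¹ * y.1 := by rw [_root_.mul_inv_rev, inv_inv]
    rw [e1, e2] at hT
    rw [hT, ← Unitary.star_eq_inv, Unitary.coe_star, star_mul, star_mul, star_intCast]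
    rw [(Int.cast_commute (row A x y) (star (T y.1 (y.1⁻¹ * x.1) : Λ))).eq]
  rw [hL, hR]
  unfold pair
  have hs1 : (bl T x.1 (row A x)).sum (fun y l => l * star (ξ y)) =
      ∑ y ∈ (bl T x.1 (row A x)).support ∪ ξ.support, bl T x.1 (row A x) y * star (ξ y) := by
    refine Finsupp.sum_of_support_subset _ Finset.subset_union_left _ ?_
    intro y _
    rw [zero_mul]
  have hs2 : ξ.sum (fun y l => l * (((row Aᴴ y x : ℤ) : Λ) * (T y.1 (y.1⁻¹ * x.1) : Λ))) =
      ∑ y ∈ (bl T x.1 (row A x)).support ∪ ξ.support,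
        ξ y * (((row Aᴴ y x : ℤ) : Λ) * (T y.1 (y.1⁻¹ * x.1) : Λ)) := by
    refine Finsupp.sum_of_support_subset _ Finset.subset_union_right _ ?_
    intro y _
    rw [zero_mul]
  rw [hs1, hs2, star_sum]
  exact Finset.sum_congr rfl fun y _ => hterm y

end Pool.Agent.SPD
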