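import Pool.Agent.SPD.StK
import Pool.Agent.SPD.StW

/-!
# [FIN] the theorem (helper67)
-/

set_option autoImplicit false

namespace Pool.Agent.SPD

open Matrix Pool.Agent.CPD

private theorem FIN_hol {G α π ρ : Type} [Group G] [Group π] [Group ρ] (f : α → G)
    (φ : π →* ρ) (T : G → G → π) (w : List (α × Bool)) : ∀ v : G,
    hol f (lab f (mapT φ T)) v w = φ (hol f (lab f T) v w) := by
  induction w with
  | nil =>
    intro v
    have h1 : hol f (lab f (mapT φ T)) v [] = 1 := rfl
    have h2 : hol f (lab f T) v [] = 1 := rfl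
    rw [h1, h2, map_one]
  | cons a w ih =>
    intro v
    have h1 : hol f (lab f (mapT φ T)) v (a :: w) =
      φ (T v (letter f a)) * hol f (lab f (mapT φ T)) (v * letter f a) w := rfl
    have h2 : hol f (lab f T) v (a :: w) =
      T v (letter f a) * hol f (lab f T) (v * letter f a) w := rfl
    rw [h1, h2, ih, map_mul]

/-- see `St_FIN` -/
theorem FIN (hE4 : CPD.St_E4) (hW0 : St_W0) (hW2 : St_W2) (hW7 : St_W7) (hW8 : St_W8)
    (hW9 : St_W9) (hFL : St_FL) (hTT : St_TT) (hK2 : St_K2) (hK3 : St_K3) : St_FIN := by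
  intro G _ hPD α _ f R hRf hP hSS hFG
  rcases finite_or_infinite G with hG | hG
  · intro K _
    refine ⟨Set.univ, Set.finite_univ, Set.subset_univ K, ?_⟩
    intro g w _ hav
    exact absurd (Set.mem_univ _) (hav 0 (Nat.zero_le _))
  obtain ⟨D⟩ := hE4 G hPD
  obtain ⟨L, hL⟩ := hW2 G α f R ⟨D⟩ hRf hP
  obtain ⟨M, rfl⟩ := hK3.2 G D L
  have hSt : StrongSemistable f R := hW9 G α f R M.L hL hSS
  intro K hK
  obtain ⟨N, hN⟩ : ∃ N : ℕ, ∀ v ∈ K, M.L.l v ≤ N := by
    obtain ⟨N, hN⟩ := (hK.image M.L.l).bddAbove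
    exact ⟨N, fun v hv => hN ⟨v, hv, rfl⟩⟩
  obtain ⟨π, _, T, n0, hT⟩ := hW7 G α f R M.L hL hSt hFG N
  obtain ⟨N1, hN1⟩ := hTT G α π f R M N n0 T hL hT
  obtain ⟨π', _, T', n0', hT'⟩ := hW7 G α f R M.L hL hSt hFG (max N1 n0)
  obtain ⟨φ, m1, hm1, hφ⟩ := hW8 G α π π' f R M.L N n0 (max N1 n0) n0' T T' hL hT hT'
    (le_max_right _ _)
  have hflow := hFL G α π' f R M (max N1 n0) n0' T' hL hSt hT'
  have htor : Tor φ := by
    intro y t k hk hyt hord
    exact hN1 (max N1 n0) n0' π' T' φ m1 (le_max_left _ _) hT' (fun v hv => hφ v hv) y t k hk hyt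
      hord
  have htriv : TrivAtInf M.L (mapT φ T') := hK2 G M π' π φ T' hT'.als hflow htor
  obtain ⟨D1, hD1f, hD1⟩ := htriv 1
  obtain ⟨h01, h02, h03, h04, h05, h06, h07, h08, h09⟩ := hW0 G α f
  have hball : ∀ n : ℕ, (Bl M.L n).Finite := fun n => M.L.fin n
  refine ⟨D1 ∪ Bl M.L m1 ∪ K ∪ Bl M.L n0, ((hD1f.union (hball m1)).union hK).union (hball n0),
    ?_, ?_⟩
  · intro x hx
    exact Or.inl (Or.inr hx)
  intro v w hw hav
  have hav1 : Avoids f D1 v w := h07 _ _ v w (fun x hx => Or.inl (Or.inl (Or.inl hx))) hav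
  have havm : Avoids f (Bl M.L m1) v w :=
    h07 _ _ v w (fun x hx => Or.inl (Or.inl (Or.inr hx))) hav
  have havn : Avoids f (Bl M.L n0) v w := h07 _ _ v w (fun x hx => Or.inr hx) hav
  -- the holonomy over `π`
  have htr : hol f (lab f (mapT φ T')) v w = 1 := by
    rw [← hK3.1 G α π f (mapT φ T') v w]
    refine hD1 w.length (fun i => v * value f (w.take i)) ?_ ?_ ?_
    · show v * value f (w.take 0) = v * value f (w.take w.length)
      rw [List.take_length, hw, List.take_zero]
      rfl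
    · intro i hi
      exact hav1 i hi
    · intro i hi
      have h4 : (v * value f (w.take i))⁻¹ * (v * value f (w.take (i + 1))) = letter f w[i] := by
        simp only [value]
        rw [← List.take_concat_get' w i hi, List.map_append, List.prod_append]
        simp only [List.map_cons, List.map_nil, List.prod_cons, List.prod_nil, mul_one]
        group
      show M.L.l ((v * value f (w.take i))⁻¹ * (v * value f (w.take (i + 1)))) ≤ 1
      rw [h4]
      exact hL.len _
  rw [FIN_hol] at htr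
  have hvm : m1 < M.L.l v := by
    by_contra hc
    exact (h08 _ v w havm).1 (not_lt.1 hc)
  obtain ⟨g, hg⟩ := hφ v hvm
  have h5 := hg w hw havm
  rw [htr] at h5
  have h6 : hol f (lab f T) v w = 1 := by
    have h7 : hol f (lab f T) v w = g⁻¹ * (g * hol f (lab f T) v w * g⁻¹) * g := by group
    rw [h7, ← h5]
    group
  exact h09 K (Bl M.L N) R v w [] (fun x hx => hN x hx) (hT.faith v w hw havn h6)

end Pool.Agent.SPD
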