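import Pool.Agent.SPD.StC

/-!
# SPD, module FL (MP_d2e046_gt): the flow
-/

set_option autoImplicit false

namespace Pool.Agent.SPD

open Matrix Pool.Agent.CPD

private theorem FL_len {G : Type} [Group G] (L : Len G) (g x : G) :
    L.l g ≤ L.l x + L.l (g⁻¹ * x) := by
  have h1 : g = x * (g⁻¹ * x)⁻¹ := by group
  have h2 := L.mul x (g⁻¹ * x)⁻¹
  rw [← h1, L.inv] at h2
  exact h2

private theorem FL_good {G π : Type} [Group G] [Group π] (L : Len G) (T : G → G → π)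
    (hT : IsALS T) (K : ℕ) : ∃ g : ℕ, ∀ v, g < L.l v → GoodT L T K v := by
  have h1 : ∀ᶠ v in Filter.cofinite, ∀ h ∈ L.ball K, ∀ h' ∈ L.ball K,
      T v h * T (v * h) h' = T v (h * h') := by
    rw [Filter.eventually_all_finset]
    intro h _
    rw [Filter.eventually_all_finset]
    intro h' _
    exact hT h h'
  rw [Filter.eventually_cofinite] at h1
  obtain ⟨g, hg⟩ := (h1.image L.l).bddAbove
  refine ⟨g, fun v hv h h' hh hh' => ?_⟩
  by_contra hne
  have h2 : L.l v ≤ g := by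
    apply hg
    refine ⟨v, ?_, rfl⟩
    intro hall
    exact hne (hall h ((L.mem_ball K h).2 hh) h' ((L.mem_ball K h').2 hh'))
  omega

section

variable {G π : Type} [Group G] [Group π] {M : Pk G} {T : G → G → π}

private theorem FL_lin {W : Type} [AddCommGroup W] [Module (ZG π) W]
    (Φ : Ch M (ZG π) →ₗ[ZG π] W) (c : Ch M (ZG π)) :
    Φ c = c.sum fun z a => a • Φ (Finsupp.single z 1) := by
  conv_lhs => rw [← Finsupp.sum_single c]
  rw [Finsupp.sum, map_sum, Finsupp.sum]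
  refine Finset.sum_congr rfl fun z _ => ?_
  rw [← map_smul, Finsupp.smul_single, smul_eq_mul, mul_one]

/-- a nonzero coefficient of `Φ c` comes from a cell of `c` -/
private theorem FL_supp (Φ : Ch M (ZG π) →ₗ[ZG π] Ch M (ZG π)) (c : Ch M (ZG π)) (y : G × M.I)
    (h : Φ c y ≠ 0) : ∃ z, c z ≠ 0 ∧ Φ (Finsupp.single z 1) y ≠ 0 := by
  rw [FL_lin Φ c, Finsupp.sum, Finsupp.finsetSum_apply] at h
  obtain ⟨z, hz, h1⟩ := Finset.exists_ne_zero_of_sum_ne_zero h
  refine ⟨z, Finsupp.mem_support_iff.1 hz, fun h2 => h1 ?_⟩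
  rw [Finsupp.smul_apply, h2, smul_zero]

private theorem FL_mem {W : Type} [AddCommGroup W] [Module (ZG π) W]
    (Φ : Ch M (ZG π) →ₗ[ZG π] W) (Y : Submodule (ZG π) W) (c : Ch M (ZG π))
    (h : ∀ z, c z ≠ 0 → Φ (Finsupp.single z 1) ∈ Y) : Φ c ∈ Y := by
  rw [FL_lin Φ c, Finsupp.sum]
  exact Submodule.sum_mem _ fun z hz => Submodule.smul_mem _ _ (h z (Finsupp.mem_support_iff.1 hz))

/-- chains supported in the ball of radius `l` -/
private def FL_Y (M : Pk G) (π : Type) [Group π] (l : ℕ) : Submodule (ZG π) (Ch M (ZG π)) where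
  carrier := {y | ∀ x, y x ≠ 0 → M.L.l x.1 ≤ l}
  zero_mem' := by
    intro x hx
    exact absurd rfl hx
  add_mem' := by
    intro a b ha hb x hx
    by_cases h : a x = 0
    · refine hb x fun h2 => hx ?_
      rw [Finsupp.add_apply, h, h2, add_zero]
    · exact ha x h
  smul_mem' := by
    intro r a ha x hx
    refine ha x fun h2 => hx ?_
    rw [Finsupp.smul_apply, h2, smul_zero]

private theorem FL_goodV {g0 : ℕ} (hg : ∀ v, g0 < M.L.l v → GoodT M.L T (20 * M.u) v) :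
    GoodV M (Λ := ZG π) (tw T) {v | g0 < M.L.l v} := by
  intro v hv h h' hh hh'
  show uhom π (T v h) * uhom π (T (v * h) h') = uhom π (T v (h * h'))
  rw [← map_mul, hg v hv h h' hh hh']

/-- the chain `w = E x - H (D x)` for a `PFlow` -/
private theorem FL_w (hF0 : St_F0) (hF6 : St_F6) {g0 : ℕ}
    (hg : ∀ v, g0 < M.L.l v → GoodT M.L T (20 * M.u) v) {i g l : ℕ}
    {H : Ch M (ZG π) →ₗ[ZG π] Ch M (ZG π)} (hP : PFlow M T i g l H) (x : G × M.I)
    (hx : M.deg x.2 = i) (hlen : g0 + 10 * M.u < M.L.l x.1) (w : Ch M (ZG π))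
    (hw : w = opT M T M.E (Finsupp.single x 1) - H (opT M T M.D (Finsupp.single x 1))) :
    (∀ b, b + M.u ≤ M.L.l x.1 → b ≤ g → ∀ y, w y ≠ 0 → M.deg y.2 = i ∧ b < M.L.l y.1) ∧
    opT M T M.E w = w ∧
    ∀ Y : Submodule (ZG π) (Ch M (ZG π)),
      (∀ z : G × M.I, M.deg z.2 + 1 = i → M.L.l x.1 ≤ M.L.l z.1 + M.c →
        opT M T M.E (Finsupp.single z 1) - opT M T M.D (H (Finsupp.single z 1)) -
          H (opT M T M.D (Finsupp.single z 1)) ∈ Y) → opT M T M.D w ∈ Y := by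
  have hu : M.u = M.c + 1 := rfl
  obtain ⟨hfive, hsup, -, -⟩ := hF0 G M (ZG π) (tw T)
  obtain ⟨hfD, hfE, -⟩ := hfive
  obtain ⟨hcomp, -, hzero⟩ := hF6 G M (ZG π) (tw T) {v | g0 < M.L.l v} (FL_goodV hg)
  -- the cells of `D x`
  have hDx : ∀ z, opT M T M.D (Finsupp.single x 1) z ≠ 0 →
      M.deg z.2 + 1 = i ∧ M.L.l x.1 ≤ M.L.l z.1 + M.c := by
    intro z hz
    have h1 := hsup M.D x z hz
    have h2 : M.D x.2 z.2 ≠ 0 := by
      intro h
      apply h1
      rw [h]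
      rfl
    have h3 := M.resP.D_deg _ _ h2
    have h4 := FL_len M.L x.1 z.1
    have h5 := M.prop_D _ _ _ h1
    exact ⟨by rw [← h3, hx], by omega⟩
  have hxV : ∀ y : G × M.I, (Finsupp.single x (1 : ZG π)) y ≠ 0 → y.1 ∈ {v | g0 < M.L.l v} := by
    intro y hy
    have h1 : x = y := by
      by_contra h
      exact hy (Finsupp.single_eq_of_ne (Ne.symm h))
    rw [← h1]
    show g0 < M.L.l x.1
    omega
  have hEE : opT M T M.E (opT M T M.E (Finsupp.single x 1)) = opT M T M.E (Finsupp.single x 1) := by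
    have h1 := hcomp M.E M.E (Finsupp.single x 1) hfE hfE hxV
    rw [M.resP.EE] at h1
    exact h1
  have hED : opT M T M.D (opT M T M.E (Finsupp.single x 1)) = opT M T M.D (Finsupp.single x 1) := by
    have h1 := hcomp M.E M.D (Finsupp.single x 1) hfE hfD hxV
    rw [M.resP.ED] at h1
    exact h1
  have hDE : opT M T M.E (opT M T M.D (Finsupp.single x 1)) = opT M T M.D (Finsupp.single x 1) := by
    have h1 := hcomp M.D M.E (Finsupp.single x 1) hfD hfE hxV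
    rw [M.resP.DE] at h1
    exact h1
  have hDD : opT M T M.D (opT M T M.D (Finsupp.single x 1)) = 0 := by
    have h1 := hcomp M.D M.D (Finsupp.single x 1) hfD hfD hxV
    rw [M.resP.DD] at h1
    rw [← hzero (Finsupp.single x 1)]
    exact h1
  refine ⟨?_, ?_, ?_⟩
  · intro b hb hbg y hy
    by_cases h1 : opT M T M.E (Finsupp.single x 1) y = 0
    · have h2 : H (opT M T M.D (Finsupp.single x 1)) y ≠ 0 := by
        intro h2
        apply hy
        rw [hw, Finsupp.sub_apply, h1, h2, sub_zero]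
      obtain ⟨z, hz, hz2⟩ := FL_supp H _ y h2
      have h3 := hDx z hz
      have h4 := hP.deg z y hz2
      have h5 := hP.tgt z y hz2
      exact ⟨by omega, by omega⟩
    · have h2 := hsup M.E x y h1
      have h3 : M.E x.2 y.2 ≠ 0 := by
        intro h
        apply h2
        rw [h]
        rfl
      have h4 := M.resP.E_deg _ _ h3
      have h5 := FL_len M.L x.1 y.1
      have h6 := M.prop_E _ _ _ h2
      exact ⟨by rw [← h4, hx], by omega⟩
  · rw [hw, map_sub, hEE]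
    congr 1
    have h1 : (opT M T M.E ∘ₗ H - H) (opT M T M.D (Finsupp.single x 1)) ∈
        (⊥ : Submodule (ZG π) (Ch M (ZG π))) := by
      refine FL_mem _ _ _ fun z _ => ?_
      rw [Submodule.mem_bot, LinearMap.sub_apply, LinearMap.comp_apply, hP.EH, sub_self]
    rw [Submodule.mem_bot, LinearMap.sub_apply, LinearMap.comp_apply, sub_eq_zero] at h1
    exact h1
  · intro Y hY
    have h1 : (opT M T M.E - opT M T M.D ∘ₗ H - H ∘ₗ opT M T M.D)
        (opT M T M.D (Finsupp.single x 1)) ∈ Y := by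
      refine FL_mem _ _ _ fun z hz => ?_
      obtain ⟨h2, h3⟩ := hDx z hz
      exact hY z h2 h3
    have h2 : (opT M T M.E - opT M T M.D ∘ₗ H - H ∘ₗ opT M T M.D)
        (opT M T M.D (Finsupp.single x 1)) = opT M T M.D w := by
      rw [LinearMap.sub_apply, LinearMap.sub_apply, LinearMap.comp_apply, LinearMap.comp_apply,
        hDE, hDD, map_zero, sub_zero, hw, map_sub, hED]
    rw [← h2]
    exact h1

private theorem FL_mono {i g g' l : ℕ} {H : Ch M (ZG π) →ₗ[ZG π] Ch M (ZG π)}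
    (hP : PFlow M T i g l H) (h : g' ≤ g) : PFlow M T i g' l H :=
  ⟨hP.low, hP.deg, fun x y hy => h.trans_lt (hP.src x y hy),
    fun x y hy => h.trans_lt (hP.tgt x y hy), hP.EH, hP.HE, hP.ret⟩

end

theorem FL (hL1 : St_L1) (hF0 : St_F0) (hF6 : St_F6) (hP0 : St_P0) (hP1 : St_P1) (hP2 : St_P2)
    (hP3 : St_P3) (hFS : St_FS) : St_FL := by
  intro G α π _ _ f Rel M N n0 T hB hSS hL g1'
  have hu : M.u = M.c + 1 := rfl
  obtain ⟨R0, hR0⟩ := hL1 G M
  obtain ⟨R1, hR1⟩ : ∃ R1, ∀ r ∈ Rel, r.length ≤ R1 := by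
    obtain ⟨b, hb⟩ := (hB.Rfin.image List.length).bddAbove
    exact ⟨b, fun r hr => hb ⟨r, hr, rfl⟩⟩
  obtain ⟨𝓛⟩ := hR0 (max R0 R1) (le_max_left _ _)
  obtain ⟨gk, hgk⟩ := FL_good M.L T hL.als 𝓛.kap
  obtain ⟨g0, hg0⟩ : ∃ g0, g0 = max n0 gk := ⟨_, rfl⟩
  have hg0n : n0 ≤ g0 := by rw [hg0]; exact le_max_left _ _
  have hgood : ∀ v, g0 < M.L.l v → GoodT M.L T 𝓛.kap v := fun v hv =>
    hgk v (lt_of_le_of_lt (by rw [hg0]; exact le_max_right _ _) hv)
  have hgood20 : ∀ v, g0 < M.L.l v → GoodT M.L T (20 * M.u) v := by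
    intro v hv h h' hh hh'
    have hk : 20 * M.u ≤ 𝓛.kap := Nat.le_add_left _ _
    exact hgood v hv h h' (hh.trans hk) (hh'.trans hk)
  have hDat : ∀ n, g0 ≤ n → Dat f Rel M 𝓛 N n0 n T := fun n hn =>
    ⟨hB, fun r hr => (hR1 r hr).trans (le_max_right _ _), hL, hg0n.trans hn,
      fun v hv => hgood v (hn.trans_lt hv)⟩
  obtain ⟨g1, hg1⟩ : ∃ g1, g1 = max g1' (g0 + 100 * M.u) := ⟨_, rfl⟩
  have hg11 : g1' ≤ g1 := by rw [hg1]; exact le_max_left _ _
  have hg10 : g0 + 100 * M.u ≤ g1 := by rw [hg1]; exact le_max_right _ _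
  -- the constants
  obtain ⟨n4, hn4, hP1'⟩ := hP1 G α π f Rel M _ 𝓛 N n0 (g1 + 20 * M.u) T (hDat _ (by omega))
  obtain ⟨a0, ha0⟩ : ∃ a0, a0 = n4 + (g1 + 20 * M.u) + 10 * M.u := ⟨_, rfl⟩
  obtain ⟨n3, hn3, hP0'⟩ := hP0 G α π f Rel M _ 𝓛 N n0 a0 T (hDat _ (by omega))
  obtain ⟨a, ha⟩ : ∃ a : G, n3 + n4 < M.L.l a := by
    by_contra hcon
    push Not at hcon
    have := hB.inf
    have h1 : (Set.univ : Set G).Finite := (M.L.fin (n3 + n4)).subset fun x _ => hcon x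
    exact Set.infinite_univ h1
  obtain ⟨lP1, hP1''⟩ := hP1' a (by omega)
  obtain ⟨l0, hl0⟩ : ∃ l0, ∀ x, (sh M T a 𝓛.o) x ≠ 0 → M.L.l x.1 ≤ l0 := by
    classical
    obtain ⟨b, hb⟩ := Finset.exists_le ((sh M T a 𝓛.o).support.image fun x => M.L.l x.1)
    exact ⟨b, fun x hx => hb _ (Finset.mem_image_of_mem _ (Finsupp.mem_support_iff.2 hx))⟩
  -- degree zero
  have hPF0 : PFlow M T 0 a0 0 (0 : Ch M (ZG π) →ₗ[ZG π] Ch M (ZG π)) :=
    ⟨fun x y h => absurd rfl h, fun x y h => absurd rfl h, fun x y h => absurd rfl h,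
      fun x y h => absurd rfl h, fun x => by rw [LinearMap.zero_apply, map_zero],
      fun x => by rw [LinearMap.zero_apply, LinearMap.zero_apply],
      fun x y h => absurd h (Nat.not_lt_zero _)⟩
  obtain ⟨H1, l1, hH1, hY1⟩ := hFS G π M T g0 a0 0 0 (n3 + a0 + 10 * M.u) l0 0
    (Submodule.span (ZG π) {sh M T a 𝓛.o}) hgood20 (by omega) (by omega) hPF0
    (by
      intro y hy x hx
      obtain ⟨μ, rfl⟩ := Submodule.mem_span_singleton.1 hy
      refine hl0 x fun h => hx ?_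
      rw [Finsupp.smul_apply, h, smul_zero])
    (by
      intro x hx hlen
      obtain ⟨z, μ, h1, h2, h3⟩ := hP0' a (by omega) x.1 x.2 (by omega) hx
      refine ⟨z, fun y hy => h1 y hy, h2, ?_⟩
      rw [LinearMap.zero_apply, sub_zero]
      have h4 : ((x.1, x.2) : G × M.I) = x := rfl
      rw [h4] at h3
      rw [h3]
      exact Submodule.smul_mem _ _ (Submodule.mem_span_singleton_self _))
  -- degree one
  obtain ⟨H2, l2, hH2, -⟩ := hFS G π M T g0 (g1 + 20 * M.u) 1 l1 (n3 + a0 + 20 * M.u) lP1 H1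
    (FL_Y M π lP1) hgood20 (by omega) (by omega) (FL_mono hH1 (by omega)) (fun y hy => hy)
    (by
      intro x hx hlen
      obtain ⟨w, hw⟩ : ∃ w, w = opT M T M.E (Finsupp.single x 1) -
        H1 (opT M T M.D (Finsupp.single x 1)) := ⟨_, rfl⟩
      obtain ⟨hw1, hw2, hw3⟩ := FL_w hF0 hF6 hgood20 hH1 x hx (by omega) w hw
      have h4 := hw3 (Submodule.span (ZG π) {sh M T a 𝓛.o}) (fun z hz hz2 =>
        hY1 z (by omega) (by omega))
      obtain ⟨μ, hμ⟩ := Submodule.mem_span_singleton.1 h4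
      obtain ⟨z, hz1, hz2, hz3⟩ := hP1'' w μ (fun y hy => hw1 n4 (by omega) (by omega) y hy) hw2
        hμ.symm
      refine ⟨z, hz1, hz2, ?_⟩
      rw [← hw]
      exact hz3)
  -- degree two
  obtain ⟨lP2, hP2'⟩ := hP2 G α π f Rel M _ 𝓛 N n0 (g1 + 10 * M.u) T (hDat _ (by omega)) hSS l2
  obtain ⟨H3, l3, hH3, -⟩ := hFS G π M T g0 (g1 + 10 * M.u) 2 l2 (n3 + a0 + 30 * M.u) lP2 H2
    (FL_Y M π lP2) hgood20 (by omega) (by omega) (FL_mono hH2 (by omega)) (fun y hy => hy)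
    (by
      intro x hx hlen
      obtain ⟨w, hw⟩ : ∃ w, w = opT M T M.E (Finsupp.single x 1) -
        H2 (opT M T M.D (Finsupp.single x 1)) := ⟨_, rfl⟩
      obtain ⟨hw1, hw2, hw3⟩ := FL_w hF0 hF6 hgood20 hH2 x hx (by omega) w hw
      have h4 := hw3 (FL_Y M π l2) (fun z hz hz2 y hy => hH2.ret z y (by omega) hy)
      obtain ⟨z, hz1, hz2, hz3⟩ := hP2' w
        (fun y hy => hw1 (g1 + 10 * M.u + 5 * M.u) (by omega) (by omega) y hy) hw2 h4
      refine ⟨z, hz1, hz2, ?_⟩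
      rw [← hw]
      exact hz3)
  -- degree three
  obtain ⟨lP3, hP3'⟩ := hP3 G α π f Rel M _ 𝓛 N n0 g1 T (hDat _ (by omega)) l3
  obtain ⟨H4, l4, hH4, -⟩ := hFS G π M T g0 g1 3 l3 (n3 + a0 + 40 * M.u) lP3 H3
    (FL_Y M π lP3) hgood20 (by omega) (by omega) (FL_mono hH3 (by omega)) (fun y hy => hy)
    (by
      intro x hx hlen
      obtain ⟨w, hw⟩ : ∃ w, w = opT M T M.E (Finsupp.single x 1) -
        H3 (opT M T M.D (Finsupp.single x 1)) := ⟨_, rfl⟩
      obtain ⟨hw1, hw2, hw3⟩ := FL_w hF0 hF6 hgood20 hH3 x hx (by omega) w hw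
      have h4 := hw3 (FL_Y M π l3) (fun z hz hz2 y hy => hH3.ret z y (by omega) hy)
      have h5 := hP3' w
        (fun y hy => hw1 (g1 + 5 * M.u) (by omega) (by omega) y hy) hw2 h4
      refine ⟨0, fun y hy => absurd rfl hy, map_zero _, ?_⟩
      rw [map_zero, sub_zero, ← hw]
      exact h5)
  -- the flow
  refine ⟨l4, H4, ⟨hH4.deg, fun x y hy => lt_of_le_of_lt hg11 (hH4.src x y hy),
    fun x y hy => lt_of_le_of_lt hg11 (hH4.tgt x y hy), hH4.EH, hH4.HE, fun x y hy => ?_⟩⟩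
  exact hH4.ret x y (Nat.lt_succ_of_le (M.deg_le x.2)) hy

end Pool.Agent.SPD
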