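import Pool.Agent.SPD.StC

/-!
# The inductive step for flows on cells of small degree
-/

set_option autoImplicit false

namespace Pool.Agent.SPD

open Matrix Pool.Agent.CPD

/-- A linear map is determined on a chain by its values on the cells. -/
private theorem FS_sum {Λ X : Type} [Ring Λ] (L : (X →₀ Λ) →ₗ[Λ] (X →₀ Λ)) (c : X →₀ Λ) :
    L c = c.sum (fun z a => a • L (Finsupp.single z 1)) := by
  conv_lhs => rw [← Finsupp.sum_single c]
  rw [Finsupp.sum, map_sum, Finsupp.sum]
  refine Finset.sum_congr rfl fun z _ => ?_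
  rw [← map_smul, Finsupp.smul_single, smul_eq_mul, mul_one]

private theorem FS_mem {Λ X : Type} [Ring Λ] (L : (X →₀ Λ) →ₗ[Λ] (X →₀ Λ)) (c : X →₀ Λ)
    (Y : Submodule Λ (X →₀ Λ)) (h : ∀ z, c z ≠ 0 → L (Finsupp.single z 1) ∈ Y) : L c ∈ Y := by
  rw [FS_sum L c, Finsupp.sum]
  exact Y.sum_mem fun z hz => Y.smul_mem _ (h z (Finsupp.mem_support_iff.mp hz))

private theorem FS_zero {Λ X : Type} [Ring Λ] (L : (X →₀ Λ) →ₗ[Λ] (X →₀ Λ)) (c : X →₀ Λ)
    (h : ∀ z, c z ≠ 0 → L (Finsupp.single z 1) = 0) : L c = 0 := by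
  have h1 := FS_mem L c ⊥ (fun z hz => (Submodule.mem_bot Λ).mpr (h z hz))
  exact (Submodule.mem_bot Λ).mp h1

private theorem FS_ne {Λ X : Type} [Ring Λ] (L : (X →₀ Λ) →ₗ[Λ] (X →₀ Λ)) (c : X →₀ Λ) (y : X)
    (h : L c y ≠ 0) : ∃ z, c z ≠ 0 ∧ L (Finsupp.single z 1) y ≠ 0 := by
  by_contra hc
  push Not at hc
  refine h ?_
  rw [FS_sum L c, Finsupp.sum, Finsupp.finsetSum_apply]
  refine Finset.sum_eq_zero fun z hz => ?_
  rw [Finsupp.smul_apply, hc z (Finsupp.mem_support_iff.mp hz), smul_zero]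

private theorem FS_lin {Λ X : Type} [Ring Λ] (L L' : (X →₀ Λ) →ₗ[Λ] (X →₀ Λ))
    (h : ∀ z, L (Finsupp.single z 1) = L' (Finsupp.single z 1)) (c : X →₀ Λ) : L c = L' c := by
  rw [FS_sum L c, FS_sum L' c, Finsupp.sum, Finsupp.sum]
  exact Finset.sum_congr rfl fun z _ => by rw [h z]

theorem FS (hF0 : St_F0) (hF6 : St_F6) : St_FS := by
  intro G π _ _ M T g0 g1 i l thr l' H Y hgood hg hthr hP hY hex
  classical
  have hu : M.u = M.c + 1 := rfl
  obtain ⟨-, hsup, -, hfin⟩ := hF0 G M (ZG π) (tw T)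
  -- good vertices
  have hV : GoodV M (tw T) {v : G | g0 < M.L.l v} := by
    intro v hv h h' h1 h2
    show uhom π (T v h) * uhom π (T (v * h) h') = uhom π (T v (h * h'))
    rw [← map_mul, hgood v hv h h' h1 h2]
  obtain ⟨hcomp, -, -⟩ := hF6 G M (ZG π) (tw T) _ hV
  -- supports of `E` and `D`
  have hlen : ∀ x y : G × M.I, M.L.l (x.1⁻¹ * y.1) ≤ M.c →
      M.L.l y.1 ≤ M.L.l x.1 + M.c ∧ M.L.l x.1 ≤ M.L.l y.1 + M.c := by
    intro x y hxy
    constructor
    · have h1 := M.L.mul x.1 (x.1⁻¹ * y.1)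
      rw [mul_inv_cancel_left] at h1
      omega
    · have h1 := M.L.mul y.1 (x.1⁻¹ * y.1)⁻¹
      have h2 : y.1 * (x.1⁻¹ * y.1)⁻¹ = x.1 := by group
      rw [h2, M.L.inv] at h1
      omega
  have hE : ∀ x y : G × M.I, opT M T M.E (Finsupp.single x 1) y ≠ 0 →
      M.deg y.2 = M.deg x.2 ∧ M.L.l y.1 ≤ M.L.l x.1 + M.c ∧ M.L.l x.1 ≤ M.L.l y.1 + M.c := by
    intro x y hxy
    have h1 := hsup M.E x y hxy
    refine ⟨?_, hlen x y (M.prop_E _ _ _ h1)⟩
    refine (M.resP.E_deg x.2 y.2 ?_).symm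
    intro h0
    rw [h0] at h1
    exact h1 rfl
  have hD : ∀ x y : G × M.I, opT M T M.D (Finsupp.single x 1) y ≠ 0 →
      M.deg x.2 = M.deg y.2 + 1 := by
    intro x y hxy
    have h1 := hsup M.D x y hxy
    refine M.resP.D_deg x.2 y.2 ?_
    intro h0
    rw [h0] at h1
    exact h1 rfl
  have hsx : ∀ (x : G × M.I), g0 < M.L.l x.1 →
      ∀ y, (Finsupp.single x (1 : ZG π)) y ≠ 0 → y.1 ∈ {v : G | g0 < M.L.l v} := by
    intro x hx y hy
    have : x = y := by
      by_contra hne
      exact hy (Finsupp.single_eq_of_ne (Ne.symm hne))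
    rw [← this]
    exact hx
  have hEE : ∀ x : G × M.I, g0 < M.L.l x.1 →
      opT M T M.E (opT M T M.E (Finsupp.single x 1)) = opT M T M.E (Finsupp.single x 1) := by
    intro x hx
    have h1 := hcomp M.E M.E (Finsupp.single x 1) M.prop_E M.prop_E (hsx x hx)
    rw [M.resP.EE] at h1
    exact h1
  have hDE : ∀ x : G × M.I, g0 < M.L.l x.1 →
      opT M T M.D (opT M T M.E (Finsupp.single x 1)) = opT M T M.D (Finsupp.single x 1) := by
    intro x hx
    have h1 := hcomp M.E M.D (Finsupp.single x 1) M.prop_E M.prop_D (hsx x hx)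
    rw [M.resP.ED] at h1
    exact h1
  -- the new cells
  let h' : G × M.I → Ch M (ZG π) := fun x =>
    if hx : M.deg x.2 = i ∧ thr < M.L.l x.1 then Classical.choose (hex x hx.1 hx.2) else 0
  have h'pos : ∀ x : G × M.I, M.deg x.2 = i → thr < M.L.l x.1 →
      (∀ y, h' x y ≠ 0 → M.deg y.2 = i + 1 ∧ g1 < M.L.l y.1) ∧ opT M T M.E (h' x) = h' x ∧
      opT M T M.E (Finsupp.single x 1) - H (opT M T M.D (Finsupp.single x 1)) -
        opT M T M.D (h' x) ∈ Y := by
    intro x h1 h2
    have h3 : h' x = Classical.choose (hex x h1 h2) := dif_pos ⟨h1, h2⟩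
    rw [h3]
    exact Classical.choose_spec (hex x h1 h2)
  have h'neg : ∀ x : G × M.I, ¬ (M.deg x.2 = i ∧ thr < M.L.l x.1) → h' x = 0 :=
    fun x hx => dif_neg hx
  let K : Ch M (ZG π) →ₗ[ZG π] Ch M (ZG π) := Finsupp.linearCombination (ZG π) h'
  have hK : ∀ x, K (Finsupp.single x 1) = h' x := by
    intro x
    show Finsupp.linearCombination (ZG π) h' (Finsupp.single x 1) = h' x
    rw [Finsupp.linearCombination_single, one_smul]
  have hKne : ∀ x y, K (Finsupp.single x 1) y ≠ 0 →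
      M.deg x.2 = i ∧ thr < M.L.l x.1 ∧ M.deg y.2 = i + 1 ∧ g1 < M.L.l y.1 := by
    intro x y hxy
    rw [hK] at hxy
    by_cases hx : M.deg x.2 = i ∧ thr < M.L.l x.1
    · exact ⟨hx.1, hx.2, (h'pos x hx.1 hx.2).1 y hxy⟩
    · rw [h'neg x hx] at hxy
      exact absurd rfl hxy
  have hEK : ∀ c, opT M T M.E (K c) = K c := by
    refine FS_lin (opT M T M.E ∘ₗ K) K ?_
    intro z
    show opT M T M.E (K (Finsupp.single z 1)) = K (Finsupp.single z 1)
    rw [hK]
    by_cases hz : M.deg z.2 = i ∧ thr < M.L.l z.1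
    · exact (h'pos z hz.1 hz.2).2.1
    · rw [h'neg z hz, map_zero]
  let H' : Ch M (ZG π) →ₗ[ZG π] Ch M (ZG π) := H + K ∘ₗ opT M T M.E
  have hH' : ∀ c, H' c = H c + K (opT M T M.E c) := fun c => rfl
  -- `K E` vanishes on chains without cells of degree `i`
  have hKE0 : ∀ c : Ch M (ZG π), (∀ z, c z ≠ 0 → M.deg z.2 ≠ i) → K (opT M T M.E c) = 0 := by
    intro c hc
    refine FS_zero (K ∘ₗ opT M T M.E) c ?_
    intro z hz
    show K (opT M T M.E (Finsupp.single z 1)) = 0
    refine FS_zero K _ ?_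
    intro y hy
    rw [hK]
    refine h'neg y ?_
    intro h1
    refine hc z hz ?_
    rw [← (hE z y hy).1]
    exact h1.1
  have hKne2 : ∀ x y, K (opT M T M.E (Finsupp.single x 1)) y ≠ 0 →
      M.deg x.2 = i ∧ thr < M.L.l x.1 + M.c ∧ M.deg y.2 = i + 1 ∧ g1 < M.L.l y.1 := by
    intro x y hxy
    obtain ⟨z, hz1, hz2⟩ := FS_ne K _ y hxy
    obtain ⟨a1, a2, a3, a4⟩ := hKne z y hz2
    obtain ⟨b1, b2, b3⟩ := hE x z hz1
    exact ⟨by omega, by omega, a3, a4⟩
  have hne_or : ∀ x y, H' (Finsupp.single x 1) y ≠ 0 →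
      H (Finsupp.single x 1) y ≠ 0 ∨ K (opT M T M.E (Finsupp.single x 1)) y ≠ 0 := by
    intro x y hxy
    by_contra hc
    push Not at hc
    refine hxy ?_
    rw [hH', Finsupp.add_apply, hc.1, hc.2, add_zero]
  -- `H` vanishes on cells of degree `≥ i`
  have hH0 : ∀ x : G × M.I, M.deg x.2 = i → H (Finsupp.single x 1) = 0 := by
    intro x hx
    ext1 y
    by_contra hne
    have := hP.low x y hne
    omega
  -- the main membership
  have hmain : ∀ x : G × M.I, M.deg x.2 = i → thr + M.u < M.L.l x.1 →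
      opT M T M.E (Finsupp.single x 1) - opT M T M.D (H' (Finsupp.single x 1)) -
        H' (opT M T M.D (Finsupp.single x 1)) ∈ Y := by
    intro x hx1 hx2
    have hx3 : g0 < M.L.l x.1 := by omega
    have e1 : K (opT M T M.E (opT M T M.D (Finsupp.single x 1))) = 0 := by
      refine hKE0 _ ?_
      intro z hz
      have := hD x z hz
      omega
    rw [hH', hH', hH0 x hx1, zero_add, e1, add_zero, ← hEE x hx3, ← hDE x hx3, hEE x hx3]
    have e2 := FS_mem (opT M T M.E - H ∘ₗ opT M T M.D - opT M T M.D ∘ₗ K)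
      (opT M T M.E (Finsupp.single x 1)) Y (by
        intro z hz
        obtain ⟨b1, b2, b3⟩ := hE x z hz
        have h1 := (h'pos z (by omega) (by omega)).2.2
        rw [← hK z] at h1
        exact h1)
    have e3 : opT M T M.E (opT M T M.E (Finsupp.single x 1)) -
        opT M T M.D (K (opT M T M.E (Finsupp.single x 1))) -
        H (opT M T M.D (opT M T M.E (Finsupp.single x 1))) =
        (opT M T M.E - H ∘ₗ opT M T M.D - opT M T M.D ∘ₗ K)
          (opT M T M.E (Finsupp.single x 1)) := by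
      show _ = opT M T M.E (opT M T M.E (Finsupp.single x 1)) -
        H (opT M T M.D (opT M T M.E (Finsupp.single x 1))) -
        opT M T M.D (K (opT M T M.E (Finsupp.single x 1)))
      abel
    rw [hEE x hx3] at e3
    rw [e3]
    exact e2
  obtain ⟨n', hn'⟩ := hfin (opT M T M.E - opT M T M.D ∘ₗ H' - H' ∘ₗ opT M T M.D) (thr + M.u)
  refine ⟨H', max l (max l' n'), ⟨?_, ?_, ?_, ?_, ?_, ?_, ?_⟩, hmain⟩
  · intro x y hxy
    rcases hne_or x y hxy with h1 | h1
    · have := hP.low x y h1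
      omega
    · have := (hKne2 x y h1).1
      omega
  · intro x y hxy
    rcases hne_or x y hxy with h1 | h1
    · exact hP.deg x y h1
    · obtain ⟨a1, a2, a3, a4⟩ := hKne2 x y h1
      omega
  · intro x y hxy
    rcases hne_or x y hxy with h1 | h1
    · exact hP.src x y h1
    · obtain ⟨a1, a2, a3, a4⟩ := hKne2 x y h1
      omega
  · intro x y hxy
    rcases hne_or x y hxy with h1 | h1
    · exact hP.tgt x y h1
    · exact (hKne2 x y h1).2.2.2
  · intro x
    rw [hH', map_add, hP.EH, hEK]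
  · intro x
    rw [hH', hH', hP.HE]
    congr 1
    by_cases hx : g0 < M.L.l x.1
    · rw [hEE x hx]
    · have z1 : K (opT M T M.E (Finsupp.single x 1)) = 0 := by
        refine FS_zero K _ ?_
        intro z hz
        rw [hK]
        refine h'neg z ?_
        rintro ⟨-, h2⟩
        have := (hE x z hz).2.1
        omega
      have z2 : K (opT M T M.E (opT M T M.E (Finsupp.single x 1))) = 0 := by
        refine FS_zero K _ ?_
        intro z hz
        rw [hK]
        refine h'neg z ?_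
        rintro ⟨-, h2⟩
        obtain ⟨w, hw1, hw2⟩ := FS_ne (opT M T M.E) _ z hz
        have := (hE x w hw1).2.1
        have := (hE w z hw2).2.1
        omega
      rw [z1, z2]
  · intro x y hx hxy
    rcases Nat.lt_succ_iff_lt_or_eq.mp hx with h1 | h1
    · have e1 : K (opT M T M.E (Finsupp.single x 1)) = 0 := by
        refine hKE0 _ ?_
        intro z hz
        have : z = x := by
          by_contra hne
          exact hz (Finsupp.single_eq_of_ne hne)
        rw [this]
        omega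
      have e2 : K (opT M T M.E (opT M T M.D (Finsupp.single x 1))) = 0 := by
        refine hKE0 _ ?_
        intro z hz
        have := hD x z hz
        omega
      rw [hH', hH', e1, e2, add_zero, add_zero] at hxy
      exact le_trans (hP.ret x y h1 hxy) (le_max_left _ _)
    · by_cases h2 : thr + M.u < M.L.l x.1
      · exact le_trans (hY _ (hmain x h1 h2) y hxy)
          (le_trans (le_max_left _ _) (le_max_right _ _))
      · exact le_trans (hn' x y (by omega) hxy)
          (le_trans (le_max_right _ _) (le_max_right _ _))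

end Pool.Agent.SPD
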