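import Pool.Agent.SPD.StG

/-!
# SPD G0: goodness and level functions (helper20, adapted from CPD.G0)
-/

set_option autoImplicit false

namespace Pool.Agent.SPD

open Pool.Agent.CPD

private lemma G0_len {G : Type} [Group G] (L : Len G) (g x : G) :
    L.l g ≤ L.l x + L.l (g⁻¹ * x) := by
  have h1 : g = x * (g⁻¹ * x)⁻¹ := by group
  have h2 := L.mul x (g⁻¹ * x)⁻¹
  rw [← h1, L.inv] at h2
  exact h2

private lemma G0_good {G : Type} [Group G] (L : Len G) {Λ : Type} [Ring Λ] [StarRing Λ]
    (T : G → G → unitary Λ) (hT : IsALS T) (K : ℕ) :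
    ∃ g : ℕ, ∀ v, g < L.l v → GoodAt L T K v := by
  have h1 : ∀ᶠ v in Filter.cofinite, ∀ h ∈ L.ball K, ∀ h' ∈ L.ball K,
      T v h * T (v * h) h' = T v (h * h') := by
    rw [Filter.eventually_all_finset]
    intro h _
    rw [Filter.eventually_all_finset]
    intro h' _
    exact hT h h'
  rw [Filter.eventually_cofinite] at h1
  obtain ⟨g, hg⟩ := (h1.image L.l).bddAbove
  refine ⟨g, fun v hv h h' hh hh' => ?_⟩
  by_contra hne
  have h2 : L.l v ≤ g := by
    apply hg
    refine ⟨v, ?_, rfl⟩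
    intro hall
    exact hne (hall h ((L.mem_ball K h).2 hh) h' ((L.mem_ball K h').2 hh'))
  omega

theorem G0 : St_G0 := by
  intro G _ M Λ _ _ T
  have hu : 1 ≤ M.u := Nat.le_add_left _ _
  refine ⟨fun hT K => G0_good M.L T hT K, ?_, ?_, ?_, ?_⟩
  · intro g0 g1 hg
    have hlip : ∀ x y, M.L.l (x⁻¹ * y) ≤ 3 * M.u →
        min 30 ((M.L.l x - g0) / (3 * M.u)) ≤ min 30 ((M.L.l y - g0) / (3 * M.u)) + 1 := by
      intro x y h
      have h1 := G0_len M.L x y
      have h2 : (M.L.l x - g0) / (3 * M.u) ≤ (M.L.l y - g0) / (3 * M.u) + 1 := by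
        rw [← Nat.add_div_right _ (by omega : 0 < 3 * M.u)]
        exact Nat.div_le_div_right (by omega)
      omega
    have hbig : ∀ k x, g0 + 3 * M.u * k ≤ M.L.l x → k ≤ (M.L.l x - g0) / (3 * M.u) := by
      intro k x h
      rw [Nat.le_div_iff_mul_le (by omega : 0 < 3 * M.u), mul_comm]
      omega
    refine ⟨fun x => min 30 ((M.L.l x - g0) / (3 * M.u)), ?_, hlip, ?_, ?_⟩
    · intro x hx y hy
      have h1 : 3 ≤ (M.L.l x - g0) / (3 * M.u) := le_trans hx (min_le_right _ _)
      rw [Nat.le_div_iff_mul_le (by omega : 0 < 3 * M.u)] at h1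
      have h2 := G0_len M.L x y
      show g0 < M.L.l y
      omega
    · intro x
      exact min_le_left _ _
    · intro x hx
      have h7 := hbig 30 x (by omega)
      show min 30 _ = 30
      omega
  · intro g1
    exact ⟨fun x _ y _ => Set.mem_univ _, fun x y _ => Nat.le_add_right _ _,
      fun x => le_rfl, fun _ _ => rfl⟩
  · intro h h'
    exact Filter.Eventually.of_forall fun v => mul_one _
  · intro v _ h h' _ _
    exact mul_one _

end Pool.Agent.SPD
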