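import Pool.Agent.SPD.StG

/-!
# [G1a] The zone, part A (helper82; adapted from `CPD.G1a`)
-/

set_option autoImplicit false

namespace Pool.Agent.SPD

open Matrix Pool.Agent.CPD

private lemma G1a_single {X Λ : Type} [Ring Λ] (x z : X)
    (h : (Finsupp.single x 1 : X →₀ Λ) z ≠ 0) : z = x := by
  classical
  by_contra hne
  apply h
  rw [Finsupp.single_apply, if_neg (fun h => hne h.symm)]

private lemma G1a_len {G : Type} [Group G] (L : Len G) (g x : G) :
    L.l g ≤ L.l x + L.l (g⁻¹ * x) := by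
  have h1 : g = x * (g⁻¹ * x)⁻¹ := by group
  have h2 := L.mul x (g⁻¹ * x)⁻¹
  rw [← h1, L.inv] at h2
  exact h2

private lemma G1a_len' {G : Type} [Group G] (L : Len G) (g x : G) :
    L.l x ≤ L.l g + L.l (g⁻¹ * x) := by
  have h1 : x = g * (g⁻¹ * x) := by group
  have h2 := L.mul g (g⁻¹ * x)
  rw [← h1] at h2
  exact h2

private lemma G1a_ex {X Λ : Type} [Ring Λ] (A : (X →₀ Λ) →ₗ[Λ] (X →₀ Λ)) (c : X →₀ Λ) (y : X) (h : A c y ≠ 0) :
    ∃ x, c x ≠ 0 ∧ A (Finsupp.single x 1) y ≠ 0 := by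
  by_contra hcon
  apply h
  rw [← Finsupp.sum_single c, Finsupp.sum, map_sum, Finsupp.finsetSum_apply]
  apply Finset.sum_eq_zero
  intro x hx
  have h1 : (Finsupp.single x (c x) : X →₀ Λ) = c x • Finsupp.single x 1 := by
    rw [Finsupp.smul_single, smul_eq_mul, mul_one]
  have h2 : A (Finsupp.single x 1) y = 0 := by
    by_contra h3
    exact hcon ⟨x, Finsupp.mem_support_iff.1 hx, h3⟩
  rw [h1, map_smul, Finsupp.smul_apply, h2, smul_zero]

theorem G1a (h0 : St_F0) (h6 : St_F6) : St_G1a := by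
  intro G _ M Λ _ _ T V g0 g1 l H lev hAdm hLev
  obtain ⟨⟨hFD, hFE, _⟩, h7a, _, h04⟩ := h0 G M Λ T
  obtain ⟨h61, _, h63⟩ := h6 G M Λ T V hAdm.good
  have hg1 := hLev.big
  have hF := hAdm.flow
  have hcu : M.c + 1 = M.u := rfl
  refine ⟨l + g1 + 10 * M.u, fun n hn => ?_⟩
  obtain ⟨R, hR⟩ := h04 H n
  refine ⟨n + 10 * M.u + R, fun n' hn' => ⟨n' + 10 * M.u, fun N' hN' => ⟨N' + 10 * M.u,
    fun N hN => ⟨0, fun _ _ => ?_⟩⟩⟩⟩
  have hD : ∀ x y, op M T M.D (Finsupp.single x 1) y ≠ 0 →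
      M.L.l (x.1⁻¹ * y.1) ≤ M.c ∧ M.deg x.2 = M.deg y.2 + 1 := by
    intro x y h
    have h1 := h7a M.D x y h
    refine ⟨hFD _ _ _ h1, M.resP.D_deg _ _ fun h2 => h1 ?_⟩
    rw [h2]
    rfl
  have hE : ∀ x y, op M T M.E (Finsupp.single x 1) y ≠ 0 →
      M.L.l (x.1⁻¹ * y.1) ≤ M.c ∧ M.deg x.2 = M.deg y.2 := by
    intro x y h
    have h1 := h7a M.E x y h
    refine ⟨hFE _ _ _ h1, M.resP.E_deg _ _ fun h2 => h1 ?_⟩
    rw [h2]
    rfl
  have hV : ∀ x : G × M.I, 3 ≤ lev x.1 → x.1 ∈ V := by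
    intro x hx
    refine (hLev.ok x.1 hx) x.1 ?_
    rw [inv_mul_cancel, M.L.one]
    exact Nat.zero_le _
  have hop : ∀ (A B : Matrix M.I M.I (ZG G)) (x : G × M.I), Five M A → Five M B → 5 ≤ lev x.1 →
      op M T B (op M T A (Finsupp.single x 1)) = op M T (A * B) (Finsupp.single x 1) := by
    intro A B x hA hB hx
    apply h61 A B _ hA hB
    intro z hz
    rw [G1a_single x z hz]
    exact hV x (by omega)
  have hBD : ∀ k : ℕ, ∀ x ∈ Bs M k, ∀ y, op M T M.D (Finsupp.single x 1) y ≠ 0 →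
      y ∈ Bs M k := by
    intro k x hx y h
    have hx' : M.L.l x.1 + M.u * M.deg x.2 ≤ k := hx
    show M.L.l y.1 + M.u * M.deg y.2 ≤ k
    obtain ⟨h1, h2⟩ := hD x y h
    have h3 := G1a_len' M.L x.1 y.1
    rw [h2, mul_add, mul_one] at hx'
    omega
  have hZD : ∀ k : ℕ, ∀ x ∈ Zs M k, ∀ y, op M T M.D (Finsupp.single x 1) y ≠ 0 →
      y ∈ Zs M k := by
    intro k x hx y h
    have hx' : k + M.u * M.deg x.2 ≤ M.L.l x.1 := hx
    show k + M.u * M.deg y.2 ≤ M.L.l y.1
    obtain ⟨h1, h2⟩ := hD x y h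
    have h3 := G1a_len M.L x.1 y.1
    rw [h2, mul_add, mul_one] at hx'
    omega
  have h3u : ∀ x : G × M.I, M.u * M.deg x.2 ≤ M.u * 3 := fun x =>
    Nat.mul_le_mul_left _ (M.deg_le _)
  have hrr : ∀ x : G × M.I, rr M T H (Finsupp.single x 1) = op M T M.E (Finsupp.single x 1) -
      op M T M.D (H (Finsupp.single x 1)) - H (op M T M.D (Finsupp.single x 1)) := fun x => rfl
  have hr3 : ∀ x y, rr M T H (Finsupp.single x 1) y ≠ 0 → op M T M.E (Finsupp.single x 1) y ≠ 0 ∨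
      (∃ y', H (Finsupp.single x 1) y' ≠ 0 ∧ op M T M.D (Finsupp.single y' 1) y ≠ 0) ∨
      ∃ z, op M T M.D (Finsupp.single x 1) z ≠ 0 ∧ H (Finsupp.single z 1) y ≠ 0 := by
    intro x y h
    rw [hrr, Finsupp.sub_apply, Finsupp.sub_apply] at h
    by_cases h1 : op M T M.E (Finsupp.single x 1) y = 0
    · by_cases h2 : op M T M.D (H (Finsupp.single x 1)) y = 0
      · rw [h1, h2, sub_zero, zero_sub, neg_ne_zero] at h
        exact Or.inr (Or.inr (G1a_ex H _ y h))
      · exact Or.inr (Or.inl (G1a_ex (op M T M.D) _ y h2))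
    · exact Or.inl h1
  constructor
  case deg_le => exact fun x => M.deg_le _
  case BB' =>
    intro x hx
    have hx' : M.L.l x.1 + M.u * M.deg x.2 ≤ n := hx
    show M.L.l x.1 + M.u * M.deg x.2 ≤ n'
    omega
  case ZZ' =>
    intro x hx
    have hx' : N + M.u * M.deg x.2 ≤ M.L.l x.1 := hx
    show N' + M.u * M.deg x.2 ≤ M.L.l x.1
    omega
  case disj =>
    rw [Set.disjoint_left]
    intro x hx hx2
    have hx' : M.L.l x.1 + M.u * M.deg x.2 ≤ n' := hx
    have hx2' : N' + M.u * M.deg x.2 ≤ M.L.l x.1 := hx2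
    omega
  case fin =>
    refine ((M.L.fin (N + 3 * M.u)).prod (Set.finite_univ (α := M.I))).subset ?_
    intro x hx
    refine ⟨?_, Set.mem_univ _⟩
    show M.L.l x.1 ≤ N + 3 * M.u
    by_contra hlt
    apply hx
    right
    show N + M.u * M.deg x.2 ≤ M.L.l x.1
    have := h3u x
    omega
  case levW =>
    intro x hx
    show 20 ≤ lev x.1
    have h1 : ¬ (M.L.l x.1 + M.u * M.deg x.2 ≤ n) := hx
    have := h3u x
    rw [hg1 x.1 (by omega)]
    norm_num
  case lev_D =>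
    intro x y h
    exact hLev.lip x.1 y.1 (by have := (hD x y h).1; omega)
  case lev_E =>
    intro x y h
    exact hLev.lip x.1 y.1 (by have := (hE x y h).1; omega)
  case lev_H =>
    intro x y h
    show lev x.1 ≤ lev y.1 + 1
    have h1 := hLev.cap x.1
    have h2 := hg1 y.1 (hF.tgt x y h)
    omega
  case lev_r =>
    intro x y h
    show lev x.1 ≤ lev y.1 + 1
    have h1 := hLev.cap x.1
    rcases hr3 x y h with h2 | ⟨y', h2, h3⟩ | ⟨z, h2, h3⟩
    · exact hLev.lip x.1 y.1 (by have := (hE x y h2).1; omega)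
    · have h4 := hg1 y'.1 (hF.tgt x y' h2)
      have h5 := hLev.lip y'.1 y.1 (by have := (hD y' y h3).1; omega)
      omega
    · have h4 := hg1 y.1 (hF.tgt z y h3)
      omega
  case deg_D => exact fun x y h => (hD x y h).2
  case deg_E => exact fun x y h => (hE x y h).2
  case deg_H =>
    intro x y h
    exact hF.deg x y h
  case deg_r =>
    intro x y h
    show M.deg x.2 = M.deg y.2
    rcases hr3 x y h with h2 | ⟨y', h2, h3⟩ | ⟨z, h2, h3⟩
    · exact (hE x y h2).2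
    · have h4 := hF.deg x y' h2
      have h5 := (hD y' y h3).2
      omega
    · have h4 := (hD x z h2).2
      have h5 := hF.deg z y h3
      omega
  case DD =>
    intro x hx
    rw [hop M.D M.D x hFD hFD hx, M.resP.DD]
    exact h63 _
  case EE =>
    intro x hx
    rw [hop M.E M.E x hFE hFE hx, M.resP.EE]
  case ED =>
    intro x hx
    rw [hop M.D M.E x hFD hFE hx, M.resP.DE]
  case DE =>
    intro x hx
    rw [hop M.E M.D x hFE hFD hx, M.resP.ED]
  case HE =>
    intro x _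
    exact hF.HE x
  case EH =>
    intro x _
    exact hF.EH x
  case flow =>
    intro x _
    rw [hrr]
    abel
  case D_B => exact hBD n
  case D_B' => exact hBD n'
  case D_Z => exact hZD N
  case D_Z' => exact hZD N'
  case E_B =>
    intro x hx y h
    have hx' : M.L.l x.1 + M.u * M.deg x.2 ≤ n := hx
    show M.L.l y.1 + M.u * M.deg y.2 ≤ n'
    obtain ⟨h1, h2⟩ := hE x y h
    have h3 := G1a_len' M.L x.1 y.1
    rw [h2] at hx'
    omega
  case E_Z =>
    intro x hx y h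
    have hx' : N + M.u * M.deg x.2 ≤ M.L.l x.1 := hx
    show N' + M.u * M.deg y.2 ≤ M.L.l y.1
    obtain ⟨h1, h2⟩ := hE x y h
    have h3 := G1a_len M.L x.1 y.1
    rw [h2] at hx'
    omega
  case r_B =>
    intro x _ y h
    show M.L.l y.1 + M.u * M.deg y.2 ≤ n
    have h1 : M.L.l y.1 ≤ l := hF.ret x y h
    have h4 := h3u y
    omega
  case H_B =>
    intro x hx _ y h
    have hx' : M.L.l x.1 + M.u * M.deg x.2 ≤ n := hx
    show M.L.l y.1 + M.u * M.deg y.2 ≤ n'
    have h1 := hR x y (by omega) h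
    have h4 := h3u y
    omega

end Pool.Agent.SPD
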