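import Pool.Agent.SPD.StG

/-!
# SPD, module G3a (MP_d2e046_gt): pushing a dual chain outward
-/

set_option autoImplicit false

namespace Pool.Agent.SPD

open Matrix Pool.Agent.CPD

private theorem G3a_mem {X Λ : Type} [Ring Λ] (S : Submodule Λ (X →₀ Λ)) (v : X →₀ Λ)
    (h : ∀ x, v x ≠ 0 → Finsupp.single x 1 ∈ S) : v ∈ S := by
  rw [← Finsupp.sum_single v]
  refine S.sum_mem fun x hx => ?_
  have h1 : Finsupp.single x (v x) = v x • (Finsupp.single x 1 : X →₀ Λ) := by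
    rw [Finsupp.smul_single, smul_eq_mul, mul_one]
  rw [h1]
  exact S.smul_mem _ (h x (Finsupp.mem_support_iff.1 hx))

private theorem G3a_supp {X Λ : Type} [Ring Λ] (F : (X →₀ Λ) →ₗ[Λ] (X →₀ Λ)) (v : X →₀ Λ) (y : X)
    (h : F v y ≠ 0) : ∃ x, v x ≠ 0 ∧ F (Finsupp.single x 1) y ≠ 0 := by
  by_contra hcon
  push Not at hcon
  apply h
  let K : Submodule Λ (X →₀ Λ) := LinearMap.ker ((Finsupp.lapply y) ∘ₗ F)
  have h1 : v ∈ K := by
    apply G3a_mem
    intro x hx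
    rw [LinearMap.mem_ker]
    exact hcon x hx
  exact h1

private theorem G3a_len {G : Type} [Group G] (L : Len G) (g x : G) :
    L.l g ≤ L.l x + L.l (g⁻¹ * x) := by
  have h1 : g = x * (g⁻¹ * x)⁻¹ := by group
  have h2 := L.mul x (g⁻¹ * x)⁻¹
  rw [← h1, L.inv] at h2
  exact h2

private theorem G3a_len' {G : Type} [Group G] (L : Len G) (g x : G) :
    L.l x ≤ L.l g + L.l (g⁻¹ * x) := by
  have h1 : x = g * (g⁻¹ * x) := by group
  have h2 := L.mul g (g⁻¹ * x)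
  rw [← h1] at h2
  exact h2

section

variable {G : Type} [Group G] (M : Pk G) {Λ : Type} [Ring Λ]

private theorem G3a_trunc (Q : ℕ) (f : G × M.I → Λ) (x : G × M.I) (h : M.L.l x.1 ≤ Q) :
    trunc M Q f x = f x := by
  unfold trunc
  rw [Finsupp.onFinset_apply]
  exact if_pos h

private theorem G3a_trunc' (Q : ℕ) (f : G × M.I → Λ) (x : G × M.I) (h : ¬ M.L.l x.1 ≤ Q) :
    trunc M Q f x = 0 := by
  unfold trunc
  rw [Finsupp.onFinset_apply]
  exact if_neg h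

end

theorem G3a (h0 : St_F0) (h6 : St_F6) (ha : St_F10a) : St_G3a := by
  intro G _ M Λ _ _ T V g0 g1 l H hAdm n
  obtain ⟨N2, hN2⟩ := ha G M Λ T V g0 g1 l H hAdm
  obtain ⟨⟨_, _, _, _, _, hFDH, hFEH⟩, h7a, _, h7n⟩ := h0 G M Λ T
  obtain ⟨h61, _, _⟩ := h6 G M Λ T V hAdm.good
  obtain ⟨R, hR⟩ := h7n H n
  have hcu : M.c + 1 = M.u := rfl
  have h3u : ∀ x : G × M.I, M.u * M.deg x.2 ≤ M.u * 3 := fun x =>
    Nat.mul_le_mul_left _ (M.deg_le _)
  refine ⟨R + N2 + 5 * M.u, fun n' hn' => ⟨0, fun N' _ => ⟨N' + 10 * M.u, fun Q3 hQ3 => ?_⟩⟩⟩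
  intro a hsup hE
  have hfar : ∀ x, a x ≠ 0 → N2 < M.L.l x.1 := by
    intro x hx
    have h1 : ¬ (M.L.l x.1 + M.u * M.deg x.2 ≤ n') := (hsup x hx).2.1
    have := h3u x
    omega
  have hDH : ∀ x y : G × M.I, op M T M.Dᴴ (Finsupp.single x 1) y ≠ 0 →
      M.L.l (x.1⁻¹ * y.1) ≤ M.c ∧ M.deg y.2 = M.deg x.2 + 1 := by
    intro x y h
    have h1 := h7a M.Dᴴ x y h
    refine ⟨hFDH _ _ _ h1, M.resP.D_deg _ _ fun h2 => h1 ?_⟩
    rw [conjTranspose_apply, h2, star_zero]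
    rfl
  have hDa : op M T M.Dᴴ a = 0 := by
    ext y
    rw [Finsupp.zero_apply]
    by_contra hy
    obtain ⟨x, hx1, hx2⟩ := G3a_supp _ _ _ hy
    have h1 := (hsup x hx1).1
    have h2 := (hDH x y hx2).2
    have h3 := M.deg_le y.2
    omega
  obtain ⟨hN2a, hN2b⟩ := hN2 a hfar
  set F : Ch M Λ := trunc M Q3 (tH M H a) with hF
  have hFs : ∀ x, F x ≠ 0 → M.deg x.2 = 2 ∧ x ∉ Bs M n ∧ M.L.l x.1 ≤ Q3 ∧
      g0 + 10 * M.u < M.L.l x.1 := by
    intro x hx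
    have h1 : M.L.l x.1 ≤ Q3 := by
      by_contra h
      exact hx (G3a_trunc' M Q3 _ x h)
    rw [hF, G3a_trunc M Q3 _ x h1] at hx
    have h2 : g0 + 10 * M.u < M.L.l x.1 := by
      by_contra h
      exact hx (hN2a x (by omega))
    obtain ⟨y, hy1, hy2⟩ : ∃ y, a y ≠ 0 ∧ H (Finsupp.single x 1) y ≠ 0 := by
      by_contra hcon
      push Not at hcon
      apply hx
      unfold tH
      refine Finset.sum_eq_zero fun y hy => ?_
      show a y * star (H (Finsupp.single x 1) y) = 0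
      rw [hcon y (Finsupp.mem_support_iff.1 hy), star_zero, mul_zero]
    obtain ⟨h3, h4, _⟩ := hsup y hy1
    have hdeg := hAdm.flow.deg x y hy2
    refine ⟨by omega, ?_, h1, h2⟩
    intro hB
    have hB' : M.L.l x.1 + M.u * M.deg x.2 ≤ n := hB
    have h5 := hR x y (by omega) hy2
    apply h4
    show M.L.l y.1 + M.u * M.deg y.2 ≤ n'
    have := h3u y
    omega
  have hED : op M T M.Eᴴ (op M T M.Dᴴ F) = op M T M.Dᴴ F := by
    rw [h61 M.Dᴴ M.Eᴴ F hFDH hFEH, ← conjTranspose_mul, M.resP.ED]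
    intro x hx
    have := (hFs x hx).2.2.2
    exact hAdm.far _ (by omega)
  refine ⟨F, a - op M T M.Dᴴ F, ?_, ?_, ?_, ?_⟩
  · rw [add_sub_cancel]
  · intro x hx
    obtain ⟨h1, h2, h3, _⟩ := hFs x hx
    exact ⟨h1, h2, h3⟩
  · intro x hx
    have h1 : Q3 < M.L.l x.1 + M.c := by
      by_contra h
      apply hx
      have h2 := hN2b Q3 x (by omega)
      have h3 : tH M H (op M T M.Dᴴ a) x = 0 := by
        rw [hDa]
        unfold tH
        exact Finsupp.sum_zero_index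
      rw [hE, h3, zero_add] at h2
      rw [Finsupp.sub_apply, h2, sub_self]
    by_cases h2 : a x = 0
    · have h3 : op M T M.Dᴴ F x ≠ 0 := by
        intro h3
        apply hx
        rw [Finsupp.sub_apply, h2, h3, sub_zero]
      obtain ⟨w, hw1, hw2⟩ := G3a_supp _ _ _ h3
      obtain ⟨h4, h5⟩ := hDH w x hw2
      obtain ⟨h6, _, h7, _⟩ := hFs w hw1
      have h8 := G3a_len' M.L w.1 x.1
      refine ⟨by omega, by omega, by omega⟩
    · obtain ⟨h3, _, h5⟩ := hsup x h2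
      have h5' : ¬ (N' + M.u * M.deg x.2 ≤ M.L.l x.1) := h5
      have := h3u x
      refine ⟨h3, by omega, by omega⟩
  · rw [map_sub, hE, hED]

end Pool.Agent.SPD
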