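import Pool.Agent.SPD.StG

/-!
# G4b: `H₂` with infinite rational chains vanishes, for abstract flows

Adapted from `Pool/Agent/CPD/G4b.lean`.
-/

set_option autoImplicit false

namespace Pool.Agent.SPD

open Matrix Pool.Agent.CPD

section G4b

variable {X : Type}

/-- rational chains of integral chains -/
private noncomputable def G4b_i : (X →₀ ℤ) →+ (X →₀ ℚ) :=
  Finsupp.mapRange.addMonoidHom (Int.castAddHom ℚ)

private lemma G4b_i_apply (z : X →₀ ℤ) (x : X) : G4b_i z x = (z x : ℚ) := by
  unfold G4b_i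
  rw [Finsupp.mapRange.addMonoidHom_apply, Finsupp.mapRange_apply]
  rfl

private lemma G4b_i_inj {z z' : X →₀ ℤ} (h : G4b_i z = G4b_i z') : z = z' := by
  ext x
  have h1 := DFunLike.congr_fun h x
  rw [G4b_i_apply, G4b_i_apply] at h1
  exact_mod_cast h1

private lemma G4b_clear (a : X →₀ ℚ) : ∃ (N : ℤ) (z : X →₀ ℤ), N ≠ 0 ∧
    G4b_i z = (N : ℚ) • a := by
  classical
  induction a using Finsupp.induction_linear with
  | zero => exact ⟨1, 0, one_ne_zero, by rw [map_zero, smul_zero]⟩
  | add a b ha hb =>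
    obtain ⟨N1, z1, h1, h1'⟩ := ha
    obtain ⟨N2, z2, h2, h2'⟩ := hb
    refine ⟨N1 * N2, N2 • z1 + N1 • z2, mul_ne_zero h1 h2, ?_⟩
    ext x
    have e1 := DFunLike.congr_fun h1' x
    have e2 := DFunLike.congr_fun h2' x
    rw [G4b_i_apply, Finsupp.smul_apply, smul_eq_mul] at e1 e2
    rw [G4b_i_apply, Finsupp.add_apply, Finsupp.smul_apply, Finsupp.smul_apply,
      Finsupp.smul_apply, Finsupp.add_apply, smul_eq_mul, smul_eq_mul, smul_eq_mul]
    push_cast
    rw [e1, e2]
    ring
  | single x r =>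
    refine ⟨r.den, Finsupp.single x r.num, by exact_mod_cast r.den_nz, ?_⟩
    ext y
    rw [G4b_i_apply, Finsupp.smul_apply, smul_eq_mul, Finsupp.single_apply, Finsupp.single_apply]
    split_ifs
    · have h1 := Rat.mul_den_eq_num r
      push_cast
      rw [← h1]
      ring
    · simp

private lemma G4b_pair (c : X →₀ ℚ) (f : X → ℚ) : pair c f = Finsupp.linearCombination ℚ f c := rfl

end G4b

private lemma G4b_op {G : Type} [Group G] (M : Pk G) (A : Matrix M.I M.I (ZG G))
    (z : (G × M.I) →₀ ℤ) : op M (triv G ℚ) A (G4b_i z) = G4b_i (opZ A z) := by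
  classical
  induction z using Finsupp.induction_linear with
  | zero => rw [map_zero, map_zero, map_zero, map_zero]
  | add a b ha hb => rw [map_add, map_add, ha, hb, map_add, map_add]
  | single x n =>
    have h1 : (G4b_i (Finsupp.single x n) : Ch M ℚ) = Finsupp.single x (n : ℚ) := by
      ext y
      rw [G4b_i_apply, Finsupp.single_apply, Finsupp.single_apply]
      split_ifs
      · rfl
      · exact Int.cast_zero
    rw [h1]
    unfold op
    rw [lo_single]
    unfold opZ
    rw [Finsupp.linearCombination_single]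
    ext y
    rw [Finsupp.smul_apply, bl_apply, G4b_i_apply, Finsupp.smul_apply, smul_eq_mul, smul_eq_mul,
      Int.cast_mul]
    unfold triv
    simp

theorem G4b (h1 : CPD.St_E1) (ga : St_G4a) : St_G4b := by
  classical
  intro G _ M c hc hDc hEc
  obtain ⟨e1, e2, e3, e4, e5, e6, e7, e8, e9⟩ := h1 G M.I
  obtain ⟨a1, a2, a3, a4, a5, a6⟩ := ga G M
  have hlf0 : ∀ A : Matrix M.I M.I (ZG G), lf A (0 : G × M.I → ℚ) = 0 := by
    intro A
    have h2 := (a3 A 0 0).2
    rw [sub_self] at h2
    rw [h2, sub_self]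
  have hD : Five M M.D := M.prop_D
  have hE : Five M M.E := M.prop_E
  have hPs : Five M M.Ps := M.prop_Ps
  have hPh : Five M M.Ph := M.prop_Ph
  have hh : Five M M.h := M.prop_h
  have hne : ∀ (A : Matrix M.I M.I (ZG G)) (i j : M.I) (g : G), (A i j).coeff g ≠ 0 →
      A i j ≠ 0 := by
    intro A i j g h h'
    apply h
    rw [h']
    rfl
  -- the function f
  set f : G × M.I → ℚ := lf M.Ps c with hf
  have hf1 : ∀ y, f y ≠ 0 → M.deg y.2 = 1 := by
    intro y hy
    obtain ⟨x, hx, hxy, -⟩ := a6 M.Ps c y hPs hy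
    have h2 := M.Ps_deg _ _ (hne _ _ _ _ hxy)
    have h3 := hc x hx
    omega
  have hDf : lf M.Dᴴ f = 0 := by
    rw [hf, a1, ← M.DPs, ← a1, hDc, hlf0]
  have hEf : lf M.Eᴴ f = f := by
    rw [hf, a1, M.PsE]
  -- adjunction
  have hadj : ∀ (A : Matrix M.I M.I (ZG G)) (a : Ch M ℚ) (φ : G × M.I → ℚ),
      pair (op M (triv G ℚ) A a) φ = pair a (lf Aᴴ φ) := by
    intro A a φ
    rw [G4b_pair, G4b_pair]
    induction a using Finsupp.induction_linear with
    | zero => rw [map_zero, map_zero, map_zero]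
    | add a b ha hb => rw [map_add, map_add, ha, hb, map_add]
    | single x r =>
      have h2 : (Finsupp.single x r : Ch M ℚ) = r • Finsupp.single x 1 := by
        rw [Finsupp.smul_single, smul_eq_mul, mul_one]
      rw [h2, map_smul, map_smul, map_smul, ← G4b_pair, a5, Finsupp.linearCombination_single,
        one_smul]
  -- the claim
  have hclaim : ∀ a : Ch M ℚ, (∀ x, a x ≠ 0 → M.deg x.2 = 1) → op M (triv G ℚ) M.D a = 0 →
      pair a f = 0 := by
    intro a ha hDa
    set a' : Ch M ℚ := op M (triv G ℚ) M.E a with ha'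
    have h2 : pair a f = pair a' f := by
      rw [ha', hadj, hEf]
    have hfun : ∀ (A : Matrix M.I M.I (ZG G)) (b b' : Ch M ℚ),
        lf A (fun x => b x) = (fun x => b' x) → op M (triv G ℚ) A b = b' := by
      intro A b b' h
      ext x
      exact congrFun ((a4 A b).trans h) x
    have ha'f : (fun x => a' x) = lf M.E (fun x => a x) := a4 M.E a
    have hEa' : op M (triv G ℚ) M.E a' = a' := by
      apply hfun
      rw [ha'f, a1, M.resP.EE]
    have hDa' : op M (triv G ℚ) M.D a' = 0 := by
      apply hfun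
      rw [ha'f, a1, M.resP.ED, ← a4, hDa]
    have ha'1 : ∀ x, a' x ≠ 0 → M.deg x.2 = 1 := by
      intro x hx
      have h3 : lf M.E (fun x => a x) x ≠ 0 := by
        rw [← ha'f]
        exact hx
      obtain ⟨y, hy, hyx, -⟩ := a6 M.E _ x hE h3
      have h4 := M.resP.E_deg _ _ (hne _ _ _ _ hyx)
      have h5 := ha y hy
      omega
    obtain ⟨N, z, hN, hz⟩ := G4b_clear a'
    have hN' : (N : ℚ) ≠ 0 := by exact_mod_cast hN
    have hEz : opZ M.E z = z := by
      apply G4b_i_inj
      rw [← G4b_op, hz, map_smul, hEa']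
    have hDz : opZ M.D z = 0 := by
      apply G4b_i_inj
      rw [← G4b_op, hz, map_smul, hDa', smul_zero, map_zero]
    have hz1 : ∀ x, z x ≠ 0 → M.deg x.2 = 1 := by
      intro x hx
      apply ha'1
      intro h3
      have h4 := DFunLike.congr_fun hz x
      rw [G4b_i_apply, Finsupp.smul_apply, h3, smul_zero] at h4
      exact hx (by exact_mod_cast h4)
    have haug : augZ M.e z = 0 := by
      unfold augZ
      refine Finset.sum_eq_zero fun x hx => ?_
      have h3 := hz1 x (Finsupp.mem_support_iff.1 hx)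
      have h4 : M.e x.2 = 0 := by
        by_contra h5
        have := M.resP.e_deg _ h5
        omega
      show z x * M.e x.2 = 0
      rw [h4, mul_zero]
    obtain ⟨u, hu1, hu2⟩ := M.resP.exact (toV z) (by rw [← e1, hEz])
      (by
        rw [← e1, hDz]
        have h3 := e2 (0 : (G × M.I) →₀ ℤ) 0
        rw [add_zero] at h3
        exact left_eq_add.1 h3) (by rw [← e5, haug])
    obtain ⟨b, hb⟩ := e4 u
    have hDb : opZ M.D b = z := by
      apply e3
      rw [e1, hb, hu2]
    have h3 : pair ((N : ℚ) • a') f = 0 := by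
      rw [← hz, ← hDb, ← G4b_op, hadj, hDf, G4b_pair]
      rw [Finsupp.linearCombination_apply]
      refine Finset.sum_eq_zero fun x _ => ?_
      show _ • (0 : G × M.I → ℚ) x = 0
      rw [Pi.zero_apply, smul_zero]
    rw [G4b_pair, map_smul, smul_eq_mul, ← G4b_pair] at h3
    rw [h2]
    exact (mul_eq_zero.1 h3).resolve_left hN'
  -- the functional
  set A1 : Submodule ℚ (Ch M ℚ) := Finsupp.supported ℚ ℚ {x : G × M.I | M.deg x.2 = 1} with hA1
  set Dr : A1 →ₗ[ℚ] Ch M ℚ := (op M (triv G ℚ) M.D) ∘ₗ A1.subtype with hDr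
  set P : Module.Dual ℚ A1 := (Finsupp.linearCombination ℚ f) ∘ₗ A1.subtype with hP
  have hPmem : P ∈ LinearMap.range Dr.dualMap := by
    rw [LinearMap.range_dualMap_eq_dualAnnihilator_ker, Submodule.mem_dualAnnihilator]
    rintro ⟨a, ha⟩ hker
    have h2 : op M (triv G ℚ) M.D a = 0 := hker
    refine hclaim a ?_ h2
    intro x hx
    exact (Finsupp.mem_supported ℚ a).1 ha (Finsupp.mem_support_iff.2 hx)
  obtain ⟨Φ, hΦ⟩ := hPmem
  have hΦ' : ∀ a : Ch M ℚ, (∀ x, a x ≠ 0 → M.deg x.2 = 1) →
      Φ (op M (triv G ℚ) M.D a) = pair a f := by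
    intro a ha
    have h2 : a ∈ A1 := by
      rw [hA1, Finsupp.mem_supported]
      intro x hx
      exact ha x (Finsupp.mem_support_iff.1 hx)
    exact LinearMap.congr_fun hΦ ⟨a, h2⟩
  set f' : G × M.I → ℚ := fun x => if M.deg x.2 = 0 then Φ (Finsupp.single x 1) else 0 with hf'
  have hDx : ∀ x y : G × M.I, op M (triv G ℚ) M.D (Finsupp.single x 1) y ≠ 0 →
      M.deg x.2 = M.deg y.2 + 1 := by
    intro x y h
    have h2 := congrFun (a4 M.D (Finsupp.single x 1)) y
    have h3 : lf M.D (fun z => (Finsupp.single x (1 : ℚ) : Ch M ℚ) z) y ≠ 0 := by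
      rw [← h2]
      exact h
    obtain ⟨x', hx', hxy, -⟩ := a6 M.D _ y hD h3
    have h4 : x' = x := by
      by_contra hne'
      apply hx'
      show (Finsupp.single x (1 : ℚ) : Ch M ℚ) x' = 0
      rw [Finsupp.single_apply, if_neg (fun h => hne' h.symm)]
    rw [h4] at hxy
    exact M.resP.D_deg _ _ (hne _ _ _ _ hxy)
  have hDf' : lf M.Dᴴ f' = f := by
    funext x
    rw [← a5, G4b_pair]
    by_cases hx : M.deg x.2 = 1
    · have h2 : Finsupp.linearCombination ℚ f' (op M (triv G ℚ) M.D (Finsupp.single x 1)) =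
          Φ (op M (triv G ℚ) M.D (Finsupp.single x 1)) := by
        set w := op M (triv G ℚ) M.D (Finsupp.single x 1) with hw
        conv_rhs => rw [← Finsupp.sum_single w]
        rw [Finsupp.linearCombination_apply, Finsupp.sum, Finsupp.sum, map_sum]
        refine Finset.sum_congr rfl fun y hy => ?_
        have h3 := hDx x y (Finsupp.mem_support_iff.1 hy)
        have h4 : M.deg y.2 = 0 := by omega
        have h5 : (Finsupp.single y (w y) : Ch M ℚ) = w y • Finsupp.single y 1 := by
          rw [Finsupp.smul_single, smul_eq_mul, mul_one]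
        rw [h5, map_smul]
        show w y • f' y = _
        rw [hf']
        show w y • (if M.deg y.2 = 0 then Φ (Finsupp.single y 1) else 0) = _
        rw [if_pos h4]
      rw [h2, hΦ' (Finsupp.single x 1) (by
        intro y hy
        rw [Finsupp.single_apply] at hy
        have h3 : x = y := by
          by_contra h4
          exact hy (if_neg h4)
        rw [← h3]
        exact hx), G4b_pair, Finsupp.linearCombination_single, one_smul]
    · have h2 : f x = 0 := by
        by_contra h3
        exact hx (hf1 x h3)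
      rw [h2, Finsupp.linearCombination_apply]
      refine Finset.sum_eq_zero fun y hy => ?_
      have h3 := hDx x y (Finsupp.mem_support_iff.1 hy)
      have h4 : ¬ M.deg y.2 = 0 := by omega
      show _ • f' y = 0
      rw [hf']
      show _ • (if M.deg y.2 = 0 then Φ (Finsupp.single y 1) else 0) = 0
      rw [if_neg h4, smul_zero]
  refine ⟨lf M.Ph f' - lf M.h c, ?_, ?_⟩
  · intro y hy
    by_cases h2 : lf M.Ph f' y = 0
    · have h3 : lf M.h c y ≠ 0 := by
        intro h3
        apply hy
        rw [Pi.sub_apply, h2, h3, sub_zero]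
      obtain ⟨x, hx, hxy, -⟩ := a6 M.h c y hh h3
      have h4 := M.h_deg _ _ (hne _ _ _ _ hxy)
      have h5 := hc x hx
      omega
    · obtain ⟨x, hx, hxy, -⟩ := a6 M.Ph f' y hPh h2
      have h4 := M.Ph_deg _ _ (hne _ _ _ _ hxy)
      have h5 : M.deg x.2 = 0 := by
        by_contra h6
        exact hx (if_neg h6)
      omega
  · have h2 : M.E = M.Ps * M.Ph - (M.h * M.D + M.D * M.h) := by
      rw [← M.homot]
      abel
    conv_rhs => rw [← hEc, h2, (a2 _ _ c).2, (a2 _ _ c).1, ← a1, ← a1, ← a1, hDc, hlf0,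
      ← hf, ← hDf', a1, M.DPh, ← a1]
    rw [(a3 M.D _ _).2, add_zero]

end Pool.Agent.SPD
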