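import Pool.Agent.SPD.StG
import Pool.Agent.CPD.G4c

/-!
# SPD, module G4c : far cycles of degree one bound far away, for abstract flows (helper69)

Adapted from `CPD.G4c`.
-/

set_option autoImplicit false

namespace Pool.Agent.SPD

open Matrix Pool.Agent.CPD
open Pool.Agent.CPD.G4c (lf_zero_mat lf_zero dp lf_dp dp_eq cq cq_apply cq_inj clear_denoms len_le
  len_le')

variable {G : Type} [Group G]

private theorem G4c_op_cq (M : Pk G) (A : Matrix M.I M.I (ZG G)) (c : (G × M.I) →₀ ℤ) :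
    op M (triv G ℚ) A (cq c) = cq (opZ A c) := by
  induction c using Finsupp.induction_linear with
  | zero =>
    have h1 : cq (0 : (G × M.I) →₀ ℤ) = 0 := by
      ext x
      rw [cq_apply, Finsupp.zero_apply, Finsupp.zero_apply, Int.cast_zero]
    rw [h1, map_zero, map_zero, h1]
  | add f g hf hg =>
    have h1 : ∀ a b : (G × M.I) →₀ ℤ, cq (a + b) = cq a + cq b := by
      intro a b
      ext x
      rw [cq_apply, Finsupp.add_apply, Finsupp.add_apply, cq_apply, cq_apply, Int.cast_add]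
    rw [h1, map_add, hf, hg, map_add, h1]
  | single x n =>
    have h1 : cq (Finsupp.single x n) = Finsupp.single x (n : ℚ) := by
      unfold cq
      exact Finsupp.mapRange_single
    rw [h1]
    unfold op opZ
    rw [lo_single, Finsupp.linearCombination_single]
    ext y
    rw [Finsupp.smul_apply, bl_apply, cq_apply, Finsupp.smul_apply]
    show (n : ℚ) * (((row A x) y : ℚ) * ((1 : unitary ℚ) : ℚ)) = (((n : ℤ) * (row A x) y : ℤ) : ℚ)
    rw [Int.cast_mul]
    show (n : ℚ) * (((row A x) y : ℚ) * 1) = _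
    rw [mul_one]

/-- A finite cycle of degree one is the boundary of a finite chain. -/
private theorem G4c_fin_prim (hE1 : St_E1) (ha4 : St_G4a) (M : Pk G) (u : Ch M ℚ)
    (hdeg : ∀ x, u x ≠ 0 → M.deg x.2 = 1)
    (hD : op M (triv G ℚ) M.D u = 0) (hE : op M (triv G ℚ) M.E u = u) :
    ∃ e : Ch M ℚ, (∀ x, e x ≠ 0 → M.deg x.2 = 2) ∧ op M (triv G ℚ) M.D e = u ∧
      op M (triv G ℚ) M.E e = e := by
  classical
  obtain ⟨e1, e2, e3, e4, e5, e6, -, -, -⟩ := hE1 G M.I
  obtain ⟨-, -, -, a4, -, -⟩ := ha4 G M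
  obtain ⟨k, z, hk, hz⟩ := clear_denoms u
  have hkq : (k : ℚ) ≠ 0 := by exact_mod_cast hk
  have hcq0 : cq (0 : (G × M.I) →₀ ℤ) = 0 := by
    ext x
    rw [cq_apply, Finsupp.zero_apply, Finsupp.zero_apply, Int.cast_zero]
  have hzD : opZ M.D z = 0 := by
    apply cq_inj
    rw [← G4c_op_cq, ← hz, map_smul, hD, smul_zero, hcq0]
  have hzE : opZ M.E z = z := by
    apply cq_inj
    rw [← G4c_op_cq, ← hz, map_smul, hE]
  have hz0 : ∀ x, z x ≠ 0 → M.deg x.2 = 1 := by
    intro x hx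
    apply hdeg
    intro h1
    have h2 := DFunLike.congr_fun hz x
    rw [Finsupp.smul_apply, h1, smul_zero, cq_apply] at h2
    exact hx (by exact_mod_cast h2.symm)
  have haug : ∑ i, au (toV z i) * M.e i = 0 := by
    rw [← e5]
    unfold augZ
    apply Finset.sum_eq_zero
    intro x hx
    rw [Finsupp.mem_support_iff] at hx
    have h1 := hz0 x hx
    by_cases h2 : M.e x.2 = 0
    · show _ * _ = _
      rw [h2, mul_zero]
    · have h3 := M.resP.e_deg x.2 h2
      omega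
  have htv0 : toV (0 : (G × M.I) →₀ ℤ) = 0 := by
    have h1 := e2 0 0
    rw [add_zero] at h1
    have h2 : toV (0 : (G × M.I) →₀ ℤ) + 0 = toV (0 : (G × M.I) →₀ ℤ) +
      toV (0 : (G × M.I) →₀ ℤ) := by rw [add_zero]; exact h1
    exact (add_left_cancel h2).symm
  obtain ⟨v, hvE, hvD⟩ := M.resP.exact (toV z) (by rw [← e1, hzE]) (by rw [← e1, hzD, htv0]) haug
  obtain ⟨w, hw⟩ := e4 v
  have hwE : opZ M.E w = w := e3 _ _ (by rw [e1, hw, hvE])
  have hwD : opZ M.D w = z := e3 _ _ (by rw [e1, hw, hvD])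
  -- the rational chain
  set r : Ch M ℚ := (k : ℚ)⁻¹ • cq w with hr
  have hrD : op M (triv G ℚ) M.D r = u := by
    rw [hr, map_smul, G4c_op_cq, hwD, ← hz, smul_smul, inv_mul_cancel₀ hkq, one_smul]
  have hrE : op M (triv G ℚ) M.E r = r := by
    rw [hr, map_smul, G4c_op_cq, hwE]
  -- its part of degree two
  set f : Ch M ℚ := Finsupp.filter (fun x => M.deg x.2 = 2) r with hf
  have hfr : (fun x => f x) = dp M.deg 2 (fun x => r x) := by
    funext x
    unfold dp
    rw [hf]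
    exact Finsupp.filter_apply _ _ _
  have hDr : lf M.D (fun x => r x) = fun x => u x := by
    rw [← a4, hrD]
  have hEr : lf M.E (fun x => r x) = fun x => r x := by
    rw [← a4, hrE]
  refine ⟨f, ?_, ?_, ?_⟩
  · intro x hx
    have h1 := congrFun hfr x
    by_contra h2
    unfold dp at h1
    rw [if_neg h2] at h1
    exact hx h1
  · have h1 : lf M.D (fun x => f x) = fun x => u x := by
      rw [hfr]
      have h2 := lf_dp M.deg M.D 1 1 M.resP.D_deg (fun x => r x)
      rw [h2, hDr]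
      exact dp_eq M.deg 1 _ hdeg
    rw [← a4] at h1
    ext x
    exact congrFun h1 x
  · have h1 : lf M.E (fun x => f x) = fun x => f x := by
      rw [hfr]
      have h2 := lf_dp M.deg M.E 0 2 M.resP.E_deg (fun x => r x)
      rw [show (2 : ℕ) + 0 = 2 from rfl] at h2
      rw [h2, hEr]
    rw [← a4] at h1
    ext x
    exact congrFun h1 x

private theorem G4c_five_star (M : Pk G) (A : Matrix M.I M.I (ZG G)) (h : Five M A) : Five M Aᴴ := by
  intro i j g hg
  rw [Matrix.conjTranspose_apply, star_coeff] at hg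
  have h1 := h j i g⁻¹ hg
  rwa [M.L.inv] at h1

/-- Module G4c. -/
theorem G4c (hE1 : CPD.St_E1) (hF0 : St_F0) (hF10 : St_F10a) (hGa : St_G4a) (hGb : St_G4b) :
    St_G4c := by
  intro G _ M g0 g1 l H hAdm
  classical
  obtain ⟨a1, a2, a3, a4, -, a6⟩ := hGa G M
  obtain ⟨-, -, -, f5⟩ := hF0 G M ℚ (triv G ℚ)
  obtain ⟨N2, hN2⟩ := hF10 G M ℚ (triv G ℚ) Set.univ g0 g1 l H hAdm
  refine ⟨0, fun N' _ => ?_⟩
  obtain ⟨n1, hn1⟩ := f5 H (N' + 10 * M.u)
  refine ⟨N2 + n1 + N' + 20 * M.u, fun N hN u hu hD hE => ?_⟩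
  have hcu : M.u = M.c + 1 := rfl
  have hdegu : ∀ x, u x ≠ 0 → M.deg x.2 = 1 := fun x hx => (hu x hx).1
  have hlenu : ∀ x, u x ≠ 0 → N ≤ M.L.l x.1 := fun x hx => by
    have h1 : N + M.u * M.deg x.2 ≤ M.L.l x.1 := (hu x hx).2
    omega
  obtain ⟨e', he'deg, he'D, he'E⟩ := G4c_fin_prim hE1 hGa M u hdegu hD hE
  have F1 : Five M M.D := M.prop_D
  have F2 : Five M M.E := M.prop_E
  have F3 : Five M M.Ps := M.prop_Ps
  have F4 : Five M M.Ph := M.prop_Ph
  have F5 : Five M M.h := M.prop_h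
  have F6 : Five M M.Dᴴ := G4c_five_star M M.D F1
  -- function versions
  set U : G × M.I → ℚ := fun x => u x with hU
  have hDU : lf M.D U = 0 := by
    rw [hU, ← a4, hD]
    rfl
  have hEU : lf M.E U = U := by
    rw [hU, ← a4, hE]
  set b : Ch M ℚ := op M (triv G ℚ) M.Ps u with hb
  have hbU : (fun x => b x) = lf M.Ps U := by
    rw [hb, a4]
  -- supports of b
  have hbsup : ∀ y, b y ≠ 0 → M.deg y.2 = 2 ∧ N ≤ M.L.l y.1 + M.c := by
    intro y hy
    have h1 : lf M.Ps U y ≠ 0 := by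
      rw [← hbU]
      exact hy
    obtain ⟨x, hx, hx2, hx3⟩ := a6 M.Ps U y F3 h1
    have h2 : M.Ps x.2 y.2 ≠ 0 := fun h => hx2 (by rw [h]; rfl)
    have h3 := M.Ps_deg x.2 y.2 h2
    have h4 := hdegu x hx
    have h5 := hlenu x hx
    have h6 := len_le' M.L x.1 y.1
    constructor <;> omega
  have hbD : op M (triv G ℚ) M.Dᴴ b = 0 := by
    ext x
    have h1 := congrFun (a4 M.Dᴴ b) x
    show op M (triv G ℚ) M.Dᴴ b x = 0
    rw [show op M (triv G ℚ) M.Dᴴ b x = lf M.Dᴴ (fun x => b x) x from h1, hbU, a1, ← M.DPs,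
      ← a1, hDU, lf_zero]
    rfl
  have hbE : lf M.Eᴴ (lf M.Ps U) = lf M.Ps U := by
    rw [a1, M.PsE]
  obtain ⟨-, hQ⟩ := hN2 b (fun y hy => by
    have h1 := (hbsup y hy).2
    omega)
  set t : G × M.I → ℚ := tH M H b with ht
  have htH0 : ∀ z, tH M H (0 : Ch M ℚ) z = 0 := fun z => Finsupp.sum_zero_index
  have hBt : lf M.Ps U = lf M.Dᴴ t := by
    funext z
    have h1 := hQ (M.L.l z.1 + M.c) z (le_refl _)
    rw [hbD, htH0, zero_add] at h1
    have h2 : op M (triv G ℚ) M.Eᴴ b z = lf M.Ps U z := by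
      have h3 := congrFun (a4 M.Eᴴ b) z
      rw [hbU, hbE] at h3
      exact h3
    have h4 := congrFun (a4 M.Dᴴ (trunc M (M.L.l z.1 + M.c) t)) z
    have h5 : lf M.Dᴴ (t - fun x => trunc M (M.L.l z.1 + M.c) t x) z = 0 := by
      by_contra h6
      obtain ⟨x, hx, -, hx3⟩ := a6 _ _ z F6 h6
      apply hx
      show t x - (if M.L.l x.1 ≤ M.L.l z.1 + M.c then t x else 0) = 0
      rw [if_pos, sub_self]
      have h7 := len_le' M.L x.1 z.1
      omega
    rw [(a3 _ _ _).2] at h5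
    have h6 : lf M.Dᴴ t z = lf M.Dᴴ (fun x => trunc M (M.L.l z.1 + M.c) t x) z := by
      have h7 : lf M.Dᴴ t z - lf M.Dᴴ (fun x => trunc M (M.L.l z.1 + M.c) t x) z = 0 := h5
      linarith
    rw [h6, ← h2, h1]
    exact h4
  -- the infinite chain
  set q : G × M.I → ℚ := lf M.Ph t - lf M.h U with hq
  have hPh : M.Ps * M.Ph - M.h * M.D = M.E + M.D * M.h := by
    have h1 := M.homot
    rw [sub_eq_iff_eq_add] at h1
    rw [h1]
    abel
  have hqD : lf M.D q = U := by
    rw [hq, (a3 _ _ _).2, a1, a1, ← M.DPh, ← a1, ← hBt, a1, ← (a2 _ _ _).2, hPh, (a2 _ _ _).1,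
      hEU, ← a1, hDU, lf_zero, add_zero]
  have hqE : lf M.E q = q := by
    rw [hq, (a3 _ _ _).2, a1, a1, M.PhE, M.hE]
  have htsup : ∀ z, t z ≠ 0 → M.deg z.2 = 1 ∧ N' + 10 * M.u < M.L.l z.1 := by
    intro z hz
    obtain ⟨y, hy, hy2⟩ : ∃ y, b y ≠ 0 ∧ H (Finsupp.single z 1) y ≠ 0 := by
      by_contra hne
      push Not at hne
      apply hz
      apply Finset.sum_eq_zero
      intro y hy
      show b y * star _ = 0
      rw [hne y (Finsupp.mem_support_iff.1 hy), star_zero, mul_zero]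
    have hj4 := hAdm.flow.deg z y hy2
    obtain ⟨hb1, hb2⟩ := hbsup y hy
    refine ⟨by omega, ?_⟩
    by_contra hlt
    have h1 := hn1 z y (by omega) hy2
    omega
  have hqsup : ∀ z, q z ≠ 0 → M.deg z.2 = 2 ∧ N' + M.u * 2 ≤ M.L.l z.1 := by
    intro z hz
    by_cases h1 : lf M.Ph t z = 0
    · have h2 : lf M.h U z ≠ 0 := by
        intro h3
        apply hz
        show lf M.Ph t z - lf M.h U z = 0
        rw [h1, h3, sub_zero]
      obtain ⟨x, hx, hx2, hx3⟩ := a6 _ _ z F5 h2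
      have h3 : M.h x.2 z.2 ≠ 0 := fun h => hx2 (by rw [h]; rfl)
      have h4 := M.h_deg x.2 z.2 h3
      have h5 := hdegu x hx
      have h6 := hlenu x hx
      have h7 := len_le' M.L x.1 z.1
      constructor <;> omega
    · obtain ⟨x, hx, hx2, hx3⟩ := a6 _ _ z F4 h1
      have h3 : M.Ph x.2 z.2 ≠ 0 := fun h => hx2 (by rw [h]; rfl)
      have h4 := M.Ph_deg x.2 z.2 h3
      obtain ⟨h5, h6⟩ := htsup x hx
      have h7 := len_le' M.L x.1 z.1
      constructor <;> omega
  -- G4b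
  set f : G × M.I → ℚ := fun x => e' x with hf
  have hfD : lf M.D f = U := by
    rw [hf, ← a4, he'D]
  have hfE : lf M.E f = f := by
    rw [hf, ← a4, he'E]
  obtain ⟨b', hb'deg, hb'D⟩ := hGb G M (f - q) (by
    intro x hx
    by_cases h1 : f x = 0
    · refine (hqsup x ?_).1
      intro h2
      apply hx
      show f x - q x = 0
      rw [h1, h2, sub_zero]
    · exact he'deg x h1) (by rw [(a3 _ _ _).2, hfD, hqD, sub_self])
    (by rw [(a3 _ _ _).2, hfE, hqE])
  set bP : Ch M ℚ := trunc M (N' + 10 * M.u) b' with hbP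
  have hfin : (fun x => (e' - op M (triv G ℚ) M.D bP) x) = q + lf M.D (b' - fun x => bP x) := by
    have h1 : (fun x => (e' - op M (triv G ℚ) M.D bP) x) = f - lf M.D (fun x => bP x) := by
      rw [← a4]
      rfl
    rw [h1, (a3 _ _ _).2, hb'D]
    abel
  refine ⟨e' - op M (triv G ℚ) M.D bP, ?_, ?_⟩
  · intro x hx
    have h1 : q x + lf M.D (b' - fun x => bP x) x ≠ 0 := by
      have h2 := congrFun hfin x
      intro h3
      apply hx
      exact h2.trans h3
    by_cases h2 : q x = 0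
    · have h3 : lf M.D (b' - fun x => bP x) x ≠ 0 := by
        intro h4
        exact h1 (by rw [h2, h4, add_zero])
      obtain ⟨y, hy, hy2, hy3⟩ := a6 _ _ x F1 h3
      have h4 : M.D y.2 x.2 ≠ 0 := fun h => hy2 (by rw [h]; rfl)
      have h5 := M.resP.D_deg y.2 x.2 h4
      have hy' : b' y - (if M.L.l y.1 ≤ N' + 10 * M.u then b' y else 0) ≠ 0 := hy
      by_cases h6 : M.L.l y.1 ≤ N' + 10 * M.u
      · rw [if_pos h6, sub_self] at hy'
        exact absurd rfl hy'
      · rw [if_neg h6, sub_zero] at hy'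
        have h7 := hb'deg y hy'
        have h8 := len_le' M.L y.1 x.1
        have h9 : M.deg x.2 = 2 := by omega
        refine ⟨h9, ?_⟩
        show N' + M.u * M.deg x.2 ≤ M.L.l x.1
        rw [h9]
        omega
    · obtain ⟨h3, h4⟩ := hqsup x h2
      refine ⟨h3, ?_⟩
      show N' + M.u * M.deg x.2 ≤ M.L.l x.1
      rw [h3]
      exact h4
  · rw [map_sub, he'D]
    have h1 : op M (triv G ℚ) M.D (op M (triv G ℚ) M.D bP) = 0 := by
      ext x
      have h2 := congrFun (a4 M.D (op M (triv G ℚ) M.D bP)) x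
      rw [a4, a1, M.resP.DD, lf_zero_mat] at h2
      exact h2
    rw [h1, sub_zero]

end Pool.Agent.SPD
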