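import Pool.Agent.SPD.StK
import Pool.Agent.HSP.St

/-!
# The Euler number of the zone over the group ring of the target
-/

set_option autoImplicit false

namespace Pool.Agent.SPD

open Matrix Pool.Agent.CPD

private theorem K1_star {π ρ : Type} [Group π] [Group ρ] (φ : π →* ρ) (a : ZG π) :
    MonoidAlgebra.mapDomainRingHom ℤ φ (star a) =
      star (MonoidAlgebra.mapDomainRingHom ℤ φ a : ZG ρ) := by
  have hs1 : ∀ (g : π) (n : ℤ), star (MonoidAlgebra.single g n : ZG π) =
      MonoidAlgebra.single g⁻¹ n := fun g n => gs_single g n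
  have hs2 : ∀ (g : ρ) (n : ℤ), star (MonoidAlgebra.single g n : ZG ρ) =
      MonoidAlgebra.single g⁻¹ n := fun g n => gs_single g n
  induction a using MonoidAlgebra.induction_linear with
  | zero => rw [star_zero, map_zero, star_zero]
  | add f g hf hg => rw [star_add, map_add, map_add, star_add, hf, hg]
  | single g n =>
    rw [hs1, MonoidAlgebra.mapDomainRingHom_apply, MonoidAlgebra.mapDomain_single,
      MonoidAlgebra.mapDomainRingHom_apply, MonoidAlgebra.mapDomain_single, hs2, map_inv]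

/-- the augmentation with rational values -/
private noncomputable def K1_q (π : Type) [Group π] : ZG π →+* ℚ :=
  (Int.castRingHom ℚ).comp (au : ZG π →ₐ[ℤ] ℤ).toRingHom

private theorem K1_q_single {π : Type} [Group π] (g : π) (n : ℤ) :
    K1_q π (MonoidAlgebra.single g n) = n := by
  show ((au (MonoidAlgebra.single g n : ZG π) : ℤ) : ℚ) = n
  unfold au
  rw [MonoidAlgebra.lift_single]
  simp

private theorem K1_q_star {π : Type} [Group π] (a : ZG π) :
    K1_q π (star a) = star (K1_q π a) := by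
  have hs1 : ∀ (g : π) (n : ℤ), star (MonoidAlgebra.single g n : ZG π) =
      MonoidAlgebra.single g⁻¹ n := fun g n => gs_single g n
  induction a using MonoidAlgebra.induction_linear with
  | zero => rw [star_zero, map_zero, star_zero]
  | add f g hf hg => rw [star_add, map_add, map_add, star_add, hf, hg]
  | single g n =>
    rw [hs1, K1_q_single, K1_q_single]
    simp

theorem K1 (g1a : St_G1a) (g1b : St_G1b) (g5 : St_G5) (b2 : St_B2) (z5 : CPD.St_Z5)
    (per : HSP.St_PER) (con : HSP.St_CON) : St_K1 := by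
  intro G _ _ M π ρ _ _ φ T g0 g1 l H H' H0 lev t hAdm hAdm' hAdm0 hlev hH' hH0 hTor ht
  have hlQ : LevOK M Set.univ g1 (fun _ => 30) :=
    ⟨fun _ _ _ _ => Set.mem_univ _, fun _ _ _ => by norm_num, fun _ => le_rfl, fun _ _ => rfl⟩
  have a1 := g1a G M (ZG π) (tw T) _ g0 g1 l H lev hAdm hlev
  have a2 := g1b G M (ZG π) (tw T) _ g0 g1 l H lev hAdm hlev
  have q1 := g1a G M ℚ (triv G ℚ) _ g0 g1 l H0 _ hAdm0 hlQ
  have q2 := g1b G M ℚ (triv G ℚ) _ g0 g1 l H0 _ hAdm0 hlQ
  have q5 := g5 G M g0 g1 l H0 hAdm0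
  refine ((a1.and q1).and q5).mono ?_
  rintro n ⟨⟨h1, h2⟩, h5⟩
  refine ((((h1.and h2).and h5).and a2).and q2).mono ?_
  intro n'
  refine Ev.mono ?_
  intro N'
  refine Ev.mono ?_
  intro N
  refine Ev.mono ?_
  rintro Q ⟨⟨⟨⟨hA, hAQ⟩, h5'⟩, hB⟩, hBQ⟩ hA' hB'
  have hs := h5' hAQ hBQ
  obtain ⟨_, hd, _, hk, hdk, hnull⟩ := z5 (ZG π) (mkZone hA hB)
  -- base change
  have e1 : ∀ x y, ka M (tw (mapT φ T)) H' n' N' Q (Finsupp.single x 1) y =
      MonoidAlgebra.mapDomain φ (ka M (tw T) H n' N' Q (Finsupp.single x 1) y) := fun x y =>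
    b2 G M (ZG π) (ZG ρ) (MonoidAlgebra.mapDomainRingHom ℤ φ) (tw T) (tw (mapT φ T)) H H'
      (K1_star φ) (fun v h => by
        show MonoidAlgebra.single (φ (T v h)) (1 : ℤ) =
          MonoidAlgebra.mapDomainRingHom ℤ φ (MonoidAlgebra.single (T v h) (1 : ℤ))
        rw [MonoidAlgebra.mapDomainRingHom_apply, MonoidAlgebra.mapDomain_single]) hH' n' N' Q x y
  have e0 : ∀ x y, ka M (triv G ℚ) H0 n' N' Q (Finsupp.single x 1) y =
      ((au (ka M (tw T) H n' N' Q (Finsupp.single x 1) y) : ℤ) : ℚ) := fun x y =>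
    b2 G M (ZG π) ℚ (K1_q π) (tw T) (triv G ℚ) H H0 K1_q_star (fun v h => by
      show (1 : ℚ) = K1_q π (MonoidAlgebra.single (T v h) (1 : ℤ))
      rw [K1_q_single]
      simp) hH0 n' N' Q x y
  -- the trace is concentrated at the elements which become trivial
  have h9 : str t (mkZone hA' hB').degW ((mkZone hA' hB').mat (mkZone hA' hB').κ) =
      str (au : ZG π →ₐ[ℤ] ℤ).toRingHom.toAddMonoidHom (mkZone hA hB).degW
        ((mkZone hA hB).mat (mkZone hA hB).κ) := by
    refine con π ρ (mkZone hA hB).W φ (mkZone hA hB).degW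
      ((mkZone hA hB).mat (mkZone hA hB).κ) ((mkZone hA' hB').mat (mkZone hA' hB').κ)
      (au : ZG π →ₐ[ℤ] ℤ).toRingHom.toAddMonoidHom t ?_ ht (fun x => e1 x.1 x.1) ?_
    · intro g n
      show au (MonoidAlgebra.single g n : ZG π) = n
      unfold au
      rw [MonoidAlgebra.lift_single]
      simp
    · intro y hy
      obtain ⟨q, hq3, hqm, s, hs⟩ := per π (mkZone hA hB).W (mkZone hA hB).degW
        ((mkZone hA hB).mat (mkZone hA hB).D) ((mkZone hA hB).mat (mkZone hA hB).κ) hd hk hdk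
        hnull y (if orderOf (φ y) = 0 then 1 else orderOf (φ y)) hy (by split_ifs <;> omega)
      refine hTor y s q hq3 hs fun h0 => ?_
      rwa [if_neg h0] at hqm
  rw [h9]
  let S : Set (G × M.I) := (Bs M n ∪ Zs M N)ᶜ
  let _ : Fintype S := hA.fin.fintype
  have h10 : ((str (au : ZG π →ₐ[ℤ] ℤ).toRingHom.toAddMonoidHom (mkZone hA hB).degW
      ((mkZone hA hB).mat (mkZone hA hB).κ) : ℤ) : ℚ) =
      str (AddMonoidHom.id ℚ) (mkZone hAQ hBQ).degW ((mkZone hAQ hBQ).mat (mkZone hAQ hBQ).κ) := by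
    show ((∑ x : S, ((-1 : ℤ) ^ M.deg x.1.2) •
      (au (ka M (tw T) H n' N' Q (Finsupp.single x.1 1) x.1) : ℤ) : ℤ) : ℚ) =
      ∑ x : S, ((-1 : ℤ) ^ M.deg x.1.2) •
        (ka M (triv G ℚ) H0 n' N' Q (Finsupp.single x.1 1) x.1)
    push_cast
    refine Finset.sum_congr rfl fun x _ => ?_
    rw [e0, smul_eq_mul, zsmul_eq_mul]
    push_cast
    rfl
  rw [hs] at h10
  exact_mod_cast h10

end Pool.Agent.SPD
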