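import Pool.Agent.SPD.StK

/-!
# The core theorem: coefficient systems with flows become trivial at infinity
-/

set_option autoImplicit false

namespace Pool.Agent.SPD

open Matrix Pool.Agent.CPD

private theorem K2_star {π ρ : Type} [Group π] [Group ρ] (φ : π →* ρ) (a : ZG π) :
    MonoidAlgebra.mapDomainRingHom ℤ φ (star a) =
      star (MonoidAlgebra.mapDomainRingHom ℤ φ a : ZG ρ) := by
  have hs1 : ∀ (g : π) (n : ℤ), star (MonoidAlgebra.single g n : ZG π) =
      MonoidAlgebra.single g⁻¹ n := fun g n => gs_single g n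
  have hs2 : ∀ (g : ρ) (n : ℤ), star (MonoidAlgebra.single g n : ZG ρ) =
      MonoidAlgebra.single g⁻¹ n := fun g n => gs_single g n
  induction a using MonoidAlgebra.induction_linear with
  | zero => rw [star_zero, map_zero, star_zero]
  | add f g hf hg => rw [star_add, map_add, map_add, star_add, hf, hg]
  | single g n =>
    rw [hs1, MonoidAlgebra.mapDomainRingHom_apply, MonoidAlgebra.mapDomain_single,
      MonoidAlgebra.mapDomainRingHom_apply, MonoidAlgebra.mapDomain_single, hs2, map_inv]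

/-- the augmentation with rational values -/
private noncomputable def K2_q (π : Type) [Group π] : ZG π →+* ℚ :=
  (Int.castRingHom ℚ).comp (au : ZG π →ₐ[ℤ] ℤ).toRingHom

private theorem K2_q_single {π : Type} [Group π] (g : π) (n : ℤ) :
    K2_q π (MonoidAlgebra.single g n) = n := by
  show ((au (MonoidAlgebra.single g n : ZG π) : ℤ) : ℚ) = n
  unfold au
  rw [MonoidAlgebra.lift_single]
  simp

private theorem K2_q_star {π : Type} [Group π] (a : ZG π) :
    K2_q π (star a) = star (K2_q π a) := by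
  have hs1 : ∀ (g : π) (n : ℤ), star (MonoidAlgebra.single g n : ZG π) =
      MonoidAlgebra.single g⁻¹ n := fun g n => gs_single g n
  induction a using MonoidAlgebra.induction_linear with
  | zero => rw [star_zero, map_zero, star_zero]
  | add f g hf hg => rw [star_add, map_add, map_add, star_add, hf, hg]
  | single g n =>
    rw [hs1, K2_q_single, K2_q_single]
    simp

private theorem K2_ex {P : ℕ → ℕ → ℕ → ℕ → Prop} (h : Ev4 P) : ∃ a b c d, P a b c d := by
  obtain ⟨a, ha⟩ := h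
  obtain ⟨b, hb⟩ := ha a (le_refl _)
  obtain ⟨c, hc⟩ := hb b (le_refl _)
  obtain ⟨d, hd⟩ := hc c (le_refl _)
  exact ⟨a, b, c, d, hd d (le_refl _)⟩

private theorem K2_tr {G π π' : Type} [Group G] [Group π] [Group π'] (F : π →* π')
    (T : G → G → π) (p : ℕ → G) :
    ∀ (n a : ℕ), tr (fun v h => F (T v h)) p a n = F (tr T p a n)
  | 0, a => by
    show (1 : π') = F 1
    rw [map_one]
  | n + 1, a => by
    show F (T (p a) ((p a)⁻¹ * p (a + 1))) * tr (fun v h => F (T v h)) p (a + 1) n = F (_ * _)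
    rw [K2_tr F T p n (a + 1), map_mul]

private theorem K2_als {G π π' : Type} [Group G] [Group π] [Group π'] (F : π →* π')
    {T : G → G → π} (hT : IsALS T) : IsALS (fun v h => F (T v h)) := by
  intro h h'
  filter_upwards [hT h h'] with v hv
  show F (T v h) * F (T (v * h) h') = F (T v (h * h'))
  rw [← map_mul, hv]

theorem K2 (tr1 : CPD.St_TR1) (kap : CPD.St_KAP) (z9 : CPD.St_Z9) (g0 : St_G0) (g1a : St_G1a)
    (g1b : St_G1b) (g2 : St_G2) (g3 : St_G3b) (b1 : St_B1) (k1 : St_K1) : St_K2 := by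
  intro G _ _ M π ρ _ _ φ T hT hflow hTor R
  have hA1 : IsALS (tw T) := K2_als (uhom π) hT
  have hA2 : IsALS (mapT φ T) := K2_als φ hT
  have hA3 : IsALS (tw (mapT φ T)) := K2_als (uhom ρ) hA2
  let t : ZG ρ →+ ℤ :=
    { toFun := fun a => a.coeff 1
      map_zero' := rfl
      map_add' := fun a b => rfl }
  have ht : ∀ a, t a = a.coeff 1 := fun _ => rfl
  have ht1 : t 1 = 1 := MonoidAlgebra.coeff_one_one
  have htr : ∀ a b, t (a * b) = t (b * a) := fun a b => tr1 ρ a b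
  have hkap : ∀ (n : Type) [Fintype n] [DecidableEq n] (q : Matrix n n (ZG ρ)),
      q * q = q → ∑ i, t (q i i) = 0 → q = 0 := fun n _ _ q hq h0 => kap ρ n q hq h0
  -- goodness of the two systems
  obtain ⟨ga, hga⟩ := (g0 G M (ZG π) (tw T)).1 hA1 (20 * M.u)
  obtain ⟨gb, hgb⟩ := (g0 G M (ZG ρ) (tw (mapT φ T))).1 hA3 (20 * M.u)
  -- the flows
  obtain ⟨l, H, hF⟩ := hflow (max ga gb + 100 * M.u)
  obtain ⟨H', hF', hH'⟩ := b1 G M (ZG π) (ZG ρ) (MonoidAlgebra.mapDomainRingHom ℤ φ) (tw T)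
    (tw (mapT φ T)) _ l H (K2_star φ) (fun v h => by
      show MonoidAlgebra.single (φ (T v h)) (1 : ℤ) =
        MonoidAlgebra.mapDomainRingHom ℤ φ (MonoidAlgebra.single (T v h) (1 : ℤ))
      rw [MonoidAlgebra.mapDomainRingHom_apply, MonoidAlgebra.mapDomain_single]) hF
  obtain ⟨H0, hF0, hH0⟩ := b1 G M (ZG π) ℚ (K2_q π) (tw T) (triv G ℚ) _ l H K2_q_star
    (fun v h => by
      show (1 : ℚ) = K2_q π (MonoidAlgebra.single (T v h) (1 : ℤ))
      rw [K2_q_single]
      simp) hF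
  have hAdm : Adm (Λ := ZG π) M (tw T) {v | max ga gb < M.L.l v} (max ga gb)
      (max ga gb + 100 * M.u) l H :=
    ⟨fun v hv => hga v (lt_of_le_of_lt (le_max_left _ _) hv), fun _ hv => hv, le_rfl, hF⟩
  have hAdm' : Adm (Λ := ZG ρ) M (tw (mapT φ T)) {v | max ga gb < M.L.l v} (max ga gb)
      (max ga gb + 100 * M.u) l H' :=
    ⟨fun v hv => hgb v (lt_of_le_of_lt (le_max_right _ _) hv), fun _ hv => hv, le_rfl, hF'⟩
  have hAdm0 : Adm M (triv G ℚ) Set.univ (max ga gb) (max ga gb + 100 * M.u) l H0 :=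
    ⟨(g0 G M ℚ (triv G ℚ)).2.2.2.2, fun _ _ => Set.mem_univ _, le_rfl, hF0⟩
  obtain ⟨lev, hlev⟩ := (g0 G M (ZG ρ) (tw (mapT φ T))).2.1 (max ga gb) _ le_rfl
  -- the zones
  have e1 := g1a G M (ZG ρ) (tw (mapT φ T)) _ _ _ l H' lev hAdm' hlev
  have e2 := g1b G M (ZG ρ) (tw (mapT φ T)) _ _ _ l H' lev hAdm' hlev
  have e3 := g2 G M (ZG ρ) (tw (mapT φ T)) _ _ _ l H' lev hA3 hAdm' hlev
  have e4 := g3 G M (ZG ρ) (tw (mapT φ T)) _ _ _ l H' lev hA3 hAdm' hlev R
  have e5 := k1 G M π ρ φ T _ _ l H H' H0 lev t hAdm hAdm' hAdm0 hlev hH' hH0 hTor ht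
  obtain ⟨n, hn⟩ := (e1.and e4).and e5
  obtain ⟨⟨h1, R1, h4⟩, h5⟩ := hn n (le_refl _)
  refine ⟨{v | M.L.l v ≤ R1}, M.L.fin R1, ?_⟩
  intro k p hp hD hstep
  have h4' := h4 k p hp (fun i hi => not_le.mp (hD i hi)) hstep
  obtain ⟨n', N', N, Q, ⟨⟨⟨hA, hB⟩, hc1⟩, hc3⟩, hs⟩ :=
    K2_ex ((((h1.and e2).and (e3 n)).and h4').and h5)
  obtain ⟨g1, c0, _, hC1⟩ := hc1 hA hB
  obtain ⟨b0, hC3, f, hf, hm⟩ := hc3 hA hB
  have hz := z9 _ (mkZone hA hB) t _ b0 htr ht1 hkap hC1 hC3 (hs hA hB) _ f hf hm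
  have h6 : (uhom ρ (tr (mapT φ T) p 0 k) : ZG ρ) = 1 := by
    have h7 : star ((tr (tw (mapT φ T)) p 0 k : unitary (ZG ρ)) : ZG ρ) = 1 :=
      (sub_eq_zero.mp hz).symm
    have h8 := congrArg star h7
    rw [star_star, star_one] at h8
    rw [← K2_tr (uhom ρ) (mapT φ T) p k 0]
    exact h8
  have h9 : MonoidAlgebra.single (tr (mapT φ T) p 0 k) (1 : ℤ) = MonoidAlgebra.single 1 1 := h6
  rw [MonoidAlgebra.single_left_inj one_ne_zero] at h9
  exact h9

end Pool.Agent.SPD
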