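import Pool.Agent.SPD.StK

/-!
# K3 : holonomy along a word; the package `Pk`
-/

set_option autoImplicit false
set_option linter.unusedVariables false

namespace Pool.Agent.SPD

open Matrix Pool.Agent.CPD

/-- transport along a word is the product of the labels -/
private theorem K3_tr {G α π : Type} [Group G] [Group π] (f : α → G) (T : G → G → π)
    (p : ℕ → G) : ∀ (w : List (α × Bool)) (g : G) (k : ℕ),
    (∀ i ≤ w.length, p (k + i) = g * value f (w.take i)) →
    tr T p k w.length = hol f (SPD.lab f T) g w := by
  intro w
  induction w with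
  | nil =>
    intro g k _
    rfl
  | cons a w ih =>
    intro g k h1
    have e0 : p k = g := by
      have := h1 0 (Nat.zero_le _)
      simpa [value] using this
    have e1 : p (k + 1) = g * letter f a := by
      have := h1 1 (by simp)
      simpa [value] using this
    change T (p k) ((p k)⁻¹ * p (k + 1)) * tr T p (k + 1) w.length =
      T g (letter f a) * hol f (SPD.lab f T) (g * letter f a) w
    have e3 : (p k)⁻¹ * p (k + 1) = letter f a := by
      rw [e0, e1, inv_mul_cancel_left]
    rw [e3, e0, ih (g * letter f a) (k + 1)]
    intro i hi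
    have h3 := h1 (i + 1) (by simpa using hi)
    have h4 : value f (a :: w.take i) = letter f a * value f (w.take i) := by
      simp [value]
    rw [List.take_succ_cons, h4, ← mul_assoc] at h3
    rw [← h3]
    congr 1
    omega

/-- a bound for the propagation of a matrix -/
private theorem K3_bound {G I : Type} [Group G] [Fintype I] (L : Len G) (A : Matrix I I (ZG G)) :
    ∃ c : ℕ, ∀ i j g, (A i j).coeff g ≠ 0 → L.l g ≤ c := by
  refine ⟨Finset.univ.sup fun i => Finset.univ.sup fun j => (A i j).coeff.support.sup L.l, ?_⟩
  intro i j g hg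
  have h1 : L.l g ≤ (A i j).coeff.support.sup L.l :=
    Finset.le_sup (f := L.l) (Finsupp.mem_support_iff.2 hg)
  have h2 : (A i j).coeff.support.sup L.l ≤
      Finset.univ.sup fun j => (A i j).coeff.support.sup L.l :=
    Finset.le_sup (f := fun j => (A i j).coeff.support.sup L.l) (Finset.mem_univ j)
  have h3 : (Finset.univ.sup fun j => (A i j).coeff.support.sup L.l) ≤
      Finset.univ.sup fun i => Finset.univ.sup fun j => (A i j).coeff.support.sup L.l :=
    Finset.le_sup (f := fun i => Finset.univ.sup fun j => (A i j).coeff.support.sup L.l)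
      (Finset.mem_univ i)
  exact h1.trans (h2.trans h3)

theorem K3 : St_K3 := by
  refine ⟨?_, ?_⟩
  · intro G α π _ _ f T v w
    apply K3_tr
    intro i _
    simp only [zero_add]
  · intro G _ P L
    obtain ⟨c1, h1⟩ := K3_bound L P.D
    obtain ⟨c2, h2⟩ := K3_bound L P.E
    obtain ⟨c3, h3⟩ := K3_bound L P.Ps
    obtain ⟨c4, h4⟩ := K3_bound L P.Ph
    obtain ⟨c5, h5⟩ := K3_bound L P.h
    refine ⟨{ toPDM := P, L := L, c := c1 + c2 + c3 + c4 + c5,
              prop_D := ?_, prop_E := ?_, prop_Ps := ?_, prop_Ph := ?_, prop_h := ?_ }, rfl⟩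
    · intro i j g hg
      exact (h1 i j g hg).trans (by omega)
    · intro i j g hg
      exact (h2 i j g hg).trans (by omega)
    · intro i j g hg
      exact (h3 i j g hg).trans (by omega)
    · intro i j g hg
      exact (h4 i j g hg).trans (by omega)
    · intro i j g hg
      exact (h5 i j g hg).trans (by omega)

end Pool.Agent.SPD
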