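import Pool.Agent.SPD.StL

/-!
# L1: local data of the resolution exist
-/

set_option autoImplicit false

namespace Pool.Agent.SPD

open Matrix Pool.Agent.CPD

section

variable {G I : Type} [Group G] [Fintype I]

private lemma L1_opZ_apply (A : Matrix I I (ZG G)) (c : (G × I) →₀ ℤ) (y : G × I) :
    opZ A c y = c.sum fun x n => n * row A x y := by
  unfold opZ
  rw [Finsupp.linearCombination_apply, Finsupp.sum_apply]
  rfl

private lemma L1_row_ne (A : Matrix I I (ZG G)) (x y : G × I) (h : row A x y ≠ 0) :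
    A x.2 y.2 ≠ 0 := by
  intro h1
  apply h
  rw [CPD.row_apply, h1]
  rfl

private lemma L1_filter (deg : I → ℕ) (A : Matrix I I (ZG G)) (s : ℕ)
    (hA : ∀ i j, A i j ≠ 0 → deg i = deg j + s) (c : (G × I) →₀ ℤ) (k : ℕ) (y : G × I) :
    opZ A (c.filter (fun x => deg x.2 = k + s)) y = if deg y.2 = k then opZ A c y else 0 := by
  classical
  induction c using Finsupp.induction_linear with
  | zero => rw [Finsupp.filter_zero, map_zero, Finsupp.zero_apply, ite_self]
  | add a b ha hb =>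
    rw [Finsupp.filter_add, map_add, Finsupp.add_apply, ha, hb, map_add, Finsupp.add_apply]
    split_ifs
    · rfl
    · rw [add_zero]
  | single x n =>
    have h1 : opZ A (Finsupp.single x n) y = n * row A x y := by
      rw [L1_opZ_apply, Finsupp.sum_single_index (by rw [zero_mul])]
    by_cases h2 : row A x y = 0
    · rw [h1, h2, mul_zero]
      by_cases h3 : deg x.2 = k + s
      · rw [Finsupp.filter_single_of_pos (p := fun x : G × I => deg x.2 = k + s) h3, h1, h2, mul_zero, ite_self]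
      · rw [Finsupp.filter_single_of_neg (p := fun x : G × I => deg x.2 = k + s) h3, map_zero, ite_self]
        rfl
    · have h3 := hA _ _ (L1_row_ne A x y h2)
      by_cases h4 : deg y.2 = k
      · have h5 : deg x.2 = k + s := by omega
        rw [Finsupp.filter_single_of_pos (p := fun x : G × I => deg x.2 = k + s) h5, if_pos h4]
      · have h5 : ¬ deg x.2 = k + s := by omega
        rw [Finsupp.filter_single_of_neg (p := fun x : G × I => deg x.2 = k + s) h5, if_neg h4, map_zero]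
        rfl

omit [Fintype I] in
private lemma L1_aug (e : I → ℤ) (c : (G × I) →₀ ℤ) :
    augZ e c = Finsupp.linearCombination ℤ (fun x : G × I => e x.2) c := rfl

omit [Fintype I] in
private lemma L1_tl_add (g : G) (c c' : (G × I) →₀ ℤ) : tl g (c + c') = tl g c + tl g c' :=
  Finsupp.mapDomain_add

omit [Fintype I] in
private lemma L1_tl_smul (g : G) (n : ℤ) (c : (G × I) →₀ ℤ) : tl g (n • c) = n • tl g c :=
  Finsupp.mapDomain_smul _ _

omit [Fintype I] in
private lemma L1_tl_sub (g : G) (c c' : (G × I) →₀ ℤ) : tl g (c - c') = tl g c - tl g c' := by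
  have h1 : c - c' = c + (-1 : ℤ) • c' := by
    rw [neg_one_smul, sub_eq_add_neg]
  rw [h1, L1_tl_add, L1_tl_smul, neg_one_smul, sub_eq_add_neg]

omit [Fintype I] in
private lemma L1_tl_tl (g h : G) (c : (G × I) →₀ ℤ) : tl g (tl h c) = tl (g * h) c := by
  unfold tl
  rw [← Finsupp.mapDomain_comp]
  congr 1
  funext x
  show (g * (h * x.1), x.2) = (g * h * x.1, x.2)
  rw [mul_assoc]

/-- a homogeneous chain -/
private def L1_H (deg : I → ℕ) (k : ℕ) (c : (G × I) →₀ ℤ) : Prop := ∀ x, c x ≠ 0 → deg x.2 = k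

omit [Group G] [Fintype I] in
private lemma L1_H_add {deg : I → ℕ} {k : ℕ} {c c' : (G × I) →₀ ℤ} (h : L1_H deg k c)
    (h' : L1_H deg k c') : L1_H deg k (c + c') := by
  intro x hx
  by_cases h1 : c x = 0
  · refine h' x fun h2 => hx ?_
    rw [Finsupp.add_apply, h1, h2, add_zero]
  · exact h x h1

omit [Group G] [Fintype I] in
private lemma L1_H_smul {deg : I → ℕ} {k : ℕ} {c : (G × I) →₀ ℤ} (n : ℤ) (h : L1_H deg k c) :
    L1_H deg k (n • c) := by
  intro x hx
  refine h x fun h1 => hx ?_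
  rw [Finsupp.smul_apply, h1, smul_zero]

omit [Group G] [Fintype I] in
private lemma L1_H_sub {deg : I → ℕ} {k : ℕ} {c c' : (G × I) →₀ ℤ} (h : L1_H deg k c)
    (h' : L1_H deg k c') : L1_H deg k (c - c') := by
  intro x hx
  by_cases h1 : c x = 0
  · refine h' x fun h2 => hx ?_
    rw [Finsupp.sub_apply, h1, h2, sub_zero]
  · exact h x h1

omit [Group G] [Fintype I] in
private lemma L1_H_zero (deg : I → ℕ) (k : ℕ) : L1_H deg k (0 : (G × I) →₀ ℤ) :=
  fun _ hx => absurd rfl hx

omit [Group G] [Fintype I] in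
private lemma L1_H_sum {deg : I → ℕ} {k : ℕ} {ι : Type} (s : Finset ι)
    (F : ι → (G × I) →₀ ℤ) (h : ∀ i ∈ s, L1_H deg k (F i)) : L1_H deg k (∑ i ∈ s, F i) := by
  classical
  induction s using Finset.induction_on with
  | empty =>
    rw [Finset.sum_empty]
    exact L1_H_zero deg k
  | insert a s ha ih =>
    rw [Finset.sum_insert ha]
    exact L1_H_add (h a (Finset.mem_insert_self _ _))
      (ih fun i hi => h i (Finset.mem_insert_of_mem hi))

omit [Fintype I] in
private lemma L1_bound (L : Len G) {ι : Type} (s : Finset ι) (F : ι → (G × I) →₀ ℤ) :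
    ∃ B : ℕ, ∀ i ∈ s, ∀ x, F i x ≠ 0 → L.l x.1 ≤ B :=
  ⟨s.sup fun i => (F i).support.sup fun x => L.l x.1, fun _ hi _ hx =>
    (Finset.le_sup (f := fun x : G × I => L.l x.1) (Finsupp.mem_support_iff.2 hx)).trans
      (Finset.le_sup (f := fun i => (F i).support.sup fun x => L.l x.1) hi)⟩

end

theorem L1 (h1 : CPD.St_E1) : St_L1 := by
  classical
  intro G _ M
  obtain ⟨e1, e2, e3, e4, e5, e6, e7, e8, e9⟩ := h1 G M.I
  have hres := M.resP
  have hE0 : ∀ i j, M.E i j ≠ 0 → M.deg i = M.deg j + 0 := hres.E_deg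
  have htoV0 : toV (0 : (G × M.I) →₀ ℤ) = 0 := by
    have h2 := e2 (0 : (G × M.I) →₀ ℤ) 0
    rw [add_zero] at h2
    exact left_eq_add.1 h2
  -- the compositions
  have hDD : ∀ c : (G × M.I) →₀ ℤ, opZ M.D (opZ M.D c) = 0 := by
    intro c
    rw [← e6, hres.DD]
    apply e3
    rw [e1, vecMul_zero, htoV0]
  have hED : ∀ c : (G × M.I) →₀ ℤ, opZ M.D (opZ M.E c) = opZ M.D c := by
    intro c
    rw [← e6, hres.ED]
  have hDE : ∀ c : (G × M.I) →₀ ℤ, opZ M.E (opZ M.D c) = opZ M.D c := by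
    intro c
    rw [← e6, hres.DE]
  have hEE : ∀ c : (G × M.I) →₀ ℤ, opZ M.E (opZ M.E c) = opZ M.E c := by
    intro c
    rw [← e6, hres.EE]
  have haugH : ∀ (k : ℕ) (c : (G × M.I) →₀ ℤ), 1 ≤ k → L1_H M.deg k c → augZ M.e c = 0 := by
    intro k c hk hc
    unfold augZ
    refine Finset.sum_eq_zero fun x hx => ?_
    have h5 : M.e x.2 = 0 := by
      by_contra h6
      have h7 := hres.e_deg _ h6
      have h8 := hc x (Finsupp.mem_support_iff.1 hx)
      omega
    show c x * M.e x.2 = 0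
    rw [h5, mul_zero]
  have hD0 : ∀ c : (G × M.I) →₀ ℤ, L1_H M.deg 0 c → opZ M.D c = 0 := by
    intro c hc
    ext y
    rw [L1_opZ_apply]
    refine Finset.sum_eq_zero fun x hx => ?_
    have h2 := hc x (Finsupp.mem_support_iff.1 hx)
    by_contra h3
    have h4 : row M.D x y ≠ 0 := fun h => h3 (by
      show c x * row M.D x y = 0
      rw [h, mul_zero])
    have h5 := hres.D_deg _ _ (L1_row_ne M.D x y h4)
    omega
  -- filling
  have hfill : ∀ (k : ℕ) (c : (G × M.I) →₀ ℤ), opZ M.E c = c → L1_H M.deg k c →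
      opZ M.D c = 0 → augZ M.e c = 0 →
      ∃ b : (G × M.I) →₀ ℤ, L1_H M.deg (k + 1) b ∧ opZ M.E b = b ∧ opZ M.D b = c := by
    intro k c hc hdeg hD haug
    obtain ⟨u, hu1, hu2⟩ := hres.exact (toV c) (by rw [← e1, hc])
      (by rw [← e1, hD, htoV0]) (by rw [← e5, haug])
    obtain ⟨b', hb'⟩ := e4 u
    have hEb' : opZ M.E b' = b' := by
      apply e3
      rw [e1, hb', hu1]
    have hDb' : opZ M.D b' = c := by
      apply e3
      rw [e1, hb', hu2]
    refine ⟨b'.filter (fun x => M.deg x.2 = k + 1), ?_, ?_, ?_⟩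
    · intro x hx
      by_contra h2
      exact hx (Finsupp.filter_apply_neg _ _ h2)
    · ext y
      have h2 := L1_filter M.deg M.E 0 hE0 b' (k + 1) y
      rw [hEb'] at h2
      rw [Finsupp.filter_apply]
      exact h2
    · ext y
      rw [L1_filter M.deg M.D 1 hres.D_deg b' k y, hDb']
      split_ifs with h2
      · rfl
      · by_contra h3
        exact h2 (hdeg y (fun h => h3 h.symm))
  -- the chain of augmentation one
  obtain ⟨v, hv1, hv2⟩ := hres.surj
  obtain ⟨c0, hc0⟩ := e4 v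
  have hc0E : opZ M.E c0 = c0 := by
    apply e3
    rw [e1, hc0, hv1]
  obtain ⟨o, ho0, hoE, hoa⟩ : ∃ o : (G × M.I) →₀ ℤ, L1_H M.deg 0 o ∧
      opZ M.E o = o ∧ augZ M.e o = 1 := by
    refine ⟨c0.filter (fun x => M.deg x.2 = 0 + 0), ?_, ?_, ?_⟩
    · intro x hx
      by_contra h2
      exact hx (Finsupp.filter_apply_neg _ _ (by rwa [zero_add]))
    · ext y
      rw [L1_filter M.deg M.E 0 hE0 c0 0 y, hc0E, Finsupp.filter_apply]
    · have h2 : augZ M.e (c0.filter (fun x => M.deg x.2 = 0 + 0)) = augZ M.e c0 := by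
        have h3 := Finsupp.filter_add_filter_not c0 (fun x => M.deg x.2 = 0 + 0)
        have h6 : augZ M.e c0 = augZ M.e (c0.filter (fun x => M.deg x.2 = 0 + 0) +
            c0.filter (fun x => ¬ M.deg x.2 = 0 + 0)) := by rw [h3]
        rw [h6, L1_aug, L1_aug, map_add]
        have h4 : Finsupp.linearCombination ℤ (fun x : G × M.I => M.e x.2)
            (c0.filter (fun x => ¬ M.deg x.2 = 0 + 0)) = 0 := by
          rw [Finsupp.linearCombination_apply]
          refine Finset.sum_eq_zero fun x hx => ?_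
          rw [Finsupp.support_filter, Finset.mem_filter] at hx
          have h5 : M.e x.2 = 0 := by
            by_contra h6
            exact hx.2 (hres.e_deg _ h6)
          show _ • M.e x.2 = 0
          rw [h5, smul_zero]
        rw [h4]
        exact (add_zero _).symm
      rw [h2, e5, hc0, hv2]
  have htoV : ∀ (A : Matrix M.I M.I (ZG G)) (i j : M.I), toV (row A (1, i)) j = A i j := by
    intro A i j
    apply MonoidAlgebra.ext
    ext g
    show row A (1, i) (g, j) = _
    rw [CPD.row_apply, inv_one, one_mul]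
  have hrow : ∀ (A : Matrix M.I M.I (ZG G)) (x : G × M.I),
      row A x = opZ A (Finsupp.single x 1) := by
    intro A x
    unfold opZ
    rw [Finsupp.linearCombination_single, one_smul]
  have htlrow : ∀ (A : Matrix M.I M.I (ZG G)) (x : G × M.I),
      tl x.1 (row A (1, x.2)) = row A x := by
    intro A x
    ext y
    rw [e9, CPD.row_apply, CPD.row_apply, inv_one, one_mul]
  have hrowH : ∀ x : G × M.I, L1_H M.deg (M.deg x.2) (row M.E x) := by
    intro x y hy
    exact (hres.E_deg _ _ (L1_row_ne M.E x y hy)).symm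
  have htlH : ∀ (k : ℕ) (g : G) (c : (G × M.I) →₀ ℤ), L1_H M.deg k c →
      L1_H M.deg k (tl g c) := by
    intro k g c hc x hx
    rw [e9] at hx
    exact hc (g⁻¹ * x.1, x.2) hx
  obtain ⟨B0, hB0⟩ := L1_bound M.L {()} (fun _ => o)
  refine ⟨M.u + B0, fun R hR => ?_⟩
  have hoR : ∀ x, o x ≠ 0 → M.L.l x.1 ≤ R := fun x hx =>
    (hB0 () (Finset.mem_singleton_self _) x hx).trans (by omega)
  -- ex
  have hex : ∀ i, ∃ b : (G × M.I) →₀ ℤ, L1_H M.deg 1 b ∧ opZ M.E b = b ∧
      (M.deg i = 0 → opZ M.D b = row M.E (1, i) - M.e i • o) := by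
    intro i
    by_cases hi : M.deg i = 0
    · have hH : L1_H M.deg 0 (row M.E (1, i) - M.e i • o) := by
        refine L1_H_sub ?_ (L1_H_smul _ ho0)
        have h2 := hrowH (1, i)
        rwa [show M.deg ((1 : G), i).2 = 0 from hi] at h2
      obtain ⟨b, hb1, hb2, hb3⟩ := hfill 0 (row M.E (1, i) - M.e i • o)
        (by rw [map_sub, map_smul, hoE, hrow, hEE]) hH (hD0 _ hH)
        (by
          rw [L1_aug, map_sub, map_smul, ← L1_aug, ← L1_aug, hoa, e5]
          simp only [htoV]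
          rw [hres.Ee]
          simp)
      exact ⟨b, hb1, hb2, fun _ => hb3⟩
    · exact ⟨0, L1_H_zero _ _, map_zero _, fun h => absurd h hi⟩
  choose ex hex1 hex2 hex3 using hex
  -- es
  have hes : ∀ h : G, ∃ b : (G × M.I) →₀ ℤ, L1_H M.deg 1 b ∧ opZ M.E b = b ∧
      (M.L.l h ≤ R → opZ M.D b = o - tl h o) ∧ (¬ M.L.l h ≤ R → b = 0) := by
    intro h
    by_cases hh : M.L.l h ≤ R
    · have hH : L1_H M.deg 0 (o - tl h o) := L1_H_sub ho0 (htlH 0 h o ho0)
      obtain ⟨b, hb1, hb2, hb3⟩ := hfill 0 (o - tl h o)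
        (by rw [map_sub, e7, hoE]) hH (hD0 _ hH)
        (by rw [L1_aug, map_sub, ← L1_aug, ← L1_aug, e8, sub_self])
      exact ⟨b, hb1, hb2, fun _ => hb3, fun h' => absurd hh h'⟩
    · exact ⟨0, L1_H_zero _ _, map_zero _, fun h' => absurd h' hh, fun _ => rfl⟩
  choose es hes1 hes2 hes3 hes4 using hes
  -- f2
  have hf2 : ∀ h h' : G, ∃ b : (G × M.I) →₀ ℤ, L1_H M.deg 2 b ∧
      (M.L.l h ≤ R → M.L.l h' ≤ R → M.L.l (h * h') ≤ R →
        es h + tl h (es h') = es (h * h') + opZ M.D b) ∧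
      (¬ (M.L.l h ≤ R ∧ M.L.l h' ≤ R) → b = 0) := by
    intro h h'
    by_cases hh : M.L.l h ≤ R ∧ M.L.l h' ≤ R ∧ M.L.l (h * h') ≤ R
    · obtain ⟨hh1, hh2, hh3⟩ := hh
      have hH : L1_H M.deg 1 (es h + tl h (es h') - es (h * h')) :=
        L1_H_sub (L1_H_add (hes1 h) (htlH 1 h _ (hes1 h'))) (hes1 _)
      obtain ⟨b, hb1, hb2, hb3⟩ := hfill 1 (es h + tl h (es h') - es (h * h'))
        (by rw [map_sub, map_add, e7, hes2, hes2, hes2]) hH
        (by
          rw [map_sub, map_add, e7, hes3 h hh1, hes3 h' hh2, hes3 _ hh3, L1_tl_sub, L1_tl_tl]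
          abel)
        (haugH 1 _ le_rfl hH)
      refine ⟨b, hb1, fun _ _ _ => ?_, fun h3 => absurd ⟨hh1, hh2⟩ h3⟩
      rw [hb3]
      abel
    · refine ⟨0, L1_H_zero _ _, fun h3 h4 h5 => absurd ⟨h3, h4, h5⟩ hh, fun _ => rfl⟩
  choose f2 hf21 hf22 hf23 using hf2
  -- sums over the cells of a chain of degree zero
  obtain ⟨S, hS⟩ : ∃ S : ((G × M.I) →₀ ℤ) → ((G × M.I) →₀ ℤ), ∀ c, S c =
      c.sum (fun x n => n • (tl x.1 (ex x.2) - M.e x.2 • es x.1)) := ⟨_, fun _ => rfl⟩
  have hSH : ∀ c, L1_H M.deg 1 (S c) := by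
    intro c
    rw [hS]
    refine L1_H_sum _ _ fun x _ => ?_
    exact L1_H_smul _ (L1_H_sub (htlH 1 _ _ (hex1 _)) (L1_H_smul _ (hes1 _)))
  have hSE : ∀ c, opZ M.E (S c) = S c := by
    intro c
    rw [hS]
    unfold Finsupp.sum
    rw [map_sum]
    refine Finset.sum_congr rfl fun x _ => ?_
    rw [map_smul, map_sub, map_smul, e7, hex2, hes2]
  have hSD : ∀ c, L1_H M.deg 0 c → (∀ x, c x ≠ 0 → M.L.l x.1 ≤ R) →
      opZ M.D (S c) = opZ M.E c - augZ M.e c • o := by
    intro c hc hcR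
    rw [hS]
    unfold Finsupp.sum
    rw [map_sum]
    have h2 : ∀ x ∈ c.support, opZ M.D (c x • (tl x.1 (ex x.2) - M.e x.2 • es x.1)) =
        c x • row M.E x - (c x * M.e x.2) • o := by
      intro x hx
      have hx' := Finsupp.mem_support_iff.1 hx
      rw [map_smul, map_sub, map_smul, e7, hex3 x.2 (hc x hx'), hes3 x.1 (hcR x hx'), L1_tl_sub,
        L1_tl_smul, htlrow, mul_smul, smul_sub, smul_sub, smul_sub, smul_sub]
      abel
    rw [Finset.sum_congr rfl h2, Finset.sum_sub_distrib, ← Finset.sum_smul]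
    congr 1
  -- f1
  have hf1 : ∀ j, ∃ b : (G × M.I) →₀ ℤ, L1_H M.deg 2 b ∧
      (M.deg j = 1 → row M.E (1, j) = S (row M.D (1, j)) + opZ M.D b) := by
    intro j
    by_cases hj : M.deg j = 1
    · have hrD : L1_H M.deg 0 (row M.D (1, j)) := by
        intro y hy
        have h2 : M.deg j = M.deg y.2 + 1 := hres.D_deg _ _ (L1_row_ne M.D (1, j) y hy)
        omega
      have hrR : ∀ x, row M.D (1, j) x ≠ 0 → M.L.l x.1 ≤ R := by
        intro x hx
        rw [CPD.row_apply, inv_one, one_mul] at hx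
        have h2 := M.prop_D _ _ _ hx
        have h3 : M.u = M.c + 1 := rfl
        omega
      have hH : L1_H M.deg 1 (row M.E (1, j) - S (row M.D (1, j))) := by
        refine L1_H_sub ?_ (hSH _)
        have h2 := hrowH (1, j)
        rwa [show M.deg ((1 : G), j).2 = 1 from hj] at h2
      obtain ⟨b, hb1, hb2, hb3⟩ := hfill 1 (row M.E (1, j) - S (row M.D (1, j)))
        (by rw [map_sub, hSE, hrow M.E, hEE]) hH
        (by
          have h4 : augZ M.e (row M.D (1, j)) = 0 := by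
            rw [e5]
            simp only [htoV]
            exact hres.De j
          rw [map_sub, hSD _ hrD hrR, h4, zero_smul, sub_zero, hrow M.E, hED, hrow M.D, hDE,
            sub_self])
        (haugH 1 _ le_rfl hH)
      refine ⟨b, hb1, fun _ => ?_⟩
      rw [hb3]
      abel
    · exact ⟨0, L1_H_zero _ _, fun h => absurd h hj⟩
  choose f1 hf11 hf12 using hf1
  -- f0
  obtain ⟨f0, hf01, -, hf02⟩ := hfill 1 (S o) (hSE o) (hSH o)
    (by rw [hSD o ho0 hoR, hoE, hoa, one_smul, sub_self]) (haugH 1 _ le_rfl (hSH o))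
  -- the radius
  obtain ⟨B1, hB1⟩ := L1_bound M.L (Finset.univ : Finset M.I) ex
  obtain ⟨B2, hB2⟩ := L1_bound M.L (M.L.ball R) es
  obtain ⟨B3, hB3⟩ := L1_bound M.L (M.L.ball R ×ˢ M.L.ball R) (fun p => f2 p.1 p.2)
  obtain ⟨B4, hB4⟩ := L1_bound M.L (Finset.univ : Finset M.I) f1
  obtain ⟨B5, hB5⟩ := L1_bound M.L {()} (fun _ => f0)
  refine ⟨{
    ρ := R + M.u + B1 + B2 + B3 + B4 + B5
    hR := by omega
    hu := by omega
    o := o
    ex := ex
    es := es
    f2 := f2
    f1 := f1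
    f0 := f0
    o_supp := fun x hx => ⟨ho0 x hx, hoR x hx⟩
    ex_supp := fun i x hx => ⟨hex1 i x hx, (hB1 i (Finset.mem_univ i) x hx).trans (by omega)⟩
    es_supp := ?_
    f2_supp := ?_
    f1_supp := fun i x hx => ⟨hf11 i x hx, (hB4 i (Finset.mem_univ i) x hx).trans (by omega)⟩
    f0_supp := fun x hx => ⟨hf01 x hx,
      (hB5 () (Finset.mem_singleton_self _) x hx).trans (by omega)⟩
    o_E := hoE
    o_aug := hoa
    ex_E := hex2
    es_E := hes2
    ex_D := ?_
    es_D := ?_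
    f2_D := hf22
    f1_D := ?_
    f0_D := ?_ }⟩
  · intro h x hx
    refine ⟨hes1 h x hx, ?_⟩
    by_cases hh : M.L.l h ≤ R
    · exact (hB2 h ((M.L.mem_ball R h).2 hh) x hx).trans (by omega)
    · exact absurd (by rw [hes4 h hh]; rfl) hx
  · intro h h' x hx
    refine ⟨hf21 h h' x hx, ?_⟩
    by_cases hh : M.L.l h ≤ R ∧ M.L.l h' ≤ R
    · exact (hB3 (h, h') (Finset.mem_product.2
        ⟨(M.L.mem_ball R h).2 hh.1, (M.L.mem_ball R h').2 hh.2⟩) x hx).trans (by omega)
    · exact absurd (by rw [hf23 h h' hh]; rfl) hx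
  · intro i hi
    rw [hex3 i hi]
    abel
  · intro h hh
    rw [hes3 h hh]
    abel
  · intro j hj
    rw [← hS]
    exact hf12 j hj
  · rw [← hS]
    exact hf02.symm

end Pool.Agent.SPD
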