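import Pool.Agent.SPD.StL
import Pool.Agent.CPD.StF

/-!
# SPD L2: the lifted local identities (helper20)
-/

set_option autoImplicit false

namespace Pool.Agent.SPD

open Matrix Pool.Agent.CPD

section

variable {G I Λ : Type} [Group G] [Ring Λ] [StarRing Λ]

private theorem bl_sg (T : G → G → unitary Λ) (b : G) (y : G × I) (n : ℤ) :
    bl T b (Finsupp.single y n) =
      Finsupp.single y ((n : Λ) * (T b (b⁻¹ * y.1) : Λ)) := by
  classical
  ext z
  rw [bl_apply, Finsupp.single_apply, Finsupp.single_apply]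
  split_ifs with h
  · rw [h]
  · rw [Int.cast_zero, zero_mul]

private theorem tl_add' (g : G) (c c' : (G × I) →₀ ℤ) : tl g (c + c') = tl g c + tl g c' :=
  Finsupp.mapDomain_add

private theorem tl_sg (g : G) (x : G × I) (n : ℤ) :
    tl g (Finsupp.single x n) = Finsupp.single (g * x.1, x.2) n :=
  Finsupp.mapDomain_single

private theorem tl_tl' (g h : G) (c : (G × I) →₀ ℤ) : tl g (tl h c) = tl (g * h) c := by
  unfold tl
  rw [← Finsupp.mapDomain_comp]
  congr 1
  funext x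
  show (g * (h * x.1), x.2) = (g * h * x.1, x.2)
  rw [mul_assoc]

end

section

variable {G : Type} [Group G] (M : Pk G) {π : Type} [Group π] (T : G → G → π)

private theorem sh_add' (v : G) (c c' : (G × M.I) →₀ ℤ) :
    sh M T v (c + c') = sh M T v c + sh M T v c' := by
  unfold sh
  rw [tl_add', bl_add]

/-- `sh` as a homomorphism of groups -/
private noncomputable def shh (v : G) : ((G × M.I) →₀ ℤ) →+ Ch M (ZG π) where
  toFun := sh M T v
  map_zero' := by
    have h := sh_add' M T v 0 0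
    rw [add_zero] at h
    exact left_eq_add.mp h
  map_add' := sh_add' M T v

private theorem shh_apply (v : G) (c : (G × M.I) →₀ ℤ) : shh M T v c = sh M T v c := rfl

private theorem sh_sg (v : G) (x : G × M.I) (n : ℤ) :
    sh M T v (Finsupp.single x n) =
      Finsupp.single (v * x.1, x.2) ((n : ZG π) * gr (T v x.1)) := by
  unfold sh
  rw [tl_sg, bl_sg]
  show Finsupp.single (v * x.1, x.2) ((n : ZG π) * gr (T v (v⁻¹ * (v * x.1)))) = _
  rw [inv_mul_cancel_left]

private theorem sh_sum' (v : G) (c : (G × M.I) →₀ ℤ) : sh M T v c =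
    c.sum (fun x n => Finsupp.single (v * x.1, x.2) ((n : ZG π) * gr (T v x.1))) := by
  classical
  induction c using Finsupp.induction_linear with
  | zero =>
    rw [← shh_apply, map_zero, Finsupp.sum_zero_index]
  | add a b ha hb =>
    rw [sh_add', ha, hb, Finsupp.sum_add_index']
    · intro x
      rw [Int.cast_zero, zero_mul, Finsupp.single_zero]
    · intro x n m
      rw [Int.cast_add, add_mul, Finsupp.single_add]
  | single x n =>
    rw [sh_sg, Finsupp.sum_single_index]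
    rw [Int.cast_zero, zero_mul, Finsupp.single_zero]

end

theorem L2 (hF1 : St_F1) (hE1 : St_E1) : St_L2 := by
  intro G _ M R 𝓛 π _ T v
  obtain ⟨-, -, -, -, -, -, e7, -, e9⟩ := hE1 G M.I
  have hrow : ∀ (A : Matrix M.I M.I (ZG G)) (j : M.I), row A (v, j) = tl v (row A (1, j)) := by
    intro A j
    ext y
    rw [e9, CPD.row_apply, CPD.row_apply]
    show (A j y.2).coeff (v⁻¹ * y.1) = (A j y.2).coeff (1⁻¹ * (v⁻¹ * y.1))
    rw [inv_one, one_mul]
  have h2 : ∀ (A : Matrix M.I M.I (ZG G)) (j : M.I),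
      opT M T A (Finsupp.single (v, j) 1) = sh M T v (row A (1, j)) := by
    intro A j
    show lo (tw T) (row A) (Finsupp.single (v, j) 1) = bl (tw T) v (tl v (row A (1, j)))
    rw [lo_single, one_smul, hrow]
  have hadd := sh_add' M T v
  have hsmul : ∀ (n : ℤ) (c : (G × M.I) →₀ ℤ), sh M T v (n • c) = n • sh M T v c := by
    intro n c
    exact map_zsmul (shh M T v) n c
  refine ⟨sh_sum' M T v, h2, fun c c' n => ⟨hadd c c', hsmul n c⟩, ?_, ?_⟩
  · intro c x hx hc
    apply hx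
    show ((tl v c x : ℤ) : ZG π) * _ = 0
    rw [e9, hc, Int.cast_zero, zero_mul]
  · intro hg
    have hL1 : M.L.l 1 ≤ 𝓛.kap := by
      rw [M.L.one]
      exact Nat.zero_le _
    have hT1 : T v 1 = 1 := by
      have h := hg 1 1 hL1 hL1
      rw [mul_one, mul_one] at h
      exact mul_left_cancel (h.trans (mul_one _).symm)
    have hgA : GoodAt M.L (tw T) 𝓛.kap v := by
      intro h h' hh hh'
      show uhom π (T v h) * uhom π (T (v * h) h') = uhom π (T v (h * h'))
      rw [← map_mul, hg h h' hh hh']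
    obtain ⟨f1, f2, -, -⟩ := hF1 G M.L M.I (ZG π) (tw T) 𝓛.kap v hgA
    -- (6)
    have h6 : ∀ (A : Matrix M.I M.I (ZG G)) (c : (G × M.I) →₀ ℤ),
        (∀ i j g, (A i j).coeff g ≠ 0 → M.L.l g ≤ 𝓛.kap) →
        (∀ x, c x ≠ 0 → M.L.l x.1 ≤ 𝓛.kap) →
        opT M T A (sh M T v c) = sh M T v (opZ A c) := by
      intro A c hA hc
      show lo (tw T) (row A) (bl (tw T) v (tl v c)) = bl (tw T) v (tl v (opZ A c))
      rw [f1 A (tl v c) hA, e7]
      intro y hy
      rw [e9] at hy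
      exact hc _ hy
    -- (7)
    have h7 : ∀ (h : G) (c : (G × M.I) →₀ ℤ), M.L.l h ≤ 𝓛.kap →
        (∀ x, c x ≠ 0 → M.L.l x.1 ≤ 𝓛.kap) →
        gr (T v h) • sh M T (v * h) c = sh M T v (tl h c) := by
      intro h c hh hc
      have h8 := f2 (v * h) (tl (v * h) c) (by rwa [inv_mul_cancel_left]) (by
        intro y hy
        rw [e9] at hy
        exact hc _ hy)
      rw [inv_mul_cancel_left] at h8
      show gr (T v h) • bl (tw T) (v * h) (tl (v * h) c) = bl (tw T) v (tl v (tl h c))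
      rw [tl_tl']
      exact h8
    have hu : M.c ≤ M.u := Nat.le_succ _
    have hk1 : 𝓛.ρ ≤ 𝓛.kap := by
      unfold Loc.kap
      omega
    have hk2 : M.c ≤ 𝓛.kap := by
      unfold Loc.kap
      omega
    have hk3 : R ≤ 𝓛.ρ := by
      have := 𝓛.hR
      omega
    have hPE : ∀ i j g, (M.E i j).coeff g ≠ 0 → M.L.l g ≤ 𝓛.kap :=
      fun i j g h => (M.prop_E i j g h).trans hk2
    have hPD : ∀ i j g, (M.D i j).coeff g ≠ 0 → M.L.l g ≤ 𝓛.kap :=
      fun i j g h => (M.prop_D i j g h).trans hk2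
    have so : ∀ x, 𝓛.o x ≠ 0 → M.L.l x.1 ≤ 𝓛.kap :=
      fun x h => ((𝓛.o_supp x h).2.trans hk3).trans hk1
    have sex : ∀ i x, 𝓛.ex i x ≠ 0 → M.L.l x.1 ≤ 𝓛.kap :=
      fun i x h => (𝓛.ex_supp i x h).2.trans hk1
    have ses : ∀ i x, 𝓛.es i x ≠ 0 → M.L.l x.1 ≤ 𝓛.kap :=
      fun i x h => (𝓛.es_supp i x h).2.trans hk1
    -- sums
    have hsum : ∀ (c : (G × M.I) →₀ ℤ), (∀ x, c x ≠ 0 → M.L.l x.1 ≤ 𝓛.kap) →
        sh M T v (c.sum (fun x n => n • (tl x.1 (𝓛.ex x.2) - M.e x.2 • 𝓛.es x.1))) =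
        c.sum (fun x n => n • (gr (T v x.1) • sh M T (v * x.1) (𝓛.ex x.2) -
          M.e x.2 • sh M T v (𝓛.es x.1))) := by
      intro c hc
      show shh M T v (∑ x ∈ c.support, c x • (tl x.1 (𝓛.ex x.2) - M.e x.2 • 𝓛.es x.1)) =
        ∑ x ∈ c.support, c x • (gr (T v x.1) • sh M T (v * x.1) (𝓛.ex x.2) -
          M.e x.2 • sh M T v (𝓛.es x.1))
      rw [map_sum]
      refine Finset.sum_congr rfl (fun x hx => ?_)
      rw [map_zsmul, map_sub, map_zsmul, shh_apply, shh_apply,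
        h7 x.1 (𝓛.ex x.2) (hc x (Finsupp.mem_support_iff.mp hx)) (sex x.2)]
    refine ⟨hT1, h6, h7, hg, ?_, ?_, ?_, ?_, ?_, ?_, ?_, ?_⟩
    · rw [h6 _ _ hPE so, 𝓛.o_E]
    · intro i
      rw [h6 _ _ hPE (sex i), 𝓛.ex_E]
    · intro h
      rw [h6 _ _ hPE (ses h), 𝓛.es_E]
    · intro i hi
      rw [h2, 𝓛.ex_D i hi, hadd, hsmul, h6 _ _ hPD (sex i)]
    · intro h hh
      rw [h7 h 𝓛.o ((hh.trans hk3).trans hk1) so, h6 _ _ hPD (ses h), ← hadd,
        ← 𝓛.es_D h hh]
    · intro h h' hh hh' hhh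
      rw [h7 h (𝓛.es h') ((hh.trans hk3).trans hk1) (ses h'), ← hadd, 𝓛.f2_D h h' hh hh' hhh,
        hadd, h6 _ _ hPD (fun x hx => (𝓛.f2_supp h h' x hx).2.trans hk1)]
    · intro j hj
      rw [h2, 𝓛.f1_D j hj, hadd, h6 _ _ hPD (fun x hx => (𝓛.f1_supp j x hx).2.trans hk1),
        hsum]
      intro x hx
      rw [CPD.row_apply] at hx
      have := M.prop_D _ _ _ hx
      have h1 : M.L.l x.1 ≤ M.c := by
        have h3 : (1 : G)⁻¹ * x.1 = x.1 := by rw [inv_one, one_mul]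
        rwa [show ((1 : G), j).1⁻¹ * x.1 = x.1 from h3] at this
      exact h1.trans hk2
    · rw [← hsum 𝓛.o so, 𝓛.f0_D, h6 _ _ hPD (fun x hx => (𝓛.f0_supp x hx).2.trans hk1)]

end Pool.Agent.SPD
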