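import Pool.Agent.SPD.StL
import Pool.Agent.CPD.D0

/-!
# [L3] Cocycles on chains give cocycles on words (helper41)
-/

set_option autoImplicit false

namespace Pool.Agent.SPD

open Matrix Pool.Agent.CPD

private theorem L3_gr_one {π : Type} [Group π] : gr (1 : π) = 1 := rfl

private theorem L3_letter {G α : Type} [Group G] (f : α → G) (a : α) (b : Bool) :
    letter f (a, b) * letter f (a, !b) = 1 := by
  cases b <;> simp [letter]

theorem L3 (hL2 : St_L2) : St_L3 := by
  intro G _ M R 𝓛 π _ T n W _ _ b hgood hb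
  have hρ := 𝓛.hR
  have hu := 𝓛.hu
  have hu1 : 1 ≤ M.u := Nat.le_add_left 1 M.c
  have hlen : ∀ v x : G, M.L.l v ≤ M.L.l (v * x) + M.L.l x := by
    intro v x
    have h1 := M.L.mul (v * x) x⁻¹
    rwa [mul_inv_cancel_right, M.L.inv] at h1
  -- boundaries of chains of degree two
  have key : ∀ (v : G) (c : (G × M.I) →₀ ℤ), n + 𝓛.ρ < M.L.l v →
      (∀ x, c x ≠ 0 → M.deg x.2 = 2 ∧ M.L.l x.1 ≤ 𝓛.ρ) →
      b (opT M T M.D (sh M T v c)) = 0 := by
    intro v c hv hc
    have h1 := (hL2 G M R 𝓛 π T v).1 c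
    rw [h1, map_finsuppSum, map_finsuppSum]
    refine Finset.sum_eq_zero fun x hx => ?_
    obtain ⟨h2, h3⟩ := hc x (Finsupp.mem_support_iff.1 hx)
    have h4 : (Finsupp.single (v * x.1, x.2) (((c x : ℤ) : ZG π) * gr (T v x.1)) : Ch M (ZG π)) =
        (((c x : ℤ) : ZG π) * gr (T v x.1)) • Finsupp.single (v * x.1, x.2) 1 := by
      rw [Finsupp.smul_single, smul_eq_mul, mul_one]
    beta_reduce
    have h6 := hb.D0 (v * x.1, x.2) h2 (by
      have h5 := hlen v x.1
      show n < M.L.l (v * x.1)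
      omega)
    rw [h4, map_smul, map_smul, h6, smul_zero]
  have hg : ∀ v, n + 𝓛.ρ < M.L.l v → GoodT M.L T 𝓛.kap v := fun v hv => hgood v (by omega)
  -- (1)
  have h1 : ∀ v h h', n + 𝓛.ρ < M.L.l v → M.L.l h ≤ R → M.L.l h' ≤ R → M.L.l (h * h') ≤ R →
      be M T 𝓛 b v h + gr (T v h) • be M T 𝓛 b (v * h) h' = be M T 𝓛 b v (h * h') := by
    intro v h h' hv e1 e2 e3
    obtain ⟨-, -, -, -, -, -, -, -, -, hf2, -⟩ := (hL2 G M R 𝓛 π T v).2.2.2.2 (hg v hv)
    have h2 := congrArg b (hf2 h h' e1 e2 e3)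
    rw [map_add, map_add, map_smul, key v _ hv (𝓛.f2_supp h h'), add_zero] at h2
    exact h2
  have h4 : ∀ v, n + 𝓛.ρ < M.L.l v → be M T 𝓛 b v 1 = 0 := by
    intro v hv
    have hT1 := ((hL2 G M R 𝓛 π T v).2.2.2.2 (hg v hv)).1
    have h2 := h1 v 1 1 hv (by rw [M.L.one]; omega) (by rw [M.L.one]; omega)
      (by rw [mul_one, M.L.one]; omega)
    rw [hT1, L3_gr_one, one_smul, mul_one, mul_one] at h2
    exact left_eq_add.1 h2.symm
  have h5 : ∀ (α : Type) (f : α → G), (∀ a : α × Bool, M.L.l (letter f a) ≤ 1) →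
      (∀ w : List (α × Bool), M.L.l (value f w) ≤ w.length) ∧
      ∀ (v : G) (w : List (α × Bool)), w.length ≤ R → Avoids f (Bl M.L (n + 𝓛.ρ)) v w →
      Iw f T (fun v a => be M T 𝓛 b v (letter f a)) v w = be M T 𝓛 b v (value f w) := by
    intro α f hf
    have hval : ∀ w : List (α × Bool), M.L.l (value f w) ≤ w.length := by
      intro w
      induction w with
      | nil => rw [d0_value_nil, M.L.one]; exact Nat.zero_le _
      | cons a w ih =>
        rw [d0_value_cons, List.length_cons]
        have e1 := M.L.mul (letter f a) (value f w)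
        have e2 := hf a
        omega
    refine ⟨hval, ?_⟩
    intro v w
    induction w generalizing v with
    | nil =>
      intro _ hav
      have e1 : n + 𝓛.ρ < M.L.l v := by
        have e2 := hav 0 (Nat.zero_le _)
        rw [List.take_zero, d0_value_nil, mul_one] at e2
        exact not_le.1 e2
      rw [d0_value_nil, h4 v e1]
      rfl
    | cons a w ih =>
      intro hw hav
      have hav' := (d0_avoids_cons f _ v a w).1 hav
      have e1 : n + 𝓛.ρ < M.L.l v := by
        have e2 := hav 0 (Nat.zero_le _)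
        rw [List.take_zero, d0_value_nil, mul_one] at e2
        exact not_le.1 e2
      rw [List.length_cons] at hw
      have e3 : Iw f T (fun v a => be M T 𝓛 b v (letter f a)) v (a :: w) =
          be M T 𝓛 b v (letter f a) + gr (T v (letter f a)) •
            Iw f T (fun v a => be M T 𝓛 b v (letter f a)) (v * letter f a) w := rfl
      rw [e3, ih (v * letter f a) (by omega) hav'.2, d0_value_cons]
      refine h1 v _ _ e1 ((hf a).trans (by omega)) ((hval w).trans (by omega)) ?_
      have e4 := M.L.mul (letter f a) (value f w)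
      have e5 := hf a
      have e6 := hval w
      omega
  refine ⟨h1, ?_, ?_, h4, ?_, ?_⟩
  · -- (2)
    intro v j hv hj
    obtain ⟨-, -, -, -, -, -, -, -, -, -, hf1, -⟩ := (hL2 G M R 𝓛 π T v).2.2.2.2 (hg v hv)
    have h2 := congrArg b (hf1 j hj)
    rw [hb.E0 _ hj (by show n < M.L.l v; omega), map_add, key v _ hv (𝓛.f1_supp j), add_zero,
      map_finsuppSum] at h2
    rw [h2]
    refine Finsupp.sum_congr fun x _ => ?_
    rw [map_zsmul, map_sub, map_smul, map_zsmul]
    rfl
  · -- (3)
    intro v hv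
    obtain ⟨-, -, -, -, -, -, -, -, -, -, -, hf0⟩ := (hL2 G M R 𝓛 π T v).2.2.2.2 (hg v hv)
    have h2 := congrArg b hf0
    rw [key v _ hv 𝓛.f0_supp, map_finsuppSum] at h2
    rw [← h2]
    refine Finsupp.sum_congr fun x _ => ?_
    rw [map_zsmul, map_sub, map_smul, map_zsmul]
    rfl
  · intro α f hf
    exact (h5 α f hf).2
  · intro α f Rel hf hRel
    constructor
    · intro v a b' hv hv'
      have e1 : n + 𝓛.ρ < M.L.l v := not_le.1 hv
      have e2 := h1 v (letter f (a, b')) (letter f (a, !b')) e1 ((hf _).trans (by omega))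
        ((hf _).trans (by omega)) (by rw [L3_letter, M.L.one]; omega)
      rw [L3_letter, h4 v e1] at e2
      exact e2
    · intro r hr v hav
      obtain ⟨e1, e2⟩ := hRel r hr
      rw [(h5 α f hf).2 v r e1 hav, e2]
      refine h4 v ?_
      have e3 := hav 0 (Nat.zero_le _)
      rw [List.take_zero, d0_value_nil, mul_one] at e3
      exact not_le.1 e3

end Pool.Agent.SPD
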