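import Pool.Agent.SPD.StL

/-! SPD, module L4 (helper85): a potential on group elements gives a potential on chains. -/

set_option autoImplicit false

namespace Pool.Agent.SPD

open Matrix Pool.Agent.CPD

private lemma L4_au {G : Type} [Group G] (a : ZG G) : au a = a.coeff.sum (fun _ n => n) := by
  unfold au
  rw [MonoidAlgebra.lift_apply]
  refine Finsupp.sum_congr fun g _ => ?_
  rw [MonoidHom.one_apply, smul_eq_mul, mul_one]

/-- the augmentation of the boundary of a cell -/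
private lemma L4_aug {G : Type} [Group G] (M : Pk G) (j : M.I) :
    (row M.D (1, j)).sum (fun x n => n * M.e x.2) = 0 := by
  have h0 : ∀ x : G × M.I, (fun (x : G × M.I) (n : ℤ) => n * M.e x.2) x 0 = 0 :=
    fun x => zero_mul _
  have h1 : ∀ (x : G × M.I) (m n : ℤ), (fun (x : G × M.I) (n : ℤ) => n * M.e x.2) x (m + n) =
      (fun (x : G × M.I) (n : ℤ) => n * M.e x.2) x m +
        (fun (x : G × M.I) (n : ℤ) => n * M.e x.2) x n := fun x m n => add_mul _ _ _
  unfold CPD.row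
  rw [← Finsupp.sum_finsetSum_index h0 h1, ← M.resP.De j]
  refine Finset.sum_congr rfl fun i _ => ?_
  rw [Finsupp.sum_mapDomain_index h0 h1, L4_au, Finsupp.sum_mul]

private lemma L4_alg {Λ W : Type} [Ring Λ] [AddCommGroup W] [Module Λ W] (c e : ℤ) (g : Λ)
    (P B q : W) :
    ((c : Λ) * g) • (e • P + B) = c • (g • B - e • (q - g • P)) + (c * e) • q := by
  have h1 : g • (e • P) = e • (g • P) := smul_comm g e P
  rw [mul_smul, Int.cast_smul_eq_zsmul, smul_add, h1]
  generalize g • P = P'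
  generalize g • B = B'
  module

/-- the value of the cochain of a potential on a lifted chain of degree zero -/
private lemma L4_main (hL2 : St_L2) {G : Type} [Group G] (M : Pk G) {R : ℕ} (𝓛 : Loc M R)
    {π : Type} [Group π] (T : G → G → π) (n' : ℕ) {W : Type} [AddCommGroup W] [Module (ZG π) W]
    (b : Ch M (ZG π) →ₗ[ZG π] W) (p : G → W) (hp : Pot M T 𝓛 b n' p) (v : G)
    (hv : n' < M.L.l v) (c : (G × M.I) →₀ ℤ)
    (hc : ∀ x, c x ≠ 0 → M.deg x.2 = 0 ∧ M.L.l x.1 ≤ R) :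
    potF M T 𝓛 b p (sh M T v c) =
      c.sum (fun x m => m • (gr (T v x.1) • b (sh M T (v * x.1) (𝓛.ex x.2)) -
        M.e x.2 • be M T 𝓛 b v x.1)) + (c.sum fun x m => m * M.e x.2) • p v := by
  rw [(hL2 G M R 𝓛 π T v).1 c, map_finsuppSum]
  unfold Finsupp.sum
  rw [Finset.sum_smul, ← Finset.sum_add_distrib]
  refine Finset.sum_congr rfl fun x hx => ?_
  obtain ⟨h1, h2⟩ := hc x (Finsupp.mem_support_iff.1 hx)
  unfold potF
  beta_reduce
  rw [Finsupp.linearCombination_single]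
  show (((c x : ℤ) : ZG π) * gr (T v x.1)) • (if M.deg x.2 = 0 then M.e x.2 • p (v * x.1) +
    b (sh M T (v * x.1) (𝓛.ex x.2)) else 0) = _
  rw [if_pos h1, hp v x.1 hv h2]
  exact L4_alg (c x) (M.e x.2) (gr (T v x.1)) (p (v * x.1)) _ (p v)

theorem L4 (hL2 : St_L2) (hL3 : St_L3) : St_L4 := by
  intro G _ M R 𝓛 π _ T n n' W _ _ b p hgood hcoc hn hp
  obtain ⟨-, h2, h3, -, -, -⟩ := hL3 G M R 𝓛 π T n W b hgood hcoc
  have hu : M.c + 1 ≤ R := 𝓛.hu
  refine ⟨?_, ?_⟩
  · rintro ⟨v, j⟩ hj hv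
    have hj' : M.deg j = 1 := hj
    have hv' : n' + 𝓛.ρ < M.L.l v := hv
    rw [(hL2 G M R 𝓛 π T v).2.1 M.D j,
      L4_main hL2 M 𝓛 T n' b p hp v (by omega) (row M.D (1, j)) ?_, L4_aug, zero_smul, add_zero]
    · exact h2 v j (by omega) hj'
    · intro x hx
      rw [CPD.row_apply] at hx
      have hD : M.D j x.2 ≠ 0 := by
        intro h
        apply hx
        show (M.D j x.2).coeff _ = 0
        rw [h]
        rfl
      refine ⟨?_, ?_⟩
      · have := M.resP.D_deg j x.2 hD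
        omega
      · have h5 := M.prop_D j x.2 _ hx
        have h6 : (1 : G)⁻¹ * x.1 = x.1 := by rw [inv_one, one_mul]
        have h7 : M.L.l ((1 : G)⁻¹ * x.1) ≤ M.c := h5
        rw [h6] at h7
        omega
  · intro v hv
    rw [L4_main hL2 M 𝓛 T n' b p hp v (by omega) 𝓛.o 𝓛.o_supp, h3 v (by omega), zero_add]
    have h4 : (𝓛.o.sum fun x m => m * M.e x.2) = 1 := 𝓛.o_aug
    rw [h4, one_smul]

end Pool.Agent.SPD
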