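import Pool.Agent.SPD.StL

/-!
# [L5] Chains along words
-/

set_option autoImplicit false

namespace Pool.Agent.SPD

open Matrix Pool.Agent.CPD

section L5sec

variable {G α : Type} [Group G]

private theorem L5_value_nil (f : α → G) : value f [] = 1 := rfl

private theorem L5_value_cons (f : α → G) (a : α × Bool) (w : List (α × Bool)) :
    value f (a :: w) = letter f a * value f w := by
  unfold value
  rw [List.map_cons, List.prod_cons]

private theorem L5_avoids_cons (f : α → G) (K : Set G) (g : G) (a : α × Bool)
    (w : List (α × Bool)) (h : Avoids f K g (a :: w)) :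
    g ∉ K ∧ Avoids f K (g * letter f a) w := by
  constructor
  · have h1 := h 0 (Nat.zero_le _)
    rw [List.take_zero, L5_value_nil, mul_one] at h1
    exact h1
  · intro n hn
    have h1 := h (n + 1) (by rw [List.length_cons]; omega)
    rw [List.take_succ_cons, L5_value_cons, ← mul_assoc] at h1
    exact h1

private theorem L5_gr_one (π : Type) [Group π] : gr (1 : π) = 1 := rfl

private theorem L5_gr_mul {π : Type} [Group π] (g h : π) : gr (g * h) = gr g * gr h := by
  unfold gr
  rw [MonoidAlgebra.single_mul_single, mul_one]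

end L5sec

/-- [L5] Chains along words. -/
theorem L5 (hL2 : St_L2) : St_L5 := by
  intro G α _ f M R 𝓛 π _ T n hlet hgood
  have hR1 : 1 ≤ R := by
    have h1 := 𝓛.hu
    unfold Pk.u at h1
    omega
  have hcons : ∀ (g : G) (a : α × Bool) (w : List (α × Bool)), chw f M 𝓛 T g (a :: w) =
      sh M T g (𝓛.es (letter f a)) +
        gr (T g (letter f a)) • chw f M 𝓛 T (g * letter f a) w := fun _ _ _ => rfl
  have hnil : ∀ g : G, chw f M 𝓛 T g [] = 0 := fun _ => rfl
  have hholn : ∀ g : G, hol f (lab f T) g [] = 1 := fun _ => rfl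
  have hholc : ∀ (g : G) (a : α × Bool) (w : List (α × Bool)), hol f (lab f T) g (a :: w) =
      T g (letter f a) * hol f (lab f T) (g * letter f a) w := fun _ _ _ => rfl
  refine ⟨?_, ?_, ?_, ?_⟩
  · intro g u v
    induction u generalizing g with
    | nil =>
      rw [List.nil_append, hnil, hholn, L5_value_nil, mul_one, L5_gr_one, one_smul, zero_add]
    | cons a u ih =>
      rw [List.cons_append, hcons, hcons, ih, hholc, L5_value_cons, L5_gr_mul, smul_add,
        smul_smul, add_assoc, mul_assoc]
  · intro g w
    induction w generalizing g with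
    | nil =>
      intro _
      rw [hnil, hholn, L5_value_nil, mul_one, L5_gr_one, one_smul, map_zero, sub_self]
    | cons a w ih =>
      intro hA
      obtain ⟨h1, h2⟩ := L5_avoids_cons f _ g a w hA
      have hg : n < M.L.l g := by
        by_contra h
        exact h1 (not_lt.1 h)
      obtain ⟨-, -, -, -, hG⟩ := hL2 G M R 𝓛 π T g
      obtain ⟨-, -, -, -, -, -, -, -, hD, -⟩ := hG (hgood g hg)
      have h3 := hD (letter f a) ((hlet a).trans hR1)
      have h4 := ih (g * letter f a) h2
      rw [hcons, map_add, map_smul, h4, hholc, L5_value_cons, L5_gr_mul, smul_sub, smul_smul,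
        h3, mul_assoc]
      abel
  · intro m g w x
    induction w generalizing g with
    | nil =>
      intro _ hx
      exact absurd (by rw [hnil]; rfl) hx
    | cons a w ih =>
      intro hA hx
      obtain ⟨h1, h2⟩ := L5_avoids_cons f _ g a w hA
      by_cases hs : sh M T g (𝓛.es (letter f a)) x = 0
      · apply ih (g * letter f a) h2
        intro h3
        apply hx
        rw [hcons, Finsupp.add_apply, hs, zero_add, Finsupp.smul_apply, h3, smul_zero]
      · obtain ⟨-, -, -, hS, -⟩ := hL2 G M R 𝓛 π T g
        obtain ⟨h3, h4⟩ := 𝓛.es_supp _ _ (hS _ _ hs)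
        refine ⟨h3, ?_⟩
        have hg : m < M.L.l g := by
          by_contra h
          exact h1 (not_lt.1 h)
        have h5 : M.L.l g ≤ M.L.l x.1 + M.L.l (g⁻¹ * x.1) := by
          have h6 := M.L.mul x.1 (g⁻¹ * x.1)⁻¹
          rw [M.L.inv] at h6
          have h7 : x.1 * (g⁻¹ * x.1)⁻¹ = g := by group
          rw [h7] at h6
          exact h6
        have h8 : M.L.l (g⁻¹ * x.1) ≤ 𝓛.ρ := h4
        omega
  · intro g w
    induction w generalizing g with
    | nil =>
      intro _
      rw [hnil, map_zero]
    | cons a w ih =>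
      intro hA
      obtain ⟨h1, h2⟩ := L5_avoids_cons f _ g a w hA
      have hg : n < M.L.l g := by
        by_contra h
        exact h1 (not_lt.1 h)
      obtain ⟨-, -, -, -, hG⟩ := hL2 G M R 𝓛 π T g
      obtain ⟨-, -, -, -, -, -, hE, -⟩ := hG (hgood g hg)
      rw [hcons, map_add, map_smul, ih (g * letter f a) h2, hE]

end Pool.Agent.SPD
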