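import Pool.Agent.SPD.StL
import Pool.Agent.SPD.StW

/-!
# SPD L6 : homotopic words have homologous chains (helper46)
-/

set_option autoImplicit false

namespace Pool.Agent.SPD

open Matrix Pool.Agent.CPD

private theorem L6_gr_one (π : Type) [Group π] : gr (1 : π) = 1 := rfl

private theorem L6_gr_mul {π : Type} [Group π] (g h : π) : gr (g * h) = gr g * gr h := by
  unfold gr
  rw [MonoidAlgebra.single_mul_single, mul_one]

private theorem L6_val_single {G α : Type} [Group G] (f : α → G) (a : α × Bool) :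
    value f [a] = letter f a := by
  unfold value
  rw [List.map_singleton, List.prod_singleton]

private theorem L6_val_cons {G α : Type} [Group G] (f : α → G) (a : α × Bool)
    (x : List (α × Bool)) : value f (a :: x) = letter f a * value f x := by
  unfold value
  rw [List.map_cons, List.prod_cons]

private theorem L6_len {G α : Type} [Group G] (f : α → G) (L : Len G)
    (h1 : ∀ a : α × Bool, L.l (letter f a) ≤ 1) (x : List (α × Bool)) :
    L.l (value f x) ≤ x.length := by
  induction x with
  | nil =>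
    show L.l (1 : G) ≤ 0
    rw [L.one]
  | cons a x ih =>
    rw [L6_val_cons, List.length_cons]
    have h2 := L.mul (letter f a) (value f x)
    have h3 := h1 a
    omega

private theorem L6_fst {G α : Type} [Group G] (f : α → G) (K : Set G) (g : G)
    (w : List (α × Bool)) (h : Avoids f K g w) : g ∉ K := by
  have h1 := h 0 (Nat.zero_le _)
  rw [List.take_zero] at h1
  have h2 : g * value f ([] : List (α × Bool)) = g := mul_one g
  rw [h2] at h1
  exact h1

private theorem L6_word {G α : Type} [Group G] (f : α → G) (M : Pk G) {R : ℕ} (𝓛 : Loc M R)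
    {π : Type} [Group π] (T : G → G → π) (n m : ℕ) (hL2 : St_L2)
    (hav : ∀ (K : Set G) (g : G) (u v : List (α × Bool)),
      Avoids f K g (u ++ v) ↔ Avoids f K g u ∧ Avoids f K (g * value f u) v)
    (h1 : ∀ a : α × Bool, M.L.l (letter f a) ≤ 1)
    (hgood : ∀ v, n < M.L.l v → GoodT M.L T 𝓛.kap v) (hnm : n ≤ m) :
    ∀ (x : List (α × Bool)) (g : G), Avoids f (Bl M.L m) g x →
      (∀ y, y <:+ x → M.L.l (value f y) ≤ R) →
      ∃ e : Ch M (ZG π), (∀ z, e z ≠ 0 → M.deg z.2 = 2 ∧ m < M.L.l z.1 + 𝓛.ρ) ∧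
        chw f M 𝓛 T g x = sh M T g (𝓛.es (value f x)) + opT M T M.D e := by
  have hR : 1 ≤ R := by
    have h2 := 𝓛.hu
    have h3 : 1 ≤ M.u := Nat.le_add_left 1 M.c
    omega
  have hsup : ∀ (g : G) (h h' : G), m < M.L.l g → ∀ z, sh M T g (𝓛.f2 h h') z ≠ 0 →
      M.deg z.2 = 2 ∧ m < M.L.l z.1 + 𝓛.ρ := by
    intro g h h' hg z hz
    obtain ⟨-, -, -, h4, -⟩ := hL2 G M R 𝓛 π T g
    have h5 := 𝓛.f2_supp h h' _ (h4 _ z hz)
    refine ⟨h5.1, ?_⟩
    have h6 : M.L.l (g⁻¹ * z.1) ≤ 𝓛.ρ := h5.2
    have h7 : g = z.1 * (g⁻¹ * z.1)⁻¹ := by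
      rw [_root_.mul_inv_rev, inv_inv, mul_inv_cancel_left]
    have h8 := M.L.mul z.1 (g⁻¹ * z.1)⁻¹
    rw [← h7, M.L.inv] at h8
    omega
  intro x
  induction x with
  | nil =>
    intro g hg _
    have hg1 : m < M.L.l g := by
      have h2 : ¬ (M.L.l g ≤ m) := L6_fst f _ g _ hg
      omega
    obtain ⟨-, -, -, -, h5⟩ := hL2 G M R 𝓛 π T g
    obtain ⟨hT1, -, -, -, -, -, -, -, -, hf2, -⟩ := h5 (hgood g (by omega))
    have h6 := hf2 1 1 (by rw [M.L.one]; omega) (by rw [M.L.one]; omega)
      (by rw [mul_one, M.L.one]; omega)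
    rw [hT1, L6_gr_one, one_smul, mul_one, mul_one] at h6
    have h7 : sh M T g (𝓛.es 1) = opT M T M.D (sh M T g (𝓛.f2 1 1)) := add_left_cancel h6
    refine ⟨- sh M T g (𝓛.f2 1 1), fun z hz => hsup g 1 1 hg1 z ?_, ?_⟩
    · intro h8
      apply hz
      rw [Finsupp.neg_apply, h8, neg_zero]
    · show (0 : Ch M (ZG π)) = sh M T g (𝓛.es (1 : G)) + _
      rw [map_neg, h7, add_neg_cancel]
  | cons a x ih =>
    intro g hg hsuf
    have hg1 : m < M.L.l g := by
      have h2 : ¬ (M.L.l g ≤ m) := L6_fst f _ g _ hg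
      omega
    have hg2 : Avoids f (Bl M.L m) (g * letter f a) x := by
      have h2 := (hav (Bl M.L m) g [a] x).1 hg
      rw [L6_val_single] at h2
      exact h2.2
    obtain ⟨e, he1, he2⟩ := ih (g * letter f a) hg2
      (fun y hy => hsuf y (hy.trans (List.suffix_cons a x)))
    obtain ⟨-, -, -, -, h5⟩ := hL2 G M R 𝓛 π T g
    obtain ⟨-, -, -, -, -, -, -, -, -, hf2, -⟩ := h5 (hgood g (by omega))
    have ha := h1 a
    have hx1 : M.L.l (value f x) ≤ R := hsuf x (List.suffix_cons a x)
    have hx2 : M.L.l (letter f a * value f x) ≤ R := by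
      have h2 := hsuf (a :: x) List.suffix_rfl
      rw [L6_val_cons] at h2
      exact h2
    have h6 := hf2 (letter f a) (value f x) (by omega) hx1 hx2
    refine ⟨sh M T g (𝓛.f2 (letter f a) (value f x)) + gr (T g (letter f a)) • e, ?_, ?_⟩
    · intro z hz
      by_cases h7 : sh M T g (𝓛.f2 (letter f a) (value f x)) z = 0
      · apply he1 z
        intro h8
        apply hz
        rw [Finsupp.add_apply, h7, Finsupp.smul_apply, h8, smul_zero, add_zero]
      · exact hsup g _ _ hg1 z h7
    · show sh M T g (𝓛.es (letter f a)) +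
        gr (T g (letter f a)) • chw f M 𝓛 T (g * letter f a) x = _
      rw [he2, L6_val_cons, smul_add, ← add_assoc, h6, map_add, LinearMap.map_smul, add_assoc]

/-- [L6] homotopic words have homologous chains. -/
theorem L6 (hL2 : St_L2) (hL5 : St_L5) (hW0 : St_W0) : St_L6 := by
  intro G α _ f Rel M R 𝓛 π _ T n m h1 hRel hlab hgood hnm g
  obtain ⟨-, -, hav, -, hhol, -, hmono, -⟩ := hW0 G α f
  obtain ⟨happ, -⟩ := hL5 G α f M R 𝓛 π T n h1 hgood
  have hBl : Bl M.L n ⊆ Bl M.L m := fun v hv => by
    have h2 : M.L.l v ≤ n := hv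
    show M.L.l v ≤ m
    omega
  -- the common part of the two kinds of moves
  have key : ∀ u x v : List (α × Bool), Avoids f (Bl M.L m) g (u ++ x ++ v) →
      value f x = 1 → hol f (lab f T) (g * value f u) x = 1 →
      (∀ y, y <:+ x → M.L.l (value f y) ≤ R) →
      ∃ e : Ch M (ZG π), (∀ z, e z ≠ 0 → M.deg z.2 = 2 ∧ m < M.L.l z.1 + 𝓛.ρ) ∧
        chw f M 𝓛 T g (u ++ v) - chw f M 𝓛 T g (u ++ x ++ v) = opT M T M.D e := by
    intro u x v hA hx hh hs
    have hA1 : Avoids f (Bl M.L m) (g * value f u) x :=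
      ((hav _ _ _ _).1 ((hav _ _ _ _).1 hA).1).2
    obtain ⟨e, he1, he2⟩ := L6_word f M 𝓛 T n m hL2 hav h1 hgood hnm x (g * value f u) hA1 hs
    obtain ⟨e1, he3, he4⟩ : ∃ e : Ch M (ZG π),
        (∀ z, e z ≠ 0 → M.deg z.2 = 2 ∧ m < M.L.l z.1 + 𝓛.ρ) ∧
        sh M T (g * value f u) (𝓛.es 1) = opT M T M.D e := by
      obtain ⟨e0, he5, he6⟩ := L6_word f M 𝓛 T n m hL2 hav h1 hgood hnm [] (g * value f u)
        (fun i _ => by
          rw [List.take_nil]
          have h3 : g * value f u * value f ([] : List (α × Bool)) = g * value f u := mul_one _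
          rw [h3]
          exact L6_fst f _ _ _ hA1)
        (fun y hy => by
          rw [List.suffix_nil.1 hy]
          show M.L.l (1 : G) ≤ R
          rw [M.L.one]
          omega)
      refine ⟨- e0, fun z hz => he5 z fun h3 => hz (by rw [Finsupp.neg_apply, h3, neg_zero]), ?_⟩
      have h3 : (0 : Ch M (ZG π)) = sh M T (g * value f u) (𝓛.es 1) + opT M T M.D e0 := he6
      rw [map_neg]
      exact eq_neg_of_add_eq_zero_left h3.symm
    have h2 : chw f M 𝓛 T (g * value f u) x = opT M T M.D (e1 + e) := by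
      rw [he2, hx, he4, map_add]
    refine ⟨- (gr (hol f (lab f T) g u) • (e1 + e)), ?_, ?_⟩
    · intro z hz
      by_cases h7 : e1 z = 0
      · apply he1 z
        intro h8
        apply hz
        rw [Finsupp.neg_apply, Finsupp.smul_apply, Finsupp.add_apply, h7, h8, add_zero,
          smul_zero, neg_zero]
      · exact he3 z h7
    · have h3 : hol f (lab f T) g (u ++ x) = hol f (lab f T) g u := by
        rw [hhol, hh, mul_one]
      have h4 : g * value f (u ++ x) = g * value f u := by
        have h5 : value f (u ++ x) = value f u * value f x := by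
          unfold value
          rw [List.map_append, List.prod_append]
        rw [h5, hx, mul_one]
      rw [happ g u v, happ g (u ++ x) v, happ g u x, h3, h4, h2, map_neg, LinearMap.map_smul]
      abel
  have hmove : ∀ w w', Move f Rel (Bl M.L m) g w w' →
      ∃ e : Ch M (ZG π), (∀ z, e z ≠ 0 → M.deg z.2 = 2 ∧ m < M.L.l z.1 + 𝓛.ρ) ∧
        chw f M 𝓛 T g w - chw f M 𝓛 T g w' = opT M T M.D e := by
    intro w w' hw
    cases hw with
    | back u v a b hA =>
      have h2 : u ++ (a, b) :: (a, !b) :: v = u ++ [(a, b), (a, !b)] ++ v := by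
        rw [List.append_assoc]
        rfl
      rw [h2] at hA ⊢
      have hA1 : Avoids f (Bl M.L m) (g * value f u) [(a, b), (a, !b)] :=
        ((hav _ _ _ _).1 ((hav _ _ _ _).1 hA).1).2
      have hinv : letter f (a, b) * letter f (a, !b) = 1 := by
        unfold letter
        cases b
        · show (f a)⁻¹ * f a = 1
          exact inv_mul_cancel _
        · show f a * (f a)⁻¹ = 1
          exact mul_inv_cancel _
      have hv0 : value f [(a, b), (a, !b)] = 1 := by
        rw [L6_val_cons, L6_val_single, hinv]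
      refine key u [(a, b), (a, !b)] v hA hv0 ?_ ?_
      · have h3 : g * value f u ∉ Bl M.L n := fun h => L6_fst f _ _ _ hA1 (hBl h)
        have h4 : g * value f u * letter f (a, b) ∉ Bl M.L n := by
          intro h
          have h5 := hA1 1 (by show 1 ≤ 2; omega)
          have h6 : List.take 1 [(a, b), (a, !b)] = [(a, b)] := rfl
          rw [h6, L6_val_single] at h5
          exact h5 (hBl h)
        have h5 := hlab.edge (g * value f u) a b h3 h4
        show lab f T (g * value f u) (a, b) *
          (lab f T (g * value f u * letter f (a, b)) (a, !b) * 1) = 1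
        rw [mul_one]
        exact h5
      · intro y hy
        have h3 := L6_len f M.L h1 y
        have hR : 1 ≤ R := by
          have h4 := 𝓛.hu
          have h5 : 1 ≤ M.u := Nat.le_add_left 1 M.c
          omega
        rcases List.suffix_cons_iff.1 hy with h4 | h4
        · rw [h4, hv0, M.L.one]
          omega
        · have h5 := h4.length_le
          have h6 : [(a, !b)].length = 1 := rfl
          omega
    | rel u r v hr hA =>
      refine key u r v hA (hRel r hr).2 ?_ ?_
      · have hA1 : Avoids f (Bl M.L m) (g * value f u) r :=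
          ((hav _ _ _ _).1 ((hav _ _ _ _).1 hA).1).2
        exact hlab.cell r hr _ (hmono _ _ _ _ hBl hA1)
      · intro y hy
        have h3 := L6_len f M.L h1 y
        have h4 := hy.length_le
        have h5 := (hRel r hr).1
        omega
  intro w w' hE
  induction hE with
  | rel w w' h => exact hmove w w' h
  | refl w =>
    refine ⟨0, fun z hz => absurd rfl hz, ?_⟩
    rw [sub_self, map_zero]
  | symm w w' _ ih =>
    obtain ⟨e, he1, he2⟩ := ih
    refine ⟨- e, fun z hz => he1 z fun h3 => hz (by rw [Finsupp.neg_apply, h3, neg_zero]), ?_⟩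
    rw [map_neg, ← he2, neg_sub]
  | trans w w' w'' _ _ ih1 ih2 =>
    obtain ⟨e, he1, he2⟩ := ih1
    obtain ⟨e', he3, he4⟩ := ih2
    refine ⟨e + e', ?_, ?_⟩
    · intro z hz
      by_cases h7 : e z = 0
      · apply he3 z
        intro h8
        apply hz
        rw [Finsupp.add_apply, h7, h8, add_zero]
      · exact he1 z h7
    · rw [map_add, ← he2, ← he4, sub_add_sub_cancel]

end Pool.Agent.SPD
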