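import Pool.Agent.SPD.StC

/-!
# SPD [P0]: the flow in degree zero, paths to the base vertex
-/

set_option autoImplicit false

namespace Pool.Agent.SPD

open Matrix Pool.Agent.CPD

theorem P0 (hL2 : St_L2) (hL5 : St_L5) : St_P0 := by
  intro G α π _ _ f Rel M R 𝓛 N n0 n T hD
  obtain ⟨n', hn', hj⟩ := hD.base.join (n + 𝓛.ρ)
  refine ⟨n' + n + 2 * 𝓛.ρ, by omega, ?_⟩
  intro a ha v i hv hi
  obtain ⟨w, hw, hwa⟩ := hj v a (by omega) (by omega)
  have hwn : Avoids f (Bl M.L n) v w := by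
    intro k hk hc
    apply hw k hk
    have h1 : M.L.l (v * value f (w.take k)) ≤ n := hc
    show M.L.l (v * value f (w.take k)) ≤ n + 𝓛.ρ
    omega
  obtain ⟨-, -, -, h4, h5⟩ := hL2 G M R 𝓛 π T v
  obtain ⟨-, -, -, -, -, hex, -, hs, -, -, -, -⟩ := h5 (hD.good v (by omega))
  obtain ⟨-, hc2, hc3, hc4⟩ := hL5 G α f M R 𝓛 π T n hD.base.len hD.good
  refine ⟨sh M T v (𝓛.ex i) + M.e i • chw f M 𝓛 T v w, M.e i • gr (hol f (SPD.lab f T) v w),
    ?_, ?_, ?_⟩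
  · intro x hx
    by_cases h1 : sh M T v (𝓛.ex i) x = 0
    · have h2 : chw f M 𝓛 T v w x ≠ 0 := by
        intro h2
        apply hx
        rw [Finsupp.add_apply, Finsupp.smul_apply, h1, h2, smul_zero, add_zero]
      have h3 := hc3 (n + 𝓛.ρ) v w x hw h2
      refine ⟨h3.1, ?_⟩
      have := h3.2
      omega
    · have h2 := 𝓛.ex_supp i _ (h4 _ _ h1)
      refine ⟨h2.1, ?_⟩
      have h3 : M.L.l (v⁻¹ * x.1) ≤ 𝓛.ρ := h2.2
      have h6 : M.L.l v ≤ M.L.l x.1 + M.L.l (x.1⁻¹ * v) := by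
        have := M.L.mul x.1 (x.1⁻¹ * v)
        rwa [mul_inv_cancel_left] at this
      have h7 : M.L.l (x.1⁻¹ * v) = M.L.l (v⁻¹ * x.1) := by
        rw [← M.L.inv (v⁻¹ * x.1)]
        congr 1
        group
      omega
  · rw [map_add, map_zsmul, hex, hc4 v w hwn]
  · rw [hs i hi, map_add, map_zsmul, hc2 v w hwn, hwa, smul_sub, smul_assoc]
    abel

end Pool.Agent.SPD
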