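import Pool.Agent.SPD.StC

/-!
# Module P1 (helper37): the flow in degree one
-/

set_option autoImplicit false

namespace Pool.Agent.SPD

open Matrix Pool.Agent.CPD

private theorem P1_op_apply {G : Type} [Group G] (M : Pk G) {Λ : Type} [Ring Λ] [StarRing Λ]
    (T : G → G → unitary Λ) (A : Matrix M.I M.I (ZG G)) (x y : G × M.I)
    (h : op M T A (Finsupp.single x 1) y ≠ 0) : (A x.2 y.2).coeff (x.1⁻¹ * y.1) ≠ 0 := by
  unfold op at h
  rw [lo_single, one_smul, bl_apply, CPD.row_apply] at h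
  intro h0
  rw [h0, Int.cast_zero, zero_mul] at h
  exact h rfl

private theorem P1_lin {X Λ W : Type} [Ring Λ] [AddCommGroup W] [Module Λ W]
    (H : (X →₀ Λ) →ₗ[Λ] W) (w : X →₀ Λ) :
    H w = ∑ x ∈ w.support, w x • H (Finsupp.single x 1) := by
  conv_lhs => rw [← Finsupp.sum_single w]
  rw [Finsupp.sum, map_sum]
  refine Finset.sum_congr rfl fun x _ => ?_
  rw [← map_smul, Finsupp.smul_single, smul_eq_mul, mul_one]

private theorem P1_supp {G : Type} [Group G] (M : Pk G) {Λ : Type} [Ring Λ] [StarRing Λ]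
    (T : G → G → unitary Λ) (A : Matrix M.I M.I (ZG G)) (w : Ch M Λ) (y : G × M.I)
    (h : op M T A w y ≠ 0) : ∃ x, w x ≠ 0 ∧ (A x.2 y.2).coeff (x.1⁻¹ * y.1) ≠ 0 := by
  rw [P1_lin (op M T A) w, Finsupp.finsetSum_apply] at h
  obtain ⟨x, hx, h1⟩ := Finset.exists_ne_zero_of_sum_ne_zero h
  refine ⟨x, Finsupp.mem_support_iff.1 hx, P1_op_apply M T A x y ?_⟩
  intro h0
  apply h1
  rw [Finsupp.smul_apply, h0, smul_zero]

private theorem P1_coeff_ne {R : Type} [Group R] (a : ZG R) (g : R) (h : a.coeff g ≠ 0) : a ≠ 0 := by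
  rintro rfl
  exact h rfl

private theorem P1_len {G : Type} [Group G] (L : Len G) (x y : G) :
    L.l x ≤ L.l y + L.l (x⁻¹ * y) ∧ L.l y ≤ L.l x + L.l (x⁻¹ * y) := by
  constructor
  · have h1 := L.mul y (x⁻¹ * y)⁻¹
    rw [L.inv] at h1
    have h2 : y * (x⁻¹ * y)⁻¹ = x := by group
    rwa [h2] at h1
  · have h1 := L.mul x (x⁻¹ * y)
    rwa [mul_inv_cancel_left] at h1

private theorem P1_good {G π : Type} [Group G] [Group π] (M : Pk G) (T : G → G → π) (n K : ℕ)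
    (hK : 20 * M.u ≤ K) (hT : ∀ v, n < M.L.l v → GoodT M.L T K v) :
    GoodV M (Λ := ZG π) (tw T) {v | n < M.L.l v} := by
  intro v hv h h' hh hh'
  have h1 := hT v hv h h' (hh.trans hK) (hh'.trans hK)
  unfold tw
  rw [← map_mul, h1]

theorem P1 (hC0 : St_C0) (hL4 : St_L4) (hF6 : St_F6) : St_P1 := by
  classical
  intro G α π _ _ f Rel M R 𝓛 N n0 n T hdat
  have hdat1 : Dat f Rel M 𝓛 N n0 (n + M.u) T :=
    ⟨hdat.base, hdat.len, hdat.lvl, hdat.le.trans (Nat.le_add_right _ _),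
      fun v hv => hdat.good v (by omega)⟩
  obtain ⟨n'', hn'', hC⟩ := hC0 G α π f Rel M R 𝓛 N n0 (n + M.u) T hdat1
  refine ⟨n'' + 2 * 𝓛.ρ, by omega, fun a ha => ?_⟩
  obtain ⟨l, -, hl⟩ := hC a (by omega) 0
  refine ⟨l + M.u, fun w μ hw hEw hDw => ?_⟩
  have hu : M.u = M.c + 1 := rfl
  -- goodness
  have hgood : GoodV M (Λ := ZG π) (tw T) {v | n < M.L.l v} :=
    P1_good M T n 𝓛.kap (by unfold Loc.kap; omega) hdat.good
  have hcomp := (hF6 G M (ZG π) (tw T) {v | n < M.L.l v} hgood).1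
  -- the submodule
  let A1 : Set (G × M.I) := {x | M.L.l x.1 ≤ l + M.u}
  let A2 : Set (G × M.I) := {x | M.deg x.2 = 2 ∧ n + M.u < M.L.l x.1}
  let Sub : Submodule (ZG π) (Ch M (ZG π)) :=
    Finsupp.supported (ZG π) (ZG π) A1 ⊔ (Finsupp.supported (ZG π) (ZG π) A2).map (opT M T M.D)
  have hA1 : ∀ c : Ch M (ZG π), (∀ x, c x ≠ 0 → M.L.l x.1 ≤ l + M.u) → c ∈ Sub := fun c hc =>
    Submodule.mem_sup_left (by
      rw [Finsupp.mem_supported]
      intro x hx
      exact hc x (Finsupp.mem_support_iff.1 hx))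
  let b : Ch M (ZG π) →ₗ[ZG π] (Ch M (ZG π) ⧸ Sub) := Sub.mkQ ∘ₗ opT M T M.E
  have hb : ∀ c, b c = Sub.mkQ (opT M T M.E c) := fun c => rfl
  have hsup1 : ∀ x : G × M.I, n < M.L.l x.1 →
      ∀ y, (Finsupp.single x (1 : ZG π)) y ≠ 0 → y.1 ∈ {v | n < M.L.l v} := by
    intro x hx y hy
    have h1 : x = y := by
      by_contra hne
      exact hy (Finsupp.single_eq_of_ne (Ne.symm hne))
    rw [← h1]
    exact hx
  have hcoc : Coc M T (n + M.u) b := by
    refine ⟨fun x hx1 hx2 => ?_, fun x hx1 hx2 => ?_⟩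
    · rw [hb, hcomp M.D M.E _ M.prop_D M.prop_E (hsup1 x (by omega)), M.resP.DE]
      rw [Submodule.mkQ_apply, Submodule.Quotient.mk_eq_zero]
      refine Submodule.mem_sup_right ⟨Finsupp.single x 1, ?_, rfl⟩
      rw [SetLike.mem_coe, Finsupp.mem_supported]
      intro y hy
      have h1 := Finsupp.support_single_subset hy
      rw [Finset.mem_singleton] at h1
      rw [h1]
      exact ⟨hx1, hx2⟩
    · rw [hb, hb, hcomp M.E M.E _ M.prop_E M.prop_E (hsup1 x (by omega)), M.resP.EE]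
  have hb0 : ∀ x : G × M.I, M.deg x.2 = 1 → M.L.l x.1 ≤ l → b (Finsupp.single x 1) = 0 := by
    intro x _ hx
    rw [hb, Submodule.mkQ_apply, Submodule.Quotient.mk_eq_zero]
    apply hA1
    intro y hy
    have h1 := M.prop_E _ _ _ (P1_op_apply M (tw T) M.E x y hy)
    have h2 := (P1_len M.L x.1 y.1).2
    omega
  obtain ⟨p, hp, hpa, -⟩ := hl (Ch M (ZG π) ⧸ Sub) b hcoc hb0
  obtain ⟨h4a, h4b⟩ := hL4 G M R 𝓛 π T (n + M.u) n'' (Ch M (ZG π) ⧸ Sub) b p
    (fun v hv => hdat1.good v hv) hcoc hn'' hp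
  have hbw : b w = 0 := by
    have h1 : b w = potF M T 𝓛 b p (opT M T M.D w) := by
      rw [P1_lin b w]
      have h2 := P1_lin (potF M T 𝓛 b p ∘ₗ opT M T M.D) w
      rw [LinearMap.comp_apply] at h2
      rw [h2]
      refine Finset.sum_congr rfl fun x hx => ?_
      obtain ⟨h3, h3'⟩ := hw x (Finsupp.mem_support_iff.1 hx)
      rw [h4a x h3 (by omega), LinearMap.comp_apply]
    rw [h1, hDw, map_smul, h4b a (by omega), hpa, smul_zero]
  have hwS : w ∈ Sub := by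
    rw [hb, hEw, Submodule.mkQ_apply, Submodule.Quotient.mk_eq_zero] at hbw
    exact hbw
  obtain ⟨s, hs, t, ht, hst⟩ := Submodule.mem_sup.1 hwS
  obtain ⟨z0, hz0, hz0t⟩ := ht
  rw [Finsupp.mem_supported] at hs
  rw [SetLike.mem_coe, Finsupp.mem_supported] at hz0
  have hz0V : ∀ x, z0 x ≠ 0 → x.1 ∈ {v | n < M.L.l v} := by
    intro x hx
    have h1 := hz0 (Finsupp.mem_support_iff.2 hx)
    have h2 : n + M.u < M.L.l x.1 := h1.2
    show n < M.L.l x.1
    omega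
  refine ⟨opT M T M.E z0, ?_, ?_, ?_⟩
  · intro x hx
    obtain ⟨y, hy, h1⟩ := P1_supp M (tw T) M.E z0 x hx
    have h2 : M.deg y.2 = 2 ∧ n + M.u < M.L.l y.1 := hz0 (Finsupp.mem_support_iff.2 hy)
    have h3 := M.resP.E_deg _ _ (P1_coeff_ne _ _ h1)
    have h4 := M.prop_E _ _ _ h1
    have h5 := (P1_len M.L y.1 x.1).1
    constructor
    · rw [← h3]
      exact h2.1
    · have := h2.2
      omega
  · rw [hcomp M.E M.E _ M.prop_E M.prop_E hz0V, M.resP.EE]
  · intro x hx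
    rw [hcomp M.E M.D _ M.prop_E M.prop_D hz0V, M.resP.ED] at hx
    have h1 : w - op M (tw T) M.D z0 = s := by
      rw [← hst, ← hz0t, add_sub_cancel_right]
    rw [h1] at hx
    exact hs (Finsupp.mem_support_iff.2 hx)

end Pool.Agent.SPD
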