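import Pool.Agent.SPD.StC
import Pool.Agent.SPD.StW

/-!
# SPD (P3): degree three
-/

set_option autoImplicit false

namespace Pool.Agent.SPD

open Matrix Pool.Agent.CPD

private lemma P3_exp {X Λ W : Type} [Ring Λ] [AddCommGroup W] [Module Λ W]
    (F : (X →₀ Λ) →ₗ[Λ] W) (a : X →₀ Λ) :
    F a = a.sum (fun x r => r • F (Finsupp.single x 1)) := by
  conv_lhs => rw [← Finsupp.sum_single a, map_finsuppSum]
  refine Finsupp.sum_congr fun x _ => ?_
  rw [← map_smul, Finsupp.smul_single, smul_eq_mul, mul_one]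

private lemma P3_zero {X Λ W : Type} [Ring Λ] [AddCommGroup W] [Module Λ W]
    (F : (X →₀ Λ) →ₗ[Λ] W) (a : X →₀ Λ) (h : ∀ x, a x ≠ 0 → F (Finsupp.single x 1) = 0) :
    F a = 0 := by
  rw [P3_exp F a]
  refine Finset.sum_eq_zero fun x hx => ?_
  show a x • F (Finsupp.single x 1) = 0
  rw [h x (Finsupp.mem_support_iff.1 hx), smul_zero]

private lemma P3_supp {X Λ : Type} [Ring Λ] (F : (X →₀ Λ) →ₗ[Λ] (X →₀ Λ)) (a : X →₀ Λ) (y : X)
    (h : F a y ≠ 0) : ∃ x, a x ≠ 0 ∧ F (Finsupp.single x 1) y ≠ 0 := by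
  by_contra hcon
  push Not at hcon
  exact h (P3_zero ((Finsupp.lapply y) ∘ₗ F) a fun x hx => hcon x hx)

private lemma P3_len {G : Type} [Group G] (L : Len G) (x y : G) :
    L.l x ≤ L.l y + L.l (x⁻¹ * y) ∧ L.l y ≤ L.l x + L.l (x⁻¹ * y) := by
  constructor
  · have h1 : x = y * (x⁻¹ * y)⁻¹ := by group
    have h2 := L.mul y (x⁻¹ * y)⁻¹
    rw [← h1, L.inv] at h2
    exact h2
  · have h2 := L.mul x (x⁻¹ * y)
    rwa [mul_inv_cancel_left] at h2

theorem P3 (hW0 : St_W0) (hL2 : St_L2) (hF0 : St_F0) (hF6 : St_F6) (hF9 : St_F9) : St_P3 := by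
  intro G α π _ _ f Rel M R 𝓛 N n0 n T hdat l1
  classical
  obtain ⟨R1, hR1, hjoin⟩ := hdat.base.join (max n (l1 + 2 * M.u) + 𝓛.ρ)
  set n1 := max n (l1 + 2 * M.u) + 𝓛.ρ with hn1
  have hu : M.u = M.c + 1 := rfl
  have hn1a : n + 𝓛.ρ ≤ n1 := by omega
  have hn1b : l1 + 2 * M.u + 𝓛.ρ ≤ n1 := by omega
  refine ⟨R1 + 2 * 𝓛.ρ + l1 + 10 * M.u, ?_⟩
  intro w hw hEw hDw
  -- goodness
  let V : Set G := {v | n < M.L.l v}
  have hkap : 20 * M.u ≤ 𝓛.kap := by
    unfold Loc.kap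
    omega
  have hV : GoodV M (tw T) V := by
    intro v hv h h' hh hh'
    have h1 := hdat.good v hv h h' (hh.trans hkap) (hh'.trans hkap)
    show uhom π (T v h) * uhom π (T (v * h) h') = uhom π (T v (h * h'))
    rw [← map_mul, h1]
  obtain ⟨⟨fD, fE, fPs, fPh, fh, fDt, fEt⟩, hs, -, -⟩ := hF0 G M (ZG π) (tw T)
  obtain ⟨hcomp, hadd, -⟩ := hF6 G M (ZG π) (tw T) V hV
  have hwV : ∀ x, w x ≠ 0 → x.1 ∈ V := by
    intro x hx
    have := (hw x hx).2
    show n < M.L.l x.1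
    omega
  -- supports of the operators
  have hsup : ∀ (A : Matrix M.I M.I (ZG G)) (a : Ch M (ZG π)) (y : G × M.I), Five M A →
      opT M T A a y ≠ 0 → ∃ x, a x ≠ 0 ∧ A x.2 y.2 ≠ 0 ∧ M.L.l (x.1⁻¹ * y.1) ≤ M.c := by
    intro A a y hA hy
    obtain ⟨x, hx, hxy⟩ := P3_supp (opT M T A) a y hy
    have h1 := hs A x y hxy
    refine ⟨x, hx, ?_, hA _ _ _ h1⟩
    intro h0
    rw [h0] at h1
    exact h1 rfl
  set bh : Ch M (ZG π) := opT M T M.Ps w with hbh
  have hbs : ∀ y, bh y ≠ 0 → M.deg y.2 = 0 ∧ n + 4 * M.u < M.L.l y.1 := by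
    intro y hy
    obtain ⟨x, hx, hA, hl⟩ := hsup M.Ps w y fPs hy
    have h1 := M.Ps_deg _ _ hA
    have h2 := hw x hx
    have h3 := (P3_len M.L x.1 y.1).1
    refine ⟨by omega, by omega⟩
  have hbD : opT M T (M.D)ᴴ bh = opT M T M.Ps (opT M T M.D w) := by
    rw [hbh, hcomp M.Ps (M.D)ᴴ w fPs fDt hwV, hcomp M.D M.Ps w fD fPs hwV, M.DPs]
  have hbE : opT M T (M.E)ᴴ bh = bh := by
    rw [hbh, hcomp M.Ps (M.E)ᴴ w fPs fEt hwV, M.PsE]
  have hD0 : ∀ x : G × M.I, l1 + M.c < M.L.l x.1 → opT M T (M.D)ᴴ bh x = 0 := by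
    intro x hx
    by_contra hne
    rw [hbD] at hne
    obtain ⟨z, hz, -, hl⟩ := hsup M.Ps _ x fPs hne
    have h1 := hDw z hz
    have h2 := (P3_len M.L z.1 x.1).2
    omega
  let b : Ch M (ZG π) →ₗ[ZG π] ZG π := Finsupp.linearCombination (ZG π) (fun y => star (bh y))
  have hb1 : ∀ x, b (Finsupp.single x 1) = star (bh x) := by
    intro x
    show Finsupp.linearCombination (ZG π) (fun y => star (bh y)) (Finsupp.single x 1) = _
    rw [Finsupp.linearCombination_single, one_smul]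
  have hbT : ∀ (A : Matrix M.I M.I (ZG G)) (x : G × M.I), Five M A →
      b (opT M T A (Finsupp.single x 1)) = star (opT M T Aᴴ bh x) := by
    intro A x hA
    have h1 := hF9 G M (ZG π) (tw T) V A bh x hV hA (fun y hy _ => by
      have := (hbs y hy).2
      show n < M.L.l y.1
      omega)
    exact h1
  have hbDD : ∀ x : G × M.I, l1 + M.c < M.L.l x.1 → b (opT M T M.D (Finsupp.single x 1)) = 0 := by
    intro x hx
    rw [hbT M.D x fD, hD0 x hx, star_zero]
  have hbEE : ∀ x : G × M.I, b (opT M T M.E (Finsupp.single x 1)) = star (bh x) := by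
    intro x
    rw [hbT M.E x fE, hbE]
  -- boundaries of local chains
  have hbloc : ∀ (v : G) (c : (G × M.I) →₀ ℤ), (∀ x, c x ≠ 0 → M.L.l x.1 ≤ 𝓛.ρ) →
      l1 + M.c + 𝓛.ρ < M.L.l v → b (opT M T M.D (sh M T v c)) = 0 := by
    intro v c hc hv
    refine P3_zero (b ∘ₗ opT M T M.D) (sh M T v c) ?_
    intro x hx
    have h1 := (hL2 G M R 𝓛 π T v).2.2.2.1 c x hx
    have h2 := hc _ h1
    have h3 := (P3_len M.L v x.1).1
    exact hbDD x (by
      have h4 : M.L.l (v⁻¹ * x.1) ≤ 𝓛.ρ := h2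
      omega)
  have hstep : ∀ (v h : G), n1 < M.L.l v → M.L.l h ≤ R →
      b (sh M T v 𝓛.o) = gr (T v h) • b (sh M T (v * h) 𝓛.o) := by
    intro v h hv hh
    have hg := hdat.good v (by omega)
    obtain ⟨-, -, -, -, -, -, -, -, h9, -⟩ := (hL2 G M R 𝓛 π T v).2.2.2.2 hg
    rw [h9 h hh, map_add, map_smul, hbloc v (𝓛.es h) (fun x hx => (𝓛.es_supp h x hx).2) (by omega),
      add_zero]
  have hlet : ∀ a : α × Bool, M.L.l (letter f a) ≤ R := by
    intro a
    have h1 := hdat.base.len a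
    have h2 := 𝓛.hu
    omega
  have hpath : ∀ (p : List (α × Bool)) (v : G), Avoids f (Bl M.L n1) v p →
      b (sh M T (v * value f p) 𝓛.o) = 0 → b (sh M T v 𝓛.o) = 0 := by
    intro p
    induction p with
    | nil =>
      intro v _ h1
      have h2 : value f ([] : List (α × Bool)) = 1 := rfl
      rwa [h2, mul_one] at h1
    | cons a p ih =>
      intro v hv h1
      have hv' : Avoids f (Bl M.L n1) v ([a] ++ p) := hv
      have h2 := ((hW0 G α f).2.2.1 (Bl M.L n1) v [a] p).1 hv'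
      have h3 : value f [a] = letter f a := by simp [value]
      have h4 : v ∉ Bl M.L n1 := ((hW0 G α f).2.2.2.2.2.2.2.1 (Bl M.L n1) v [a] h2.1).1
      have h5 : n1 < M.L.l v := by
        by_contra hcon
        exact h4 (show M.L.l v ≤ n1 by omega)
      rw [hstep v (letter f a) h5 (hlet a)]
      have h6 : value f (a :: p) = letter f a * value f p := by simp [value]
      have h7 : b (sh M T (v * letter f a) 𝓛.o) = 0 := by
        refine ih (v * letter f a) ?_ ?_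
        · rw [← h3]
          exact h2.2
        · rw [mul_assoc, ← h6]
          exact h1
      rw [h7, smul_zero]
  -- the support of bh is finite
  obtain ⟨B, hB⟩ : ∃ B : ℕ, ∀ x, bh x ≠ 0 → M.L.l x.1 ≤ B :=
    ⟨bh.support.sup fun x => M.L.l x.1, fun x hx =>
      Finset.le_sup (f := fun x : G × M.I => M.L.l x.1) (Finsupp.mem_support_iff.2 hx)⟩
  have ho : ∀ v, R1 < M.L.l v → b (sh M T v 𝓛.o) = 0 := by
    intro v hv
    have : Infinite G := hdat.base.inf
    obtain ⟨v', hv'⟩ := (M.L.fin (max R1 (B + R))).exists_notMem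
    have hv'' : max R1 (B + R) < M.L.l v' := by
      by_contra hcon
      exact hv' (show M.L.l v' ≤ max R1 (B + R) by omega)
    obtain ⟨p, hp, hpv⟩ := hjoin v v' hv (by omega)
    refine hpath p v hp ?_
    rw [hpv]
    refine P3_zero b (sh M T v' 𝓛.o) ?_
    intro x hx
    have h1 := (hL2 G M R 𝓛 π T v').2.2.2.1 𝓛.o x hx
    have h2 := (𝓛.o_supp _ h1).2
    have h3 := (P3_len M.L v' x.1).1
    have h4 : M.L.l (v'⁻¹ * x.1) ≤ R := h2
    rw [hb1]
    have h5 : bh x = 0 := by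
      by_contra hne
      have := hB x hne
      omega
    rw [h5, star_zero]
  have hb0 : ∀ x, bh x ≠ 0 → M.L.l x.1 ≤ R1 + 𝓛.ρ := by
    intro x hx
    by_contra hcon
    push Not at hcon
    have hdeg := (hbs x hx).1
    have hg := hdat.good x.1 (by omega)
    obtain ⟨-, -, -, -, -, -, -, h8, -⟩ := (hL2 G M R 𝓛 π T x.1).2.2.2.2 hg
    have h1 := hbEE x
    have h2 : opT M T M.E (Finsupp.single x 1) =
        M.e x.2 • sh M T x.1 𝓛.o + opT M T M.D (sh M T x.1 (𝓛.ex x.2)) := h8 x.2 hdeg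
    rw [h2, map_add, map_zsmul, ho x.1 (by omega), smul_zero,
      hbloc x.1 (𝓛.ex x.2) (fun y hy => (𝓛.ex_supp x.2 y hy).2) (by omega), add_zero] at h1
    exact hx (star_eq_zero.1 h1.symm)
  -- the homotopy
  have hh0 : opT M T M.h w = 0 := by
    ext1 y
    by_contra hne
    obtain ⟨x, hx, hA, -⟩ := hsup M.h w y fh hne
    have h1 := M.h_deg _ _ hA
    have h2 := (hw x hx).1
    have h3 := M.deg_le y.2
    omega
  have hmain : opT M T M.Ph bh = w + opT M T M.h (opT M T M.D w) := by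
    have h1 : M.Ps * M.Ph = M.E + (M.h * M.D + M.D * M.h) := by
      rw [← M.homot]
      abel
    rw [hbh, hcomp M.Ps M.Ph w fPs fPh hwV, h1, (hadd _ _ w).1, (hadd _ _ w).1, hEw,
      ← hcomp M.h M.D w fh fD hwV, ← hcomp M.D M.h w fD fh hwV, hh0, map_zero, zero_add]
  intro y hy
  by_cases h1 : opT M T M.Ph bh y = 0
  · have h2 : opT M T M.h (opT M T M.D w) y ≠ 0 := by
      intro h3
      apply hy
      have h4 := congrArg (fun c : Ch M (ZG π) => c y) hmain
      simp only [Finsupp.add_apply] at h4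
      rw [h1, h3, add_zero] at h4
      exact h4.symm
    obtain ⟨x, hx, -, hl⟩ := hsup M.h _ y fh h2
    have h5 := hDw x hx
    have h6 := (P3_len M.L x.1 y.1).2
    omega
  · obtain ⟨x, hx, -, hl⟩ := hsup M.Ph bh y fPh h1
    have h5 := hb0 x hx
    have h6 := (P3_len M.L x.1 y.1).2
    omega

end Pool.Agent.SPD
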