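import Pool.Agent.SPD.StT

/-!
# SPD, module T0: algebra of `InI`
-/

set_option autoImplicit false

namespace Pool.Agent.SPD

open Matrix Pool.Agent.CPD

/-- the image of `m` in `ℤ[π ⧸ A]` -/
private noncomputable def T0_P {π : Type} [Group π] (A : Subgroup π) : ZG π →+ (π ⧸ A →₀ ℤ) :=
  (Finsupp.mapDomain.addMonoidHom (QuotientGroup.mk : π → π ⧸ A)).comp
    (MonoidAlgebra.coeffAddEquiv (R := ℤ) (M := π)).toAddMonoidHom

/-- the lift by representatives -/
private noncomputable def T0_Q {π : Type} [Group π] (A : Subgroup π) : (π ⧸ A →₀ ℤ) →+ ZG π :=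
  (MonoidAlgebra.coeffAddEquiv (R := ℤ) (M := π)).symm.toAddMonoidHom.comp
    (Finsupp.mapDomain.addMonoidHom (Quotient.out : π ⧸ A → π))

private theorem T0_P_def {π : Type} [Group π] (A : Subgroup π) (m : ZG π) :
    T0_P A m = m.coeff.mapDomain (QuotientGroup.mk : π → π ⧸ A) := rfl

private theorem T0_P_single {π : Type} [Group π] (A : Subgroup π) (g : π) (n : ℤ) :
    T0_P A (MonoidAlgebra.single g n) = Finsupp.single (QuotientGroup.mk g : π ⧸ A) n := by
  rw [T0_P_def, MonoidAlgebra.coeff_single, Finsupp.mapDomain_single]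

private theorem T0_Q_single {π : Type} [Group π] (A : Subgroup π) (ξ : π ⧸ A) (n : ℤ) :
    T0_Q A (Finsupp.single ξ n) = MonoidAlgebra.single (Quotient.out ξ) n := by
  show MonoidAlgebra.ofCoeff (Finsupp.mapDomain (Quotient.out : π ⧸ A → π) (Finsupp.single ξ n)) = _
  rw [Finsupp.mapDomain_single]
  rfl

private theorem T0_PQ {π : Type} [Group π] (A : Subgroup π) (u : π ⧸ A →₀ ℤ) : T0_P A (T0_Q A u) = u := by
  show Finsupp.mapDomain (QuotientGroup.mk : π → π ⧸ A) (Finsupp.mapDomain (Quotient.out : π ⧸ A → π) u) = u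
  rw [← Finsupp.mapDomain_comp]
  have : (QuotientGroup.mk : π → π ⧸ A) ∘ (Quotient.out : π ⧸ A → π) = id := by
    funext ξ
    exact Quotient.out_eq' ξ
  rw [this, Finsupp.mapDomain_id]

private theorem T0_ind {π : Type} [Group π] {p : ZG π → Prop} (m : ZG π) (h0 : p 0) (hadd : ∀ x y, p x → p y → p (x + y))
    (hs : ∀ (g : π) (n : ℤ), p (MonoidAlgebra.single g n)) : p m := by
  have h : ∀ u : π →₀ ℤ, p (MonoidAlgebra.ofCoeff u) := by
    intro u
    induction u using Finsupp.induction_linear with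
    | zero => exact h0
    | add x y hx hy => exact hadd _ _ hx hy
    | single g n => exact hs g n
  exact h m.coeff

private theorem T0_mul {π : Type} [Group π] (A : Subgroup π) (g : π) (n : ℤ) (m : ZG π) (ξ : π ⧸ A) :
    T0_P A (MonoidAlgebra.single g n * m) ξ = n * T0_P A m (g⁻¹ • ξ) := by
  induction m using T0_ind with
  | h0 => simp
  | hadd x y hx hy => rw [mul_add, map_add, map_add, Finsupp.add_apply, Finsupp.add_apply, hx, hy, mul_add]
  | hs h k =>
    rw [MonoidAlgebra.single_mul_single, T0_P_single, T0_P_single]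
    have h1 : (QuotientGroup.mk (g * h) : π ⧸ A) = g • (QuotientGroup.mk h : π ⧸ A) := rfl
    rw [h1]
    by_cases h2 : g • (QuotientGroup.mk h : π ⧸ A) = ξ
    · have h3 : (QuotientGroup.mk h : π ⧸ A) = g⁻¹ • ξ := by rw [← h2, inv_smul_smul]
      rw [h2, h3, Finsupp.single_eq_same, Finsupp.single_eq_same]
    · have h3 : (QuotientGroup.mk h : π ⧸ A) ≠ g⁻¹ • ξ := by
        intro h4
        exact h2 (by rw [h4, smul_inv_smul])
      rw [Finsupp.single_eq_of_ne' h2, Finsupp.single_eq_of_ne' h3, mul_zero]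

private theorem T0_right {π : Type} [Group π] (A : Subgroup π) {a : π} (ha : a ∈ A) (m : ZG π) :
    T0_P A (m * gr a) = T0_P A m := by
  induction m using T0_ind with
  | h0 => simp
  | hadd x y hx hy => rw [add_mul, map_add, map_add, hx, hy]
  | hs h k =>
    show T0_P A (MonoidAlgebra.single h k * MonoidAlgebra.single a 1) = _
    rw [MonoidAlgebra.single_mul_single, T0_P_single, T0_P_single, mul_one, QuotientGroup.mk_mul_of_mem h ha]

private theorem T0_iff {π : Type} [Group π] (A : Subgroup π) (q : ℕ) (m : ZG π) :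
    InI A q m ↔ ∀ ξ, (q : ℤ) ∣ T0_P A m ξ := Iff.rfl

private theorem T0_zero {π : Type} [Group π] (A : Subgroup π) (m : ZG π) : InI A 0 m ↔ T0_P A m = 0 := by
  rw [T0_iff]
  constructor
  · intro h
    ext ξ
    simpa using h ξ
  · intro h ξ
    rw [h]
    simp

private theorem T0_smul {π : Type} [Group π] (A : Subgroup π) (r m : ZG π) (q : ℕ) (hm : InI A q m) : InI A q (r * m) := by
  induction r using T0_ind with
  | h0 =>
    rw [zero_mul, T0_iff]
    intro ξ
    rw [map_zero]
    simp
  | hadd x y hx hy =>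
    rw [T0_iff] at hx hy ⊢
    intro ξ
    rw [add_mul, map_add, Finsupp.add_apply]
    exact dvd_add (hx ξ) (hy ξ)
  | hs g n =>
    rw [T0_iff] at hm ⊢
    intro ξ
    rw [T0_mul]
    exact dvd_mul_of_dvd_right (hm _) _

private theorem T0_cl {π : Type} [Group π] (A : Subgroup π) (m : ZG π) :
    m - T0_Q A (T0_P A m) ∈ AddSubgroup.closure {x : ZG π | ∃ (g : π), ∃ a ∈ A, x = gr g * gr a - gr g} := by
  induction m using T0_ind with
  | h0 =>
    rw [map_zero, map_zero, sub_zero]
    exact AddSubgroup.zero_mem _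
  | hadd x y hx hy =>
    have : x + y - T0_Q A (T0_P A (x + y)) = (x - T0_Q A (T0_P A x)) + (y - T0_Q A (T0_P A y)) := by
      rw [map_add, map_add]
      abel
    rw [this]
    exact AddSubgroup.add_mem _ hx hy
  | hs g n =>
    rw [T0_P_single, T0_Q_single]
    obtain ⟨a, ha⟩ := QuotientGroup.mk_out_eq_mul A g
    have h1 : MonoidAlgebra.single g n - MonoidAlgebra.single (Quotient.out (QuotientGroup.mk g : π ⧸ A)) n =
        (-n) • (gr g * gr (a : π) - gr g) := by
      rw [ha]
      show _ = (-n) • (MonoidAlgebra.single g (1 : ℤ) * MonoidAlgebra.single (a : π) (1 : ℤ) - MonoidAlgebra.single g (1 : ℤ))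
      rw [MonoidAlgebra.single_mul_single, smul_sub, MonoidAlgebra.smul_single, MonoidAlgebra.smul_single]
      ext x
      simp [MonoidAlgebra.coeff_sub]
      ring
    rw [h1]
    apply AddSubgroup.zsmul_mem
    apply AddSubgroup.subset_closure
    exact ⟨g, (a : π), a.2, rfl⟩

theorem T0 : St_T0 := by
  intro π _ A q
  refine ⟨?_, ?_, ?_, ?_, ?_, ?_, ?_⟩
  · refine ⟨{ carrier := {m | InI A q m}
              add_mem' := ?_
              zero_mem' := ?_
              smul_mem' := ?_ }, fun m => Iff.rfl⟩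
    · intro x y hx hy ξ
      have h := dvd_add (hx ξ) (hy ξ)
      have e : T0_P A (x + y) ξ = T0_P A x ξ + T0_P A y ξ := by rw [map_add, Finsupp.add_apply]
      show (q : ℤ) ∣ T0_P A (x + y) ξ
      rw [e]
      exact h
    · intro ξ
      show (q : ℤ) ∣ T0_P A 0 ξ
      rw [map_zero]
      simp
    · intro r m hm
      exact T0_smul A r m q hm
  · intro m hm ξ
    have h := (T0_zero A m).1 hm
    show (q : ℤ) ∣ T0_P A m ξ
    rw [h]
    simp
  · intro m hm
    rw [T0_iff] at hm
    refine ⟨T0_Q A ((T0_P A m).mapRange (fun n => n / (q : ℤ)) (by simp)), ?_⟩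
    rw [T0_zero, map_sub, map_zsmul, T0_PQ]
    ext ξ
    rw [Finsupp.sub_apply, Finsupp.smul_apply, Finsupp.mapRange_apply, smul_eq_mul, Int.mul_ediv_cancel' (hm ξ), sub_self]
    rfl
  · intro m hq hm
    rw [T0_zero, map_zsmul] at hm
    rw [T0_zero]
    ext ξ
    have h := DFunLike.congr_fun hm ξ
    rw [Finsupp.smul_apply, smul_eq_mul, Finsupp.coe_zero, Pi.zero_apply, mul_eq_zero] at h
    rcases h with h | h
    · omega
    · simpa using h
  · intro a ha m
    rw [T0_zero, map_sub, T0_right A ha, sub_self]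
  · intro m hm
    have h := T0_cl A m
    rw [(T0_zero A m).1 hm, map_zero, sub_zero] at h
    exact h
  · intro m
    rw [T0_iff]
    intro ξ
    rw [map_zsmul, Finsupp.smul_apply, smul_eq_mul]
    exact dvd_mul_right _ _

end Pool.Agent.SPD
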