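import Pool.Agent.SPD.StT

/-!
# SPD, module T1: algebra of `JC`
-/

set_option autoImplicit false

namespace Pool.Agent.SPD

open Matrix Pool.Agent.CPD

private theorem T1_zero (h0 : St_T0) {π : Type} [Group π] (A : Subgroup π) (q : ℕ) :
    InI A q (0 : ZG π) := by
  obtain ⟨⟨S, hS⟩, _⟩ := h0 π A q
  exact (hS 0).1 S.zero_mem

private theorem T1_add (h0 : St_T0) {G π : Type} [Group G] [Group π] {M : Pk G} (A : Subgroup π)
    (q : ℕ) (c c' : Ch M (ZG π)) (hc : JC A q c) (hc' : JC A q c') : JC A q (c + c') := by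
  obtain ⟨⟨S, hS⟩, _⟩ := h0 π A q
  intro y
  rw [Finsupp.add_apply, star_add]
  exact (hS _).1 (S.add_mem ((hS _).2 (hc y)) ((hS _).2 (hc' y)))

private theorem T1_sub (h0 : St_T0) {G π : Type} [Group G] [Group π] {M : Pk G} (A : Subgroup π)
    (q : ℕ) (c c' : Ch M (ZG π)) (hc : JC A q c) (hc' : JC A q c') : JC A q (c - c') := by
  obtain ⟨⟨S, hS⟩, _⟩ := h0 π A q
  intro y
  rw [Finsupp.sub_apply, star_sub]
  exact (hS _).1 (S.sub_mem ((hS _).2 (hc y)) ((hS _).2 (hc' y)))

private theorem T1_smul (h0 : St_T0) {G π : Type} [Group G] [Group π] {M : Pk G} (A : Subgroup π)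
    (q : ℕ) (l : ZG π) (b : Ch M (ZG π)) (hl : InI A q (star l)) : JC A q (l • b) := by
  obtain ⟨⟨S, hS⟩, _⟩ := h0 π A q
  intro y
  rw [Finsupp.smul_apply, smul_eq_mul, star_mul]
  exact (hS _).1 (S.smul_mem (star (b y)) ((hS _).2 hl))

theorem T1 (h0 : St_T0) : St_T1 := by
  classical
  intro G π _ _ M A q
  have hh := h0 π A q
  obtain ⟨⟨S, hS⟩, h2, h3, h4, h5, _, h7⟩ := hh
  refine ⟨?_, ?_, ?_, ?_, ?_, ?_, ?_⟩
  · intro c c' hc hc'
    exact ⟨T1_add h0 A q c c' hc hc', T1_sub h0 A q c c' hc hc'⟩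
  · intro c hc y
    exact h2 _ (hc y)
  · intro T B c hc
    have e : opT M T B c = ∑ x ∈ c.support, c x • bl (Λ := ZG π) (tw T) x.1 (row B x) := rfl
    rw [e]
    refine Finset.sum_induction _ (JC A q) (fun a b ha hb => T1_add h0 A q a b ha hb) ?_ ?_
    · intro y
      rw [Finsupp.zero_apply, star_zero]
      exact T1_zero h0 A q
    · intro x _
      exact T1_smul h0 A q _ _ (hc x)
  · intro a ha c y
    have e : star (gr a : ZG π) = gr a⁻¹ := gs_single a 1
    rw [Finsupp.sub_apply, Finsupp.smul_apply, smul_eq_mul, star_sub, star_mul, e]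
    exact h5 a⁻¹ (A.inv_mem ha) _
  · intro c hq hc y
    have h := hc y
    rw [Finsupp.smul_apply, star_zsmul] at h
    exact h4 _ hq h
  · intro c hc
    choose m hm using fun y => h3 _ (hc y)
    refine ⟨Finsupp.onFinset c.support (fun y => if c y = 0 then 0 else star (m y)) ?_, ?_, ?_⟩
    · intro y hy
      rw [Finsupp.mem_support_iff]
      intro h
      exact hy (if_pos h)
    · intro y
      rw [Finsupp.sub_apply, Finsupp.smul_apply, Finsupp.onFinset_apply]
      by_cases h : c y = 0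
      · rw [if_pos h, h, smul_zero, sub_zero, star_zero]
        exact T1_zero h0 A 0
      · rw [if_neg h, star_sub, star_zsmul, star_star]
        exact hm y
    · intro y hy h
      apply hy
      rw [Finsupp.onFinset_apply, if_pos h]
  · intro c y
    rw [Finsupp.smul_apply, star_zsmul]
    exact h7 _

end Pool.Agent.SPD
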