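import Pool.Agent.SPD.StT

/-!
# [T2a] Invariants modulo `q` lift
-/

set_option autoImplicit false

namespace Pool.Agent.SPD

open Matrix Pool.Agent.CPD

section T2aSec

variable {π : Type} [Group π] (A : Subgroup π)

/-- The image in the coset module. -/
private noncomputable def T2a_P : ZG π →+ ((π ⧸ A) →₀ ℤ) where
  toFun m := m.coeff.mapDomain (QuotientGroup.mk : π → π ⧸ A)
  map_zero' := by rw [MonoidAlgebra.coeff_zero, Finsupp.mapDomain_zero]
  map_add' x y := by rw [MonoidAlgebra.coeff_add, Finsupp.mapDomain_add]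

private theorem T2a_inI (q : ℕ) (m : ZG π) : InI A q m ↔ ∀ ξ, (q : ℤ) ∣ T2a_P A m ξ := Iff.rfl

private theorem T2a_single (g : π) (n : ℤ) :
    T2a_P A (MonoidAlgebra.single g n) = Finsupp.single (QuotientGroup.mk g : π ⧸ A) n := by
  show (MonoidAlgebra.single g n).coeff.mapDomain (QuotientGroup.mk : π → π ⧸ A) = _
  rw [MonoidAlgebra.coeff_single, Finsupp.mapDomain_single]

private theorem T2a_mul (g : π) (m : ZG π) (ξ : π ⧸ A) :
    T2a_P A (gr g * m) (g • ξ) = T2a_P A m ξ := by
  induction m using MonoidAlgebra.induction_linear with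
  | zero => rw [mul_zero, map_zero]; rfl
  | add x y hx hy => rw [mul_add, map_add, map_add, Finsupp.add_apply, Finsupp.add_apply, hx, hy]
  | single h n =>
    have h1 : gr g * MonoidAlgebra.single h n = MonoidAlgebra.single (g * h) n := by
      unfold gr
      rw [MonoidAlgebra.single_mul_single, one_mul]
    have h2 : (QuotientGroup.mk (g * h) : π ⧸ A) = g • (QuotientGroup.mk h : π ⧸ A) := rfl
    rw [h1, T2a_single, T2a_single, h2]
    classical
    rw [Finsupp.single_apply, Finsupp.single_apply]
    by_cases h3 : (QuotientGroup.mk h : π ⧸ A) = ξ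
    · rw [if_pos (by rw [h3]), if_pos h3]
    · rw [if_neg (fun h4 => h3 (smul_left_cancel g h4)), if_neg h3]

end T2aSec

/-- [T2a] Invariants modulo `q` lift. -/
theorem T2a : St_T2a := by
  intro π _ A q m hm
  have hall : ∀ ξ : π ⧸ A, (q : ℤ) ∣ T2a_P A m (QuotientGroup.mk 1) - T2a_P A m ξ := by
    intro ξ
    obtain ⟨a, rfl⟩ := QuotientGroup.mk_surjective ξ
    have h1 := (T2a_inI A q _).1 (hm a) (a • (QuotientGroup.mk 1 : π ⧸ A))
    rw [map_sub, Finsupp.sub_apply, T2a_mul] at h1
    have h2 : a • (QuotientGroup.mk 1 : π ⧸ A) = QuotientGroup.mk a := by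
      show (QuotientGroup.mk (a * 1) : π ⧸ A) = QuotientGroup.mk a
      rw [mul_one]
    rw [h2] at h1
    exact h1
  rcases finite_or_infinite (π ⧸ A) with hfin | hinf
  · haveI : Fintype (π ⧸ A) := Fintype.ofFinite _
    obtain ⟨c, hc⟩ : ∃ c : ℤ, c = T2a_P A m (QuotientGroup.mk 1) := ⟨_, rfl⟩
    rw [← hc] at hall
    have hP : ∀ η : π ⧸ A,
        T2a_P A (∑ ξ : π ⧸ A, MonoidAlgebra.single (Quotient.out ξ) c) η = c := by
      intro η
      rw [map_sum, Finsupp.finset_sum_apply]
      rw [Finset.sum_eq_single η]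
      · rw [T2a_single, QuotientGroup.out_eq', Finsupp.single_eq_same]
      · intro ξ _ hξ
        rw [T2a_single, QuotientGroup.out_eq', Finsupp.single_eq_of_ne]
        exact fun h => hξ h.symm
      · intro h
        exact absurd (Finset.mem_univ _) h
    refine ⟨∑ ξ : π ⧸ A, MonoidAlgebra.single (Quotient.out ξ) c, ?_, ?_⟩
    · rw [T2a_inI]
      intro η
      rw [map_sub, Finsupp.sub_apply, hP]
      have := hall η
      rw [← dvd_neg, neg_sub] at this
      exact this
    · intro g
      rw [T2a_inI]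
      intro η
      have h3 : g • (g⁻¹ • η) = η := smul_inv_smul g η
      rw [map_sub, Finsupp.sub_apply, hP]
      rw [← h3, T2a_mul, hP, sub_self]
      exact dvd_zero _
  · obtain ⟨ξ, hξ⟩ := Infinite.exists_notMem_finset (T2a_P A m).support
    rw [Finsupp.notMem_support_iff] at hξ
    have hc : (q : ℤ) ∣ T2a_P A m (QuotientGroup.mk 1) := by
      have := hall ξ
      rw [hξ, sub_zero] at this
      exact this
    refine ⟨0, ?_, ?_⟩
    · rw [T2a_inI]
      intro η
      rw [sub_zero]
      exact (dvd_sub_right hc).1 (hall η)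
    · intro g
      rw [T2a_inI]
      intro η
      rw [mul_zero, sub_zero, map_zero]
      exact dvd_zero _

end Pool.Agent.SPD
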