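import Pool.Agent.SPD.StT
import Pool.Agent.CPD.E1

/-!
# [T2b] A cocycle modulo `q` lifts (helper92)
-/

set_option autoImplicit false

namespace Pool.Agent.SPD

open Matrix Pool.Agent.CPD

section T2bsec

variable {G : Type} [Group G]

private theorem T2b_len1 (L : Len G) (x y : G) : L.l x ≤ L.l y + L.l (x⁻¹ * y) := by
  have h6 := L.mul y (x⁻¹ * y)⁻¹
  rw [L.inv] at h6
  have h7 : y * (x⁻¹ * y)⁻¹ = x := by group
  rw [h7] at h6
  exact h6

private theorem T2b_len2 (L : Len G) (x y : G) : L.l y ≤ L.l x + L.l (x⁻¹ * y) := by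
  have h6 := L.mul x (x⁻¹ * y)
  rwa [mul_inv_cancel_left] at h6

private theorem T2b_far [Infinite G] (L : Len G) (n : ℕ) : ∃ v, n < L.l v := by
  by_contra h
  push Not at h
  exact (Set.infinite_univ (α := G)) ((L.fin n).subset (fun v _ => h v))

private theorem T2b_gr_one (π : Type) [Group π] : gr (1 : π) = 1 := rfl

private theorem T2b_gr_mul {π : Type} [Group π] (g h : π) : gr (g * h) = gr g * gr h := by
  unfold gr
  rw [MonoidAlgebra.single_mul_single, mul_one]

private theorem T2b_value_cons {α : Type} (f : α → G) (a : α × Bool) (w : List (α × Bool)) :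
    value f (a :: w) = letter f a * value f w := by
  unfold value
  rw [List.map_cons, List.prod_cons]

private theorem T2b_avoids_cons {α : Type} (f : α → G) (K : Set G) (g : G) (a : α × Bool)
    (w : List (α × Bool)) (h : Avoids f K g (a :: w)) :
    g ∉ K ∧ Avoids f K (g * letter f a) w := by
  constructor
  · have h1 := h 0 (Nat.zero_le _)
    rw [List.take_zero, show value f [] = 1 from rfl, mul_one] at h1
    exact h1
  · intro n hn
    have h1 := h (n + 1) (by rw [List.length_cons]; omega)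
    rw [List.take_succ_cons, T2b_value_cons, ← mul_assoc] at h1
    exact h1

/-- a function on the vertices which is parallel along all edges is parallel along all words -/
private theorem T2b_word {α π W : Type} [Group π] [AddCommGroup W] [Module (ZG π) W]
    (f : α → G) (T : G → G → π) (K : Set G) (p : G → W)
    (hp : ∀ v a, v ∉ K → p v = gr (T v (letter f a)) • p (v * letter f a)) :
    ∀ (w : List (α × Bool)) (v : G), Avoids f K v w →
      p v = gr (hol f (lab f T) v w) • p (v * value f w) := by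
  intro w
  induction w with
  | nil =>
    intro v _
    show p v = gr (1 : π) • p (v * 1)
    rw [T2b_gr_one, one_smul, mul_one]
  | cons a w ih =>
    intro v hA
    obtain ⟨h1, h2⟩ := T2b_avoids_cons f K v a w hA
    have h3 := ih (v * letter f a) h2
    show p v = gr (T v (letter f a) * hol f (lab f T) (v * letter f a) w) • p (v * value f (a :: w))
    rw [T2b_gr_mul, mul_smul, T2b_value_cons, ← mul_assoc, ← h3]
    exact hp v a h1

private theorem T2b_key {X Λ W : Type} [Ring Λ] [AddCommGroup W] [Module Λ W]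
    (Φ : (X →₀ Λ) →ₗ[Λ] W) (c : X →₀ Λ) :
    Φ c = ∑ x ∈ c.support, c x • Φ (Finsupp.single x 1) := by
  classical
  conv_lhs => rw [← Finsupp.sum_single c]
  unfold Finsupp.sum
  rw [map_sum]
  refine Finset.sum_congr rfl (fun x _ => ?_)
  rw [← map_smul, Finsupp.smul_single, smul_eq_mul, mul_one]

private theorem T2b_ext {X Λ W : Type} [Ring Λ] [AddCommGroup W] [Module Λ W]
    (Φ Ψ : (X →₀ Λ) →ₗ[Λ] W) (c : X →₀ Λ)
    (h : ∀ x, c x ≠ 0 → Φ (Finsupp.single x 1) = Ψ (Finsupp.single x 1)) : Φ c = Ψ c := by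
  rw [T2b_key Φ, T2b_key Ψ]
  refine Finset.sum_congr rfl (fun x hx => ?_)
  rw [h x (Finsupp.mem_support_iff.mp hx)]

private theorem T2b_zero {X Λ W : Type} [Ring Λ] [AddCommGroup W] [Module Λ W]
    (Φ : (X →₀ Λ) →ₗ[Λ] W) (c : X →₀ Λ)
    (h : ∀ x, c x ≠ 0 → Φ (Finsupp.single x 1) = 0) : Φ c = 0 := by
  rw [T2b_ext Φ 0 c (fun x hx => by rw [h x hx, LinearMap.zero_apply]), LinearMap.zero_apply]

private theorem T2b_mem {X Λ W : Type} [Ring Λ] [AddCommGroup W] [Module Λ W]
    (Φ : (X →₀ Λ) →ₗ[Λ] W) (S : Submodule Λ W) (c : X →₀ Λ)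
    (h : ∀ x, c x ≠ 0 → Φ (Finsupp.single x 1) ∈ S) : Φ c ∈ S := by
  rw [T2b_key Φ]
  exact Submodule.sum_mem _ (fun x hx => S.smul_mem _ (h x (Finsupp.mem_support_iff.mp hx)))

/-- augmentation of a boundary -/
private theorem T2b_aug (M : Pk G) (j : M.I) : augZ M.e (row M.D (1, j)) = 0 := by
  obtain ⟨-, -, -, -, h5, -⟩ := E1 G M.I
  rw [h5, ← M.resP.De j]
  refine Finset.sum_congr rfl (fun k _ => ?_)
  congr 2
  apply MonoidAlgebra.ext
  ext g
  show row M.D (1, j) (g, k) = _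
  rw [CPD.row_apply]
  show (M.D j k).coeff (1⁻¹ * g) = _
  rw [inv_one, one_mul]

end T2bsec

/-- [T2b] A cocycle modulo `q` lifts. -/
theorem T2b (hL2 : St_L2) (hL4 : St_L4) (hC0 : St_C0) (hT0 : St_T0) (hT2a : St_T2a)
    (hF6 : St_F6) : St_T2b := by
  classical
  intro G α π _ _ f Rel M R 𝓛 N n0 n T hD
  -- constants
  set n1 : ℕ := n + 10 * M.u with hn1
  have hgood1 : ∀ v, n1 < M.L.l v → GoodT M.L T 𝓛.kap v := fun v hv => hD.good v (by omega)
  have hD1 : Dat f Rel M 𝓛 N n0 n1 T :=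
    ⟨hD.base, hD.len, hD.lvl, by have := hD.le; omega, hgood1⟩
  obtain ⟨n'', hn'', hC⟩ := hC0 G α π f Rel M R 𝓛 N n0 n1 T hD1
  have hinf : Infinite G := hD.base.inf
  obtain ⟨a, ha⟩ := T2b_far M.L n''
  set l0 : ℕ := n'' + 3 * 𝓛.ρ + 10 * M.u with hl0
  obtain ⟨l, hl, hC⟩ := hC a ha l0
  refine ⟨l + l0 + 10 * M.u, by omega, ?_⟩
  intro A q b hb1 hb2 hb3
  have hu : M.u = M.c + 1 := rfl
  have hR1 : 1 ≤ R := by
    have h1 := 𝓛.hu
    omega
  -- the submodules
  obtain ⟨⟨S, hS⟩, -⟩ := hT0 π A q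
  obtain ⟨⟨S0, hS0⟩, -⟩ := hT0 π A 0
  -- the map B
  let B : Ch M (ZG π) →ₗ[ZG π] (ZG π ⧸ S) :=
    S.mkQ ∘ₗ Finsupp.linearCombination (ZG π) (fun y => b y)
  have hBs : ∀ x, B (Finsupp.single x 1) = S.mkQ (b x) := by
    intro x
    show S.mkQ (Finsupp.linearCombination (ZG π) (fun y => b y) (Finsupp.single x 1)) = _
    rw [Finsupp.linearCombination_single, one_smul]
  have hBp : ∀ c, B c = S.mkQ (pair c (fun y => b y)) := fun c => rfl
  have hmk0 : ∀ m, S.mkQ m = 0 ↔ InI A q m := by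
    intro m
    rw [Submodule.mkQ_apply, Submodule.Quotient.mk_eq_zero, hS]
  have hCoc : Coc M T n1 B := by
    constructor
    · intro x hx hx1
      rw [hBp, hmk0]
      exact hb2 x hx (by omega)
    · intro x hx hx1
      rw [hBp, hBs, hb3 x hx (by omega)]
  have hBl : ∀ x : G × M.I, M.deg x.2 = 1 → M.L.l x.1 ≤ l → B (Finsupp.single x 1) = 0 := by
    intro x _ hx
    have h1 : b x = 0 := by
      by_contra h
      have h2 := (hb1 x h).2
      omega
    rw [hBs, h1, map_zero]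
  obtain ⟨p, hPot, -, hp0⟩ := hC (ZG π ⧸ S) B hCoc hBl
  obtain ⟨hF4, -⟩ := hL4 G M R 𝓛 π T n1 n'' (ZG π ⧸ S) B p hgood1 hCoc hn'' hPot
  -- B vanishes on chains which do not meet b
  have hBz : ∀ c : Ch M (ZG π), (∀ x, c x ≠ 0 → b x = 0) → B c = 0 := by
    intro c hc
    refine T2b_zero B c (fun x hx => ?_)
    rw [hBs, hc x hx, map_zero]
  -- a bound for b
  obtain ⟨Q, hQ⟩ : ∃ Q, ∀ y, b y ≠ 0 → M.L.l y.1 ≤ Q :=
    ⟨b.support.sup (fun y => M.L.l y.1), fun y hy =>
      Finset.le_sup (f := fun y : G × M.I => M.L.l y.1) (Finsupp.mem_support_iff.mpr hy)⟩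
  -- supports of lifts
  have hshs : ∀ (v : G) (c : (G × M.I) →₀ ℤ) (x : G × M.I), sh M T v c x ≠ 0 →
      c (v⁻¹ * x.1, x.2) ≠ 0 := by
    intro v
    obtain ⟨-, -, -, h4, -⟩ := hL2 G M R 𝓛 π T v
    exact h4
  have hDs : ∀ x y : G × M.I, opT M T M.D (Finsupp.single x 1) y ≠ 0 →
      M.deg x.2 = M.deg y.2 + 1 ∧ M.L.l (x.1⁻¹ * y.1) ≤ M.c := by
    intro x y hxy
    obtain ⟨-, h2, -, h4, -⟩ := hL2 G M R 𝓛 π T x.1
    have h5 := h2 M.D x.2
    rw [show ((x.1, x.2) : G × M.I) = x from rfl] at h5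
    rw [h5] at hxy
    have h6 := h4 _ _ hxy
    rw [CPD.row_apply] at h6
    have h7 : (M.D x.2 y.2).coeff (x.1⁻¹ * y.1) ≠ 0 := by
      intro h8
      apply h6
      show (M.D x.2 y.2).coeff (1⁻¹ * (x.1⁻¹ * y.1)) = 0
      rw [inv_one, one_mul, h8]
    refine ⟨M.resP.D_deg _ _ ?_, M.prop_D _ _ _ h7⟩
    intro h8
    apply h7
    rw [h8]
    rfl
  -- far away, p is parallel
  have hpar : ∀ v h, Q + 𝓛.ρ + n'' < M.L.l v → M.L.l h ≤ R →
      p v = gr (T v h) • p (v * h) := by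
    intro v h hv hh
    have h1 := hPot v h (by omega) hh
    have h2 : be M T 𝓛 B v h = 0 := by
      apply hBz
      intro x hx
      by_contra hbx
      have h3 := (𝓛.es_supp _ _ (hshs v _ x hx)).2
      have h4 := T2b_len1 M.L v x.1
      have h5 := hQ x hbx
      have h6 : M.L.l (v⁻¹ * x.1) ≤ 𝓛.ρ := h3
      omega
    rw [h2] at h1
    exact (sub_eq_zero.1 h1.symm)
  set k : ℕ := Q + 𝓛.ρ + n'' with hk
  have hword : ∀ (w : List (α × Bool)) (v : G), Avoids f (Bl M.L k) v w →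
      p v = gr (hol f (lab f T) v w) • p (v * value f w) := by
    apply T2b_word
    intro v a hv
    apply hpar v (letter f a) (by
      by_contra h
      exact hv (not_lt.1 h))
    exact (hD.base.len a).trans hR1
  obtain ⟨k1, hk1⟩ := hD.lvl.surj k
  obtain ⟨k2, hk2, hjoin⟩ := hD.base.join k
  obtain ⟨v1, hv1⟩ := T2b_far M.L (k1 + k2)
  have hinv : ∀ g : π, gr g • p v1 = p v1 := by
    intro g
    obtain ⟨w, hw1, hw2, hw3⟩ := hk1 v1 (by omega) g
    have h1 := hword w v1 hw2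
    rw [hw1, hw3, mul_one] at h1
    exact h1.symm
  obtain ⟨m0, hm0⟩ := Submodule.mkQ_surjective S (p v1)
  obtain ⟨m', hm1, hm2⟩ := hT2a π A q m0 (by
    intro g
    rw [← hmk0, map_sub, ← smul_eq_mul, map_smul, hm0, hinv, sub_self])
  have hm' : S.mkQ m' = p v1 := by
    rw [← hmk0, map_sub, sub_eq_zero] at hm1
    rw [← hm1, hm0]
  have hpfar : ∀ v, k2 < M.L.l v → p v = S.mkQ m' := by
    intro v hv
    obtain ⟨w, hw1, hw2⟩ := hjoin v v1 hv (by omega)
    have h1 := hword w v hw1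
    rw [hw2, hinv] at h1
    rw [h1, hm']
  set Q3 : ℕ := k1 + k2 + Q + 2 * 𝓛.ρ + l0 + n'' with hQ3
  -- the function F'
  have hpotF : ∀ x : G × M.I, M.deg x.2 = 0 → potF M T 𝓛 B p (Finsupp.single x 1) =
      M.e x.2 • p x.1 + B (sh M T x.1 (𝓛.ex x.2)) := by
    intro x hx
    unfold potF
    rw [Finsupp.linearCombination_single, one_smul, if_pos hx]
  have hex0 : ∀ x : G × M.I, (M.L.l x.1 ≤ n'' + 𝓛.ρ + 5 * M.u ∨ Q3 < M.L.l x.1) →
      B (sh M T x.1 (𝓛.ex x.2)) = 0 := by
    intro x hx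
    apply hBz
    intro y hy
    by_contra hby
    have h3 : M.L.l (x.1⁻¹ * y.1) ≤ 𝓛.ρ := (𝓛.ex_supp _ _ (hshs x.1 _ y hy)).2
    have h4 := T2b_len1 M.L x.1 y.1
    have h5 := T2b_len2 M.L x.1 y.1
    have h6 := hQ y hby
    have h7 := (hb1 y hby).2
    omega
  have hFex : ∀ x : G × M.I, ∃ z : ZG π,
      (M.deg x.2 = 0 → n'' + 𝓛.ρ < M.L.l x.1 →
        S.mkQ z = potF M T 𝓛 B p (Finsupp.single x 1)) ∧
      (M.L.l x.1 ≤ n'' + 𝓛.ρ + 5 * M.u → z = 0) ∧
      (M.deg x.2 = 0 → Q3 < M.L.l x.1 → z = M.e x.2 • m') := by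
    intro x
    by_cases hx0 : M.deg x.2 = 0
    · by_cases hx1 : M.L.l x.1 ≤ n'' + 𝓛.ρ + 5 * M.u
      · refine ⟨0, ?_, fun _ => rfl, fun _ h => by omega⟩
        intro _ hx2
        rw [hpotF x hx0, hex0 x (Or.inl hx1), hp0 x.1 (by omega) (by omega), smul_zero,
          add_zero, map_zero]
      · by_cases hx2 : Q3 < M.L.l x.1
        · refine ⟨M.e x.2 • m', ?_, fun h => absurd h hx1, fun _ _ => rfl⟩
          intro _ _
          rw [hpotF x hx0, hex0 x (Or.inr hx2), hpfar x.1 (by omega), map_zsmul, add_zero]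
        · obtain ⟨z, hz⟩ := Submodule.mkQ_surjective S (potF M T 𝓛 B p (Finsupp.single x 1))
          exact ⟨z, fun _ _ => hz, fun h => absurd h hx1, fun _ h => absurd h hx2⟩
    · exact ⟨0, fun h => absurd h hx0, fun _ => rfl, fun h => absurd h hx0⟩
  choose F' hFa hFb hFc using hFex
  let FF : Ch M (ZG π) →ₗ[ZG π] ZG π := Finsupp.linearCombination (ZG π) F'
  have hFFs : ∀ x, FF (Finsupp.single x 1) = F' x := by
    intro x
    show Finsupp.linearCombination (ZG π) F' (Finsupp.single x 1) = _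
    rw [Finsupp.linearCombination_single, one_smul]
  -- first claim
  have hcl1 : ∀ y : G × M.I, M.deg y.2 = 1 →
      S.mkQ (FF (opT M T M.D (Finsupp.single y 1))) = S.mkQ (b y) := by
    intro y hy
    by_cases hy1 : n'' + 𝓛.ρ + 2 * M.u < M.L.l y.1
    · rw [← hBs, hF4 y hy (by omega)]
      have h1 := T2b_ext (S.mkQ ∘ₗ FF) (potF M T 𝓛 B p) (opT M T M.D (Finsupp.single y 1)) (by
        intro x hx
        obtain ⟨h2, h3⟩ := hDs y x hx
        have h4 := T2b_len1 M.L y.1 x.1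
        rw [LinearMap.comp_apply, hFFs]
        exact hFa x (by omega) (by omega))
      exact h1
    · have h0 : b y = 0 := by
        by_contra h
        have h2 := (hb1 y h).2
        omega
      have h1 : FF (opT M T M.D (Finsupp.single y 1)) = 0 := by
        apply T2b_zero
        intro x hx
        obtain ⟨h2, h3⟩ := hDs y x hx
        have h4 := T2b_len2 M.L y.1 x.1
        rw [hFFs]
        exact hFb x (by omega)
      rw [h0, h1]
  -- second claim
  have hcl2 : ∀ y : G × M.I, M.deg y.2 = 1 → Q3 + M.u < M.L.l y.1 →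
      FF (opT M T M.D (Finsupp.single y 1)) ∈ S0 := by
    intro y hy hy1
    obtain ⟨h1, h2, -⟩ := hL2 G M R 𝓛 π T y.1
    have h5 : opT M T M.D (Finsupp.single y 1) = sh M T y.1 (row M.D (1, y.2)) := h2 M.D y.2
    rw [h1] at h5
    obtain ⟨c, hc⟩ : ∃ c, c = row M.D ((1 : G), y.2) := ⟨_, rfl⟩
    have haug : augZ M.e c = 0 := by
      rw [hc]
      exact T2b_aug M y.2
    have hcs : ∀ x, c x ≠ 0 → M.deg x.2 = 0 ∧ Q3 < M.L.l (y.1 * x.1) := by
      intro x hx
      rw [hc, CPD.row_apply] at hx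
      have h7 : (M.D y.2 x.2).coeff x.1 ≠ 0 := by
        intro h8
        apply hx
        show (M.D y.2 x.2).coeff (1⁻¹ * x.1) = 0
        rw [inv_one, one_mul, h8]
      have h8 := M.prop_D _ _ _ h7
      have h9 := M.resP.D_deg y.2 x.2 (by
        intro h10
        apply h7
        rw [h10]
        rfl)
      have h10 := T2b_len1 M.L y.1 (y.1 * x.1)
      rw [inv_mul_cancel_left] at h10
      exact ⟨by omega, by omega⟩
    rw [← hc] at h5
    have h6 : FF (opT M T M.D (Finsupp.single y 1)) =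
        ∑ x ∈ c.support, (c x * M.e x.2) • (gr (T y.1 x.1) * m') := by
      rw [h5]
      unfold Finsupp.sum
      rw [map_sum]
      refine Finset.sum_congr rfl (fun x hx => ?_)
      obtain ⟨h7, h8⟩ := hcs x (Finsupp.mem_support_iff.mp hx)
      show Finsupp.linearCombination (ZG π) F' (Finsupp.single (y.1 * x.1, x.2)
        (((c x : ℤ) : ZG π) * gr (T y.1 x.1))) = _
      rw [Finsupp.linearCombination_single, smul_eq_mul, hFc (y.1 * x.1, x.2) h7 h8]
      show ((c x : ℤ) : ZG π) * gr (T y.1 x.1) * (M.e x.2 • m') = _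
      rw [mul_smul_comm, mul_assoc, ← zsmul_eq_mul, smul_smul, mul_comm (M.e x.2)]
    have h9 : ∑ x ∈ c.support, (c x * M.e x.2) • m' = 0 := by
      rw [← Finset.sum_smul]
      have h10 : ∑ x ∈ c.support, c x * M.e x.2 = 0 := haug
      rw [h10, zero_smul]
    have h11 : FF (opT M T M.D (Finsupp.single y 1)) =
        ∑ x ∈ c.support, (c x * M.e x.2) • (gr (T y.1 x.1) * m' - m') := by
      rw [h6, ← sub_zero (∑ x ∈ c.support, (c x * M.e x.2) • (gr (T y.1 x.1) * m')), ← h9,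
        ← Finset.sum_sub_distrib]
      refine Finset.sum_congr rfl (fun x _ => ?_)
      rw [smul_sub]
    rw [h11]
    exact Submodule.sum_mem _ (fun x _ => zsmul_mem ((hS0 _).2 (hm2 _)) _)
  -- the lift
  obtain ⟨b1, hb1d⟩ : ∃ b1, b1 = trunc M (Q3 + M.u) (fun y => if M.deg y.2 = 1 then
      FF (opT M T M.D (Finsupp.single y 1)) else 0) := ⟨_, rfl⟩
  have hbv : ∀ y, b1 y = if M.L.l y.1 ≤ Q3 + M.u then (if M.deg y.2 = 1 then
      FF (opT M T M.D (Finsupp.single y 1)) else 0) else 0 := by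
    intro y
    rw [hb1d]
    rfl
  have hbin : ∀ y : G × M.I, M.deg y.2 = 1 → M.L.l y.1 ≤ Q3 + M.u →
      b1 y = FF (opT M T M.D (Finsupp.single y 1)) := by
    intro y hy hy1
    rw [hbv, if_pos hy1, if_pos hy]
  have hbout : ∀ y : G × M.I, ¬ (M.deg y.2 = 1 ∧ M.L.l y.1 ≤ Q3 + M.u) → b1 y = 0 := by
    intro y hy
    rw [hbv]
    by_cases h1 : M.L.l y.1 ≤ Q3 + M.u
    · rw [if_pos h1, if_neg (fun h => hy ⟨h, h1⟩)]
    · rw [if_neg h1]
  refine ⟨b1, ?_, ?_, ?_⟩
  · intro y hy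
    by_cases h1 : M.deg y.2 = 1 ∧ M.L.l y.1 ≤ Q3 + M.u
    · refine ⟨h1.1, ?_⟩
      by_contra h2
      apply hy
      rw [hbin y h1.1 h1.2]
      apply T2b_zero
      intro x hx
      obtain ⟨-, h3⟩ := hDs y x hx
      have h4 := T2b_len2 M.L y.1 x.1
      rw [hFFs]
      exact hFb x (by omega)
    · exact absurd (hbout y h1) hy
  · intro y
    by_cases h1 : M.deg y.2 = 1 ∧ M.L.l y.1 ≤ Q3 + M.u
    · rw [← hmk0, map_sub, hbin y h1.1 h1.2, hcl1 y h1.1, sub_self]
    · have h2 : b y = 0 := by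
        by_contra h
        have h3 := hQ y h
        exact h1 ⟨(hb1 y h).1, by omega⟩
      rw [h2, hbout y h1, sub_self, ← hS]
      exact S.zero_mem
  · intro x hx hx1
    have hGV : GoodV (Λ := ZG π) M (tw T) {v | n < M.L.l v} := by
      intro v hv h h' hh hh'
      have h20 : 20 * M.u ≤ 𝓛.kap := by
        unfold Loc.kap
        omega
      show uhom π (T v h) * uhom π (T (v * h) h') = uhom π (T v (h * h'))
      rw [← map_mul, hD.good v hv h h' (hh.trans h20) (hh'.trans h20)]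
    obtain ⟨h61, -, h63⟩ := hF6 G M (ZG π) (tw T) _ hGV
    have hDD : opT M T M.D (opT M T M.D (Finsupp.single x 1)) = 0 := by
      have h1 := h61 M.D M.D (Finsupp.single x 1) M.prop_D M.prop_D (by
        intro z hz
        have h2 : x = z := by
          by_contra h3
          exact hz (Finsupp.single_eq_of_ne (Ne.symm h3))
        rw [← h2]
        exact hx1)
      rw [M.resP.DD, h63] at h1
      exact h1
    have h1 := T2b_mem (FF ∘ₗ opT M T M.D - Finsupp.linearCombination (ZG π) (fun y => b1 y)) S0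
      (opT M T M.D (Finsupp.single x 1)) (by
        intro y hy
        obtain ⟨h2, -⟩ := hDs x y hy
        have h3 : M.deg y.2 = 1 := by omega
        rw [LinearMap.sub_apply, LinearMap.comp_apply, Finsupp.linearCombination_single,
          one_smul]
        by_cases h4 : M.L.l y.1 ≤ Q3 + M.u
        · rw [hbin y h3 h4, sub_self]
          exact S0.zero_mem
        · rw [hbout y (fun h => h4 h.2), sub_zero]
          exact hcl2 y h3 (by omega))
    rw [LinearMap.sub_apply, LinearMap.comp_apply, hDD, map_zero, zero_sub] at h1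
    rw [← hS0]
    exact (S0.neg_mem_iff).1 h1

end Pool.Agent.SPD
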