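import Pool.Agent.SPD.StT
import Pool.Agent.SPD.StW

/-!
# [T4] Loops `a, b` with `b a ~ aᵏ b`
-/

set_option autoImplicit false

namespace Pool.Agent.SPD

open Matrix Pool.Agent.CPD

section T4sec

variable {G : Type} [Group G]

private theorem T4_bound (L : Len G) {S : Set G} (hS : S.Finite) :
    ∃ n, ∀ v, n < L.l v → v ∉ S := by
  obtain ⟨n, hn⟩ := (hS.image L.l).bddAbove
  refine ⟨n, fun v hv hvS => ?_⟩
  have h1 : L.l v ≤ n := hn ⟨v, hvS, rfl⟩
  omega

private theorem T4_good {π : Type} [Group π] (L : Len G) (T : G → G → π) (hT : IsALS T)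
    (K : ℕ) : ∃ n, ∀ v, n < L.l v → GoodT L T K v := by
  have h1 : ∀ᶠ v in Filter.cofinite, ∀ h ∈ L.ball K, ∀ h' ∈ L.ball K,
      T v h * T (v * h) h' = T v (h * h') := by
    rw [Filter.eventually_all_finset]
    intro h _
    rw [Filter.eventually_all_finset]
    intro h' _
    exact hT h h'
  rw [Filter.eventually_cofinite] at h1
  obtain ⟨n, hn⟩ := T4_bound L h1
  refine ⟨n, fun v hv h h' hh hh' => ?_⟩
  have h2 := hn v hv
  by_contra h3
  apply h2
  intro h4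
  exact h3 (h4 h ((L.mem_ball K h).2 hh) h' ((L.mem_ball K h').2 hh'))

private theorem T4_len {α : Type} {Rel : Set (List (α × Bool))} (h : Rel.Finite) :
    ∃ n : ℕ, ∀ r ∈ Rel, r.length ≤ n := by
  obtain ⟨n, hn⟩ := (h.image List.length).bddAbove
  exact ⟨n, fun r hr => hn ⟨r, hr, rfl⟩⟩

end T4sec

/-- [T4] Loops `a, b` with `b a ~ aᵏ b`. -/
theorem T4 (hW0 : St_W0) (hL1 : St_L1) (hL5 : St_L5) (hL6 : St_L6) (hT1 : St_T1) (hT2 : St_T2)
    (hT3 : St_T3) : St_T4 := by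
  intro G α π _ _ f Rel M N n0 T hB hL
  obtain ⟨-, hW2, -, -, hW5, -, hW7, -⟩ := hW0 G α f
  obtain ⟨R0, hR0⟩ := hL1 G M
  obtain ⟨Rb, hRb⟩ := T4_len hB.Rfin
  obtain ⟨R, hR⟩ : ∃ R, R = max R0 Rb := ⟨_, rfl⟩
  obtain ⟨𝓛⟩ := hR0 R (by rw [hR]; exact le_max_left _ _)
  obtain ⟨n1, hn1⟩ := T4_good M.L T hL.als 𝓛.kap
  obtain ⟨n, hn⟩ : ∃ n, n = max n0 n1 := ⟨_, rfl⟩
  have hn0 : n0 ≤ n := by rw [hn]; exact le_max_left _ _
  have hgood : ∀ v, n < M.L.l v → GoodT M.L T 𝓛.kap v := by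
    intro v hv
    refine hn1 v (lt_of_le_of_lt ?_ hv)
    rw [hn]
    exact le_max_right _ _
  have hlen : ∀ r ∈ Rel, r.length ≤ R := by
    intro r hr
    refine (hRb r hr).trans ?_
    rw [hR]
    exact le_max_right _ _
  have hD : Dat f Rel M 𝓛 N n0 n T := ⟨hB, hlen, hL, hn0, hgood⟩
  obtain ⟨n2, hn2, hT2'⟩ := hT2 G α π f Rel M R 𝓛 N n0 n T hD
  refine ⟨n2 + 𝓛.ρ + n, by omega, ?_⟩
  intro N' hN' v a b k ha hb hAa hAb hk heq
  obtain ⟨x, hx⟩ : ∃ x, x = hol f (lab f T) v a := ⟨_, rfl⟩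
  obtain ⟨s, hs⟩ : ∃ s, s = hol f (lab f T) v b := ⟨_, rfl⟩
  rw [← hx, ← hs]
  obtain ⟨A, hA⟩ : ∃ A : Subgroup π, A = Subgroup.closure {x, s} := ⟨_, rfl⟩
  rw [← hA]
  have hxA : x ∈ A := by
    rw [hA]
    exact Subgroup.subset_closure (Set.mem_insert _ _)
  have hsA : s ∈ A := by
    rw [hA]
    exact Subgroup.subset_closure (Set.mem_insert_of_mem _ rfl)
  have hlab : IsLabel f Rel (Bl M.L n) (lab f T) := by
    have hsub : Bl M.L n0 ⊆ Bl M.L n := fun g hg => le_trans hg hn0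
    refine ⟨fun g c d h1 h2 => hL.lab.edge g c d (fun h => h1 (hsub h)) (fun h => h2 (hsub h)),
      fun r hr g h => hL.lab.cell r hr g (hW7 _ _ g r hsub h)⟩
  -- homology
  obtain ⟨e, he, hch⟩ := hL6 G α f Rel M R 𝓛 π T n N' hB.len
    (fun r hr => ⟨hlen r hr, hB.rel r hr⟩) hlab hgood (by omega) v _ _ heq
  obtain ⟨happ, -, hsup, -⟩ := hL5 G α f M R 𝓛 π T n hB.len hgood
  obtain ⟨hadd, -, -, hact, -⟩ := hT1 G π M A 0
  have hz : JC A 0 (0 : Ch M (ZG π)) := by
    have h1 := hact 1 A.one_mem 0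
    rw [smul_zero, sub_zero] at h1
    exact h1
  have hF : ∀ j : ℕ, value f (List.replicate j a).flatten = 1 ∧
      hol f (lab f T) v (List.replicate j a).flatten ∈ A ∧
      JC A 0 (chw f M 𝓛 T v (List.replicate j a).flatten - (j : ℤ) • chw f M 𝓛 T v a) := by
    intro j
    induction j with
    | zero =>
      refine ⟨rfl, A.one_mem, ?_⟩
      have h1 : chw f M 𝓛 T v (List.replicate 0 a).flatten - ((0 : ℕ) : ℤ) • chw f M 𝓛 T v a =
          0 := by
        rw [Nat.cast_zero, zero_smul, sub_zero]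
        rfl
      rw [h1]
      exact hz
    | succ j ih =>
      obtain ⟨ih1, ih2, ih3⟩ := ih
      have h0 : (List.replicate (j + 1) a).flatten = a ++ (List.replicate j a).flatten := by
        rw [List.replicate_succ, List.flatten_cons]
      rw [h0]
      refine ⟨?_, ?_, ?_⟩
      · rw [(hW2 _ _).1, ha, ih1, one_mul]
      · rw [hW5, ha, mul_one, ← hx]
        exact A.mul_mem hxA ih2
      · rw [happ, ha, mul_one, ← hx]
        have h1 := (hadd _ _ (hact x hxA (chw f M 𝓛 T v (List.replicate j a).flatten)) ih3).1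
        have h2 : chw f M 𝓛 T v a + gr x • chw f M 𝓛 T v (List.replicate j a).flatten -
            ((j + 1 : ℕ) : ℤ) • chw f M 𝓛 T v a =
            gr x • chw f M 𝓛 T v (List.replicate j a).flatten -
              chw f M 𝓛 T v (List.replicate j a).flatten +
            (chw f M 𝓛 T v (List.replicate j a).flatten - (j : ℤ) • chw f M 𝓛 T v a) := by
          push_cast
          rw [add_smul, one_smul]
          abel
        rw [h2]
        exact h1
  obtain ⟨hF1, hF2, hF3⟩ := hF k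
  rw [happ, hb, mul_one, ← hs, happ, hF1, mul_one] at hch
  have hJ : JC A 0 (((k - 1 : ℕ) : ℤ) • chw f M 𝓛 T v a - opT M T M.D (-e)) := by
    have h1 := (hadd _ _ (hadd _ _ (hact s hsA (chw f M 𝓛 T v a))
      (hact _ hF2 (chw f M 𝓛 T v b))).2 hF3).2
    have h2 : ((k - 1 : ℕ) : ℤ) • chw f M 𝓛 T v a - opT M T M.D (-e) =
        gr s • chw f M 𝓛 T v a - chw f M 𝓛 T v a -
          (gr (hol f (lab f T) v (List.replicate k a).flatten) • chw f M 𝓛 T v b -
            chw f M 𝓛 T v b) -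
          (chw f M 𝓛 T v (List.replicate k a).flatten - (k : ℤ) • chw f M 𝓛 T v a) := by
      rw [map_neg, ← hch, Nat.cast_sub (by omega), sub_smul, Nat.cast_one, one_smul]
      abel
    rw [h2]
    exact h1
  obtain ⟨e', he', hJ'⟩ := hT2' A (k - 1) (chw f M 𝓛 T v a) (-e) (by omega)
    (fun y hy => (hsup N' v a y hAa hy).1)
    (fun y hy => by
      have h1 : e y ≠ 0 := by
        intro h2
        apply hy
        rw [Finsupp.neg_apply, h2, neg_zero]
      obtain ⟨h3, h4⟩ := he y h1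
      exact ⟨h3, by omega⟩) hJ
  have hnN : n ≤ N' := by omega
  have hsub : Bl M.L n ⊆ Bl M.L N' := by
    intro g hg
    have h6 : M.L.l g ≤ n := hg
    exact h6.trans hnN
  have h5 := hT3 G α π f Rel M R 𝓛 N n0 n T hD A v a e' ha (hW7 _ _ v a hsub hAa)
    (by rw [← hx]; exact hxA) he' hJ'
  rw [← hx] at h5
  exact h5

end Pool.Agent.SPD
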