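import Pool.Agent.SPD.StT
import Pool.Agent.SPD.StW

/-!
# TT : Baumslag-Solitar relations one level deeper are trivial
-/

set_option autoImplicit false

namespace Pool.Agent.SPD

open Matrix Pool.Agent.CPD

private theorem TT_pow {G α : Type} [Group G] (f : α → G) (hW0 : St_W0) (K : Set G) (v : G)
    (a : List (α × Bool)) (ha : value f a = 1) (hA : Avoids f K v a) (k : ℕ) :
    value f (List.replicate k a).flatten = 1 ∧ Avoids f K v (List.replicate k a).flatten ∧
      ∀ (Γ : Type) [Group Γ] (τ : G → (α × Bool) → Γ),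
        hol f τ v (List.replicate k a).flatten = hol f τ v a ^ k := by
  obtain ⟨-, h2, h3, -, h5, -, -, h8, -⟩ := hW0 G α f
  induction k with
  | zero =>
    refine ⟨rfl, ?_, fun Γ _ τ => ?_⟩
    · intro n hn
      have hv := (h8 K v a hA).1
      have hn0 : n = 0 := by simpa using hn
      subst hn0
      simpa [value] using hv
    · simp [hol]
  | succ k ih =>
    obtain ⟨i1, i2, i3⟩ := ih
    rw [List.replicate_succ, List.flatten_cons]
    refine ⟨?_, ?_, fun Γ _ τ => ?_⟩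
    · rw [(h2 _ _).1, ha, i1, one_mul]
    · rw [h3, ha, mul_one]
      exact ⟨hA, i2⟩
    · rw [h5, ha, mul_one, i3 Γ τ, pow_succ']

private theorem TT_sub {G : Type} [Group G] (L : Len G) {n m : ℕ} (h : n ≤ m) :
    Bl L n ⊆ Bl L m := by
  intro z hz
  have hz' : L.l z ≤ n := hz
  show L.l z ≤ m
  exact le_trans hz' h

/-- Baumslag-Solitar relations one level deeper are trivial. -/
theorem TT : St_W0 → St_W1 → CPD.St_D0 → CPD.St_D1 → St_T4 → HSP.St_BSQ → St_TT := by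
  intro hW0 hW1 hD0 hD1 hT4 hBSQ G α π _ _ f Rel M N n0 T hB hL
  obtain ⟨N1, hN1, h4⟩ := hT4 G α π f Rel M N n0 T hB hL
  refine ⟨N1, ?_⟩
  intro N' n0' π' _ T' φ m1 hN' hL' hφ y t k hk hty hord
  obtain ⟨w1, w2, w3, w4, w5, -, w7, w8, w9⟩ := hW0 G α f
  obtain ⟨-, -, -, -, -, d6⟩ := hD0 G α f
  obtain ⟨-, c2⟩ := hD1 G α f Rel hB.rel
  have hinf : Infinite G := hB.inf
  set m := max m1 (max n0' N') with hm
  obtain ⟨k', hk'⟩ := hL'.surj m
  obtain ⟨v, hv⟩ := Infinite.exists_notMem_finset (M.L.ball (max k' m))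
  rw [Len.mem_ball, not_le] at hv
  have hvk : k' < M.L.l v := lt_of_le_of_lt (le_max_left _ _) hv
  have hvm : m < M.L.l v := lt_of_le_of_lt (le_max_right _ _) hv
  obtain ⟨a, ha1, ha2, ha3⟩ := hk' v hvk y
  obtain ⟨b, hb1, hb2, hb3⟩ := hk' v hvk t
  obtain ⟨g, hg⟩ := hφ v (lt_of_le_of_lt (le_max_left _ _) hvm)
  have sub1 : Bl M.L m1 ⊆ Bl M.L m := TT_sub M.L (le_max_left _ _)
  have sub2 : Bl M.L n0' ⊆ Bl M.L m :=
    TT_sub M.L (le_trans (le_max_left _ _) (le_max_right _ _))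
  have sub3 : Bl M.L N' ⊆ Bl M.L m :=
    TT_sub M.L (le_trans (le_max_right _ _) (le_max_right _ _))
  have sub4 : Bl M.L n0 ⊆ Bl M.L N' := TT_sub M.L (le_trans hN1 hN')
  obtain ⟨p1, p2, p3⟩ := TT_pow f hW0 (Bl M.L m) v a ha1 ha2 k
  set c := (List.replicate k a).flatten ++ b with hc
  have hba1 : value f (b ++ a) = 1 := by rw [(w2 _ _).1, ha1, hb1, one_mul]
  have hc1 : value f c = 1 := by rw [hc, (w2 _ _).1, p1, hb1, one_mul]
  have hba2 : Avoids f (Bl M.L m) v (b ++ a) := by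
    rw [w3, hb1, mul_one]
    exact ⟨hb2, ha2⟩
  have hc2 : Avoids f (Bl M.L m) v c := by
    rw [hc, w3, p1, mul_one]
    exact ⟨p2, hb2⟩
  have hwc1 : value f (winv c) = 1 := by rw [(w1 c).1, hc1, inv_one]
  have hwc2 : Avoids f (Bl M.L m) v (winv c) := by
    have h := (w4 (Bl M.L m) v c).1 hc2
    rwa [hc1, mul_one] at h
  have hW1' : value f ((b ++ a) ++ winv c) = 1 := by rw [(w2 _ _).1, hba1, hwc1, one_mul]
  have hW2' : Avoids f (Bl M.L m) v ((b ++ a) ++ winv c) := by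
    rw [w3, hba1, mul_one]
    exact ⟨hba2, hwc2⟩
  have hhol : hol f (lab f T') v ((b ++ a) ++ winv c) = 1 := by
    obtain ⟨-, -, -, q4⟩ := hW1 G α f Rel (Bl M.L n0') hB.rel
    have h1 := q4 π' (lab f T') hL'.lab v c (w7 _ _ v c sub2 hc2)
    rw [hc1, mul_one] at h1
    rw [w5, w5, hba1, hb1, mul_one, h1, hc, w5, p1, mul_one, p3, ha3, hb3, ← hty]
    group
  have e1 : Relation.EqvGen (Move f Rel (Bl M.L N') v) ((b ++ a) ++ winv c) [] :=
    hL'.faith v _ hW1' (w7 _ _ v _ sub2 hW2') hhol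
  have hN'c : Avoids f (Bl M.L N') v c := w7 _ _ v _ sub3 hc2
  have hN'wc : Avoids f (Bl M.L N') v (winv c) := w7 _ _ v _ sub3 hwc2
  have hN'ba : Avoids f (Bl M.L N') v (b ++ a) := w7 _ _ v _ sub3 hba2
  have e2 : Relation.EqvGen (Move f Rel (Bl M.L N') v) ((b ++ a) ++ winv c ++ c) (b ++ a) := by
    have h := d6 Rel (Bl M.L N') v (b ++ a) (winv c) [] (by rwa [List.append_nil])
      (by rw [hba1, mul_one]; exact hN'wc)
    have hww : ((winv c).map (fun a => (a.1, !a.2))).reverse = c := (w1 c).2.1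
    rw [hww, List.append_nil, List.append_nil] at h
    exact h
  have e3 : Relation.EqvGen (Move f Rel (Bl M.L N') v) ((b ++ a) ++ winv c ++ c) c := by
    have h := c2 (Bl M.L N') v [] ((b ++ a) ++ winv c) [] c ?_ ?_
    · simpa using h
    · rw [List.nil_append, w3, hW1', mul_one]
      exact ⟨w7 _ _ v _ sub3 hW2', hN'c⟩
    · have hv1 : v * value f ([] : List (α × Bool)) = v := by simp [value]
      rw [hv1]
      exact e1
  have e4 : Relation.EqvGen (Move f Rel (Bl M.L N') v) (b ++ a) c :=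
    Relation.EqvGen.trans _ _ _ (Relation.EqvGen.symm _ _ e2) e3
  have hcom := h4 N' hN' v a b k ha1 hb1 (w7 _ _ v _ sub3 ha2) (w7 _ _ v _ sub3 hb2) (by omega) e4
  have hconj : hol f (lab f T) v b * hol f (lab f T) v a =
      hol f (lab f T) v a ^ k * hol f (lab f T) v b := by
    obtain ⟨q1, -, -, -⟩ := hW1 G α f Rel (Bl M.L n0) hB.rel
    have h := (q1 π (lab f T) hL.lab v _ _ (w9 _ _ Rel v _ _ sub4 e4)).1
    rwa [hc, w5, w5, hb1, p1, mul_one, p3] at h
  have hy : φ y = g * hol f (lab f T) v a * g⁻¹ := by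
    rw [← ha3]
    exact hg a ha1 (w7 _ _ v _ sub1 ha2)
  have hordx : orderOf (φ y) = orderOf (hol f (lab f T) v a) := by
    rw [hy]
    exact MulEquiv.orderOf_eq (MulAut.conj g) (hol f (lab f T) v a)
  have hx : hol f (lab f T) v a = 1 := by
    refine hBSQ π (hol f (lab f T) v a) (hol f (lab f T) v b) k hk ?_ ?_ hcom
    · rw [hconj, mul_inv_cancel_right]
    · rw [← hordx]
      exact hord
  rw [hy, hx, mul_one, mul_inv_cancel]

end Pool.Agent.SPD
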