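import Pool.Agent.SPD.StW
import Pool.Agent.CPD.D0

/-!
# [W0] Elementary facts on words
-/

set_option autoImplicit false

namespace Pool.Agent.SPD

open Matrix Pool.Agent.CPD

section WordsW0

variable {G α : Type} [Group G]

private theorem W0_winv_winv (w : List (α × Bool)) : winv (winv w) = w := winvD0_winvD0 w

private theorem W0_winv_length (w : List (α × Bool)) : (winv w).length = w.length := by
  simp [winv]

private theorem W0_winv_append (u v : List (α × Bool)) : winv (u ++ v) = winv v ++ winv u := by
  simp [winv]

private theorem W0_gr_one (π : Type) [Group π] : gr (1 : π) = 1 := rfl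

private theorem W0_gr_mul {π : Type} [Group π] (g h : π) : gr (g * h) = gr g * gr h := by
  unfold gr
  rw [MonoidAlgebra.single_mul_single, mul_one]

private theorem W0_Iw_append {π W : Type} [Group π] [AddCommGroup W] [Module (ZG π) W]
    (f : α → G) (T : G → G → π) (β : G → (α × Bool) → W) (u v : List (α × Bool)) :
    ∀ g : G, Iw f T β g (u ++ v) =
      Iw f T β g u + gr (hol f (lab f T) g u) • Iw f T β (g * value f u) v := by
  induction u with
  | nil =>
    intro g
    have h1 : hol f (lab f T) g [] = 1 := rfl
    have h2 : Iw f T β g [] = 0 := rfl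
    rw [List.nil_append, h1, h2, d0_value_nil, mul_one, W0_gr_one, one_smul, zero_add]
  | cons a u ih =>
    intro g
    have h1 : hol f (lab f T) g (a :: u) =
      T g (letter f a) * hol f (lab f T) (g * letter f a) u := rfl
    have h2 : Iw f T β g (a :: u) =
      β g a + gr (T g (letter f a)) • Iw f T β (g * letter f a) u := rfl
    have h3 : Iw f T β g ((a :: u) ++ v) =
      β g a + gr (T g (letter f a)) • Iw f T β (g * letter f a) (u ++ v) := rfl
    rw [h3, ih, h1, h2, d0_value_cons, W0_gr_mul, smul_add, smul_smul, add_assoc, mul_assoc]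

private theorem W0_avoids_ends (f : α → G) (K : Set G) (g : G) (w : List (α × Bool))
    (h : Avoids f K g w) : g ∉ K ∧ g * value f w ∉ K := by
  constructor
  · have h1 := h 0 (Nat.zero_le _)
    rw [List.take_zero, d0_value_nil, mul_one] at h1
    exact h1
  · have h1 := h w.length le_rfl
    rw [List.take_length] at h1
    exact h1

private theorem W0_avoids_mono {f : α → G} {K K' : Set G} {g : G} {w : List (α × Bool)}
    (hK : K ⊆ K') (h : Avoids f K' g w) : Avoids f K g w :=
  fun n hn hm => h n hn (hK hm)

private theorem W0_move_mono {f : α → G} {R : Set (List (α × Bool))} {K K' : Set G} {g : G}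
    (hK : K ⊆ K') {w w' : List (α × Bool)} (h : Move f R K' g w w') : Move f R K g w w' := by
  cases h with
  | back u v a b hA => exact Move.back u v a b (W0_avoids_mono hK hA)
  | rel u r v hr hA => exact Move.rel u r v hr (W0_avoids_mono hK hA)

private theorem W0_gen_mono {f : α → G} {R : Set (List (α × Bool))} {K K' : Set G} {g : G}
    (hK : K ⊆ K') {w w' : List (α × Bool)} (h : Relation.EqvGen (Move f R K' g) w w') :
    Relation.EqvGen (Move f R K g) w w' := by
  induction h with
  | rel x y hxy => exact Relation.EqvGen.rel _ _ (W0_move_mono hK hxy)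
  | refl x => exact Relation.EqvGen.refl _
  | symm x y _ ih => exact Relation.EqvGen.symm _ _ ih
  | trans x y z _ _ ih1 ih2 => exact Relation.EqvGen.trans _ _ _ ih1 ih2

end WordsW0

/-- [W0] Elementary facts on words. -/
theorem W0 : St_W0 := by
  intro G α _ f
  obtain ⟨h1, h2, h3, h4, h5, -⟩ := D0 G α f
  exact ⟨fun w => ⟨h2 w, W0_winv_winv w, W0_winv_length w⟩,
    fun u v => ⟨h1 u v, W0_winv_append u v⟩, h3, h4,
    fun Γ _ τ g u v => h5 Γ τ g u v,
    fun π W _ _ _ T β g u v => W0_Iw_append f T β u v g,
    fun K K' g w hK h => W0_avoids_mono hK h,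
    fun K g w h => W0_avoids_ends f K g w h,
    fun K K' R g w w' hK h => W0_gen_mono hK h⟩

end Pool.Agent.SPD
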