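import Pool.Agent.SPD.StW

/-!
# SPD W1: invariance of holonomies and integrals under homotopies (helper76)
-/

set_option autoImplicit false

namespace Pool.Agent.SPD

open Pool.Agent.CPD

private theorem W1_gr_mul {π : Type} [Group π] (g h : π) : gr g * gr h = gr (g * h) := by
  unfold gr
  rw [MonoidAlgebra.single_mul_single, mul_one]

private theorem W1_gr_one {π : Type} [Group π] : gr (1 : π) = 1 := rfl

private theorem W1_letter {G α : Type} [Group G] (f : α → G) (x : G) (a : α) (b : Bool) :
    x * letter f (a, b) * letter f (a, !b) = x := by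
  cases b <;> simp [letter]

private theorem W1_value_two {G α : Type} [Group G] (f : α → G) (a : α) (b : Bool) :
    value f [(a, b), (a, !b)] = 1 := by
  cases b <;> simp [value, letter]

theorem W1 (hW0 : St_W0) (hD0 : St_D0) : St_W1 := by
  intro G α _ f R K hR
  obtain ⟨hinv, happ, hav, hawinv, hhol, hIw, hmono, hends, hmono2⟩ := hW0 G α f
  obtain ⟨-, -, -, -, -, hins⟩ := hD0 G α f
  have hvnil : value f ([] : List (α × Bool)) = 1 := by simp [value]
  -- values
  have mval : ∀ (g : G) (w w' : List (α × Bool)), Move f R K g w w' → value f w = value f w' := by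
    intro g w w' h
    cases h with
    | back u v a b _ =>
      have e : u ++ (a, b) :: (a, !b) :: v = u ++ ([(a, b), (a, !b)] ++ v) := rfl
      rw [e, (happ _ _).1, (happ _ _).1, (happ _ _).1, W1_value_two, one_mul]
    | rel u r v hr _ =>
      rw [(happ _ _).1, (happ _ _).1, (happ _ _).1, hR r hr, mul_one]
  have mav : ∀ (g : G) (w w' : List (α × Bool)), Move f R K g w w' →
      Avoids f K g w ∧ Avoids f K g w' := by
    intro g w w' h
    cases h with
    | back u v a b h1 =>
      refine ⟨?_, h1⟩
      have e : u ++ (a, b) :: (a, !b) :: v = u ++ ([(a, b), (a, !b)] ++ v) := rfl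
      rw [e, hav, hav, W1_value_two, mul_one] at h1
      rw [hav]
      exact ⟨h1.1, h1.2.2⟩
    | rel u r v hr h1 =>
      refine ⟨?_, h1⟩
      rw [List.append_assoc, hav, hav, hR r hr, mul_one] at h1
      rw [hav]
      exact ⟨h1.1, h1.2.2⟩
  have mhol : ∀ (Γ : Type) [Group Γ] (τ : G → (α × Bool) → Γ), IsLabel f R K τ →
      ∀ (g : G) (w w' : List (α × Bool)), Move f R K g w w' → hol f τ g w = hol f τ g w' := by
    intro Γ _ τ hτ g w w' h
    cases h with
    | back u v a b h1 =>
      have e : u ++ (a, b) :: (a, !b) :: v = u ++ ([(a, b), (a, !b)] ++ v) := rfl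
      rw [e, hav, hav] at h1
      have h2 : g * value f u ∉ K := (hends _ _ _ h1.2.1).1
      have h3 : g * value f u * letter f (a, b) ∉ K := by
        have h4 := h1.2.1
        have e2 : ([(a, b), (a, !b)] : List (α × Bool)) = [(a, b)] ++ [(a, !b)] := rfl
        rw [e2, hav] at h4
        have h5 := (hends _ _ _ h4.1).2
        simpa [value] using h5
      rw [hhol Γ τ g u v, hhol Γ τ g u]
      congr 1
      show _ = τ _ _ * (τ _ _ * hol f τ _ v)
      rw [W1_letter, ← mul_assoc, hτ.edge _ a b h2 h3, one_mul]
    | rel u r v hr h1 =>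
      rw [List.append_assoc, hav, hav] at h1
      rw [List.append_assoc, hhol Γ τ g u v, hhol Γ τ g u (r ++ v), hhol Γ τ _ r v,
        hτ.cell r hr _ h1.2.1, one_mul, hR r hr, mul_one]
  have mIw : ∀ (π W : Type) [Group π] [AddCommGroup W] [Module (ZG π) W] (T : G → G → π)
      (β : G → (α × Bool) → W), IsLabel f R K (lab f T) → WCoc f R K T β →
      ∀ (g : G) (w w' : List (α × Bool)), Move f R K g w w' → Iw f T β g w = Iw f T β g w' := by
    intro π W _ _ _ T β hT hβ g w w' h
    cases h with
    | back u v a b h1 =>
      have e : u ++ (a, b) :: (a, !b) :: v = u ++ ([(a, b), (a, !b)] ++ v) := rfl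
      rw [e, hav, hav] at h1
      have h2 : g * value f u ∉ K := (hends _ _ _ h1.2.1).1
      have h3 : g * value f u * letter f (a, b) ∉ K := by
        have h4 := h1.2.1
        have e2 : ([(a, b), (a, !b)] : List (α × Bool)) = [(a, b)] ++ [(a, !b)] := rfl
        rw [e2, hav] at h4
        have h5 := (hends _ _ _ h4.1).2
        simpa [value] using h5
      rw [hIw π W T β g u v, hIw π W T β g u]
      congr 2
      have h6 := hβ.edge _ a b h2 h3
      have h7 : T (g * value f u) (letter f (a, b)) *
          T (g * value f u * letter f (a, b)) (letter f (a, !b)) = 1 := hT.edge _ a b h2 h3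
      have e3 : Iw f T β (g * value f u) ((a, b) :: (a, !b) :: v) =
          β (g * value f u) (a, b) + gr (T (g * value f u) (letter f (a, b))) •
            (β (g * value f u * letter f (a, b)) (a, !b) +
              gr (T (g * value f u * letter f (a, b)) (letter f (a, !b))) •
                Iw f T β (g * value f u * letter f (a, b) * letter f (a, !b)) v) := rfl
      rw [e3, W1_letter, smul_add, ← add_assoc, h6, zero_add, smul_smul, W1_gr_mul, h7,
        W1_gr_one, one_smul]
    | rel u r v hr h1 =>
      rw [List.append_assoc, hav, hav] at h1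
      rw [List.append_assoc, hIw π W T β g u v, hIw π W T β g u (r ++ v), hIw π W T β _ r v,
        hβ.cell r hr _ h1.2.1, hT.cell r hr _ h1.2.1, W1_gr_one, one_smul, zero_add, hR r hr,
        mul_one]
  have c1 : ∀ (Γ : Type) [Group Γ] (τ : G → (α × Bool) → Γ), IsLabel f R K τ → ∀ g w w',
      Relation.EqvGen (Move f R K g) w w' → hol f τ g w = hol f τ g w' ∧
        value f w = value f w' := by
    intro Γ _ τ hτ g w w' h
    induction h with
    | rel x y h => exact ⟨mhol Γ τ hτ g x y h, mval g x y h⟩
    | refl x => exact ⟨rfl, rfl⟩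
    | symm x y _ ih => exact ⟨ih.1.symm, ih.2.symm⟩
    | trans x y z _ _ ih1 ih2 => exact ⟨ih1.1.trans ih2.1, ih1.2.trans ih2.2⟩
  refine ⟨c1, ?_, ?_, ?_⟩
  · intro π W _ _ _ T β hT hβ g w w' h
    induction h with
    | rel x y h => exact mIw π W T β hT hβ g x y h
    | refl x => rfl
    | symm x y _ ih => exact ih.symm
    | trans x y z _ _ ih1 ih2 => exact ih1.trans ih2
  · intro g w w' h
    induction h with
    | rel x y h => exact Or.inr (mav g x y h)
    | refl x => exact Or.inl rfl
    | symm x y _ ih => exact ih.imp Eq.symm And.symm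
    | trans x y z _ _ ih1 ih2 =>
      rcases ih1 with rfl | ih1
      · exact ih2
      · rcases ih2 with rfl | ih2
        · exact Or.inr ih1
        · exact Or.inr ⟨ih1.1, ih2.2⟩
  · intro Γ _ τ hτ g w hw
    have h0 : Avoids f K g ([] ++ []) := by
      intro n hn
      have hn0 : n = 0 := by simpa using hn
      subst hn0
      simpa [value] using (hends _ _ _ hw).1
    have h1 := hins R K g [] w [] h0 (by rw [hvnil, mul_one]; exact hw)
    rw [List.nil_append, List.append_nil, List.append_nil] at h1
    have h2 := (c1 Γ τ hτ g _ _ h1).1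
    rw [hhol] at h2
    have h3 : hol f τ g ([] : List (α × Bool)) = 1 := rfl
    rw [h3] at h2
    exact eq_inv_of_mul_eq_one_right h2

end Pool.Agent.SPD
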