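import Pool.Agent.SPD.StW

/-!
# SPD W2 : word length, joining by words (helper46)
-/

set_option autoImplicit false

namespace Pool.Agent.SPD

open Matrix Pool.Agent.CPD

private theorem W2_lift {G α : Type} [Group G] (f : α → G) (w : List (α × Bool)) :
    FreeGroup.lift f (FreeGroup.mk w) = value f w := by
  rw [FreeGroup.lift_mk]
  unfold value
  congr 1
  refine List.map_congr_left fun a _ => ?_
  unfold letter
  rcases a with ⟨a, b⟩
  cases b <;> rfl

private theorem W2_surj {G α : Type} [Group G] {n : ℕ} (f : α → G) (e : α ≃ Fin n)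
    (h : Function.Surjective (FreeGroup.lift f)) :
    Function.Surjective (FreeGroup.lift (f ∘ e.symm)) := by
  intro g
  obtain ⟨x, hx⟩ := h g
  refine ⟨FreeGroup.map e x, ?_⟩
  have h1 : (FreeGroup.lift (f ∘ e.symm)).comp (FreeGroup.map e) = FreeGroup.lift f := by
    refine FreeGroup.ext_hom _ _ fun a => ?_
    rw [MonoidHom.comp_apply, FreeGroup.map.of, FreeGroup.lift_apply_of, FreeGroup.lift_apply_of]
    show f (e.symm (e a)) = f a
    rw [Equiv.symm_apply_apply]
  rw [← hx, ← h1]
  rfl

theorem W2 (hE0 : Pool.Agent.CPD.St_E0) (hE6b : Pool.Agent.CPD.St_E6b) (hW0 : St_W0) :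
    St_W2 := by
  intro G _ _ α _ f R hM hR hpres
  obtain ⟨n, ⟨e⟩⟩ := Finite.exists_equiv_fin α
  have hs := W2_surj f e hpres.1
  obtain ⟨L, hL⟩ := hE0 G n (f ∘ e.symm) hs
  have hlen : ∀ a : α × Bool, L.l (letter f a) ≤ 1 := by
    intro a
    rw [hL]
    refine Nat.sInf_le ⟨[(e a.1, a.2)], rfl, ?_⟩
    show ([(e a.1, a.2)].map (letter (f ∘ e.symm))).prod = letter f a
    rw [List.map_singleton, List.prod_singleton]
    unfold letter
    show (if a.2 = true then f (e.symm (e a.1)) else (f (e.symm (e a.1)))⁻¹) = _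
    rw [Equiv.symm_apply_apply]
  have hword : ∀ g : G, ∃ w : List (α × Bool), value f w = g ∧ w.length = L.l g := by
    intro g
    have hne : {k | ∃ w : List (Fin n × Bool), w.length = k ∧ value (f ∘ e.symm) w = g}.Nonempty := by
      obtain ⟨x, hx⟩ := hs g
      obtain ⟨w, hw⟩ : ∃ w, FreeGroup.mk w = x := ⟨x.toWord, FreeGroup.mk_toWord⟩
      refine ⟨w.length, w, rfl, ?_⟩
      rw [← W2_lift, hw, hx]
    obtain ⟨w, hw1, hw2⟩ := Nat.sInf_mem hne
    refine ⟨w.map (fun a => (e.symm a.1, a.2)), ?_, ?_⟩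
    · rw [← hw2]
      unfold value
      rw [List.map_map]
      rfl
    · rw [List.length_map, hw1, hL]
      rfl
  obtain ⟨-, -, hav, -⟩ := hW0 G α f
  refine ⟨L, ⟨inferInstance, inferInstance, hR, hpres, ?_, hlen, hword, ?_⟩⟩
  · intro r hr
    have h1 : FreeGroup.mk r ∈ (FreeGroup.lift f).ker := by
      rw [hpres.2]
      exact Subgroup.subset_normalClosure ⟨r, hr, rfl⟩
    rw [MonoidHom.mem_ker, W2_lift] at h1
    exact h1
  · intro k
    obtain ⟨k', hk, h⟩ := hE6b G L hM k
    refine ⟨k', hk, fun v v' hv hv' => ?_⟩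
    have hj : Relation.ReflTransGen
        (fun a b => a ∈ {v | k < L.l v} ∧ b ∈ {v | k < L.l v} ∧ L.l (a⁻¹ * b) ≤ 1) v v' :=
      h v v' hv hv'
    clear hv'
    induction hj with
    | refl =>
      refine ⟨[], fun i _ => ?_, ?_⟩
      · rw [List.take_nil]
        show ¬ (L.l (v * 1) ≤ k)
        rw [mul_one]
        omega
      · show v * 1 = v
        rw [mul_one]
    | @tail b c hab hbc ih =>
      obtain ⟨p, hp1, hp2⟩ := ih
      obtain ⟨w, hw1, hw2⟩ := hword (b⁻¹ * c)
      obtain ⟨hb, hc, hl⟩ := hbc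
      have hb' : k < L.l b := hb
      have hc' : k < L.l c := hc
      refine ⟨p ++ w, ?_, ?_⟩
      · rw [hav]
        refine ⟨hp1, ?_⟩
        rw [hp2]
        intro i hi
        have hi' : i = 0 ∨ i = w.length := by omega
        rcases hi' with hi' | hi'
        · rw [hi', List.take_zero]
          show ¬ (L.l (b * 1) ≤ k)
          rw [mul_one]
          omega
        · rw [hi', List.take_length, hw1, mul_inv_cancel_left]
          show ¬ (L.l c ≤ k)
          omega
      · have h2 : value f (p ++ w) = value f p * value f w := by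
          unfold value
          rw [List.map_append, List.prod_append]
        rw [h2, ← mul_assoc, hp2, hw1, mul_inv_cancel_left]

end Pool.Agent.SPD
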