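import Pool.Agent.SPD.StW

/-!
# SPD W3: extension of a cocycle by zero, induced coefficients (helper20)
-/

set_option autoImplicit false

namespace Pool.Agent.SPD

open Pool.Agent.CPD

section

variable {G α : Type} [Group G] (f : α → G)

private theorem av_nil (K : Set G) (g : G) : Avoids f K g [] ↔ g ∉ K := by
  constructor
  · intro h
    have := h 0 (le_refl _)
    simpa [value] using this
  · intro h n hn
    simpa [value] using h

private theorem av_cons (K : Set G) (g : G) (a : α × Bool) (w : List (α × Bool)) :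
    Avoids f K g (a :: w) ↔ g ∉ K ∧ Avoids f K (g * letter f a) w := by
  constructor
  · intro h
    constructor
    · have := h 0 (Nat.zero_le _)
      simpa [value] using this
    · intro n hn
      have := h (n + 1) (by simpa using hn)
      simpa [value, mul_assoc] using this
  · rintro ⟨h1, h2⟩ n hn
    cases n with
    | zero => simpa [value] using h1
    | succ n =>
      have := h2 n (by simpa using hn)
      simpa [value, mul_assoc] using this

private theorem av_head {K : Set G} {g : G} {w : List (α × Bool)} (h : Avoids f K g w) :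
    g ∉ K := by
  have := h 0 (Nat.zero_le _)
  simpa [value] using this

private theorem letter_neg (a : α) (b : Bool) : letter f (a, !b) = (letter f (a, b))⁻¹ := by
  cases b <;> simp [letter]

variable {Γ : Type} [Group Γ] (K O : Set G) (τ : G → (α × Bool) → Γ) (P : Subgroup Γ)
  (γ : G → Γ) {W : Type} [AddCommGroup W] [Module (ZG P) W] (β : G → (α × Bool) → W)

open Classical in
/-- the induced cochain -/
private noncomputable def Bi (v : G) (a : α × Bool) (g : Γ) : W :=
  if h : (v ∈ O ∧ v * letter f a ∈ O) ∧ g * (γ v)⁻¹ ∈ P then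
    gr (⟨g * (γ v)⁻¹, h.2⟩ : P) • β v a else 0

/-- the shear with the cochain -/
private noncomputable def she (v : G) (a : α × Bool) : Equiv.Perm (Γ × W) where
  toFun x := (x.1 * τ v a, x.2 + Bi f O P γ β v a x.1)
  invFun x := (x.1 * (τ v a)⁻¹, x.2 - Bi f O P γ β v a (x.1 * (τ v a)⁻¹))
  left_inv := by
    rintro ⟨g, m⟩
    simp
  right_inv := by
    rintro ⟨g, m⟩
    simp

open Classical in
/-- the labels with values in the permutations -/
private noncomputable def th3 (v : G) (a : α × Bool) : (Equiv.Perm (Γ × W))ᵐᵒᵖ :=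
  if v ∉ K ∧ v * letter f a ∉ K then MulOpposite.op (she f O τ P γ β v a) else 1

/-- the integral of the induced cochain -/
private noncomputable def Bw : G → List (α × Bool) → Γ → W
  | _, [], _ => 0
  | v, a :: w, g => Bi f O P γ β v a g + Bw (v * letter f a) w (g * τ v a)

private theorem hol_th3 (w : List (α × Bool)) : ∀ (v : G) (g : Γ) (m : W), Avoids f K v w →
    (MulOpposite.unop (hol f (th3 f K O τ P γ β) v w)) (g, m) =
      (g * hol f τ v w, m + Bw f O τ P γ β v w g) := by
  induction w with
  | nil =>
    intro v g m _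
    simp [hol, Bw]
  | cons a w ih =>
    intro v g m hv
    rw [av_cons] at hv
    have h1 : th3 f K O τ P γ β v a = MulOpposite.op (she f O τ P γ β v a) := by
      unfold th3
      rw [if_pos ⟨hv.1, av_head f hv.2⟩]
    have h2 : hol f (th3 f K O τ P γ β) v (a :: w) =
      th3 f K O τ P γ β v a * hol f (th3 f K O τ P γ β) (v * letter f a) w := rfl
    rw [h2, h1, MulOpposite.unop_mul, Equiv.Perm.mul_apply]
    have h3 : (MulOpposite.unop (MulOpposite.op (she f O τ P γ β v a))) (g, m) =
      (g * τ v a, m + Bi f O P γ β v a g) := rfl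
    rw [h3, ih _ _ _ hv.2]
    refine Prod.ext ?_ ?_
    · show g * τ v a * hol f τ (v * letter f a) w = g * (τ v a * hol f τ (v * letter f a) w)
      rw [mul_assoc]
    · show m + Bi f O P γ β v a g + Bw f O τ P γ β (v * letter f a) w (g * τ v a) =
        m + (Bi f O P γ β v a g + Bw f O τ P γ β (v * letter f a) w (g * τ v a))
      rw [add_assoc]

variable (T : G → G → P)

private theorem gr_mul (p q : P) : gr (p * q) = gr p * gr q := by
  unfold gr
  rw [MonoidAlgebra.single_mul_single, mul_one]

private theorem gr_one : gr (1 : P) = 1 := rfl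

/-- moving the coset condition along an edge of `O` -/
private theorem step_mem (hT : ∀ v a, v ∈ O → v * letter f a ∈ O →
    ((T v (letter f a) : P) : Γ) = γ v * τ v a * (γ (v * letter f a))⁻¹)
    (v : G) (a : α × Bool) (hv : v ∈ O) (hva : v * letter f a ∈ O) (g : Γ) :
    g * τ v a * (γ (v * letter f a))⁻¹ = g * (γ v)⁻¹ * (T v (letter f a) : P) := by
  rw [hT v a hv hva]
  group

private theorem Bw_in (hT : ∀ v a, v ∈ O → v * letter f a ∈ O →
    ((T v (letter f a) : P) : Γ) = γ v * τ v a * (γ (v * letter f a))⁻¹)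
    (w : List (α × Bool)) : ∀ (v : G) (g : Γ) (h : g * (γ v)⁻¹ ∈ P), Avoids f Oᶜ v w →
    Bw f O τ P γ β v w g = gr (⟨g * (γ v)⁻¹, h⟩ : P) • Iw f T β v w := by
  induction w with
  | nil =>
    intro v g h _
    show (0 : W) = _ • (0 : W)
    rw [smul_zero]
  | cons a w ih =>
    intro v g h hv
    rw [av_cons] at hv
    have hO : v ∈ O := not_not.mp hv.1
    have hO2 : v * letter f a ∈ O := not_not.mp (av_head f hv.2)
    have h4 := step_mem f O τ P γ T hT v a hO hO2 g
    have h5 : g * τ v a * (γ (v * letter f a))⁻¹ ∈ P := by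
      rw [h4]
      exact mul_mem h (T v (letter f a)).2
    show Bi f O P γ β v a g + Bw f O τ P γ β (v * letter f a) w (g * τ v a) =
      gr (⟨g * (γ v)⁻¹, h⟩ : P) • (β v a + gr (T v (letter f a)) • Iw f T β (v * letter f a) w)
    rw [ih _ _ h5 hv.2, smul_add, ← mul_smul, ← gr_mul]
    congr 1
    · unfold Bi
      rw [dif_pos ⟨⟨hO, hO2⟩, h⟩]
    · congr 2
      exact Subtype.ext h4

private theorem Bw_out (hT : ∀ v a, v ∈ O → v * letter f a ∈ O →
    ((T v (letter f a) : P) : Γ) = γ v * τ v a * (γ (v * letter f a))⁻¹)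
    (w : List (α × Bool)) : ∀ (v : G) (g : Γ), g * (γ v)⁻¹ ∉ P → Avoids f Oᶜ v w →
    Bw f O τ P γ β v w g = 0 := by
  induction w with
  | nil =>
    intro v g h _
    rfl
  | cons a w ih =>
    intro v g h hv
    rw [av_cons] at hv
    have hO : v ∈ O := not_not.mp hv.1
    have hO2 : v * letter f a ∈ O := not_not.mp (av_head f hv.2)
    have h4 := step_mem f O τ P γ T hT v a hO hO2 g
    have h5 : g * τ v a * (γ (v * letter f a))⁻¹ ∉ P := by
      rw [h4]
      intro h6
      exact h ((Subgroup.mul_mem_cancel_right P (T v (letter f a)).2).mp h6)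
    show Bi f O P γ β v a g + Bw f O τ P γ β (v * letter f a) w (g * τ v a) = 0
    rw [ih _ _ h5 hv.2, add_zero]
    unfold Bi
    rw [dif_neg (fun hh => h hh.2)]

private theorem Bw_zero (r : List (α × Bool)) (v : G)
    (hz : ∀ r1 a r2, r = r1 ++ a :: r2 → v * value f r1 ∈ O →
      v * value f r1 * letter f a ∈ O → β (v * value f r1) a = 0) :
    ∀ (w : List (α × Bool)) (r1 : List (α × Bool)) (g : Γ), r = r1 ++ w →
      Bw f O τ P γ β (v * value f r1) w g = 0 := by
  intro w
  induction w with
  | nil =>
    intro r1 g _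
    rfl
  | cons a w ih =>
    intro r1 g hr
    have h1 : v * value f (r1 ++ [a]) = v * value f r1 * letter f a := by
      simp [value, mul_assoc]
    have h2 := ih (r1 ++ [a]) (g * τ (v * value f r1) a) (by rw [hr]; simp)
    rw [h1] at h2
    show Bi f O P γ β (v * value f r1) a g +
      Bw f O τ P γ β (v * value f r1 * letter f a) w (g * τ (v * value f r1) a) = 0
    rw [h2, add_zero]
    unfold Bi
    split_ifs with hc
    · rw [hz r1 a w hr hc.1.1 hc.1.2, smul_zero]
    · rfl

private theorem hol_T (hT : ∀ v a, v ∈ O → v * letter f a ∈ O →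
    ((T v (letter f a) : P) : Γ) = γ v * τ v a * (γ (v * letter f a))⁻¹)
    (w : List (α × Bool)) : ∀ v : G, Avoids f Oᶜ v w →
    ((hol f (lab f T) v w : P) : Γ) = γ v * hol f τ v w * (γ (v * value f w))⁻¹ := by
  induction w with
  | nil =>
    intro v _
    show (1 : Γ) = γ v * 1 * (γ (v * 1))⁻¹
    rw [mul_one, mul_one, mul_inv_cancel]
  | cons a w ih =>
    intro v hv
    rw [av_cons] at hv
    have hO : v ∈ O := not_not.mp hv.1
    have hO2 : v * letter f a ∈ O := not_not.mp (av_head f hv.2)
    have h1 : v * value f (a :: w) = v * letter f a * value f w := by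
      simp [value, mul_assoc]
    show ((T v (letter f a) : P) : Γ) * ((hol f (lab f T) (v * letter f a) w : P) : Γ) =
      γ v * (τ v a * hol f τ (v * letter f a) w) * (γ (v * value f (a :: w)))⁻¹
    rw [ih _ hv.2, hT v a hO hO2, h1]
    group

end

theorem W3 (hW1 : St_W1) : St_W3 := by
  intro G α Γ _ _ f R K O τ P γ T W _ _ β hR hτ hf hOK hT hβ hz v w hw hv hh
  have h1 := (hW1 G α f R K hR).1
  have hmono : ∀ u x, Avoids f Oᶜ u x → Avoids f K u x := by
    intro u x h n hn hk
    have := h n hn
    exact hOK _ (not_not.mp this) hk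
  -- the labels
  have hlab : IsLabel f R K (th3 f K O τ P γ β) := by
    constructor
    · intro g a b hg hga
      have hback : g * letter f (a, b) * letter f (a, !b) = g := by
        rw [letter_neg, mul_inv_cancel_right]
      have e1 : th3 f K O τ P γ β g (a, b) = MulOpposite.op (she f O τ P γ β g (a, b)) := by
        unfold th3
        rw [if_pos ⟨hg, hga⟩]
      have e2 : th3 f K O τ P γ β (g * letter f (a, b)) (a, !b) =
          MulOpposite.op (she f O τ P γ β (g * letter f (a, b)) (a, !b)) := by
        unfold th3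
        rw [if_pos ⟨hga, by rw [hback]; exact hg⟩]
      rw [e1, e2]
      apply MulOpposite.unop_injective
      apply Equiv.ext
      rintro ⟨h, m⟩
      show ((h * τ g (a, b)) * τ (g * letter f (a, b)) (a, !b),
        m + Bi f O P γ β g (a, b) h +
          Bi f O P γ β (g * letter f (a, b)) (a, !b) (h * τ g (a, b))) = (h, m)
      refine Prod.ext ?_ ?_
      · show h * τ g (a, b) * τ (g * letter f (a, b)) (a, !b) = h
        rw [mul_assoc, hτ.edge g a b hg hga, mul_one]
      · show m + Bi f O P γ β g (a, b) h +
          Bi f O P γ β (g * letter f (a, b)) (a, !b) (h * τ g (a, b)) = m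
        rw [add_assoc]
        have key : Bi f O P γ β g (a, b) h +
            Bi f O P γ β (g * letter f (a, b)) (a, !b) (h * τ g (a, b)) = 0 := by
          by_cases hO : g ∈ O ∧ g * letter f (a, b) ∈ O
          · have h4 := step_mem f O τ P γ T hT g (a, b) hO.1 hO.2 h
            by_cases hP : h * (γ g)⁻¹ ∈ P
            · have h5 : h * τ g (a, b) * (γ (g * letter f (a, b)))⁻¹ ∈ P := by
                rw [h4]
                exact mul_mem hP (T g (letter f (a, b))).2
              unfold Bi
              rw [dif_pos ⟨hO, hP⟩, dif_pos ⟨⟨hO.2, by rw [hback]; exact hO.1⟩, h5⟩]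
              have h6 : (⟨h * τ g (a, b) * (γ (g * letter f (a, b)))⁻¹, h5⟩ : P) =
                  ⟨h * (γ g)⁻¹, hP⟩ * T g (letter f (a, b)) := Subtype.ext h4
              rw [h6, gr_mul, mul_smul, ← smul_add,
                hβ.edge g a b (fun hh => hh hO.1) (fun hh => hh hO.2), smul_zero]
            · have h5 : ¬ h * τ g (a, b) * (γ (g * letter f (a, b)))⁻¹ ∈ P := by
                rw [h4]
                intro h6
                exact hP ((Subgroup.mul_mem_cancel_right P (T g (letter f (a, b))).2).mp h6)
              unfold Bi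
              rw [dif_neg (fun hh => hP hh.2), dif_neg (fun hh => h5 hh.2), add_zero]
          · unfold Bi
            rw [dif_neg (fun hh => hO hh.1), dif_neg, add_zero]
            rintro ⟨⟨h7, h8⟩, -⟩
            rw [hback] at h8
            exact hO ⟨h8, h7⟩
        rw [key, add_zero]
    · intro r hr g hg
      apply MulOpposite.unop_injective
      apply Equiv.ext
      rintro ⟨h, m⟩
      rw [hol_th3 f K O τ P γ β r g h m hg, hτ.cell r hr g hg, mul_one]
      have key : Bw f O τ P γ β g r h = 0 := by
        by_cases hO : Avoids f Oᶜ g r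
        · by_cases hP : h * (γ g)⁻¹ ∈ P
          · rw [Bw_in f O τ P γ β T hT r g h hP hO, hβ.cell r hr g hO, smul_zero]
          · exact Bw_out f O τ P γ β T hT r g h hP hO
        · have h8 := Bw_zero f O τ P γ β r g (hz r hr g hg hO) r [] h rfl
          have h9 : g * value f ([] : List (α × Bool)) = g := by
            show g * 1 = g
            rw [mul_one]
          rwa [h9] at h8
      rw [key, add_zero]
      rfl
  -- the word
  have h2 := hol_T f O τ P γ T hT w v hv
  rw [hh, hw, mul_one] at h2
  have h3 : hol f τ v w = 1 := by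
    have h4 : (γ v)⁻¹ * ((1 : P) : Γ) * γ v = hol f τ v w := by
      rw [h2]
      group
    rw [← h4]
    simp
  have h5 := (h1 _ (th3 f K O τ P γ β) hlab v w [] (hf v w hw (hmono v w hv) h3)).1
  have h6 := hol_th3 f K O τ P γ β w v (γ v) 0 (hmono v w hv)
  rw [h5] at h6
  have h7 : (γ v, (0 : W)) = (γ v * hol f τ v w, 0 + Bw f O τ P γ β v w (γ v)) := h6
  have h8 := congrArg Prod.snd h7
  have h9 : γ v * (γ v)⁻¹ ∈ P := by
    rw [mul_inv_cancel]
    exact one_mem P
  rw [Bw_in f O τ P γ β T hT w v (γ v) h9 hv] at h8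
  have h10 : (⟨γ v * (γ v)⁻¹, h9⟩ : P) = 1 := Subtype.ext (mul_inv_cancel _)
  rw [h10, gr_one, one_smul, zero_add] at h8
  exact h8.symm

end Pool.Agent.SPD
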