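import Pool.Agent.SPD.StW

/-! SPD, module W4 (helper85): pre-levels exist. -/

set_option autoImplicit false

namespace Pool.Agent.SPD

open Matrix Pool.Agent.CPD

/-- a finite set is in a ball -/
private lemma W4_ball {G : Type} [Group G] (L : Len G) {F : Set G} (hF : F.Finite) :
    ∃ m, F ⊆ Bl L m := by
  classical
  obtain ⟨M, hM⟩ := Finset.exists_le (hF.toFinset.image L.l)
  refine ⟨M, fun x hx => ?_⟩
  exact hM _ (Finset.mem_image_of_mem _ (hF.mem_toFinset.2 hx))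

private lemma W4_mono {G : Type} [Group G] (L : Len G) {m n : ℕ} (h : m ≤ n) :
    Bl L m ⊆ Bl L n := fun _ hx => le_trans hx h

theorem W4 (hD2 : CPD.St_D2) (hD3 : CPD.St_D3) (hW0 : St_W0) (hW1 : St_W1) : St_W4 := by
  classical
  intro G _ α f R L hB hS N
  obtain ⟨wi, wa, ava, avi, hola, -, avm, ave, -⟩ := hW0 G α f
  obtain ⟨hLab, -, -, hInv⟩ := hW1 G α f R (Bl L N) hB.rel
  have hfin : Finite α := hB.fin
  have hinf : Infinite G := hB.inf
  obtain ⟨Γ, hΓ, τ, hτ, hfaith⟩ := hD2 G α f R (Bl L N) hB.rel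
  obtain ⟨T0, hals, htau⟩ := hD3 G α Γ f R (Bl L N) τ hB.pres hB.Rfin (L.fin N) hτ
  obtain ⟨D, hDf, hKD, hSS⟩ := hS (Bl L N) (L.fin N)
  obtain ⟨m0, hm0⟩ := W4_ball L hDf
  obtain ⟨m, hm⟩ : ∃ m, m = max N m0 := ⟨_, rfl⟩
  have hDm : D ⊆ Bl L m := hm0.trans (W4_mono L (by omega))
  have hNm : Bl L N ⊆ Bl L m := W4_mono L (by omega)
  obtain ⟨R1, hmR1, hjoin⟩ := hB.join m
  obtain ⟨v0, hv0⟩ : ∃ v0, R1 < L.l v0 := by
    obtain ⟨v, hv⟩ := (L.fin R1).exists_notMem
    exact ⟨v, not_le.1 hv⟩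
  have hp : ∀ v, ∃ w : List (α × Bool), R1 < L.l v →
      Avoids f (Bl L m) v0 w ∧ v0 * value f w = v := by
    intro v
    by_cases h : R1 < L.l v
    · obtain ⟨w, h1, h2⟩ := hjoin v0 v hv0 h
      exact ⟨w, fun _ => ⟨h1, h2⟩⟩
    · exact ⟨[], fun h' => absurd h' h⟩
  choose p hp using hp
  have hv0m : v0 ∉ Bl L m := fun h => by
    have : L.l v0 ≤ m := h
    omega
  let P : Subgroup Γ :=
    { carrier := {g | ∃ w, value f w = 1 ∧ Avoids f (Bl L m) v0 w ∧ hol f τ v0 w = g}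
      mul_mem' := by
        rintro a b ⟨w, h1, h2, rfl⟩ ⟨w', h1', h2', rfl⟩
        refine ⟨w ++ w', ?_, ?_, ?_⟩
        · rw [(wa w w').1, h1, h1', one_mul]
        · rw [ava, h1, mul_one]
          exact ⟨h2, h2'⟩
        · rw [hola, h1, mul_one]
      one_mem' := by
        refine ⟨[], rfl, ?_, rfl⟩
        intro n _
        rw [List.take_nil]
        show v0 * value f [] ∉ Bl L m
        have : value f ([] : List (α × Bool)) = 1 := rfl
        rw [this, mul_one]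
        exact hv0m
      inv_mem' := by
        rintro a ⟨w, h1, h2, rfl⟩
        refine ⟨winv w, ?_, ?_, ?_⟩
        · rw [(wi w).1, h1, inv_one]
        · have := (avi (Bl L m) v0 w).1 h2
          rwa [h1, mul_one] at this
        · have := hInv Γ τ hτ v0 w (avm _ _ v0 w hNm h2)
          rwa [h1, mul_one] at this }
  have hPm : ∀ w, value f w = 1 → Avoids f (Bl L m) v0 w → hol f τ v0 w ∈ P :=
    fun w h1 h2 => ⟨w, h1, h2, rfl⟩
  -- the exceptional set of `T0`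
  have hBf : (⋃ a : α × Bool, {v | T0 v (letter f a) ≠ τ v a}).Finite :=
    Set.finite_iUnion fun a => Filter.eventually_cofinite.1 (htau a)
  obtain ⟨n1, hn1⟩ := W4_ball L hBf
  obtain ⟨n0, hn0⟩ : ∃ n0, n0 = max R1 (max N n1) := ⟨_, rfl⟩
  have hmn0 : Bl L m ⊆ Bl L n0 := W4_mono L (by omega)
  have hwinv : ∀ v, R1 < L.l v → hol f τ v (winv (p v)) = (hol f τ v0 (p v))⁻¹ := by
    intro v hv
    obtain ⟨h1, h2⟩ := hp v hv
    have := hInv Γ τ hτ v0 (p v) (avm _ _ v0 _ hNm h1)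
    rwa [h2] at this
  refine ⟨Γ, hΓ, τ, T0, fun v => hol f τ v0 (p v), P, n0, ?_⟩
  refine ⟨by omega, hτ, fun v w h1 h2 h3 => hfaith v w h1 h2 h3, hals, ?_, ?_, ?_⟩
  · intro v a hv
    by_contra hne
    have h1 : v ∈ ⋃ a : α × Bool, {v | T0 v (letter f a) ≠ τ v a} :=
      Set.mem_iUnion.2 ⟨a, hne⟩
    have h2 : L.l v ≤ n1 := hn1 h1
    omega
  · intro v w hw
    obtain ⟨hv1, hv2⟩ := ave (Bl L n0) v w hw
    have hv1' : R1 < L.l v := by
      have : ¬ L.l v ≤ n0 := hv1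
      omega
    have hv2' : R1 < L.l (v * value f w) := by
      have : ¬ L.l (v * value f w) ≤ n0 := hv2
      omega
    obtain ⟨h1, h2⟩ := hp v hv1'
    obtain ⟨h3, h4⟩ := hp _ hv2'
    have e1 : v0 * value f (p v ++ w) = v * value f w := by
      rw [(wa _ _).1, ← mul_assoc, h2]
    have h5 : value f (p v ++ w ++ winv (p (v * value f w))) = 1 := by
      rw [(wa _ _).1, (wi _).1]
      have e2 : value f (p v ++ w) = value f (p (v * value f w)) :=
        mul_left_cancel (e1.trans h4.symm)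
      rw [e2, mul_inv_cancel]
    have h6 : Avoids f (Bl L m) v0 (p v ++ w ++ winv (p (v * value f w))) := by
      rw [ava, ava, e1, h2]
      refine ⟨⟨h1, avm _ _ v w hmn0 hw⟩, ?_⟩
      have := (avi (Bl L m) v0 (p (v * value f w))).1 h3
      rwa [h4] at this
    have h7 := hPm _ h5 h6
    rw [hola, hola, e1, h2, hwinv _ hv2'] at h7
    exact h7
  · intro k
    obtain ⟨C', hC', hC⟩ := hSS (Bl L k) (L.fin k)
    obtain ⟨k1, hk1⟩ := W4_ball L hC'
    refine ⟨max R1 k1, fun v hv q hq => ?_⟩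
    obtain ⟨w0, h1, h2, rfl⟩ := hq
    have hv1 : R1 < L.l v := by omega
    obtain ⟨h3, h4⟩ := hp v hv1
    obtain ⟨w', h5, h6, h7⟩ := hC v0 w0 (p v) h1 (avm _ _ v0 w0 hDm h2) (avm _ _ v0 _ hDm h3)
      (by
        rw [h4]
        intro hcon
        have : L.l v ≤ k1 := hk1 hcon
        omega)
    rw [h4] at h6
    refine ⟨w', h5, h6, ?_⟩
    have h8 := (hLab Γ τ hτ v0 w0 _ h7).1
    have e3 : v0 * value f (p v ++ w') = v := by
      rw [(wa _ _).1, h5, mul_one, h4]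
    rw [hola, hola, e3, h4, hwinv v hv1] at h8
    exact h8.symm

end Pool.Agent.SPD
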