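import Pool.Agent.SPD.StW

/-!
# SPD W5: the stable image is finitely generated (helper47)
-/

set_option autoImplicit false

namespace Pool.Agent.SPD

open Pool.Agent.CPD

theorem W5 (hW0 : St_W0) (hW1 : St_W1) : St_W5 := by
  intro G _ α Γ _ f R L N n0 τ T0 γ P hB hFG hP
  obtain ⟨hinv, -, -, -, hhol, -, hmono, -, hmono2⟩ := hW0 G α f
  obtain ⟨h1, -, -, h4⟩ := hW1 G α f R (Bl L N) hB.rel
  obtain ⟨D, hDfin, hKD, hD⟩ := hFG (Bl L n0) (L.fin n0)
  obtain ⟨k, hk⟩ := (hDfin.image L.l).bddAbove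
  have hDk : D ⊆ Bl L k := fun x hx => hk (Set.mem_image_of_mem _ hx)
  obtain ⟨k', hk'⟩ := hP.surj k
  obtain ⟨v, hv, S, hS, hw⟩ := hD (Bl L k') (L.fin k')
  have hvk : k' < L.l v := by
    by_contra hc
    exact hv (not_lt.mp hc)
  have hNn : Bl L N ⊆ Bl L n0 := fun x hx => le_trans hx hP.le
  have hSmem : ∀ s ∈ S, γ v * hol f τ v s * (γ v)⁻¹ ∈ P := by
    intro s hs
    have h5 := hP.mem v s (hmono _ _ v s hKD (hS s hs).2)
    rwa [(hS s hs).1, mul_one] at h5
  set gS : {s // s ∈ S} → P := fun s => ⟨γ v * hol f τ v s.1 * (γ v)⁻¹, hSmem s.1 s.2⟩ with hgS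
  rw [Group.fg_iff]
  refine ⟨Set.range gS, ?_, Set.finite_range gS⟩
  rw [eq_top_iff]
  rintro p -
  obtain ⟨w, hw1, hw2, hw3⟩ := hk' v hvk p.1 p.2
  obtain ⟨us, hus, heq⟩ := hw w hw1 (hmono _ _ v w hDk hw2)
  have h6 := (h1 Γ τ hP.lab v w us.flatten (hmono2 _ _ R v w us.flatten hNn heq)).1
  have key : ∀ us : List (List (α × Bool)), (∀ s ∈ us, s ∈ S ∨ winv s ∈ S) →
      ∃ x ∈ Subgroup.closure (Set.range gS), (x : Γ) =
        γ v * hol f τ v us.flatten * (γ v)⁻¹ := by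
    intro us
    induction us with
    | nil =>
      intro _
      refine ⟨1, one_mem _, ?_⟩
      show (1 : Γ) = γ v * 1 * (γ v)⁻¹
      group
    | cons s us ih =>
      intro h
      obtain ⟨x, hx, hxe⟩ := ih (fun s' hs' => h s' (List.mem_cons_of_mem _ hs'))
      have hs : value f s = 1 ∧ ∃ y ∈ Subgroup.closure (Set.range gS), (y : Γ) =
          γ v * hol f τ v s * (γ v)⁻¹ := by
        rcases h s List.mem_cons_self with hs | hs
        · exact ⟨(hS s hs).1, gS ⟨s, hs⟩, Subgroup.subset_closure ⟨⟨s, hs⟩, rfl⟩, rfl⟩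
        · have h7 : value f s = 1 := by
            have h8 := (hS _ hs).1
            rw [(hinv s).1] at h8
            exact inv_eq_one.mp h8
          have h9 := h4 Γ τ hP.lab v (winv s)
            (hmono _ _ v _ (hNn.trans hKD) (hS _ hs).2)
          rw [(hS _ hs).1, mul_one, (hinv s).2.1] at h9
          refine ⟨h7, (gS ⟨winv s, hs⟩)⁻¹,
            inv_mem (Subgroup.subset_closure ⟨⟨winv s, hs⟩, rfl⟩), ?_⟩
          show (γ v * hol f τ v (winv s) * (γ v)⁻¹)⁻¹ = _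
          rw [h9]
          group
      obtain ⟨hs1, y, hy, hye⟩ := hs
      refine ⟨y * x, mul_mem hy hx, ?_⟩
      rw [List.flatten_cons, hhol Γ τ, hs1, mul_one]
      show (y : Γ) * (x : Γ) = _
      rw [hye, hxe]
      group
  obtain ⟨x, hx, hxe⟩ := key us hus
  have hxp : x = p := by
    apply Subtype.ext
    rw [hxe, ← h6, hw3]
  rw [← hxp]
  exact hx

end Pool.Agent.SPD
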