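import Pool.Agent.SPD.StW

/-!
# SPD W6: from a pre-level to a level (helper91)
-/

set_option autoImplicit false

namespace Pool.Agent.SPD

open Pool.Agent.CPD

section

variable {G α : Type} [Group G] (f : α → G)

private theorem W6_nil (K : Set G) (g : G) : Avoids f K g [] ↔ g ∉ K := by
  constructor
  · intro h
    have := h 0 (le_refl _)
    simpa [value] using this
  · intro h n hn
    simpa [value] using h

private theorem W6_cons (K : Set G) (g : G) (a : α × Bool) (w : List (α × Bool)) :
    Avoids f K g (a :: w) ↔ g ∉ K ∧ Avoids f K (g * letter f a) w := by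
  constructor
  · intro h
    constructor
    · have := h 0 (Nat.zero_le _)
      simpa [value] using this
    · intro n hn
      have := h (n + 1) (by simpa using hn)
      simpa [value, mul_assoc] using this
  · rintro ⟨h1, h2⟩ n hn
    cases n with
    | zero => simpa [value] using h1
    | succ n =>
      have := h2 n (by simpa using hn)
      simpa [value, mul_assoc] using this

private theorem W6_mono {K K' : Set G} (h : K ⊆ K') {g : G} {w : List (α × Bool)}
    (hw : Avoids f K' g w) : Avoids f K g w := fun n hn hk => hw n hn (h hk)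

private theorem W6_head {K : Set G} {g : G} {w : List (α × Bool)} (h : Avoids f K g w) :
    g ∉ K := by
  have := h 0 (Nat.zero_le _)
  simpa [value] using this

private theorem W6_neg (a : α) (b : Bool) : letter f (a, !b) = (letter f (a, b))⁻¹ := by
  cases b <;> simp [letter]

private theorem W6_vcons (a : α × Bool) (w : List (α × Bool)) :
    value f (a :: w) = letter f a * value f w := by
  simp [value]

private theorem W6_len (L : Len G) (hL : ∀ a : α × Bool, L.l (letter f a) ≤ 1)
    (w : List (α × Bool)) : L.l (value f w) ≤ w.length := by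
  induction w with
  | nil =>
    have : value f ([] : List (α × Bool)) = 1 := by simp [value]
    rw [this, L.one]
    exact Nat.zero_le _
  | cons a w ih =>
    rw [W6_vcons, List.length_cons]
    refine (L.mul _ _).trans ?_
    have := hL a
    omega

private theorem W6_shift (h : G) : Filter.Tendsto (fun v : G => v * h) Filter.cofinite
    Filter.cofinite := (mul_left_injective h).tendsto_cofinite

private theorem W6_out (L : Len G) (n : ℕ) : ∀ᶠ v : G in Filter.cofinite, v ∉ Bl L n := by
  rw [Filter.eventually_cofinite]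
  refine (L.fin n).subset ?_
  intro v hv
  by_contra hc
  exact hv hc

private theorem W6_av (L : Len G) (n : ℕ) (w : List (α × Bool)) :
    ∀ᶠ v : G in Filter.cofinite, Avoids f (Bl L n) v w := by
  induction w with
  | nil =>
    filter_upwards [W6_out L n] with v hv
    exact (W6_nil f _ _).2 hv
  | cons a w ih =>
    filter_upwards [W6_out L n, (W6_shift (letter f a)).eventually ih] with v h1 h2
    exact (W6_cons f _ _ _ _).2 ⟨h1, h2⟩

end

open Classical in
theorem W6 (hW3 : St_W3) : St_W6 := by
  intro G _ α Γ _ f R L N n0 τ T0 γ P hB hFG hP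
  have hsub : Bl L N ⊆ Bl L n0 := fun x hx => le_trans hx hP.le
  -- the transport
  obtain ⟨T, hT⟩ : ∃ T : G → G → P, ∀ v h (hh : γ v * T0 v h * (γ (v * h))⁻¹ ∈ P),
      ((T v h : P) : Γ) = γ v * T0 v h * (γ (v * h))⁻¹ := by
    refine ⟨fun v h => if hh : γ v * T0 v h * (γ (v * h))⁻¹ ∈ P then ⟨_, hh⟩ else 1, ?_⟩
    intro v h hh
    simp only [dif_pos hh]
  -- along one letter
  have hK1 : ∀ v a, v ∉ Bl L n0 → v * letter f a ∉ Bl L n0 →
      ((T v (letter f a) : P) : Γ) = γ v * τ v a * (γ (v * letter f a))⁻¹ := by
    intro v a hv hva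
    have h1 : T0 v (letter f a) = τ v a := hP.tau v a (not_le.mp hv)
    have h2 := hP.mem v [a] ((W6_cons f _ _ _ _).2 ⟨hv, (W6_nil f _ _).2 hva⟩)
    have h3 : hol f τ v [a] = τ v a := by
      show τ v a * 1 = τ v a
      rw [mul_one]
    have h4 : value f [a] = letter f a := by simp [value]
    rw [h3, h4] at h2
    rw [← h1] at h2
    rw [hT v _ h2, h1]
  -- along a word
  have hK2 : ∀ w v, Avoids f (Bl L n0) v w →
      ((hol f (lab f T) v w : P) : Γ) = γ v * hol f τ v w * (γ (v * value f w))⁻¹ := by
    intro w
    induction w with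
    | nil =>
      intro v _
      show (1 : Γ) = γ v * 1 * (γ (v * value f []))⁻¹
      have : value f ([] : List (α × Bool)) = 1 := by simp [value]
      rw [this]
      simp
    | cons a w ih =>
      intro v hv
      obtain ⟨h1, h2⟩ := (W6_cons f _ _ _ _).1 hv
      have h3 := ih _ h2
      show ((T v (letter f a) : P) : Γ) * ((hol f (lab f T) (v * letter f a) w : P) : Γ) =
        γ v * (τ v a * hol f τ (v * letter f a) w) * (γ (v * value f (a :: w)))⁻¹
      rw [h3, hK1 v a h1 (W6_head f h2), W6_vcons, mul_assoc v]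
      group
  -- asymptotic local system
  have hev : ∀ c : List (α × Bool), ∀ᶠ v : G in Filter.cofinite,
      T0 v (value f c) = hol f τ v c := by
    intro c
    induction c with
    | nil =>
      filter_upwards [hP.als0 1 1] with v hv
      rw [mul_one, mul_one] at hv
      have h1 : value f ([] : List (α × Bool)) = 1 := by simp [value]
      rw [h1]
      show T0 v 1 = 1
      exact mul_eq_left.1 hv
    | cons a c ih =>
      filter_upwards [hP.als0 (letter f a) (value f c), W6_out L n0,
        (W6_shift (letter f a)).eventually ih] with v h1 h2 h3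
      rw [W6_vcons, ← h1, h3, hP.tau v a (not_le.mp h2)]
      rfl
  have hmT : ∀ h : G, ∀ᶠ v : G in Filter.cofinite, γ v * T0 v h * (γ (v * h))⁻¹ ∈ P := by
    intro h
    obtain ⟨c, hc, -⟩ := hB.word h
    filter_upwards [hev c, W6_av f L n0 c] with v h1 h2
    have h3 := hP.mem v c h2
    rw [← h1, hc] at h3
    exact h3
  refine ⟨T, hP.le, ?_, ⟨?_, ?_⟩, ?_, ?_, hFG, ?_⟩
  · intro h h'
    filter_upwards [hP.als0 h h', hmT h, hmT (h * h'), (W6_shift h).eventually (hmT h')]
      with v h1 h2 h3 h4
    apply Subtype.ext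
    show ((T v h : P) : Γ) * ((T (v * h) h' : P) : Γ) = ((T v (h * h') : P) : Γ)
    rw [hT _ _ h2, hT _ _ h3, hT _ _ h4, ← h1, ← mul_assoc v h h']
    group
  · intro g a b h1 h2
    apply Subtype.ext
    show ((T g (letter f (a, b)) : P) : Γ) *
      ((T (g * letter f (a, b)) (letter f (a, !b)) : P) : Γ) = 1
    have e1 : g * letter f (a, b) * letter f (a, !b) = g := by
      rw [W6_neg, mul_inv_cancel_right]
    rw [hK1 g (a, b) h1 h2, hK1 _ (a, !b) h2 (by rw [e1]; exact h1), e1]
    have h3 := hP.lab.edge g a b (fun h => h1 (hsub h)) (fun h => h2 (hsub h))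
    calc γ g * τ g (a, b) * (γ (g * letter f (a, b)))⁻¹ *
          (γ (g * letter f (a, b)) * τ (g * letter f (a, b)) (a, !b) * (γ g)⁻¹) =
          γ g * (τ g (a, b) * τ (g * letter f (a, b)) (a, !b)) * (γ g)⁻¹ := by group
      _ = 1 := by rw [h3]; group
  · intro r hr g hg
    apply Subtype.ext
    rw [hK2 r g hg, hP.lab.cell r hr g (W6_mono f hsub hg), hB.rel r hr, mul_one, mul_one,
      mul_inv_cancel]
    rfl
  · intro v w hw hv hh
    have h1 := hK2 w v hv
    rw [hh, hw, mul_one] at h1
    have h2 : hol f τ v w = 1 := by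
      have h3 : (1 : Γ) = γ v * hol f τ v w * (γ v)⁻¹ := h1
      have h4 : hol f τ v w = (γ v)⁻¹ * (γ v * hol f τ v w * (γ v)⁻¹) * γ v := by group
      rw [h4, ← h3]
      group
    exact hP.faith v w hw (W6_mono f hsub hv) h2
  · intro k
    obtain ⟨k', hk'⟩ := hP.surj (max k n0)
    refine ⟨k', fun v hv g => ?_⟩
    obtain ⟨w, h1, h2, h3⟩ := hk' v hv g.1 g.2
    refine ⟨w, h1, W6_mono f (fun x hx => le_trans hx (le_max_left k n0)) h2, ?_⟩
    apply Subtype.ext
    rw [hK2 w v (W6_mono f (fun x hx => le_trans hx (le_max_right k n0)) h2), h1, mul_one]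
    exact h3
  · intro n hn
    obtain ⟨M, hM⟩ := (hB.Rfin.image List.length).bddAbove
    have hM' : ∀ r ∈ R, r.length ≤ M := fun r hr => hM (Set.mem_image_of_mem _ hr)
    refine ⟨n + 2 * M, ?_⟩
    intro W _ _ β hβ hz v w hw hv hh
    have hNn : Bl L N ⊆ Bl L n := fun x hx => le_trans hx (hP.le.trans hn)
    have hnn : Bl L n0 ⊆ Bl L n := fun x hx => le_trans hx hn
    refine hW3 G α Γ f R (Bl L N) (Bl L n)ᶜ τ P γ T W β hB.rel hP.lab hP.faith
      (fun v hv h => hv (hNn h)) (fun v a h1 h2 => hK1 v a (fun h => h1 (hnn h))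
        (fun h => h2 (hnn h))) (by rwa [compl_compl]) ?_ v w hw (by rwa [compl_compl]) hh
    intro r hr v _ hav r1 a r2 hra h1 h2
    rw [compl_compl] at hav
    unfold Avoids at hav
    push Not at hav
    obtain ⟨m, hm, hmn⟩ := hav
    apply hz
    · exact not_le.mp h1
    · have h3 : L.l (v * value f (r.take m)) ≤ n := hmn
      have h4 : L.l (value f (r.take m)) ≤ M :=
        (W6_len f L hB.len _).trans ((List.length_take_le _ _).trans (hm.trans (hM' r hr)))
      have h5 : L.l (value f r1) ≤ M := by
        refine (W6_len f L hB.len _).trans (le_trans ?_ (hM' r hr))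
        rw [hra, List.length_append]
        omega
      have h6 : v * value f r1 = v * value f (r.take m) * ((value f (r.take m))⁻¹ * value f r1) := by
        group
      rw [h6]
      have h7 := L.mul (v * value f (r.take m)) ((value f (r.take m))⁻¹ * value f r1)
      have h8 := L.mul (value f (r.take m))⁻¹ (value f r1)
      rw [L.inv] at h8
      omega

end Pool.Agent.SPD
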