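import Pool.Agent.SPD.StW

/-!
# W7 : levels exist (assembly of W4, W5, W6)
-/

set_option autoImplicit false

namespace Pool.Agent.SPD

open Matrix Pool.Agent.CPD

/-- Levels exist. -/
theorem W7 : St_W4 → St_W5 → St_W6 → St_W7 := by
  intro h4 h5 h6 G _ α f R L hB hS hF N
  obtain ⟨Γ, i, τ, T0, γ, P, n0, hP⟩ := h4 G α f R L hB hS N
  have hfg := h5 G α Γ f R L N n0 τ T0 γ P hB hF hP
  obtain ⟨T, hT⟩ := h6 G α Γ f R L N n0 τ T0 γ P hB hfg hP
  exact ⟨P, inferInstance, T, n0, hT⟩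

end Pool.Agent.SPD
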