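import Pool.Agent.SPD.StW

/-!
# SPD W8: the homomorphism between two levels (helper18)
-/

set_option autoImplicit false

namespace Pool.Agent.SPD

open Pool.Agent.CPD

theorem W8 (hW0 : St_W0) (hW1 : St_W1) : St_W8 := by
  intro G _ α π π' _ _ f R L N n0 N' n0' T T' hB hT hT' hle
  obtain ⟨hinv, happ, havo, havi, hhol, -, hmono, -, hmono2⟩ := hW0 G α f
  obtain ⟨h1, -, -, h4⟩ := hW1 G α f R (Bl L n0) hB.rel
  obtain ⟨-, -, -, h4'⟩ := hW1 G α f R (Bl L n0') hB.rel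
  have hNn : Bl L n0 ⊆ Bl L N' := fun x hx => le_trans hx hle
  have hNn' : Bl L N' ⊆ Bl L n0' := fun x hx => le_trans hx hT'.le
  have hbb : Bl L n0 ⊆ Bl L n0' := hNn.trans hNn'
  obtain ⟨k', hk'⟩ := hT'.surj n0'
  obtain ⟨m1, hm1, hjoin⟩ := hB.join n0'
  -- the base point
  obtain ⟨v0, hv0⟩ : ∃ v0, max k' m1 < L.l v0 := by
    by_contra hcon
    have hall : ∀ v : G, L.l v ≤ max k' m1 := fun v => not_lt.mp fun h => hcon ⟨v, h⟩
    have hfin : (Set.univ : Set G).Finite :=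
      (L.fin (max k' m1)).subset fun v _ => hall v
    have := hB.inf
    exact Set.infinite_univ hfin
  have hv0k : k' < L.l v0 := lt_of_le_of_lt (le_max_left _ _) hv0
  have hv0m : m1 < L.l v0 := lt_of_le_of_lt (le_max_right _ _) hv0
  choose wd hwd1 hwd2 hwd3 using hk' v0 hv0k
  -- closed words with trivial outer holonomy
  have hone : ∀ w, value f w = 1 → Avoids f (Bl L n0') v0 w →
      hol f (SPD.lab f T') v0 w = 1 → hol f (SPD.lab f T) v0 w = 1 := by
    intro w hw1 hw2 hw3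
    have h5 := hmono2 _ _ R v0 w [] hNn (hT'.faith v0 w hw1 hw2 hw3)
    exact (h1 π (SPD.lab f T) hT.lab v0 w [] h5).1
  have hphi : ∀ w, value f w = 1 → Avoids f (Bl L n0') v0 w →
      hol f (SPD.lab f T) v0 (wd (hol f (SPD.lab f T') v0 w)) = hol f (SPD.lab f T) v0 w := by
    intro w hw1 hw2
    set g := hol f (SPD.lab f T') v0 w with hg
    have e1 : value f (wd g ++ winv w) = 1 := by
      rw [(happ _ _).1, hwd1, (hinv w).1, hw1, inv_one, mul_one]
    have e2 : Avoids f (Bl L n0') v0 (wd g ++ winv w) := by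
      rw [havo]
      refine ⟨hwd2 g, ?_⟩
      rw [hwd1, mul_one]
      have h6 := (havi (Bl L n0') v0 w).1 hw2
      rwa [hw1, mul_one] at h6
    have e3 : hol f (SPD.lab f T') v0 (winv w) = g⁻¹ := by
      have h6 := h4' π' (SPD.lab f T') hT'.lab v0 w hw2
      rwa [hw1, mul_one] at h6
    have e4 : hol f (SPD.lab f T) v0 (winv w) = (hol f (SPD.lab f T) v0 w)⁻¹ := by
      have h6 := h4 π (SPD.lab f T) hT.lab v0 w (hmono _ _ v0 w hbb hw2)
      rwa [hw1, mul_one] at h6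
    have e5 : hol f (SPD.lab f T') v0 (wd g ++ winv w) = 1 := by
      rw [hhol, hwd1, mul_one, hwd3, e3, mul_inv_cancel]
    have e6 := hone _ e1 e2 e5
    rw [hhol, hwd1, mul_one, e4] at e6
    exact mul_inv_eq_one.mp e6
  set φ : π' →* π := MonoidHom.mk' (fun g => hol f (SPD.lab f T) v0 (wd g)) (by
    intro g h
    have e1 : value f (wd g ++ wd h) = 1 := by
      rw [(happ _ _).1, hwd1, hwd1, mul_one]
    have e2 : Avoids f (Bl L n0') v0 (wd g ++ wd h) := by
      rw [havo]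
      refine ⟨hwd2 g, ?_⟩
      rw [hwd1, mul_one]
      exact hwd2 h
    have e3 := hphi _ e1 e2
    have e4 : hol f (SPD.lab f T') v0 (wd g ++ wd h) = g * h := by
      rw [hhol, hwd1, mul_one, hwd3, hwd3]
    rw [e4] at e3
    show hol f (SPD.lab f T) v0 (wd (g * h)) =
      hol f (SPD.lab f T) v0 (wd g) * hol f (SPD.lab f T) v0 (wd h)
    rw [e3, hhol, hwd1, mul_one]) with hφ
  have hφa : ∀ w, value f w = 1 → Avoids f (Bl L n0') v0 w →
      φ (hol f (SPD.lab f T') v0 w) = hol f (SPD.lab f T) v0 w := hphi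
  refine ⟨φ, m1, hm1, ?_⟩
  intro v hv
  obtain ⟨p, hp1, hp2⟩ := hjoin v0 v hv0m hv
  set t' := hol f (SPD.lab f T') v0 p with ht'
  set t := hol f (SPD.lab f T) v0 p with ht
  refine ⟨(φ t')⁻¹ * t, ?_⟩
  intro w hw1 hw2
  have hmm : Bl L n0' ⊆ Bl L m1 := fun x hx => le_trans hx hm1
  have hw3 : Avoids f (Bl L n0') v w := hmono _ _ v w hmm hw2
  have e1 : value f (p ++ w ++ winv p) = 1 := by
    rw [(happ _ _).1, (happ _ _).1, hw1, mul_one, (hinv p).1, mul_inv_cancel]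
  have hbase : v0 * value f (p ++ w) = v0 * value f p := by
    rw [(happ _ _).1, hw1, mul_one]
  have e2 : Avoids f (Bl L n0') v0 (p ++ w ++ winv p) := by
    rw [havo, havo, hbase]
    exact ⟨⟨hp1, by rw [hp2]; exact hw3⟩, (havi _ _ _).1 hp1⟩
  have e3 := hφa _ e1 e2
  have e4 : hol f (SPD.lab f T') v0 (p ++ w ++ winv p) =
      t' * hol f (SPD.lab f T') v w * t'⁻¹ := by
    rw [hhol, hhol, hbase, h4' π' (SPD.lab f T') hT'.lab v0 p hp1, hp2]
  have e5 : hol f (SPD.lab f T) v0 (p ++ w ++ winv p) =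
      t * hol f (SPD.lab f T) v w * t⁻¹ := by
    rw [hhol, hhol, hbase, h4 π (SPD.lab f T) hT.lab v0 p (hmono _ _ v0 p hbb hp1), hp2]
  rw [e4, e5, map_mul, map_mul, map_inv] at e3
  show φ (hol f (SPD.lab f T') v w) =
    (φ t')⁻¹ * t * hol f (SPD.lab f T) v w * ((φ t')⁻¹ * t)⁻¹
  have e6 : φ (hol f (SPD.lab f T') v w) =
      (φ t')⁻¹ * (φ t' * φ (hol f (SPD.lab f T') v w) * (φ t')⁻¹) * φ t' := by group
  rw [e6, e3]
  group

end Pool.Agent.SPD
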