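import Pool.Agent.SPD.StW

/-! SPD, module W9 (helper30): semistability, from one ray to all paths. -/

set_option autoImplicit false

namespace Pool.Agent.SPD

open Matrix Pool.Agent.CPD

/-- a finite set is in a ball -/
private lemma W9_ball {G : Type} [Group G] (L : Len G) {F : Set G} (hF : F.Finite) :
    ∃ m, F ⊆ Bl L m := by
  classical
  obtain ⟨M, hM⟩ := Finset.exists_le (hF.toFinset.image L.l)
  refine ⟨M, fun x hx => ?_⟩
  exact hM _ (Finset.mem_image_of_mem _ (hF.mem_toFinset.2 hx))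

private lemma W9_mono {G : Type} [Group G] (L : Len G) {m n : ℕ} (h : m ≤ n) :
    Bl L m ⊆ Bl L n := fun _ hx => le_trans hx h

/-- the end point of a segment of the ray -/
private lemma W9_seg_value {G α : Type} [Group G] (f : α → G) (r : ℕ → G) (a : ℕ → α × Bool)
    (hr : ∀ i, r (i + 1) = r i * letter f (a i)) (s n : ℕ) :
    r s * value f (seg a s n) = r (s + n) := by
  induction n with
  | zero => simp [seg, value]
  | succ n ih =>
    have h1 : seg a s (n + 1) = seg a s n ++ [a (s + n)] := by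
      simp [seg, List.range_succ]
    have h2 : value f (seg a s n ++ [a (s + n)]) = value f (seg a s n) * letter f (a (s + n)) := by
      simp [value]
    rw [h1, h2, ← mul_assoc, ih, ← add_assoc, hr]

/-- the vertices of a segment of the ray -/
private lemma W9_seg_avoids {G α : Type} [Group G] (f : α → G) (r : ℕ → G) (a : ℕ → α × Bool)
    (hr : ∀ i, r (i + 1) = r i * letter f (a i)) (K : Set G) (s n : ℕ)
    (h : ∀ i, s ≤ i → r i ∉ K) : Avoids f K (r s) (seg a s n) := by
  intro i hi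
  have hlen : (seg a s n).length = n := by simp [seg]
  rw [hlen] at hi
  have h1 : (seg a s n).take i = seg a s i := by
    unfold seg
    rw [← List.map_take, List.take_range, min_eq_left hi]
  rw [h1, W9_seg_value f r a hr]
  exact h _ (by omega)

theorem W9 (hD0 : CPD.St_D0) (hD1 : CPD.St_D1) (hW0 : St_W0) : St_W9 := by
  intro G _ α f R L hB hS
  obtain ⟨wi, wa, ava, avi, -, -, avm, -, -⟩ := hW0 G α f
  obtain ⟨-, -, -, -, -, hcan⟩ := hD0 G α f
  obtain ⟨-, hctx⟩ := hD1 G α f R hB.rel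
  -- conjugation of a loop
  have hval : ∀ q x : List (α × Bool), value f x = 1 → value f (q ++ x ++ winv q) = 1 := by
    intro q x hx
    rw [(wa _ _).1, (wa _ _).1, hx, (wi q).1, mul_one, mul_inv_cancel]
  have hcav : ∀ (K : Set G) (g : G) (q x : List (α × Bool)), value f x = 1 →
      Avoids f K g q → Avoids f K (g * value f q) x → Avoids f K g (q ++ x ++ winv q) := by
    intro K g q x hx h1 h2
    rw [ava, ava]
    refine ⟨⟨h1, h2⟩, ?_⟩
    rw [(wa _ _).1, hx, mul_one]
    exact (avi K g q).1 h1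
  have hconj : ∀ (K : Set G) (g : G) (q x : List (α × Bool)), value f x = 1 →
      Avoids f K g x → Avoids f K g q →
      Relation.EqvGen (Move f R K g) x (q ++ (winv q ++ x ++ q) ++ winv q) := by
    intro K g q x hx h1 h2
    have e1 := hcan R K g [] q (x ++ q ++ winv q)
      (by
        rw [List.nil_append, ava, ava]
        refine ⟨⟨h1, ?_⟩, ?_⟩
        · rw [hx, mul_one]; exact h2
        · rw [(wa _ _).1, hx, one_mul]
          exact (avi K g q).1 h2)
      (by
        have : value f ([] : List (α × Bool)) = 1 := rfl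
        rw [this, mul_one]; exact h2)
    have e2 := hcan R K g x q []
      (by rw [List.append_nil]; exact h1)
      (by rw [hx, mul_one]; exact h2)
    have e3 : Relation.EqvGen (Move f R K g) (x ++ q ++ winv q) x := by
      simpa [winv] using e2
    have e4 : Relation.EqvGen (Move f R K g) (q ++ (winv q ++ x ++ q) ++ winv q)
        (x ++ q ++ winv q) := by
      simpa [winv, List.append_assoc] using e1
    exact (e4.trans _ _ _ e3).symm
  obtain ⟨r, a, hr, hprop, hray⟩ := hS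
  intro K hK
  obtain ⟨D1, hD1f, hKD1, hD1'⟩ := hray K hK
  obtain ⟨m, hm⟩ := W9_ball L hD1f
  obtain ⟨R1, hmR1, -⟩ := hB.join m
  refine ⟨Bl L R1, L.fin R1, hKD1.trans (hm.trans (W9_mono L hmR1)), ?_⟩
  intro C hC
  obtain ⟨k0, hk0⟩ := W9_ball L hC
  obtain ⟨k, hk⟩ : ∃ k, k = max R1 k0 := ⟨_, rfl⟩
  have hCk : C ⊆ Bl L k := hk0.trans (W9_mono L (by omega))
  have hR1k : R1 ≤ k := by omega
  obtain ⟨R2, hkR2, hj2⟩ := hB.join k
  refine ⟨Bl L R2, L.fin R2, ?_⟩
  intro v w p hw hwD hpD hu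
  obtain ⟨t0, ht0⟩ := hprop (Bl L R2) (L.fin R2)
  obtain ⟨q, hq, hqv⟩ := hj2 (v * value f p) (r t0) (not_le.1 hu) (not_le.1 (ht0 t0 le_rfl))
  have hKR1 : K ⊆ Bl L R1 := hKD1.trans (hm.trans (W9_mono L hmR1))
  have hKk : K ⊆ Bl L k := hKR1.trans (W9_mono L hR1k)
  have hD1k : D1 ⊆ Bl L k := hm.trans (W9_mono L (by omega))
  have hD1R1 : D1 ⊆ Bl L R1 := hm.trans (W9_mono L hmR1)
  -- the loop at the end point of `p`
  obtain ⟨x, hxdef⟩ : ∃ x, x = winv p ++ w ++ p := ⟨_, rfl⟩
  have hx1 : value f x = 1 := by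
    have := hval (winv p) w hw
    rwa [(wi p).2.1, ← hxdef] at this
  have hx2 : Avoids f (Bl L R1) (v * value f p) x := by
    have := hcav (Bl L R1) (v * value f p) (winv p) w hw ((avi _ _ _).1 hpD)
      (by rw [(wi p).1, mul_assoc, mul_inv_cancel, mul_one]; exact hwD)
    rwa [(wi p).2.1, ← hxdef] at this
  -- the loop at the ray
  obtain ⟨y, hydef⟩ : ∃ y, y = winv q ++ x ++ q := ⟨_, rfl⟩
  have hy1 : value f y = 1 := by
    have := hval (winv q) x hx1
    rwa [(wi q).2.1, ← hydef] at this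
  have hy2 : Avoids f D1 (r t0) y := by
    have := hcav D1 (v * value f p * value f q) (winv q) x hx1
      ((avi _ _ _).1 (avm _ _ _ _ hD1k hq))
      (by rw [(wi q).1, mul_assoc, mul_inv_cancel, mul_one]; exact avm _ _ _ _ hD1R1 hx2)
    rwa [(wi q).2.1, ← hydef, hqv] at this
  obtain ⟨n, x', hx'1, hx'2, hx'3⟩ := hD1' (Bl L k) (L.fin k) t0 y
    (fun i hi h => ht0 i hi (W9_mono L hkR2 (hD1k h))) hy1 hy2
  have hseg : Avoids f (Bl L k) (r t0) (seg a t0 n) :=
    W9_seg_avoids f r a hr _ _ _ (fun i hi h => ht0 i hi (W9_mono L hkR2 h))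
  have hz1 : value f (seg a t0 n ++ x' ++ winv (seg a t0 n)) = 1 := hval _ _ hx'1
  have hz2 : Avoids f (Bl L k) (r t0) (seg a t0 n ++ x' ++ winv (seg a t0 n)) :=
    hcav _ _ _ _ hx'1 hseg (by rw [W9_seg_value f r a hr]; exact hx'2)
  obtain ⟨z, hz⟩ : ∃ z, z = seg a t0 n ++ x' ++ winv (seg a t0 n) := ⟨_, rfl⟩
  rw [← hz] at hz1 hz2 hx'3
  have hw1 : value f (q ++ z ++ winv q) = 1 := hval _ _ hz1
  have hw2 : Avoids f (Bl L k) (v * value f p) (q ++ z ++ winv q) :=
    hcav _ _ _ _ hz1 hq (by rw [hqv]; exact hz2)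
  -- the homotopies
  have hq' : Avoids f K (v * value f p) q := avm _ _ _ _ hKk hq
  have h1 : Relation.EqvGen (Move f R K (v * value f p)) x (q ++ y ++ winv q) := by
    rw [hydef]
    exact hconj K _ q x hx1 (avm _ _ _ _ hKR1 hx2) hq'
  have h2 : Relation.EqvGen (Move f R K (v * value f p)) (q ++ y ++ winv q)
      (q ++ z ++ winv q) := by
    refine hctx K _ q y z (winv q) ?_ (by rw [hqv]; exact hx'3)
    exact hcav _ _ _ _ hy1 hq' (by rw [hqv]; exact avm _ _ _ _ hKD1 hy2)
  have h3 : Relation.EqvGen (Move f R K v) w (p ++ x ++ winv p) := by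
    rw [hxdef]
    exact hconj K _ p w hw (avm _ _ _ _ hKR1 hwD) (avm _ _ _ _ hKR1 hpD)
  have h4 : Relation.EqvGen (Move f R K v) (p ++ x ++ winv p)
      (p ++ (q ++ z ++ winv q) ++ winv p) := by
    refine hctx K _ p x _ (winv p) ?_ (h1.trans _ _ _ h2)
    exact hcav _ _ _ _ hx1 (avm _ _ _ _ hKR1 hpD) (avm _ _ _ _ hKR1 hx2)
  exact ⟨q ++ z ++ winv q, hw1, avm _ _ _ _ hCk hw2, h3.trans _ _ _ h4⟩

end Pool.Agent.SPD
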