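import Pool.Agent.CPD.KA1
import Pool.Agent.CPD.KAP
import Pool.Agent.CPD.TR1
import Pool.Agent.CPD.A1
import Pool.Agent.CPD.A2
import Pool.Agent.CPD.A3
import Pool.Agent.CPD.A4a
import Pool.Agent.CPD.A4b
import Pool.Agent.CPD.A4c
import Pool.Agent.CPD.A4d
import Pool.Agent.CPD.A5
import Pool.Agent.CPD.LK
import Pool.Agent.CPD.EU
import Pool.Agent.CPD.D0
import Pool.Agent.CPD.D1
import Pool.Agent.CPD.D2
import Pool.Agent.CPD.D3
import Pool.Agent.CPD.E0
import Pool.Agent.CPD.E1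
import Pool.Agent.CPD.E2a
import Pool.Agent.CPD.E2b
import Pool.Agent.CPD.E2c
import Pool.Agent.CPD.E2d
import Pool.Agent.CPD.E3a
import Pool.Agent.CPD.E3b
import Pool.Agent.CPD.E4
import Pool.Agent.CPD.E6a
import Pool.Agent.CPD.E6b
import Pool.Agent.CPD.Z0
import Pool.Agent.CPD.Z1
import Pool.Agent.CPD.Z2
import Pool.Agent.CPD.Z3
import Pool.Agent.CPD.Z4
import Pool.Agent.CPD.Z5
import Pool.Agent.CPD.Z6
import Pool.Agent.CPD.Z7
import Pool.Agent.CPD.Z8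
import Pool.Agent.CPD.Z9
import Pool.Agent.CPD.Z10
import Pool.Agent.CPD.F1
import Pool.Agent.CPD.G2a
import Pool.Agent.CPD.G2b
import Pool.Agent.HSP.PER
import Pool.Agent.HSP.CNJ
import Pool.Agent.HSP.BSQ
import Pool.Agent.SPD.W0
import Pool.Agent.SPD.W1
import Pool.Agent.SPD.W2
import Pool.Agent.SPD.W3
import Pool.Agent.SPD.W4
import Pool.Agent.SPD.W5
import Pool.Agent.SPD.W6
import Pool.Agent.SPD.W7
import Pool.Agent.SPD.W8
import Pool.Agent.SPD.W9
import Pool.Agent.SPD.F0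
import Pool.Agent.SPD.F6
import Pool.Agent.SPD.F9
import Pool.Agent.SPD.F10a
import Pool.Agent.SPD.F10b
import Pool.Agent.SPD.F11
import Pool.Agent.SPD.F12
import Pool.Agent.SPD.B1
import Pool.Agent.SPD.B2
import Pool.Agent.SPD.L1
import Pool.Agent.SPD.L2
import Pool.Agent.SPD.L3
import Pool.Agent.SPD.L4
import Pool.Agent.SPD.L5
import Pool.Agent.SPD.L6
import Pool.Agent.SPD.C0
import Pool.Agent.SPD.S1
import Pool.Agent.SPD.P0
import Pool.Agent.SPD.P1
import Pool.Agent.SPD.P2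
import Pool.Agent.SPD.P3
import Pool.Agent.SPD.FS
import Pool.Agent.SPD.FL
import Pool.Agent.SPD.T0
import Pool.Agent.SPD.T1
import Pool.Agent.SPD.T2a
import Pool.Agent.SPD.T2b
import Pool.Agent.SPD.T2
import Pool.Agent.SPD.T3
import Pool.Agent.SPD.T4
import Pool.Agent.SPD.TT
import Pool.Agent.SPD.G0
import Pool.Agent.SPD.G1a
import Pool.Agent.SPD.G1b
import Pool.Agent.SPD.G2
import Pool.Agent.SPD.G3a
import Pool.Agent.SPD.G3b
import Pool.Agent.SPD.G4a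
import Pool.Agent.SPD.G4b
import Pool.Agent.SPD.G4c
import Pool.Agent.SPD.G4d
import Pool.Agent.SPD.G5
import Pool.Agent.SPD.K1
import Pool.Agent.SPD.K2
import Pool.Agent.SPD.K3
import Pool.Agent.SPD.FIN

/-!
# Assembly : orientable PD₃-groups which are semistable at infinity with finitely generated images
-/

set_option autoImplicit false

namespace Pool.Agent.SPD

/-- An orientable PD₃-group with a finite presentation whose Cayley 2-complex is semistable at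
infinity and whose fundamental group at infinity is a tower of finitely generated groups is
1-connected at infinity. -/
theorem All : St_FIN := by
  have a1 := CPD.A1
  have a2 := CPD.A2
  have a3 := CPD.A3 a2
  have a4a := CPD.A4a
  have a4b := CPD.A4b a4a
  have a4c := CPD.A4c a2 a4a
  have a4d := CPD.A4d
  have a5 := CPD.A5 a1 a2 a4a a4b a4c a4d
  have lk := CPD.LK a1 a2 a3 a5
  have eu := CPD.EU a1 a2 a3
  have kap := CPD.KAP CPD.KA1
  have d0 := CPD.D0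
  have d1 := CPD.D1 d0
  have d2 := CPD.D2 d0 d1
  have d3 := CPD.D3 d0
  have e0 := CPD.E0
  have e1 := CPD.E1
  have e4 := CPD.E4 CPD.thm_E2a CPD.thm_E2b CPD.E2c CPD.E2d CPD.E3a CPD.E3b
  have e6a := CPD.E6a e1
  have e6b := CPD.E6b e6a
  have z0 := CPD.Z0
  have z1 := CPD.Z1 z0
  have z2 := CPD.Z2 z0 z1
  have z3 := CPD.Z3 z0 z1 z2
  have z4 := CPD.Z4 z0
  have z5 := CPD.Z5 z0 z2 z4
  have z6 := CPD.Z6 z0 z3 z4
  have z7 := CPD.Z7 z0 z1 z2 z3 z4
  have z8 := CPD.Z8 z0 z1 z2 z4 z5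
  have z9 := CPD.Z9 z4 z5 z6 z7 z8 lk
  have z10 := CPD.Z10 z0 z1 z2 z3 z4 z5 z6 z7 z8 eu
  have pf1 := CPD.F1
  have g2a := CPD.G2a e1 pf1
  have g2b := CPD.G2b
  have w0 := W0
  have w1 := W1 w0 d0
  have w2 := W2 e0 e6b w0
  have w3 := W3 w1
  have w4 := W4 d2 d3 w0 w1
  have w5 := W5 w0 w1
  have w6 := W6 w3
  have w7 := W7 w4 w5 w6
  have w8 := W8 w0 w1
  have w9 := W9 d0 d1 w0
  have f0 := F0
  have f6 := F6 pf1
  have f9 := F9 pf1
  have f10a := F10a f0 f9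
  have f10b := F10b f0 f6 f10a
  have f11 := F11 f0
  have f12 := F12 f0 f6 f10a
  have b1 := B1 f0
  have b2 := B2
  have l1 := L1 e1
  have l2 := L2 pf1 e1
  have l3 := L3 l2
  have l4 := L4 l2 l3
  have l5 := L5 l2
  have l6 := L6 l2 l5 w0
  have c0 := C0 w0 w1 l2 l3
  have s1 := S1 w0 w1 l2 l3
  have p0 := P0 l2 l5
  have p1 := P1 c0 l4 f6
  have p2 := P2 s1 l4 f0 f6 f9
  have p3 := P3 w0 l2 f0 f6 f9
  have fs := FS f0 f6
  have fl := FL l1 f0 f6 p0 p1 p2 p3 fs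
  have t1 := T1 T0
  have t2b := T2b l2 l4 c0 T0 T2a f6
  have t2 := T2 f0 f6 f9 t1 t2b
  have t3 := T3 l2 l5 f6 T0
  have t4 := T4 w0 l1 l5 l6 t1 t2 t3
  have tt := TT w0 w1 d0 d1 t4 HSP.thm_BSQ
  have g0 := G0
  have g1a := G1a f0 f6
  have g1b := G1b f0 f6 f10b f11 f12
  have g2 := G2 e6b f0 f6 f10b f11 g0 g2a g2b
  have g3a := G3a f0 f6 f10a
  have g3b := G3b f0 f9 g0 g2a g2b e6b g3a
  have g4a := G4a
  have g4b := G4b e1 g4a
  have g4c := G4c e1 f0 f10a g4a g4b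
  have g4d := G4d f11 g4a
  have g5 := G5 g0 g2 g3b g4c g4d z10
  have k1 := K1 g1a g1b g5 b2 z5 HSP.thm_PER HSP.thm_CON
  have k2 := K2 CPD.TR1 kap z9 g0 g1a g1b g2 g3b b1 k1
  exact FIN e4 w0 w2 w7 w8 w9 fl tt k2 K3

end Pool.Agent.SPD
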