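import Pool.Agent.SPD.Ends
import Pool.Agent.CPD.GeoDefs
import Pool.Agent.CPD.StA
import Pool.Agent.CPD.StD
import Pool.Agent.CPD.StE
import Pool.Agent.CPD.StZ

/-!
# Semistable PD₃-groups : definitions

The definitions of `CPD.LiftDefs`, with the flow along a combing replaced by an abstract
`Λ`-linear flow `H` (`Flow`), and the words, labels and cochains of the new part.
-/

set_option autoImplicit false

namespace Pool.Agent.SPD

open Matrix Pool.Agent.CPD

/-- Duality data with a length function and a common bound for the propagation. -/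
structure Pk (G : Type) [Group G] extends PDM G where
  L : Len G
  c : ℕ
  prop_D : ∀ i j g, (D i j).coeff g ≠ 0 → L.l g ≤ c
  prop_E : ∀ i j g, (E i j).coeff g ≠ 0 → L.l g ≤ c
  prop_Ps : ∀ i j g, (Ps i j).coeff g ≠ 0 → L.l g ≤ c
  prop_Ph : ∀ i j g, (Ph i j).coeff g ≠ 0 → L.l g ≤ c
  prop_h : ∀ i j g, (h i j).coeff g ≠ 0 → L.l g ≤ c

variable {G : Type} [Group G]

/-- Chains with coefficients in `Λ`. -/
abbrev Ch (M : Pk G) (Λ : Type) [Ring Λ] : Type := (G × M.I) →₀ Λ

/-- The unit of length. -/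
def Pk.u (M : Pk G) : ℕ := M.c + 1

/-- The matrix `A` has propagation at most `c`. -/
def Five (M : Pk G) (A : Matrix M.I M.I (ZG G)) : Prop :=
  ∀ i j g, (A i j).coeff g ≠ 0 → M.L.l g ≤ M.c

/-- The ball of radius `n`, as a set. -/
def Bl (L : Len G) (n : ℕ) : Set G := {v | L.l v ≤ n}

section

variable (M : Pk G) {Λ : Type} [Ring Λ] [StarRing Λ] (T : G → G → unitary Λ)

/-- The lift of the equivariant operator with matrix `A`. -/
noncomputable def op (A : Matrix M.I M.I (ZG G)) : Ch M Λ →ₗ[Λ] Ch M Λ := lo T (row A)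

/-- `T` is multiplicative up to the radius `20 u` at all elements of `V`. -/
def GoodV (V : Set G) : Prop := ∀ v ∈ V, GoodAt M.L T (20 * M.u) v

/-- An inward flow: `H` is a `Λ`-linear operator of degree one, which lives on cells of length
`> g1`, is compatible with `E`, and `E - D H - H D` maps all cells into the ball of radius `l`. -/
structure Flow (g1 l : ℕ) (H : Ch M Λ →ₗ[Λ] Ch M Λ) : Prop where
  deg : ∀ x y, H (Finsupp.single x 1) y ≠ 0 → M.deg y.2 = M.deg x.2 + 1
  src : ∀ x y, H (Finsupp.single x 1) y ≠ 0 → g1 < M.L.l x.1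
  tgt : ∀ x y, H (Finsupp.single x 1) y ≠ 0 → g1 < M.L.l y.1
  EH : ∀ x, op M T M.E (H (Finsupp.single x 1)) = H (Finsupp.single x 1)
  HE : ∀ x, H (op M T M.E (Finsupp.single x 1)) = H (Finsupp.single x 1)
  ret : ∀ x y, (op M T M.E (Finsupp.single x 1) - op M T M.D (H (Finsupp.single x 1)) -
    H (op M T M.D (Finsupp.single x 1))) y ≠ 0 → M.L.l y.1 ≤ l

/-- Admissible data: `T` is good on `V`, which contains all elements of length `> g0`, and `H` is
a flow for `g1 ≥ g0 + 100 u`. -/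
structure Adm (V : Set G) (g0 g1 l : ℕ) (H : Ch M Λ →ₗ[Λ] Ch M Λ) : Prop where
  good : GoodV M T V
  far : ∀ v, g0 < M.L.l v → v ∈ V
  gap : g0 + 100 * M.u ≤ g1
  flow : Flow M T g1 l H

/-- The retraction which belongs to the flow. -/
noncomputable def rr (H : Ch M Λ →ₗ[Λ] Ch M Λ) : Ch M Λ →ₗ[Λ] Ch M Λ :=
  op M T M.E - op M T M.D ∘ₗ H - H ∘ₗ op M T M.D

/-- The conjugate transpose of `H`, from finite chains to infinite chains. -/
noncomputable def tH (H : Ch M Λ →ₗ[Λ] Ch M Λ) (a : Ch M Λ) (x : G × M.I) : Λ :=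
  a.sum (fun y l => l * star (H (Finsupp.single x 1) y))

/-- Truncation of an infinite chain. -/
noncomputable def trunc (Q : ℕ) (f : G × M.I → Λ) : Ch M Λ :=
  Finsupp.onFinset (M.L.ball Q ×ˢ (Finset.univ : Finset M.I))
    (fun x => by classical exact if M.L.l x.1 ≤ Q then f x else 0) (by
    intro x hx
    rw [Finset.mem_product]
    refine ⟨?_, Finset.mem_univ _⟩
    rw [Len.mem_ball]
    by_contra h
    exact hx (if_neg h))

/-- The outward homotopy, truncated at radius `Q`. -/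
noncomputable def Ho (H : Ch M Λ →ₗ[Λ] Ch M Λ) (Q : ℕ) : Ch M Λ →ₗ[Λ] Ch M Λ :=
  Finsupp.linearCombination Λ (fun x =>
    op M T M.Ph (trunc M Q (tH M H (bl T x.1 (row M.Ps x)))) - bl T x.1 (row M.h x))

/-- The homotopy of the zone: inward on cells of length `≤ n' + u`, outward on cells of length
`≥ N' - u`. -/
noncomputable def th (H : Ch M Λ →ₗ[Λ] Ch M Λ) (n' N' Q : ℕ) : Ch M Λ →ₗ[Λ] Ch M Λ :=
  H ∘ₗ cut {x | M.L.l x.1 ≤ n' + M.u} ∘ₗ op M T M.E +
    Ho M T H Q ∘ₗ cut {x | N' ≤ M.L.l x.1 + M.u} ∘ₗ op M T M.E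

/-- The endomorphism of the zone. -/
noncomputable def ka (H : Ch M Λ →ₗ[Λ] Ch M Λ) (n' N' Q : ℕ) : Ch M Λ →ₗ[Λ] Ch M Λ :=
  op M T M.E - op M T M.D ∘ₗ th M T H n' N' Q - th M T H n' N' Q ∘ₗ op M T M.D

/-- The inner sets. -/
def Bs (n : ℕ) : Set (G × M.I) := {x | M.L.l x.1 + M.u * M.deg x.2 ≤ n}

/-- The outer sets. -/
def Zs (N : ℕ) : Set (G × M.I) := {x | N + M.u * M.deg x.2 ≤ M.L.l x.1}

/-- Level functions on `G` which are adapted to `V` and `g1`. -/
structure LevOK (V : Set G) (g1 : ℕ) (lev : G → ℕ) : Prop where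
  ok : ∀ x, 3 ≤ lev x → ∀ y, M.L.l (x⁻¹ * y) ≤ 3 * M.u → y ∈ V
  lip : ∀ x y, M.L.l (x⁻¹ * y) ≤ 3 * M.u → lev x ≤ lev y + 1
  cap : ∀ x, lev x ≤ 30
  big : ∀ x, g1 < M.L.l x → lev x = 30

/-- The first half of the zone properties for given radii. -/
def ZA (H : Ch M Λ →ₗ[Λ] Ch M Λ) (lev : G → ℕ) (n n' N' N : ℕ) : Prop :=
  ZoneA (fun x : G × M.I => M.deg x.2) (fun x => lev x.1) (Bs M n) (Bs M n') (Zs M N') (Zs M N)
    (op M T M.D) (op M T M.E) H (rr M T H)

/-- The second half of the zone properties for given radii. -/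
def ZB (H : Ch M Λ →ₗ[Λ] Ch M Λ) (lev : G → ℕ) (n' N' N Q : ℕ) : Prop :=
  ZoneB (fun x : G × M.I => M.deg x.2) (fun x => lev x.1) (Bs M n') (Zs M N') (Zs M N)
    (op M T M.D) (op M T M.E) H (th M T H n' N' Q)

end

/-! ## Words, labels, integrals of cochains -/

section Words

variable {α : Type}

/-- The labels of the edges which come from a coefficient system. -/
def lab {π : Type} (f : α → G) (T : G → G → π) (v : G) (a : α × Bool) : π := T v (letter f a)

/-- Group elements as unitary elements of the group ring. -/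
noncomputable def uhom (π : Type) [Group π] : π →* unitary (ZG π) where
  toFun g := ⟨MonoidAlgebra.single g 1, by
    have h1 : star (MonoidAlgebra.single g (1 : ℤ)) = MonoidAlgebra.single g⁻¹ 1 := gs_single g 1
    rw [Unitary.mem_iff, h1, MonoidAlgebra.single_mul_single, MonoidAlgebra.single_mul_single,
      inv_mul_cancel, mul_inv_cancel, mul_one]
    exact ⟨rfl, rfl⟩⟩
  map_one' := rfl
  map_mul' g h := by
    apply Subtype.ext
    show MonoidAlgebra.single (g * h) (1 : ℤ) = MonoidAlgebra.single g 1 * MonoidAlgebra.single h 1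
    rw [MonoidAlgebra.single_mul_single, mul_one]

/-- `g` as an element of the group ring. -/
noncomputable def gr {π : Type} [Group π] (g : π) : ZG π := MonoidAlgebra.single g (1 : ℤ)

/-- The coefficient system over the group ring. -/
noncomputable def tw {π : Type} [Group π] (T : G → G → π) : G → G → unitary (ZG π) :=
  fun v h => uhom π (T v h)

/-- `T` is multiplicative at `v`, up to the radius `K`. -/
def GoodT {π : Type} [Group π] (L : Len G) (T : G → G → π) (K : ℕ) (v : G) : Prop :=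
  ∀ h h', L.l h ≤ K → L.l h' ≤ K → T v h * T (v * h) h' = T v (h * h')

/-- The lift of an equivariant operator over the group ring of `π`. -/
noncomputable abbrev opT {π : Type} [Group π] (M : Pk G) (T : G → G → π)
    (A : Matrix M.I M.I (ZG G)) : Ch M (ZG π) →ₗ[ZG π] Ch M (ZG π) :=
  op M (Λ := ZG π) (tw T) A

/-- The integral of the cochain `β`, with values in a `ℤ[π]`-module, along a word. -/
noncomputable def Iw {π W : Type} [Group π] [AddCommGroup W] [Module (ZG π) W] (f : α → G)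
    (T : G → G → π) (β : G → (α × Bool) → W) : G → List (α × Bool) → W
  | _, [] => 0
  | g, a :: w => β g a + gr (T g (letter f a)) • Iw f T β (g * letter f a) w

/-- `β` is a cocycle on the complement of `K`. -/
structure WCoc {π W : Type} [Group π] [AddCommGroup W] [Module (ZG π) W] (f : α → G)
    (R : Set (List (α × Bool))) (K : Set G) (T : G → G → π) (β : G → (α × Bool) → W) : Prop where
  edge : ∀ v a b, v ∉ K → v * letter f (a, b) ∉ K →
    β v (a, b) + gr (T v (letter f (a, b))) • β (v * letter f (a, b)) (a, !b) = 0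
  cell : ∀ r ∈ R, ∀ v, Avoids f K v r → Iw f T β v r = 0

/-- A level: a coefficient system `T` with values in the stable image `π` of the fundamental group
of the complement of the ball of radius `N`; everything is right outside the ball of radius
`n0`. -/
structure Lvl {π : Type} [Group π] (f : α → G) (R : Set (List (α × Bool))) (L : Len G)
    (N n0 : ℕ) (T : G → G → π) : Prop where
  le : N ≤ n0
  als : IsALS T
  lab : IsLabel f R (Bl L n0) (lab f T)
  faith : ∀ v w, value f w = 1 → Avoids f (Bl L n0) v w → hol f (SPD.lab f T) v w = 1 →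
    Relation.EqvGen (Move f R (Bl L N) v) w []
  surj : ∀ k, ∃ k', ∀ v, k' < L.l v → ∀ g : π, ∃ w, value f w = 1 ∧ Avoids f (Bl L k) v w ∧
    hol f (SPD.lab f T) v w = g
  fg : Group.FG π
  ind : ∀ n, n0 ≤ n → ∃ l, ∀ (W : Type) [AddCommGroup W] [Module (ZG π) W]
    (β : G → (α × Bool) → W), WCoc f R (Bl L n) T β →
    (∀ v a, n < L.l v → L.l v ≤ l → β v a = 0) →
    ∀ v w, value f w = 1 → Avoids f (Bl L n) v w → hol f (SPD.lab f T) v w = 1 →
      Iw f T β v w = 0

/-- What is known about words and the Cayley complex: length, joining, presentation. -/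
structure Base (f : α → G) (R : Set (List (α × Bool))) (L : Len G) : Prop where
  inf : Infinite G
  fin : Finite α
  Rfin : R.Finite
  pres : IsPresentation f R
  rel : ∀ r ∈ R, value f r = 1
  len : ∀ a : α × Bool, L.l (letter f a) ≤ 1
  word : ∀ g : G, ∃ w : List (α × Bool), value f w = g ∧ w.length = L.l g
  join : ∀ n, ∃ n', n ≤ n' ∧ ∀ v v', n' < L.l v → n' < L.l v' →
    ∃ p, Avoids f (Bl L n) v p ∧ v * value f p = v'

end Words

/-! ## Local data of the resolution -/

/-- Integral local data: `o` a 0-chain of augmentation one, `ex`, `es` 1-chains, `f2`, `f1`, `f0`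
2-chains. -/
structure Loc (M : Pk G) (R : ℕ) where
  ρ : ℕ
  hR : R + M.u ≤ ρ
  hu : M.u ≤ R
  o : (G × M.I) →₀ ℤ
  ex : M.I → (G × M.I) →₀ ℤ
  es : G → (G × M.I) →₀ ℤ
  f2 : G → G → (G × M.I) →₀ ℤ
  f1 : M.I → (G × M.I) →₀ ℤ
  f0 : (G × M.I) →₀ ℤ
  o_supp : ∀ x, o x ≠ 0 → M.deg x.2 = 0 ∧ M.L.l x.1 ≤ R
  ex_supp : ∀ i x, ex i x ≠ 0 → M.deg x.2 = 1 ∧ M.L.l x.1 ≤ ρ
  es_supp : ∀ h x, es h x ≠ 0 → M.deg x.2 = 1 ∧ M.L.l x.1 ≤ ρ
  f2_supp : ∀ h h' x, f2 h h' x ≠ 0 → M.deg x.2 = 2 ∧ M.L.l x.1 ≤ ρ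
  f1_supp : ∀ j x, f1 j x ≠ 0 → M.deg x.2 = 2 ∧ M.L.l x.1 ≤ ρ
  f0_supp : ∀ x, f0 x ≠ 0 → M.deg x.2 = 2 ∧ M.L.l x.1 ≤ ρ
  o_E : opZ M.E o = o
  o_aug : augZ M.e o = 1
  ex_E : ∀ i, opZ M.E (ex i) = ex i
  es_E : ∀ h, opZ M.E (es h) = es h
  ex_D : ∀ i, M.deg i = 0 → row M.E (1, i) = M.e i • o + opZ M.D (ex i)
  es_D : ∀ h, M.L.l h ≤ R → o = tl h o + opZ M.D (es h)
  f2_D : ∀ h h', M.L.l h ≤ R → M.L.l h' ≤ R → M.L.l (h * h') ≤ R →
    es h + tl h (es h') = es (h * h') + opZ M.D (f2 h h')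
  f1_D : ∀ j, M.deg j = 1 → row M.E (1, j) =
    (row M.D (1, j)).sum (fun x n => n • (tl x.1 (ex x.2) - M.e x.2 • es x.1)) + opZ M.D (f1 j)
  f0_D : o.sum (fun x n => n • (tl x.1 (ex x.2) - M.e x.2 • es x.1)) = opZ M.D f0

section

variable (M : Pk G) {π : Type} [Group π] (T : G → G → π)

/-- The lift of a translated integral chain, based at `v`. -/
noncomputable def sh (v : G) (c : (G × M.I) →₀ ℤ) : Ch M (ZG π) :=
  bl (Λ := ZG π) (tw T) v (tl v c)

/-- `b`, a linear map on chains with values in a module, is a cocycle of degree one beyond the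
radius `n`. -/
structure Coc {W : Type} [AddCommGroup W] [Module (ZG π) W] (n : ℕ)
    (b : Ch M (ZG π) →ₗ[ZG π] W) : Prop where
  D0 : ∀ x : G × M.I, M.deg x.2 = 2 → n < M.L.l x.1 →
    b (opT M T M.D (Finsupp.single x 1)) = 0
  E0 : ∀ x : G × M.I, M.deg x.2 = 1 → n < M.L.l x.1 →
    b (opT M T M.E (Finsupp.single x 1)) = b (Finsupp.single x 1)

/-- The value of `b` on the local chain from `v` to `v h`. -/
noncomputable def be {R : ℕ} (𝓛 : Loc M R) {W : Type} [AddCommGroup W] [Module (ZG π) W]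
    (b : Ch M (ZG π) →ₗ[ZG π] W) (v h : G) : W := b (sh M T v (𝓛.es h))

/-- `f0` is a potential of `b` beyond the radius `n`. -/
def Pot {R : ℕ} (𝓛 : Loc M R) {W : Type} [AddCommGroup W] [Module (ZG π) W]
    (b : Ch M (ZG π) →ₗ[ZG π] W) (n : ℕ) (p : G → W) : Prop :=
  ∀ v h, n < M.L.l v → M.L.l h ≤ R →
    be M T 𝓛 b v h = p v - gr (T v h) • p (v * h)

/-- The 0-cochain which belongs to a potential. -/
noncomputable def potF {R : ℕ} (𝓛 : Loc M R) {W : Type} [AddCommGroup W] [Module (ZG π) W]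
    (b : Ch M (ZG π) →ₗ[ZG π] W) (p : G → W) : Ch M (ZG π) →ₗ[ZG π] W :=
  Finsupp.linearCombination (ZG π) (fun x : G × M.I =>
    if M.deg x.2 = 0 then M.e x.2 • p x.1 + b (sh M T x.1 (𝓛.ex x.2)) else 0)

end

end Pool.Agent.SPD
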