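import Pool.Agent.CPD.Words

/-!
# Semistability at infinity and finite generation at infinity

Paths in the Cayley 2-complex `X` of a presentation are words, see `Pool.Agent.CPD.Words`.
-/

set_option autoImplicit false

namespace Pool.Agent.SPD

open Pool.Agent.CPD

variable {G α : Type} [Group G]

/-- The formal inverse of a word. -/
def winv (w : List (α × Bool)) : List (α × Bool) := (w.map (fun a => (a.1, !a.2))).reverse

/-- All loops can be pushed to infinity along all paths: for every finite `K` there is a finite
`D ⊇ K` such that for every finite `C` and for all end points outside some finite `C'`, every loop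
`w` outside `D` is homotopic outside `K` to `p w' p⁻¹` with a loop `w'` outside `C`, for every path
`p` outside `D` which starts where `w` does and has its end point outside `C'`. -/
def StrongSemistable (f : α → G) (R : Set (List (α × Bool))) : Prop :=
  ∀ K : Set G, K.Finite → ∃ D : Set G, D.Finite ∧ K ⊆ D ∧ ∀ C : Set G, C.Finite →
    ∃ C' : Set G, C'.Finite ∧ ∀ (v : G) (w p : List (α × Bool)), value f w = 1 →
      Avoids f D v w → Avoids f D v p → v * value f p ∉ C' →
        ∃ w', value f w' = 1 ∧ Avoids f C (v * value f p) w' ∧
          Relation.EqvGen (Move f R K v) w (p ++ w' ++ winv p)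

/-- The letters `s, s + 1, …, s + n - 1` of an infinite word. -/
def seg (a : ℕ → α × Bool) (s n : ℕ) : List (α × Bool) := (List.range n).map (fun i => a (s + i))

/-- The Cayley 2-complex `X` is semistable at infinity: there is a proper ray (it starts at `r 0`
and reads the infinite word `a`) such that for every finite `K` there is a finite `D ⊇ K` for which
every loop outside `D`, based at a vertex of the ray after which the ray stays outside `D`, can be
pushed along the ray, by a homotopy outside `K`, to a loop outside any given finite set `C`. -/
def SemistableAtInfinity (f : α → G) (R : Set (List (α × Bool))) : Prop :=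
  ∃ (r : ℕ → G) (a : ℕ → α × Bool), (∀ i, r (i + 1) = r i * letter f (a i)) ∧
    (∀ K : Set G, K.Finite → ∃ s, ∀ i, s ≤ i → r i ∉ K) ∧
    ∀ K : Set G, K.Finite → ∃ D : Set G, D.Finite ∧ K ⊆ D ∧ ∀ C : Set G, C.Finite →
      ∀ (s : ℕ) (w : List (α × Bool)), (∀ i, s ≤ i → r i ∉ D) → value f w = 1 →
        Avoids f D (r s) w → ∃ (n : ℕ) (w' : List (α × Bool)), value f w' = 1 ∧
          Avoids f C (r (s + n)) w' ∧
          Relation.EqvGen (Move f R K (r s)) w (seg a s n ++ w' ++ winv (seg a s n))

/-- The images at infinity are finitely generated: for every finite `K` there is a finite `D ⊇ K`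
such that for base points `v`, arbitrarily far away, the image of `π₁(X - D, v)` in `π₁(X - K, v)`
is generated by the classes of finitely many loops. -/
def FGAtInfinity (f : α → G) (R : Set (List (α × Bool))) : Prop :=
  ∀ K : Set G, K.Finite → ∃ D : Set G, D.Finite ∧ K ⊆ D ∧
    ∀ C : Set G, C.Finite → ∃ v ∉ C, ∃ S : Finset (List (α × Bool)),
      (∀ s ∈ S, value f s = 1 ∧ Avoids f D v s) ∧
      ∀ w, value f w = 1 → Avoids f D v w → ∃ us : List (List (α × Bool)),
        (∀ s ∈ us, s ∈ S ∨ winv s ∈ S) ∧ Relation.EqvGen (Move f R K v) w us.flatten

end Pool.Agent.SPD
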