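import Pool.Agent.SPD.StF

/-!
# F0 : elementary facts for abstract flows (helper9)
-/

set_option autoImplicit false

namespace Pool.Agent.SPD

open Matrix Pool.Agent.CPD

theorem F0_op {G : Type} [Group G] (M : Pk G) {Λ : Type} [Ring Λ] [StarRing Λ]
    (T : G → G → unitary Λ) (A : Matrix M.I M.I (ZG G)) (x y : G × M.I) :
    op M T A (Finsupp.single x 1) y =
      (((A x.2 y.2).coeff (x.1⁻¹ * y.1) : ℤ) : Λ) * (T x.1 (x.1⁻¹ * y.1) : Λ) := by
  rw [op, lo_single, one_smul, bl_apply, CPD.row_apply]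

theorem F0_star {G : Type} [Group G] (M : Pk G) (A : Matrix M.I M.I (ZG G)) (hA : Five M A) :
    Five M Aᴴ := by
  intro i j g hg
  rw [Matrix.conjTranspose_apply, star_coeff] at hg
  have := hA j i g⁻¹ hg
  rwa [M.L.inv] at this

/-- **F0.** Elementary facts. -/
theorem F0 : St_F0 := by
  intro G _ M Λ _ _ T
  have hD : Five M M.D := M.prop_D
  have hE : Five M M.E := M.prop_E
  refine ⟨⟨hD, hE, M.prop_Ps, M.prop_Ph, M.prop_h, F0_star M _ hD, F0_star M _ hE⟩, ?_, ?_, ?_⟩
  · intro A x y h h0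
    apply h
    rw [F0_op, h0, Int.cast_zero, zero_mul]
  · exact F0_op M T
  · intro H n
    classical
    let B : Finset (G × M.I) := M.L.ball n ×ˢ Finset.univ
    refine ⟨B.sup fun x => (H (Finsupp.single x 1)).support.sup fun y => M.L.l y.1, ?_⟩
    intro x y hx hy
    have hxB : x ∈ B := Finset.mem_product.2 ⟨(M.L.mem_ball _ _).2 hx, Finset.mem_univ _⟩
    have h1 := Finset.le_sup (f := fun y : G × M.I => M.L.l y.1) (Finsupp.mem_support_iff.2 hy)
    have h2 := Finset.le_sup (f := fun x : G × M.I =>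
      (H (Finsupp.single x 1)).support.sup fun y => M.L.l y.1) hxB
    exact h1.trans h2

end Pool.Agent.SPD
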