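import Pool.Agent.SPD.StC

/-!
# SPD (P2): the flow in degree two (duality)
-/

set_option autoImplicit false

namespace Pool.Agent.SPD

open Matrix Pool.Agent.CPD

private theorem P2_len_le {G : Type} [Group G] (L : Len G) (x y : G) :
    L.l y ≤ L.l x + L.l (x⁻¹ * y) := by
  have := L.mul x (x⁻¹ * y)
  rwa [mul_inv_cancel_left] at this

private theorem P2_len_ge {G : Type} [Group G] (L : Len G) (x y : G) :
    L.l x ≤ L.l y + L.l (x⁻¹ * y) := by
  have h := L.mul y (y⁻¹ * x)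
  rw [mul_inv_cancel_left] at h
  have e : y⁻¹ * x = (x⁻¹ * y)⁻¹ := by rw [_root_.mul_inv_rev, inv_inv]
  rwa [e, L.inv] at h

private theorem P2_op_apply {G : Type} [Group G] (M : Pk G) {Λ : Type} [Ring Λ] [StarRing Λ]
    (T : G → G → unitary Λ) (A : Matrix M.I M.I (ZG G)) (a : Ch M Λ) (y : G × M.I) :
    op M T A a y = a.sum (fun x l => l * bl T x.1 (row A x) y) := by
  show (Finsupp.linearCombination Λ (fun x => bl T x.1 (row A x)) a) y = _
  rw [Finsupp.linearCombination_apply, Finsupp.sum_apply]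
  rfl

private theorem P2_supp {G : Type} [Group G] (M : Pk G) {Λ : Type} [Ring Λ] [StarRing Λ]
    (T : G → G → unitary Λ) (A : Matrix M.I M.I (ZG G)) (a : Ch M Λ) (y : G × M.I)
    (h : op M T A a y ≠ 0) : ∃ x, a x ≠ 0 ∧ (A x.2 y.2).coeff (x.1⁻¹ * y.1) ≠ 0 := by
  by_contra hcon
  push Not at hcon
  apply h
  rw [P2_op_apply]
  refine Finset.sum_eq_zero fun x hx => ?_
  show a x * bl T x.1 (row A x) y = 0
  rw [bl_apply, Pool.Agent.CPD.row_apply, hcon x (Finsupp.mem_support_iff.mp hx), Int.cast_zero,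
    zero_mul, mul_zero]

private theorem P2_tl {G I : Type} [Group G] (g : G) (c : (G × I) →₀ ℤ) (y : G × I) :
    tl g c y = c (g⁻¹ * y.1, y.2) := by
  have hinj : Function.Injective (fun x : G × I => (g * x.1, x.2)) := by
    intro a b hab
    have h1 := congrArg Prod.fst hab
    have h2 := congrArg Prod.snd hab
    exact Prod.ext (mul_left_cancel h1) h2
  have := Finsupp.mapDomain_apply hinj c (g⁻¹ * y.1, y.2)
  simp only [mul_inv_cancel_left] at this
  exact this

private theorem P2_entry {G : Type} [Group G] {I : Type} (A : Matrix I I (ZG G)) (i j : I) (g : G)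
    (h : (A i j).coeff g ≠ 0) : A i j ≠ 0 := by
  intro h0
  apply h
  rw [h0]
  rfl

private theorem P2_alg {A : Type} [AddCommGroup A] (w a d1 d2 q r : A) (e1 : a - w = d1 + d2)
    (e2 : a = q + r) : w - (q - d1) = r - d2 := by
  have h1 : w = a - (d1 + d2) := by rw [← e1, sub_sub_cancel]
  rw [h1, e2]
  abel

theorem P2 (hS1 : St_S1) (hL4 : St_L4) (hF0 : St_F0) (hF6 : St_F6) (hF9 : St_F9) : St_P2 := by
  intro G α π _ _ f Rel M R 𝓛 N n0 n T hD hss l1
  classical
  have huc : M.u = M.c + 1 := rfl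
  obtain ⟨n1, hn1, hn1'⟩ : ∃ n1, n ≤ n1 ∧ l1 + M.u ≤ n1 :=
    ⟨max n (l1 + M.u), le_max_left _ _, le_max_right _ _⟩
  have hD1 : Dat f Rel M 𝓛 N n0 n1 T :=
    ⟨hD.base, hD.len, hD.lvl, hD.le.trans hn1, fun v hv => hD.good v (lt_of_le_of_lt hn1 hv)⟩
  obtain ⟨n'', hn'', hs⟩ := hS1 G α π f Rel M R 𝓛 N n0 n1 T hD1 hss
  refine ⟨n'' + 2 * 𝓛.ρ + l1 + 10 * M.u, ?_⟩
  intro w hw hEw hDw
  have hρ : R + M.u ≤ 𝓛.ρ := 𝓛.hR
  have hkap : 20 * M.u ≤ 𝓛.kap := by unfold Loc.kap; omega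
  let V : Set G := {v | n < M.L.l v}
  have hV : GoodV M (tw T) V := by
    intro v hv h h' hh hh'
    have h1 := hD.good v hv h h' (hh.trans hkap) (hh'.trans hkap)
    show uhom π (T v h) * uhom π (T (v * h) h') = uhom π (T v (h * h'))
    rw [← map_mul, h1]
  obtain ⟨⟨fD, fE, fPs, fPh, fh, fDh, fEh⟩, -, -, -⟩ := hF0 G M (ZG π) (tw T)
  obtain ⟨hmul, haddsub, -⟩ := hF6 G M (ZG π) (tw T) V hV
  have hadd : ∀ (A B : Matrix M.I M.I (ZG G)) (a : Ch M (ZG π)),
      opT M T (A + B) a = opT M T A a + opT M T B a := fun A B a => (haddsub A B a).1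
  have hsub : ∀ (A B : Matrix M.I M.I (ZG G)) (a : Ch M (ZG π)),
      opT M T (A - B) a = opT M T A a - opT M T B a := fun A B a => (haddsub A B a).2
  have hwV : ∀ x, w x ≠ 0 → x.1 ∈ V := by
    intro x hx
    have := (hw x hx).2
    show n < M.L.l x.1
    omega
  -- the dual chain
  obtain ⟨bh, hbh⟩ : ∃ bh : Ch M (ZG π), bh = opT M T M.Ps w := ⟨_, rfl⟩
  have hbs : ∀ y, bh y ≠ 0 → M.deg y.2 = 1 ∧ n + 4 * M.u < M.L.l y.1 := by
    intro y hy
    rw [hbh] at hy
    obtain ⟨x, hx, hc⟩ := P2_supp M (tw T) M.Ps w y hy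
    obtain ⟨hx1, hx2⟩ := hw x hx
    have h1 := M.prop_Ps _ _ _ hc
    have h3 := M.Ps_deg _ _ (P2_entry M.Ps _ _ _ hc)
    have h4 := P2_len_ge M.L x.1 y.1
    constructor <;> omega
  have hbV : ∀ y, bh y ≠ 0 → y.1 ∈ V := by
    intro y hy
    have := (hbs y hy).2
    show n < M.L.l y.1
    omega
  have hDb : opT M T M.Dᴴ bh = opT M T M.Ps (opT M T M.D w) := by
    rw [hbh, hmul M.Ps M.Dᴴ w fPs fDh hwV, hmul M.D M.Ps w fD fPs hwV, M.DPs]
  have hDs : ∀ x, opT M T M.Dᴴ bh x ≠ 0 → M.L.l x.1 ≤ l1 + M.c := by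
    intro y hy
    rw [hDb] at hy
    obtain ⟨x, hx, hc⟩ := P2_supp M (tw T) M.Ps _ y hy
    have h1 := M.prop_Ps _ _ _ hc
    have h2 := hDw x hx
    have h4 := P2_len_le M.L x.1 y.1
    omega
  have hEb : opT M T M.Eᴴ bh = bh := by
    rw [hbh, hmul M.Ps M.Eᴴ w fPs fEh hwV, M.PsE]
  -- the cocycle
  let b : Ch M (ZG π) →ₗ[ZG π] ZG π := Finsupp.linearCombination (ZG π) (fun y => star (bh y))
  have hb : ∀ c, b c = pair c (fun y => star (bh y)) := fun c => by
    simp only [b, Finsupp.linearCombination_apply, smul_eq_mul]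
    rfl
  have hb1 : ∀ y, b (Finsupp.single y 1) = star (bh y) := fun y => by
    simp only [b, Finsupp.linearCombination_single, one_smul]
  have hCoc : Coc M T n1 b := by
    refine ⟨fun x hx hl => ?_, fun x hx hl => ?_⟩
    · rw [hb, hF9 G M (ZG π) (tw T) V M.D bh x hV fD (fun y hy _ => hbV y hy)]
      by_contra h0
      have h1 : opT M T M.Dᴴ bh x ≠ 0 := by
        intro h2
        apply h0
        rw [h2, star_zero]
      have := hDs x h1
      omega
    · rw [hb, hF9 G M (ZG π) (tw T) V M.E bh x hV fE (fun y hy _ => hbV y hy), hEb, hb1]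
  obtain ⟨Q, hQ⟩ : ∃ Q, ∀ x, bh x ≠ 0 → M.L.l x.1 ≤ Q :=
    ⟨bh.support.sup (fun x => M.L.l x.1), fun x hx =>
      Finset.le_sup (f := fun x : G × M.I => M.L.l x.1) (Finsupp.mem_support_iff.mpr hx)⟩
  obtain ⟨p, hp, Q', hQ'⟩ := hs (ZG π) b hCoc ⟨Q, fun x _ hx => by
    rw [hb1]
    by_contra h0
    have h1 : bh x ≠ 0 := by
      intro h2
      apply h0
      rw [h2, star_zero]
    have := hQ x h1
    omega⟩
  have hL := (hL4 G M R 𝓛 π T n1 n'' (ZG π) b p hD1.good hCoc hn'' hp).1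
  let g : G × M.I → ZG π := fun x =>
    if M.deg x.2 = 0 then M.e x.2 • p x.1 + b (sh M T x.1 (𝓛.ex x.2)) else 0
  have hg : potF M T 𝓛 b p = Finsupp.linearCombination (ZG π) g := rfl
  -- the function vanishes far away
  have hgfar : ∀ x : G × M.I, max Q' (Q + 𝓛.ρ) < M.L.l x.1 → g x = 0 := by
    intro x hx
    have hx1 : Q' < M.L.l x.1 := lt_of_le_of_lt (le_max_left _ _) hx
    have hx2 : Q + 𝓛.ρ < M.L.l x.1 := lt_of_le_of_lt (le_max_right _ _) hx
    have h1 : b (sh M T x.1 (𝓛.ex x.2)) = 0 := by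
      rw [hb]
      unfold pair
      refine Finset.sum_eq_zero fun y hy => ?_
      have hy' := Finsupp.mem_support_iff.mp hy
      have h2 : tl x.1 (𝓛.ex x.2) y ≠ 0 := by
        intro h3
        apply hy'
        show bl (tw T) x.1 (tl x.1 (𝓛.ex x.2)) y = 0
        rw [bl_apply, h3, Int.cast_zero, zero_mul]
      rw [P2_tl] at h2
      have h3 : M.L.l (x.1⁻¹ * y.1) ≤ 𝓛.ρ := (𝓛.ex_supp _ _ h2).2
      have h4 := P2_len_ge M.L x.1 y.1
      have h5 : bh y = 0 := by
        by_contra h6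
        have := hQ y h6
        omega
      show _ * star (bh y) = 0
      rw [h5, star_zero, mul_zero]
    show (if M.deg x.2 = 0 then M.e x.2 • p x.1 + b (sh M T x.1 (𝓛.ex x.2)) else 0) = 0
    rw [h1, hQ' x.1 hx1, smul_zero, add_zero, ite_self]
  let Fh : Ch M (ZG π) := Finsupp.onFinset
    (M.L.ball (max Q' (Q + 𝓛.ρ)) ×ˢ (Finset.univ : Finset M.I))
    (fun x => if M.deg x.2 = 0 ∧ n'' + 𝓛.ρ < M.L.l x.1 then star (g x) else 0) (by
      intro x hx
      rw [Finset.mem_product]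
      refine ⟨?_, Finset.mem_univ _⟩
      rw [Len.mem_ball]
      by_contra h0
      apply hx
      rw [hgfar x (by omega), star_zero, ite_self])
  have hFh : ∀ x, Fh x = if M.deg x.2 = 0 ∧ n'' + 𝓛.ρ < M.L.l x.1 then star (g x) else 0 :=
    fun x => rfl
  have hFs : ∀ x, Fh x ≠ 0 → M.deg x.2 = 0 ∧ n'' + 𝓛.ρ < M.L.l x.1 := by
    intro x hx
    by_contra h0
    apply hx
    rw [hFh, if_neg h0]
  have hFV : ∀ x, Fh x ≠ 0 → x.1 ∈ V := by
    intro x hx
    have := (hFs x hx).2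
    show n < M.L.l x.1
    omega
  have key : ∀ y : G × M.I, M.deg y.2 = 1 → n'' + 𝓛.ρ + M.u < M.L.l y.1 →
      opT M T M.Dᴴ Fh y = bh y := by
    intro y hy1 hy2
    apply star_injective
    rw [← hF9 G M (ZG π) (tw T) V M.D Fh y hV fD (fun z hz _ => hFV z hz)]
    rw [← hb1, hL y hy1 (by omega), hg, Finsupp.linearCombination_apply]
    unfold pair
    refine Finset.sum_congr rfl fun z hz => ?_
    have hz' := Finsupp.mem_support_iff.mp hz
    obtain ⟨x, hx, hc⟩ := P2_supp M (tw T) M.D (Finsupp.single y 1) z hz'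
    have hxy : x = y := by
      by_contra hne
      exact hx (Finsupp.single_eq_of_ne hne)
    subst hxy
    have h1 := M.prop_D _ _ _ hc
    have h2 := M.resP.D_deg _ _ (P2_entry M.D _ _ _ hc)
    have h3 := P2_len_ge M.L x.1 z.1
    have h4 : M.deg z.2 = 0 ∧ n'' + 𝓛.ρ < M.L.l z.1 := by
      constructor <;> omega
    show _ * star (Fh z) = _ • g z
    rw [hFh, if_pos h4, star_star, smul_eq_mul]
  -- the error
  obtain ⟨er, her⟩ : ∃ er : Ch M (ZG π), er = bh - opT M T M.Dᴴ Fh := ⟨_, rfl⟩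
  have hers : ∀ y, er y ≠ 0 → M.L.l y.1 ≤ n'' + 𝓛.ρ + M.u := by
    intro y hy
    by_contra hl
    apply hy
    rw [her, Finsupp.sub_apply]
    by_cases hd : M.deg y.2 = 1
    · rw [key y hd (by omega), sub_self]
    · have h1 : bh y = 0 := by
        by_contra h2
        exact hd (hbs y h2).1
      have h3 : opT M T M.Dᴴ Fh y = 0 := by
        by_contra h4
        obtain ⟨x, hx, hc⟩ := P2_supp M (tw T) M.Dᴴ Fh y h4
        have h5 := P2_entry _ _ _ _ hc
        rw [Matrix.conjTranspose_apply] at h5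
        have h6 : M.D y.2 x.2 ≠ 0 := by
          intro h7
          apply h5
          rw [h7, star_zero]
        have h7 := M.resP.D_deg _ _ h6
        have h8 := (hFs x hx).1
        exact hd (by omega)
      rw [h1, h3, sub_self]
  have hbe : bh = opT M T M.Dᴴ Fh + er := by
    rw [her, add_sub_cancel]
  -- the homotopy
  have e1 : opT M T M.Ph bh - w = opT M T M.D (opT M T M.h w) + opT M T M.h (opT M T M.D w) := by
    have h1 : opT M T (M.Ps * M.Ph - M.E) w = opT M T (M.h * M.D + M.D * M.h) w := by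
      rw [M.homot]
    rw [hsub, hadd, hEw, ← hmul M.Ps M.Ph w fPs fPh hwV, ← hmul M.h M.D w fh fD hwV,
      ← hmul M.D M.h w fD fh hwV, ← hbh] at h1
    exact h1
  have e2 : opT M T M.Ph bh = opT M T M.D (opT M T M.Ph Fh) + opT M T M.Ph er := by
    conv_lhs => rw [hbe]
    rw [map_add, hmul M.Dᴴ M.Ph Fh fDh fPh hFV, M.DPh, ← hmul M.Ph M.D Fh fPh fD hFV]
  refine ⟨opT M T M.Ph Fh - opT M T M.h w, ?_, ?_, ?_⟩
  · intro x hx
    rw [Finsupp.sub_apply] at hx
    have hor : opT M T M.Ph Fh x ≠ 0 ∨ opT M T M.h w x ≠ 0 := by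
      by_contra h0
      push Not at h0
      apply hx
      rw [h0.1, h0.2, sub_self]
    rcases hor with h | h
    · obtain ⟨y, hy, hc⟩ := P2_supp M (tw T) M.Ph Fh x h
      have h1 := M.prop_Ph _ _ _ hc
      have h2 := M.Ph_deg _ _ (P2_entry M.Ph _ _ _ hc)
      have h3 := P2_len_ge M.L y.1 x.1
      obtain ⟨h4, h5⟩ := hFs y hy
      constructor <;> omega
    · obtain ⟨y, hy, hc⟩ := P2_supp M (tw T) M.h w x h
      have h1 := M.prop_h _ _ _ hc
      have h2 := M.h_deg _ _ (P2_entry M.h _ _ _ hc)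
      have h3 := P2_len_ge M.L y.1 x.1
      obtain ⟨h4, h5⟩ := hw y hy
      constructor <;> omega
  · rw [map_sub, hmul M.Ph M.E Fh fPh fE hFV, M.PhE, hmul M.h M.E w fh fE hwV, M.hE]
  · intro x hx
    have e3 : w - opT M T M.D (opT M T M.Ph Fh - opT M T M.h w) =
        opT M T M.Ph er - opT M T M.h (opT M T M.D w) := by
      rw [map_sub]
      exact P2_alg _ _ _ _ _ _ e1 e2
    rw [e3, Finsupp.sub_apply] at hx
    have hor : opT M T M.Ph er x ≠ 0 ∨ opT M T M.h (opT M T M.D w) x ≠ 0 := by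
      by_contra h0
      push Not at h0
      apply hx
      rw [h0.1, h0.2, sub_self]
    rcases hor with h | h
    · obtain ⟨y, hy, hc⟩ := P2_supp M (tw T) M.Ph er x h
      have h1 := M.prop_Ph _ _ _ hc
      have h3 := P2_len_le M.L y.1 x.1
      have h4 := hers y hy
      omega
    · obtain ⟨y, hy, hc⟩ := P2_supp M (tw T) M.h (opT M T M.D w) x h
      have h1 := M.prop_h _ _ _ hc
      have h3 := P2_len_le M.L y.1 x.1
      have h4 := hDw y hy
      omega

end Pool.Agent.SPD
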