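import Pool.Agent.SPD.StL

/-!
# Statements, part C : cocycles, semistability, construction of the flow

Standing data: a presentation `f, Rel` with `Base f Rel M.L`, all relators of length `≤ R`, local
data `𝓛 : Loc M R`, a level `Lvl f Rel M.L N n0 T`. Words are read in the Cayley graph; `β v a =
be v (letter f a)`. `T` is good at `v` means `GoodT M.L T 𝓛.kap v`. Final theorem of this part:
`St_FL`, the flow.
-/

set_option autoImplicit false

namespace Pool.Agent.SPD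

open Matrix Pool.Agent.CPD

/-- The standing data. -/
structure Dat {G α π : Type} [Group G] [Group π] (f : α → G) (Rel : Set (List (α × Bool)))
    (M : Pk G) {R : ℕ} (𝓛 : Loc M R) (N n0 n : ℕ) (T : G → G → π) : Prop where
  base : Base f Rel M.L
  len : ∀ r ∈ Rel, r.length ≤ R
  lvl : Lvl f Rel M.L N n0 T
  le : n0 ≤ n
  good : ∀ v, n < M.L.l v → GoodT M.L T 𝓛.kap v

/-- A partial flow, for the cells of degree `< i`. -/
structure PFlow {G π : Type} [Group G] [Group π] (M : Pk G) (T : G → G → π) (i g1 l : ℕ)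
    (H : Ch M (ZG π) →ₗ[ZG π] Ch M (ZG π)) : Prop where
  low : ∀ x y, H (Finsupp.single x 1) y ≠ 0 → M.deg x.2 < i
  deg : ∀ x y, H (Finsupp.single x 1) y ≠ 0 → M.deg y.2 = M.deg x.2 + 1
  src : ∀ x y, H (Finsupp.single x 1) y ≠ 0 → g1 < M.L.l x.1
  tgt : ∀ x y, H (Finsupp.single x 1) y ≠ 0 → g1 < M.L.l y.1
  EH : ∀ x, opT M T M.E (H (Finsupp.single x 1)) = H (Finsupp.single x 1)
  HE : ∀ x, H (opT M T M.E (Finsupp.single x 1)) = H (Finsupp.single x 1)
  ret : ∀ x y, M.deg x.2 < i → (opT M T M.E (Finsupp.single x 1) -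
    opT M T M.D (H (Finsupp.single x 1)) - H (opT M T M.D (Finsupp.single x 1))) y ≠ 0 →
    M.L.l y.1 ≤ l

/-- [C0] (uses W0, W1, L2, L3) Cocycles which vanish on a thick shell.

Proof. `m := n + ρ`; by L3 (6) `β v a := be v (letter f a)` satisfies `WCoc` on the complement of
`Bl m`. `R1` from `join m`, `k'` from `surj m`; `n''` larger than `R1 + R`, `k'`, `m + R`. Let `a` with
`|a| > n''` and `l0` be given. For each element of a finite generating set of `π` (`fg`) choose a closed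
word at `a` outside `Bl m` with this holonomy (`surj`), for each of the finitely many `v` with
`n'' < |v| ≤ l0` a word from `v` to `a` outside `Bl m` (`join`). `l ≥ l0` is larger than `ρ` plus the
lengths of all vertices of these words, and than `ρ +` the number of `ind m`. Let `b` vanish on the
cells of degree one of length `≤ l`. Then `β v a = 0` if `|v| + ρ ≤ l` (`sh v (es h)` lives within `ρ`
of `v`). By `ind`: closed words outside `Bl m` with trivial holonomy have integral `0`. A closed word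
`w` at `a` outside `Bl m`: `(hol w)⁻¹` is a product of generators and inverses, so it is the holonomy
of a product `w'` of the chosen words and their `winv`s, along which all `β` vanish, `Iw w' = 0`; so
`Iw w = Iw (w ++ w') = 0` (W0, `ind`). For `|v| > R1` let `p v := Iw f T β v q`, `q` a word from `v` to `a`
outside `Bl m` (for the other `v`: `0`). It does not depend on `q`: `q ~ q' ++ (winv q' ++ q)` outside
`Bl m` (W1) and the bracket is a closed word at `a`. `p a = 0` (`q = []`). `p v = 0` for `n'' < |v| ≤ l0`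
(the chosen word). `Pot`: `n'' < |v|`, `l h ≤ R`: let `c` be a word of length `l h` with value `h`; it is
outside `Bl m` from `v`, `|v h| > R1`; `p v = Iw (c ++ q) = Iw c + gr (hol c) • p (v h)`; `Iw c = be v h` by
L3 (5), `hol c = T v h` as `T` is good at `v`. -/
def St_C0 : Prop := ∀ (G α π : Type) [Group G] [Group π] (f : α → G)
  (Rel : Set (List (α × Bool))) (M : Pk G) (R : ℕ) (𝓛 : Loc M R) (N n0 n : ℕ) (T : G → G → π),
  Dat f Rel M 𝓛 N n0 n T → ∃ n'', n + 𝓛.ρ ≤ n'' ∧ ∀ a, n'' < M.L.l a → ∀ l0, ∃ l, l0 ≤ l ∧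
    ∀ (W : Type) [AddCommGroup W] [Module (ZG π) W] (b : Ch M (ZG π) →ₗ[ZG π] W),
      Coc M T n b → (∀ x : G × M.I, M.deg x.2 = 1 → M.L.l x.1 ≤ l → b (Finsupp.single x 1) = 0) →
      ∃ p : G → W, Pot M T 𝓛 b n'' p ∧ p a = 0 ∧ ∀ v, n'' < M.L.l v → M.L.l v ≤ l0 → p v = 0

/-- [S1] (uses W0, W1, L2, L3) Cocycles with compact support; semistability.

Proof. `m := n + ρ`, `K := Bl m` (finite), `β` satisfies `WCoc` on its complement (L3 (6)). `D` from
`StrongSemistable`, `m1 ≥ m` with `D ⊆ Bl m1`, `R1` from `join m1`, `n'' := R1 + R + m1`. Let `b` vanish on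
cells of degree one of length `> Q`. So `β v a = 0` if `|v| > Q + ρ`. `C := Bl (Q + ρ)`, `C'` from
semistability; `Q2` larger than `R1`, the lengths in `C'`, and the radius of `join (Q + ρ)`. For
`|v| > R1` let `p v := Iw f T β v q`, `q` a word from `v` outside `Bl m1` which ends at some `u` with
`|u| > Q2` (`join m1`; there are elements of length `> Q2` as `G` is infinite and balls are finite).
Independence: let `q'` be another one, ending at `u'`. Join `u` to `u'` by a word `δ` outside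
`Bl (Q + ρ)`: `Iw δ = 0`. `w := q ++ δ ++ winv q'` is closed at `v`, outside `Bl m1`: `Iw w = Iw q -
gr (hol w) • Iw q'` (W0; `Iw u' (winv q') = - gr (hol (winv q')) • Iw v q'`, from W1 for `q' ++ winv q'`). By
semistability with the path `q`: `w ~ q ++ w' ++ winv q` outside `K`, `w'` outside `C`, `Iw w' = 0`:
`Iw w = Iw q - gr (hol w) • Iw q`. So `Iw q = Iw q'` (`gr (hol w)` is a unit). (`δ` need not be outside
`Bl m1`: choose it outside `Bl (max m1 (Q + ρ))`.) `Pot` as in C0. `Q'` larger than the radius of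
`join (max m1 (Q + ρ))`: `q` can be chosen outside `Bl (Q + ρ)`, so `p v = 0`. -/
def St_S1 : Prop := ∀ (G α π : Type) [Group G] [Group π] (f : α → G)
  (Rel : Set (List (α × Bool))) (M : Pk G) (R : ℕ) (𝓛 : Loc M R) (N n0 n : ℕ) (T : G → G → π),
  Dat f Rel M 𝓛 N n0 n T → StrongSemistable f Rel → ∃ n'', n + 𝓛.ρ ≤ n'' ∧
    ∀ (W : Type) [AddCommGroup W] [Module (ZG π) W] (b : Ch M (ZG π) →ₗ[ZG π] W),
      Coc M T n b →
      (∃ Q, ∀ x : G × M.I, M.deg x.2 = 1 → Q < M.L.l x.1 → b (Finsupp.single x 1) = 0) →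
      ∃ p : G → W, Pot M T 𝓛 b n'' p ∧ ∃ Q', ∀ v, Q' < M.L.l v → p v = 0

/-- [P0] (uses W0, L2, L5) Degree zero: paths to the base vertex.
Proof. `n3` from `join (n + ρ)` (and `≥ n + 2 ρ`). For `|v|, |a| > n3` let `w` be a word from `v` to `a`
outside `Bl (n + ρ)`. `z := sh v (ex i) + e i • chw v w`: L2 and L5 (2) with
`μ := e i • gr (hol w)`; supports: `sh v (ex i)` within `ρ` of `v`, L5 (3). -/
def St_P0 : Prop := ∀ (G α π : Type) [Group G] [Group π] (f : α → G)
  (Rel : Set (List (α × Bool))) (M : Pk G) (R : ℕ) (𝓛 : Loc M R) (N n0 n : ℕ) (T : G → G → π),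
  Dat f Rel M 𝓛 N n0 n T → ∃ n3, n ≤ n3 ∧ ∀ a, n3 < M.L.l a → ∀ v i, n3 < M.L.l v →
    M.deg i = 0 → ∃ (z : Ch M (ZG π)) (μ : ZG π), (∀ x, z x ≠ 0 → M.deg x.2 = 1 ∧ n < M.L.l x.1) ∧
      opT M T M.E z = z ∧
      opT M T M.E (Finsupp.single (v, i) 1) - opT M T M.D z = μ • sh M T a 𝓛.o

/-- [P1] (uses C0, L4, F6) Degree one.
Proof. C0 with `n1 := n + u` in place of `n` (`Dat` is monotone in `n`): `n''`. `n4 := n'' + 2 ρ`. Given `a`:
`l` from C0 (`l0 := 0`). `Sub` := the submodule of `Ch` spanned by the cells of length `≤ l + u` and the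
chains `D x`, `x` a cell of degree two with `|x| > n1`; `W := Ch ⧸ Sub`, `b := mkQ ∘ (op E)`. `Coc M T n1 b`:
`E D x = D x` and `E E x = E x` for `|x| > n1` (F6 with `V = {|v| > n}`). `b x = 0` if `|x| ≤ l` (`E x` lives in
`|y| ≤ l + c`). C0 gives `p`, L4 (with `n' := n''`) gives `b y = potF (D y)` for the cells `y` of `w`, so
`b w = potF (D w) = μ • potF (sh a o) = μ • p a = 0`. And `b w = mkQ (E w) = mkQ w`; so
`w = s + D z0` with `s` supported in `|x| ≤ l + u` and `z0` a combination of cells of degree two of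
length `> n1`. `z := E z0`: `E z = z`, `D z = D z0` (F6), supported in `|x| > n1 - c ≥ n`, degree two. -/
def St_P1 : Prop := ∀ (G α π : Type) [Group G] [Group π] (f : α → G)
  (Rel : Set (List (α × Bool))) (M : Pk G) (R : ℕ) (𝓛 : Loc M R) (N n0 n : ℕ) (T : G → G → π),
  Dat f Rel M 𝓛 N n0 n T → ∃ n4, n ≤ n4 ∧ ∀ a, n4 < M.L.l a → ∃ l, ∀ (w : Ch M (ZG π)) (μ : ZG π),
    (∀ x, w x ≠ 0 → M.deg x.2 = 1 ∧ n4 < M.L.l x.1) → opT M T M.E w = w →
    opT M T M.D w = μ • sh M T a 𝓛.o →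
    ∃ z : Ch M (ZG π), (∀ x, z x ≠ 0 → M.deg x.2 = 2 ∧ n < M.L.l x.1) ∧ opT M T M.E z = z ∧
      ∀ x, (w - opT M T M.D z) x ≠ 0 → M.L.l x.1 ≤ l

/-- [P2] (uses S1, L4, F0, F6, F9) Degree two.
Proof. `V := {|v| > n}`, `n1 := max n (l1 + u)`, S1 for `n1` (`Dat` is monotone in `n`): `n''`.
`l2 := n'' + 2 ρ + l1 + 10 u`. Let `w` be given, `b^ := op Ps w`, of degree one, supported in
`|x| > n + 4 u`. `op Dᴴ b^ = op (Ps Dᴴ) w = op (D Ps) w = op Ps (op D w)` is supported in `|x| ≤ l1 + c`;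
`op Eᴴ b^ = op (Ps Eᴴ) w = b^` (F6). `b := linearCombination (fun y => star (b^ y)) : Ch → ZG π`,
`b c = pair c (star ∘ b^)`. `Coc M T n1 b`: F9: `b (op D x) = star ((op Dᴴ b^) x) = 0`,
`b (op E x) = star ((op Eᴴ b^) x) = b x`. `b` has finite support. S1: `p`, zero beyond `Q'`; L4: for
`|y| > n'' + ρ`, degree one: `b y = F (op D y)`, `F = potF b p`. `F^` := the chain with
`F^ x = star (F x)` for `deg x = 0`, `|x| > n'' + ρ`, else `0` (finite support: `F x = e_x • p x.1 +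
b (sh x.1 (ex x.2)) = 0` for `|x|` large). For `|y| > n'' + ρ + u` of degree one `(op Dᴴ F^) y =
star (pair (op D y) (star ∘ F^)) = star (F (op D y)) = star (b y) = b^ y` (F9). So
`err := b^ - op Dᴴ F^` (of degree one) is supported in `|y| ≤ n'' + ρ + u`. By `homot` (F6):
`w = op E w = op Ph b^ - op D (op h w) - op h (op D w)`, and `op Ph b^ = op Ph (op Dᴴ F^) + op Ph err =
op D (op Ph F^) + op Ph err` (`DPh`). `z := op Ph F^ - op h w`: degree three, `E z = z` (`PhE`, `hE`),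
supported in `|x| > n`; `w - op D z = op Ph err - op h (op D w)` is supported in `|x| ≤ l2`. -/
def St_P2 : Prop := ∀ (G α π : Type) [Group G] [Group π] (f : α → G)
  (Rel : Set (List (α × Bool))) (M : Pk G) (R : ℕ) (𝓛 : Loc M R) (N n0 n : ℕ) (T : G → G → π),
  Dat f Rel M 𝓛 N n0 n T → StrongSemistable f Rel → ∀ l1, ∃ l2, ∀ w : Ch M (ZG π),
    (∀ x, w x ≠ 0 → M.deg x.2 = 2 ∧ n + 5 * M.u < M.L.l x.1) → opT M T M.E w = w →
    (∀ x, opT M T M.D w x ≠ 0 → M.L.l x.1 ≤ l1) →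
    ∃ z : Ch M (ZG π), (∀ x, z x ≠ 0 → M.deg x.2 = 3 ∧ n < M.L.l x.1) ∧ opT M T M.E z = z ∧
      ∀ x, (w - opT M T M.D z) x ≠ 0 → M.L.l x.1 ≤ l2

/-- [P3] (uses W0, L2, F0, F6, F9) Degree three.
Proof. `n1 := max n (l1 + 2 u) + ρ`, `R1` from `join n1`, `l2 := R1 + 2 ρ + l1 + 10 u`. `b^ := op Ps w`
has degree zero, finite support, `op Dᴴ b^ = op Ps (op D w)` is supported in `|x| ≤ l1 + c`,
`op Eᴴ b^ = b^`. `b c := pair c (star ∘ b^)`. For `|v| > n1` and a letter `a`: `b (sh v o) = gr (T v a) •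
b (sh (v a) o)`, since `b (op D (sh v (es a))) = 0`: `b (op D y) = star ((op Dᴴ b^) y) = 0` for
`|y| > l1 + c` (F9). For `|v|` large `b (sh v o) = 0`; join any `v` with `|v| > R1` to such a vertex
outside `Bl n1`: `b (sh v o) = 0` for all `|v| > R1`. For a cell `x` of degree zero with `|x| > R1 + ρ`:
`b x = b (op E x) = e_x • b (sh x.1 o) + b (op D (sh x.1 (ex x.2))) = 0`. So `b^` is supported in
`|x| ≤ R1 + ρ`. `w = op Ph b^ - op D (op h w) - op h (op D w)` (`homot`, F6), `op h w = 0` (degree four).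
So `w` is supported in `|x| ≤ l2`. -/
def St_P3 : Prop := ∀ (G α π : Type) [Group G] [Group π] (f : α → G)
  (Rel : Set (List (α × Bool))) (M : Pk G) (R : ℕ) (𝓛 : Loc M R) (N n0 n : ℕ) (T : G → G → π),
  Dat f Rel M 𝓛 N n0 n T → ∀ l1, ∃ l2, ∀ w : Ch M (ZG π),
    (∀ x, w x ≠ 0 → M.deg x.2 = 3 ∧ n + 5 * M.u < M.L.l x.1) → opT M T M.E w = w →
    (∀ x, opT M T M.D w x ≠ 0 → M.L.l x.1 ≤ l1) → ∀ x, w x ≠ 0 → M.L.l x.1 ≤ l2

/-- [FS] (uses F0, F6) The inductive step for partial flows.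
Proof. For `deg x = i`, `|x| > thr` choose `h' x := z` as in the hypothesis; `h' x := 0` for all other
cells. `H' := H + (linearCombination h') ∘ op E`. For `deg x ≠ i`: `E x` has degree `deg x` only, so
`H' x = H x`; for `deg x = i`: `H x = 0` (`low`), `H' x = ∑_z E(x, z) • h' z` over the cells `z` of `E x`,
within `c` of `x`. `src`: a nonzero term has `|z| > thr`, so `|x| > thr - c ≥ g1`. `tgt`, `deg`, `EH`:
from the hypothesis. `HE`: `E (E x) = E x` if `|x| > g0` (F6); if `|x| ≤ g0` both sides are `0` (all cells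
involved have length `≤ g0 + 2 c ≤ thr`). `ret`: for `deg x < i`: `D x` has degree `< i`, unchanged. For
`deg x = i` and `|x| > thr + u`: `E x = E (E x) = ∑ E(x, z) • E z`, `H' (D x) = H (D x) = H (D (E x)) =
∑ E(x, z) • H (D z)`, so `E x - D (H' x) - H' (D x) = ∑ E(x, z) • (E z - D (h' z) - H (D z)) ∈ Y`, supported in
`|y| ≤ l'`; the finitely many cells `x` with `|x| ≤ thr + u` are covered by the choice of `l''`
(F0 (4) or finiteness of supports). -/
def St_FS : Prop := ∀ (G π : Type) [Group G] [Group π] (M : Pk G) (T : G → G → π)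
  (g0 g1 i l thr l' : ℕ) (H : Ch M (ZG π) →ₗ[ZG π] Ch M (ZG π))
  (Y : Submodule (ZG π) (Ch M (ZG π))),
  (∀ v, g0 < M.L.l v → GoodT M.L T (20 * M.u) v) → g0 + 100 * M.u ≤ g1 → g1 + 10 * M.u ≤ thr →
  PFlow M T i g1 l H → (∀ y ∈ Y, ∀ x, y x ≠ 0 → M.L.l x.1 ≤ l') →
  (∀ x : G × M.I, M.deg x.2 = i → thr < M.L.l x.1 → ∃ z : Ch M (ZG π),
    (∀ y, z y ≠ 0 → M.deg y.2 = i + 1 ∧ g1 < M.L.l y.1) ∧ opT M T M.E z = z ∧
    opT M T M.E (Finsupp.single x 1) - H (opT M T M.D (Finsupp.single x 1)) -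
      opT M T M.D z ∈ Y) →
  ∃ (H' : Ch M (ZG π) →ₗ[ZG π] Ch M (ZG π)) (l'' : ℕ), PFlow M T (i + 1) g1 l'' H' ∧
    ∀ x : G × M.I, M.deg x.2 = i → thr + M.u < M.L.l x.1 →
      opT M T M.E (Finsupp.single x 1) - opT M T M.D (H' (Finsupp.single x 1)) -
        H' (opT M T M.D (Finsupp.single x 1)) ∈ Y

/-- [FL] (uses G0, L1, F0, F6, P0, P1, P2, P3, FS) The flow.

Proof. `R` := a bound for `R0` of L1, `u` and the lengths of the relators, `𝓛` from L1. `g0 ≥ n0` such
that `T` is good (`GoodT M.L T 𝓛.kap`) beyond `g0` (as in G0 (1), for `GoodT`: `IsALS T`, balls are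
finite). We may assume `g1 ≥ g0 + 100 u`. Put `a3 := g1`, `a2 := g1 + 10 u`, `a1 := a2 + 10 u`. P1 for
`n := a1` gives `n4`; `a0 := n4 + a1 + 10 u`; P0 for `n := a0` gives `n3`. Choose `a ∈ G` with `|a|` larger
than `n3`, `n4`, `a0`. `PFlow 0` holds for `H = 0`. A `PFlow` for `g1` is one for every smaller `g1`.
Degree 0: FS with `g1 := a0`, `i := 0`, `thr0 := n3 + a0 + 10 u`, `Y := span {sh a o}`; the hypothesis is P0
(`H = 0`). We get `H1`, `PFlow 1 a0`.
Degree 1: `thr1 := thr0 + 10 u`, `g1 := a1`. For `x` of degree one, `|x| > thr1`, `w := E x - H1 (D x)`: degree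
one, supported in `|y| > n4` (`tgt` for `a0`), `E w = w` (F6, `EH`). `D w = D (E x) - D (H1 (D x))`, and for
the chain `c := D x` of degree `0`, with cells of length `> thr0 + u`: `E c - D (H1 c) - H1 (D c) ∈ Y`
(linearity), `D c = 0` (degree), `E c = c`, `D (E x) = D x`: so `D w ∈ Y`, `D w = μ • sh a o`. P1 gives `z`,
supported beyond `a1`, and `w - D z` in `|y| ≤ l`; `Y := supported in |y| ≤ l`. FS gives `H2`, `PFlow 2 a1`.
Degree 2: `thr2 := thr1 + 10 u`, `g1 := a2`, `w := E x - H2 (D x)`, supported beyond `a1 ≥ a2 + 5 u`; `D w =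
D x - D (H2 (D x)) = E c - D (H2 c) - H2 (D c)` for `c = D x` of degree one (`D c = D D x = 0`, F6), so
supported in `|y| ≤ l` by `ret` (linearity). P2 for `n := a2`, `l1 := l`: `z`. FS: `H3`, `PFlow 3 a2`.
Degree 3: the same with P3 for `n := a3` and `z := 0` (`a2 ≥ a3 + 5 u`). FS: `H4`, `PFlow 4 a3`, which is a
`Flow M (tw T) g1 l H4` (`deg ≤ 3`). -/
def St_FL : Prop := ∀ (G α π : Type) [Group G] [Group π] (f : α → G)
  (Rel : Set (List (α × Bool))) (M : Pk G) (N n0 : ℕ) (T : G → G → π),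
  Base f Rel M.L → StrongSemistable f Rel → Lvl f Rel M.L N n0 T → ∀ g1 : ℕ, ∃ (l : ℕ)
    (H : Ch M (ZG π) →ₗ[ZG π] Ch M (ZG π)), Flow (Λ := ZG π) M (tw T) g1 l H

end Pool.Agent.SPD
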