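import Pool.Agent.SPD.StF

/-!
# Statements, part G : geometry of the zone, for abstract flows

Adapted from `CPD.StG`. `M : Pk G`, cells `x = (g, i)`, `|x| = M.L.l x.1`, `u = c + 1`. `Ev`, `Ev4`,
`ZoneA`, `ZoneB`, `mkZone`, `Zone` are those of `CPD`.
-/

set_option autoImplicit false

namespace Pool.Agent.SPD

open Matrix Pool.Agent.CPD

/-- [G0] (uses nothing) Goodness and level functions. (1) an asymptotic local system is good at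
all far elements, for every radius. (2) adapted level functions for `V = {v | g0 < |v|}` and
`g1 ≥ g0 + 100 u`. (3) for `V = univ` the constant `30`. (4) the trivial system.
Proof. (1) balls are finite, finite intersections of cofinite sets, a finite set is contained in a
ball (`CPD.G0`). (2) `lev x := min 30 ((|x| - g0) / (3 u))`: `ok`: `lev x ≥ 3` gives `|x| ≥ g0 + 9 u`.
`lip`: `|y| ≥ |x| - 3 u`. `big`: `|x| > g0 + 100 u`. (3), (4) immediate. -/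
def St_G0 : Prop := ∀ (G : Type) [Group G] (M : Pk G) (Λ : Type) [Ring Λ] [StarRing Λ]
  (T : G → G → unitary Λ),
  (IsALS T → ∀ K : ℕ, ∃ g : ℕ, ∀ v, g < M.L.l v → GoodAt M.L T K v) ∧
  (∀ g0 g1 : ℕ, g0 + 100 * M.u ≤ g1 → ∃ lev : G → ℕ, LevOK M {v | g0 < M.L.l v} g1 lev) ∧
  (∀ g1 : ℕ, LevOK M Set.univ g1 (fun _ => 30)) ∧
  IsALS (triv G Λ) ∧ GoodV M (triv G Λ) Set.univ

/-- [G1a] (uses F0, F6) The zone, part A.
Proof. `n ≥ l + 10 u`, `n ≥ g1 + 10 u`. `n' ≥ n + 10 u` and `n' ≥` (bound of F0 (4) for `H`, radius `n`)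
`+ 10 u`; `N' ≥ n' + 10 u`; `N ≥ N' + 10 u`. Sets: `Bs`, `Zs` are nested and disjoint; the complement of
`Bs n ∪ Zs N` is contained in `|x| < N + 3 u`: finite. `levW`: `x ∉ Bs n` has `|x| > n - 3 u > g1`: level
`30`. Levels and degrees of `D, E`: F0 (2) and `lip`, `D_deg`, `E_deg` of `resP`; of `H`: `tgt` (level
`30`) and `deg`; of `rr`: `rr x = E x - D (H x) - H (D x)`: `y` is within `c` of `x`, or within `c` of a cell
`y'` of `H x` (`lev y' = 30`, so `lev y ≥ 29` by `lip`), or a cell of some `H z` (level `30`); degrees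
add up. Identities at level `≥ 5`: `ok` gives `x.1 ∈ V`; `DD, EE, ED, DE` from F6 (a single cell is
supported in `V`) and `resP`; `HE, EH` from `Flow`; `flow` is the definition of `rr`. `D_B`: `|y| ≤ |x| +
c`, `deg y + 1 = deg x`; `D_Z` similarly. `E_B`, `E_Z`: radii. `r_B`: `ret`, `l + 3 u ≤ n` (`deg ≤ 3`).
`H_B`: F0 (4). Compare `CPD.G1a`. -/
def St_G1a : Prop := ∀ (G : Type) [Group G] (M : Pk G) (Λ : Type) [Ring Λ] [StarRing Λ]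
  (T : G → G → unitary Λ) (V : Set G) (g0 g1 l : ℕ) (H : Ch M Λ →ₗ[Λ] Ch M Λ) (lev : G → ℕ),
  Adm M T V g0 g1 l H → LevOK M V g1 lev →
  Ev fun n => Ev4 fun n' N' N _ => ZA M T H lev n n' N' N

/-- [G1b] (uses F0, F6, F10b, F11, F12) The zone, part B.
Proof. As `CPD.G1b`: `θ = H ∘ cut1 ∘ E + Ho ∘ cut2 ∘ E`, `cut1 = {|x| ≤ n' + u}`, `cut2 = {N' ≤ |x| + u}`.
Let `N1` be large for F10b, F12 and `R'_1` the value of F11 for `R = g1`. `N' ≥ n' + 10 u`, `N' ≥ N1 +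
10 u`, `N' ≥ R'_1 + 10 u`, `N' ≥ g0 + 20 u`; `N ≥ N' + 10 u` and `N ≥ R'(N' + 10 u) + 10 u` (F11); `Q ≥ N +
20 u` and `Q ≥ R'(N + 10 u) + 30 u` (F11). `lev_θ`: `y` in `H a`: `tgt`, level `30`; `y` in `Ho a`, `|a| ≥ N' -
u > R'_1`: `|y| > g1`, level `30`. `deg_θ`: `deg` of `Flow`, F11. `θE`: `E (E x) = E x` (F6) at level `≥ 5`.
`Eθ`: `E (H a) = H a` (`EH`), `E (Ho a) = Ho a` by F12. `θ_B'`: the cells of `E x` have `|a| ≤ n' + c`, so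
`cut1` is the identity and `cut2` is `0`: `θ x = H (E x) = H x` (`HE`). `θ_Z`, `κ_Z'` as in
`CPD.G1b`. -/
def St_G1b : Prop := ∀ (G : Type) [Group G] (M : Pk G) (Λ : Type) [Ring Λ] [StarRing Λ]
  (T : G → G → unitary Λ) (V : Set G) (g0 g1 l : ℕ) (H : Ch M Λ →ₗ[Λ] Ch M Λ) (lev : G → ℕ),
  Adm M T V g0 g1 l H → LevOK M V g1 lev → Ev4 fun n' N' N Q => ZB M T H lev n' N' N Q

/-- [G2] (uses `CPD.St_E6b`, F0, F6, F10b, F11, G0, `CPD.St_G2a`, `CPD.St_G2b`) `H₁` of the zone is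
cyclic, geometrically. Proof: as `CPD.G2`. -/
def St_G2 : Prop := ∀ (G : Type) [Group G] [Infinite G] (M : Pk G) (Λ : Type) [Ring Λ]
  [StarRing Λ] (T : G → G → unitary Λ) (V : Set G) (g0 g1 l : ℕ) (H : Ch M Λ →ₗ[Λ] Ch M Λ)
  (lev : G → ℕ), IsALS T →
  Adm M T V g0 g1 l H → LevOK M V g1 lev → ∀ n : ℕ, Ev4 fun n' N' N Q =>
    ∀ (hA : ZA M T H lev n n' N' N) (hB : ZB M T H lev n' N' N Q),
      ∃ (v0 : G) (c0 : (G × M.I) →₀ ℤ), augZ M.e c0 = 1 ∧ (mkZone hA hB).Cyc1 (bl T v0 c0)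

/-- [G3a] (uses F0, F6, F9, F10a) Pushing a dual chain outward. Proof: as `CPD.G3a` (`n' ≥` the
bound of F0 (4) for `H` and `n + 10 u`, and `n' ≥ N2 + 10 u`). -/
def St_G3a : Prop := ∀ (G : Type) [Group G] (M : Pk G) (Λ : Type) [Ring Λ] [StarRing Λ]
  (T : G → G → unitary Λ) (V : Set G) (g0 g1 l : ℕ) (H : Ch M Λ →ₗ[Λ] Ch M Λ),
  Adm M T V g0 g1 l H → ∀ n : ℕ,
  Ev fun n' => Ev fun N' => Ev fun Q3 => ∀ a : Ch M Λ,
    (∀ x, a x ≠ 0 → M.deg x.2 = 3 ∧ x ∉ Bs M n' ∧ x ∉ Zs M N') → op M T M.Eᴴ a = a →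
    ∃ F a' : Ch M Λ, a = op M T M.Dᴴ F + a' ∧
      (∀ x, F x ≠ 0 → M.deg x.2 = 2 ∧ x ∉ Bs M n ∧ M.L.l x.1 ≤ Q3) ∧
      (∀ x, a' x ≠ 0 → M.deg x.2 = 3 ∧ Q3 < M.L.l x.1 + M.u ∧ M.L.l x.1 ≤ Q3 + M.u) ∧
      op M T M.Eᴴ a' = a'

/-- [G3b] (uses F0, F6, F9, G0, `CPD.St_G2a`, `CPD.St_G2b`, `CPD.St_E6b`, G3a) `H³` of the zone is
cyclic, geometrically, and monodromy. Proof: as `CPD.G3b`. -/
def St_G3b : Prop := ∀ (G : Type) [Group G] [Infinite G] (M : Pk G) (Λ : Type) [Ring Λ]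
  [StarRing Λ] (T : G → G → unitary Λ) (V : Set G) (g0 g1 l : ℕ) (H : Ch M Λ →ₗ[Λ] Ch M Λ)
  (lev : G → ℕ), IsALS T →
  Adm M T V g0 g1 l H → LevOK M V g1 lev → ∀ R : ℕ, Ev fun n => ∃ R1 : ℕ,
    ∀ (k : ℕ) (p : ℕ → G), p 0 = p k → (∀ i ≤ k, R1 < M.L.l (p i)) →
      (∀ i < k, M.L.l ((p i)⁻¹ * p (i + 1)) ≤ R) → Ev4 fun n' N' N Q =>
        ∀ (hA : ZA M T H lev n n' N' N) (hB : ZB M T H lev n' N' N Q),
          ∃ b0 : G × M.I → Λ, (mkZone hA hB).Cyc3 b0 ∧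
            ∃ f : G × M.I → Λ, (∀ x, f x ≠ 0 → x ∈ (mkZone hA hB).Ws) ∧
              ∀ x ∈ (mkZone hA hB).Ws, b0 x * (1 - star ((tr T p 0 k : unitary Λ) : Λ)) =
                pair (op M T M.D (Finsupp.single x 1)) f

/-- [G4a] (uses `CPD.St_F1`) Calculus of equivariant operators on infinite rational chains. Proof:
as `CPD.G4a` (`lf` is that of `CPD.GeoDefs`). -/
def St_G4a : Prop := ∀ (G : Type) [Group G] (M : Pk G),
  (∀ (A B : Matrix M.I M.I (ZG G)) (c : G × M.I → ℚ), lf B (lf A c) = lf (A * B) c) ∧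
  (∀ (A B : Matrix M.I M.I (ZG G)) (c : G × M.I → ℚ), lf (A + B) c = lf A c + lf B c ∧
    lf (A - B) c = lf A c - lf B c) ∧
  (∀ (A : Matrix M.I M.I (ZG G)) (c c' : G × M.I → ℚ), lf A (c + c') = lf A c + lf A c' ∧
    lf A (c - c') = lf A c - lf A c') ∧
  (∀ (A : Matrix M.I M.I (ZG G)) (a : Ch M ℚ), (fun x => op M (triv G ℚ) A a x) =
    lf A (fun x => a x)) ∧
  (∀ (A : Matrix M.I M.I (ZG G)) (f : G × M.I → ℚ) (x : G × M.I),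
    pair (op M (triv G ℚ) A (Finsupp.single x 1)) f = lf Aᴴ f x) ∧
  (∀ (A : Matrix M.I M.I (ZG G)) (c : G × M.I → ℚ) (y : G × M.I), Five M A → lf A c y ≠ 0 →
    ∃ x, c x ≠ 0 ∧ (A x.2 y.2).coeff (x.1⁻¹ * y.1) ≠ 0 ∧ M.L.l (x.1⁻¹ * y.1) ≤ M.c)

/-- [G4b] (uses `CPD.St_E1`, G4a) `H₂` with infinite rational chains vanishes. Proof: as
`CPD.G4b`. -/
def St_G4b : Prop := ∀ (G : Type) [Group G] (M : Pk G) (c : G × M.I → ℚ),
  (∀ x, c x ≠ 0 → M.deg x.2 = 2) → lf M.D c = 0 → lf M.E c = c →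
  ∃ b : G × M.I → ℚ, (∀ x, b x ≠ 0 → M.deg x.2 = 3) ∧ lf M.D b = c

/-- [G4c] (uses `CPD.St_E1`, F0, F6, F10a, G4a, G4b) Cycles of degree one which are far away bound
far away. Proof: as `CPD.G4c`, with F0 (4) for `H` in place of `CPD.F7`. -/
def St_G4c : Prop := ∀ (G : Type) [Group G] (M : Pk G) (g0 g1 l : ℕ)
  (H : Ch M ℚ →ₗ[ℚ] Ch M ℚ),
  Adm M (triv G ℚ) Set.univ g0 g1 l H → Ev fun N' => Ev fun N => ∀ u : Ch M ℚ,
    (∀ x, u x ≠ 0 → M.deg x.2 = 1 ∧ x ∈ Zs M N) → op M (triv G ℚ) M.D u = 0 →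
    op M (triv G ℚ) M.E u = u →
    ∃ e : Ch M ℚ, (∀ x, e x ≠ 0 → M.deg x.2 = 2 ∧ x ∈ Zs M N') ∧ op M (triv G ℚ) M.D e = u

/-- [G4d] (uses F0, F11, G4a) The truncated fundamental class. Proof: as `CPD.G4d`. -/
def St_G4d : Prop := ∀ (G : Type) [Group G] [Infinite G] (M : Pk G) (g1 l : ℕ)
  (H : Ch M ℚ →ₗ[ℚ] Ch M ℚ), Flow M (triv G ℚ) g1 l H → ∀ n : ℕ,
  Ev4 fun n' N' N Q => ∃ Om : Ch M ℚ, (∀ x, Om x ≠ 0 → M.deg x.2 = 3) ∧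
    (∀ x, op M (triv G ℚ) M.D Om x ≠ 0 → x ∈ Zs M N) ∧
    (∀ x, (op M (triv G ℚ) M.E Om - Om) x ≠ 0 → x ∈ Zs M N) ∧
    (∀ x, th M (triv G ℚ) H n' N' Q (op M (triv G ℚ) M.D Om) x ≠ 0 → x ∈ Zs M N) ∧
    cut ((Bs M n ∪ Zs M N)ᶜ) Om ≠ 0

/-- [G5] (uses G0, G2, G3b, G4a, G4c, G4d, `CPD.St_Z10`) The Euler number of the geometric zone
over `ℚ`. Proof: as `CPD.G5`. -/
def St_G5 : Prop := ∀ (G : Type) [Group G] [Infinite G] (M : Pk G) (g0 g1 l : ℕ)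
  (H : Ch M ℚ →ₗ[ℚ] Ch M ℚ),
  Adm M (triv G ℚ) Set.univ g0 g1 l H → Ev fun n => Ev4 fun n' N' N Q =>
    ∀ (hA : ZA M (triv G ℚ) H (fun _ => 30) n n' N' N)
      (hB : ZB M (triv G ℚ) H (fun _ => 30) n' N' N Q),
      str (AddMonoidHom.id ℚ) (mkZone hA hB).degW ((mkZone hA hB).mat (mkZone hA hB).κ) = -2

end Pool.Agent.SPD
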