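import Pool.Agent.SPD.StG

/-!
# Statements, part L : local data of the resolution, cochains and potentials

`sh M T v c` is the lift of the translate `tl v c` of an integral chain `c`, based at `v`; goodness
of `T` at `v` always means `GoodT M.L T 𝓛.kap v`.
-/

set_option autoImplicit false

namespace Pool.Agent.SPD

open Matrix Pool.Agent.CPD

/-- The radius up to which `T` has to be multiplicative. -/
def Loc.kap {G : Type} [Group G] {M : Pk G} {R : ℕ} (𝓛 : Loc M R) : ℕ := 4 * 𝓛.ρ + 20 * M.u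

/-- The chain along a word: the sum of the lifted chains `es` of its letters. -/
noncomputable def chw {G α : Type} [Group G] (f : α → G) (M : Pk G) {R : ℕ} (𝓛 : Loc M R)
    {π : Type} [Group π] (T : G → G → π) : G → List (α × Bool) → Ch M (ZG π)
  | _, [] => 0
  | g, a :: w => sh M T g (𝓛.es (letter f a)) +
      gr (T g (letter f a)) • chw f M 𝓛 T (g * letter f a) w

/-- [L1] (uses `CPD.St_E1`) Local data exist.
Proof. (Compare `CPD.G2a`.) `o`: the chain of a row vector `v` with `v E = v` and augmentation one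
(`resP.surj`), its part of degree `0`; `R0` is larger than `u` and the lengths in the support of
`o`. Let `R ≥ R0`. Every integral chain `c`, homogeneous of degree `i`, with `opZ E c = c`, `opZ D c = 0`,
`augZ e c = 0` is `opZ D b` with `opZ E b = b`, `b` homogeneous of degree `i + 1` (`resP.exact`, E1; take
the part of degree `i + 1`). `ex i` (`deg i = 0`): fill `row E (1, i) - e i • o`; `es h` (`l h ≤ R`): fill
`o - tl h o`; all other `ex i`, `es h` are `0`. `f2 h h'` fills `es h + tl h (es h') - es (h h')`: its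
boundary is `(o - tl h o) + tl h (o - tl h' o) - (o - tl (h h') o) = 0`. `f1 j`: the boundary of
`row E (1, j)` is `row D (1, j)`, that of `tl x.1 (ex x.2) - e x.2 • es x.1` is `row E x - e x.2 • o` for
the cells `x` of `row D (1, j)` (degree `0`, `l x.1 ≤ c ≤ R`), and `∑ n_x row E x = opZ E (row D (1, j)) =
row D (1, j)`, `∑ n_x e x.2 = 0` (`De`). `f0`: the boundary of the left side is `∑ o_x (row E x - e x.2 • o)
= opZ E o - (augZ e o) • o = 0`. `ρ`: a bound for `R + u` and all lengths in the supports (finitely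
many chains). -/
def St_L1 : Prop := ∀ (G : Type) [Group G] (M : Pk G), ∃ R0 : ℕ, ∀ R, R0 ≤ R → Nonempty (Loc M R)

/-- [L2] (uses `CPD.St_F1`, `CPD.St_E1`) The lifted local identities.
Proof. (1), (2), (3), (4): coefficients; `row A (v, j) = tl v (row A (1, j))`. Let `T` be good at `v`
(`GoodT` gives `GoodAt M.L (tw T)`, as `uhom` is a homomorphism).
(6) F1 (1) for `b = v`, `K = kap`, and `opZ A (tl v c) = tl v (opZ A c)`. (7) F1 (2) for `b = v`,
`b' = v h` and the chain `tl (v h) c = tl v (tl h c)`. The rest: apply `sh M T v` to the integral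
identities of `Loc`, with (3), (6), (7); `op A` of a single cell is (2). -/
def St_L2 : Prop := ∀ (G : Type) [Group G] (M : Pk G) (R : ℕ) (𝓛 : Loc M R) (π : Type) [Group π]
  (T : G → G → π) (v : G),
  (∀ c : (G × M.I) →₀ ℤ, sh M T v c =
    c.sum (fun x n => Finsupp.single (v * x.1, x.2) ((n : ZG π) * gr (T v x.1)))) ∧
  (∀ (A : Matrix M.I M.I (ZG G)) (j : M.I),
    opT M T A (Finsupp.single (v, j) 1) = sh M T v (row A (1, j))) ∧
  (∀ (c c' : (G × M.I) →₀ ℤ) (n : ℤ), sh M T v (c + c') = sh M T v c + sh M T v c' ∧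
    sh M T v (n • c) = n • sh M T v c) ∧
  (∀ (c : (G × M.I) →₀ ℤ) (x : G × M.I), sh M T v c x ≠ 0 → c (v⁻¹ * x.1, x.2) ≠ 0) ∧
  (GoodT M.L T 𝓛.kap v →
    T v 1 = 1 ∧
    (∀ (A : Matrix M.I M.I (ZG G)) (c : (G × M.I) →₀ ℤ),
      (∀ i j g, (A i j).coeff g ≠ 0 → M.L.l g ≤ 𝓛.kap) → (∀ x, c x ≠ 0 → M.L.l x.1 ≤ 𝓛.kap) →
      opT M T A (sh M T v c) = sh M T v (opZ A c)) ∧
    (∀ (h : G) (c : (G × M.I) →₀ ℤ), M.L.l h ≤ 𝓛.kap → (∀ x, c x ≠ 0 → M.L.l x.1 ≤ 𝓛.kap) →
      gr (T v h) • sh M T (v * h) c = sh M T v (tl h c)) ∧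
    (∀ h h', M.L.l h ≤ 𝓛.kap → M.L.l h' ≤ 𝓛.kap → T v h * T (v * h) h' = T v (h * h')) ∧
    opT M T M.E (sh M T v 𝓛.o) = sh M T v 𝓛.o ∧
    (∀ i, opT M T M.E (sh M T v (𝓛.ex i)) = sh M T v (𝓛.ex i)) ∧
    (∀ h, opT M T M.E (sh M T v (𝓛.es h)) = sh M T v (𝓛.es h)) ∧
    (∀ i, M.deg i = 0 → opT M T M.E (Finsupp.single (v, i) 1) =
      M.e i • sh M T v 𝓛.o + opT M T M.D (sh M T v (𝓛.ex i))) ∧
    (∀ h, M.L.l h ≤ R → sh M T v 𝓛.o =
      gr (T v h) • sh M T (v * h) 𝓛.o + opT M T M.D (sh M T v (𝓛.es h))) ∧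
    (∀ h h', M.L.l h ≤ R → M.L.l h' ≤ R → M.L.l (h * h') ≤ R →
      sh M T v (𝓛.es h) + gr (T v h) • sh M T (v * h) (𝓛.es h') =
        sh M T v (𝓛.es (h * h')) + opT M T M.D (sh M T v (𝓛.f2 h h'))) ∧
    (∀ j, M.deg j = 1 → opT M T M.E (Finsupp.single (v, j) 1) =
      (row M.D (1, j)).sum (fun x n => n • (gr (T v x.1) • sh M T (v * x.1) (𝓛.ex x.2) -
        M.e x.2 • sh M T v (𝓛.es x.1))) + opT M T M.D (sh M T v (𝓛.f1 j))) ∧
    𝓛.o.sum (fun x n => n • (gr (T v x.1) • sh M T (v * x.1) (𝓛.ex x.2) -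
        M.e x.2 • sh M T v (𝓛.es x.1))) = opT M T M.D (sh M T v 𝓛.f0))

/-- [L3] (uses L2, W0) Cocycles on chains give cocycles on words.
`be v h = b (sh v (es h))`. Proof. Apply `b` to the identities of L2: `b (op D (sh v c)) = 0` for a
chain `c` of degree two within `ρ` of `1` and `|v| > n + ρ` (linearity: all cells of `sh v c` have degree
two and length `> n`). (2): also `b (single (v, j) 1) = b (op E (single (v, j) 1))` (`E0`). (4): (1)
for `h = h' = 1` gives `gr (T v 1) • be v 1 = 0`. (5): induction on the word: `Iw v (a :: w) = be v a +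
gr (T v a) • be (v a) (value w) = be v (a * value w)` by (1) (`|value w| ≤ w.length`). (6): (5) with
`value r = 1` and (4); `edge`: (1) with `h' = h⁻¹`. -/
def St_L3 : Prop := ∀ (G : Type) [Group G] (M : Pk G) (R : ℕ) (𝓛 : Loc M R) (π : Type) [Group π]
  (T : G → G → π) (n : ℕ) (W : Type) [AddCommGroup W] [Module (ZG π) W]
  (b : Ch M (ZG π) →ₗ[ZG π] W), (∀ v, n < M.L.l v → GoodT M.L T 𝓛.kap v) → Coc M T n b →
  (∀ v h h', n + 𝓛.ρ < M.L.l v → M.L.l h ≤ R → M.L.l h' ≤ R → M.L.l (h * h') ≤ R →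
    be M T 𝓛 b v h + gr (T v h) • be M T 𝓛 b (v * h) h' = be M T 𝓛 b v (h * h')) ∧
  (∀ v j, n + 𝓛.ρ < M.L.l v → M.deg j = 1 → b (Finsupp.single (v, j) 1) =
    (row M.D (1, j)).sum (fun x m => m • (gr (T v x.1) • b (sh M T (v * x.1) (𝓛.ex x.2)) -
      M.e x.2 • be M T 𝓛 b v x.1))) ∧
  (∀ v, n + 𝓛.ρ < M.L.l v →
    𝓛.o.sum (fun x m => m • (gr (T v x.1) • b (sh M T (v * x.1) (𝓛.ex x.2)) -
      M.e x.2 • be M T 𝓛 b v x.1)) = 0) ∧
  (∀ v, n + 𝓛.ρ < M.L.l v → be M T 𝓛 b v 1 = 0) ∧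
  (∀ (α : Type) (f : α → G), (∀ a : α × Bool, M.L.l (letter f a) ≤ 1) →
    ∀ (v : G) (w : List (α × Bool)), w.length ≤ R → Avoids f (Bl M.L (n + 𝓛.ρ)) v w →
      Iw f T (fun v a => be M T 𝓛 b v (letter f a)) v w = be M T 𝓛 b v (value f w)) ∧
  (∀ (α : Type) (f : α → G) (Rel : Set (List (α × Bool))),
    (∀ a : α × Bool, M.L.l (letter f a) ≤ 1) → (∀ r ∈ Rel, r.length ≤ R ∧ value f r = 1) →
      WCoc f Rel (Bl M.L (n + 𝓛.ρ)) T (fun v a => be M T 𝓛 b v (letter f a)))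

/-- [L4] (uses L2, L3) A potential on group elements gives a potential on chains.
Proof. (1) `y = (v, j)`: by L2 (1), (2), `op D (single y 1) = ∑ n_x gr (T v x.1) • single (v x.1, x.2)`
over the cells `x` of `row D (1, j)`, of degree `0` and `l x.1 ≤ c ≤ R`. So `potF (op D (single y 1)) =
∑ n_x gr (T v x.1) • (e x.2 • p (v x.1) + b (sh (v x.1) (ex x.2)))`. By L3 (2) and `Pot`: `b (single y 1) =
∑ n_x (gr (T v x.1) • b (sh (v x.1) (ex x.2)) - e x.2 • (p v - gr (T v x.1) • p (v x.1)))`; the difference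
is `(∑ n_x e x.2) • p v = 0` (`De`). (2) the same with `o` and L3 (3): `potF (sh v o) =
(∑ o_x e x.2) • p v = p v`. -/
def St_L4 : Prop := ∀ (G : Type) [Group G] (M : Pk G) (R : ℕ) (𝓛 : Loc M R) (π : Type) [Group π]
  (T : G → G → π) (n n' : ℕ) (W : Type) [AddCommGroup W] [Module (ZG π) W]
  (b : Ch M (ZG π) →ₗ[ZG π] W) (p : G → W), (∀ v, n < M.L.l v → GoodT M.L T 𝓛.kap v) →
  Coc M T n b → n + 𝓛.ρ ≤ n' → Pot M T 𝓛 b n' p →
  (∀ y : G × M.I, M.deg y.2 = 1 → n' + 𝓛.ρ < M.L.l y.1 →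
    b (Finsupp.single y 1) = potF M T 𝓛 b p (opT M T M.D (Finsupp.single y 1))) ∧
  (∀ v, n' + 𝓛.ρ < M.L.l v → potF M T 𝓛 b p (sh M T v 𝓛.o) = p v)

/-- [L5] (uses L2, W0) Chains along words.
Proof. Inductions on the word. (2): L2: `sh g o = gr (T g h) • sh (g h) o + op D (sh g (es h))` for
`h = letter f a`, `l h ≤ 1 ≤ R`. (3): `sh g (es h)` is supported within `ρ` of `g`, which is outside
`Bl m`. -/
def St_L5 : Prop := ∀ (G α : Type) [Group G] (f : α → G) (M : Pk G) (R : ℕ) (𝓛 : Loc M R)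
  (π : Type) [Group π] (T : G → G → π) (n : ℕ), (∀ a : α × Bool, M.L.l (letter f a) ≤ 1) →
  (∀ v, n < M.L.l v → GoodT M.L T 𝓛.kap v) →
  (∀ g u v, chw f M 𝓛 T g (u ++ v) =
    chw f M 𝓛 T g u + gr (hol f (lab f T) g u) • chw f M 𝓛 T (g * value f u) v) ∧
  (∀ g w, Avoids f (Bl M.L n) g w → opT M T M.D (chw f M 𝓛 T g w) =
    sh M T g 𝓛.o - gr (hol f (lab f T) g w) • sh M T (g * value f w) 𝓛.o) ∧
  (∀ m g w x, Avoids f (Bl M.L m) g w → chw f M 𝓛 T g w x ≠ 0 →
    M.deg x.2 = 1 ∧ m < M.L.l x.1 + 𝓛.ρ) ∧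
  (∀ g w, Avoids f (Bl M.L n) g w → opT M T M.E (chw f M 𝓛 T g w) = chw f M 𝓛 T g w)

/-- [L6] (uses L2, L5, W0, W1) Homotopic words have homologous chains.
Proof. One `Move` from `u ++ v` to `u ++ x ++ v` at `g`, `x` a backtrack or a relator, `g' := g * value f u`:
the holonomy of `x` is `1` (`edge`, `cell`), `value f x = 1`, so by L5 (1) the difference of the chains
is `gr (hol u) • chw g' x`. For a word `x` of length `≤ R` outside `Bl n` from `g'`:
`chw g' x = sh g' (es (value f x)) + op D e'`, `e'` of degree two within `R + ρ`... more precisely, by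
induction from the front: `chw g' (a :: x) = sh g' (es a) + gr (T g' a) • (sh (g' a) (es (value x)) + op D
e'') = sh g' (es (a value x)) + op D (sh g' (f2 a (value x)) + gr (T g' a) • e'')` (L2), where every
summand of `e''` is supported within `ρ` of a vertex of the word. And `sh g' (es 1) = op D (sh g' (f2 1
1))` (L2 for `h = h' = 1`, `T g' 1 = 1`). All vertices are outside `Bl m`, so the cells have
`m < |x| + ρ`. Then `EqvGen`: sums and negatives. -/
def St_L6 : Prop := ∀ (G α : Type) [Group G] (f : α → G) (Rel : Set (List (α × Bool))) (M : Pk G)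
  (R : ℕ) (𝓛 : Loc M R) (π : Type) [Group π] (T : G → G → π) (n m : ℕ),
  (∀ a : α × Bool, M.L.l (letter f a) ≤ 1) → (∀ r ∈ Rel, r.length ≤ R ∧ value f r = 1) →
  IsLabel f Rel (Bl M.L n) (lab f T) → (∀ v, n < M.L.l v → GoodT M.L T 𝓛.kap v) →
  n ≤ m → ∀ g w w', Relation.EqvGen (Move f Rel (Bl M.L m) g) w w' →
    ∃ e : Ch M (ZG π), (∀ x, e x ≠ 0 → M.deg x.2 = 2 ∧ m < M.L.l x.1 + 𝓛.ρ) ∧
      chw f M 𝓛 T g w - chw f M 𝓛 T g w' = opT M T M.D e

end Pool.Agent.SPD
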