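import Pool.Agent.SPD.StC
import Pool.Agent.HSP.St

/-!
# Statements, part T : torsion

`A` is a subgroup of `π`. `InI A q m`: the image of `m` in `(ℤ/q)[π ⧸ A]` (left cosets) is zero
(`q = 0`: in `ℤ[π ⧸ A]`). For a chain `c`, `JC A q c`: all `star (c y)` satisfy this; these chains are
stable under all lifted operators, and left multiplication by elements of `A` is the identity
modulo `JC A 0`. Final theorem of this part: `St_TT`.
-/

set_option autoImplicit false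

namespace Pool.Agent.SPD

open Matrix Pool.Agent.CPD

/-- The image of `m` in `(ℤ/q)[π ⧸ A]` is zero. -/
def InI {π : Type} [Group π] (A : Subgroup π) (q : ℕ) (m : ZG π) : Prop :=
  ∀ ξ : π ⧸ A, (q : ℤ) ∣ (m.coeff.mapDomain (QuotientGroup.mk : π → π ⧸ A)) ξ

/-- All coefficients of `c`, conjugated, are in `InI A q`. -/
def JC {G π : Type} [Group G] [Group π] {M : Pk G} (A : Subgroup π) (q : ℕ)
    (c : Ch M (ZG π)) : Prop := ∀ y, InI A q (star (c y))

/-- [T0] Algebra of `InI`.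
Proof. `m ↦ mapDomain mk m.coeff` is additive, and `gr g * m` is mapped to the translate by `g`; (1)
closure under left multiplication by `∑ n_g gr g`. (3) choose representatives: `m' := ∑_ξ (value at
ξ / q) • gr ξ.out`. (4) `ℤ` has no torsion. (5) `g a A = g A`. (6) `gr g * (gr a - 1)` are in it;
conversely write `m = ∑ m(g) gr g` and `g = s(gA) a_g` with a representative: `m = ∑ m(g) (gr (s) gr (a_g)
- gr s) + ∑_ξ (value at ξ) gr s(ξ)`, the last sum is `0`. -/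
def St_T0 : Prop := ∀ (π : Type) [Group π] (A : Subgroup π) (q : ℕ),
  (∃ S : Submodule (ZG π) (ZG π), ∀ m, m ∈ S ↔ InI A q m) ∧
  (∀ m, InI A 0 m → InI A q m) ∧
  (∀ m, InI A q m → ∃ m', InI A 0 (m - (q : ℤ) • m')) ∧
  (∀ m, 1 ≤ q → InI A 0 ((q : ℤ) • m) → InI A 0 m) ∧
  (∀ a ∈ A, ∀ m : ZG π, InI A 0 (m * gr a - m)) ∧
  (∀ m, InI A 0 m → m ∈ AddSubgroup.closure
    {x : ZG π | ∃ (g : π), ∃ a ∈ A, x = gr g * gr a - gr g}) ∧
  (∀ m : ZG π, InI A q ((q : ℤ) • m))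

/-- [T1] (uses T0) Algebra of `JC`.
Proof. Coefficientwise. (3) `opT M T B c (y) = ∑_x c x * n_x * gr (T ..)`, so `star` of it is a sum of
left multiples of the `star (c x)`. (4) `star (gr a * m) = star m * gr a⁻¹`. (6) choose `m'` from T0 (3)
for every `y` with `c y ≠ 0`, and `0` otherwise. -/
def St_T1 : Prop := ∀ (G π : Type) [Group G] [Group π] (M : Pk G) (A : Subgroup π) (q : ℕ),
  (∀ c c' : Ch M (ZG π), JC A q c → JC A q c' → JC A q (c + c') ∧ JC A q (c - c')) ∧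
  (∀ c : Ch M (ZG π), JC A 0 c → JC A q c) ∧
  (∀ (T : G → G → π) (B : Matrix M.I M.I (ZG G)) (c : Ch M (ZG π)), JC A q c →
    JC A q (opT M T B c)) ∧
  (∀ a ∈ A, ∀ c : Ch M (ZG π), JC A 0 (gr a • c - c)) ∧
  (∀ c : Ch M (ZG π), 1 ≤ q → JC A 0 ((q : ℤ) • c) → JC A 0 c) ∧
  (∀ c : Ch M (ZG π), JC A q c → ∃ c' : Ch M (ZG π), JC A 0 (c - (q : ℤ) • c') ∧
    ∀ y, c' y ≠ 0 → c y ≠ 0) ∧
  (∀ c : Ch M (ZG π), JC A q ((q : ℤ) • c))

/-- [T2a] (uses T0) Invariants modulo `q` lift.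
Proof. Let `P := mapDomain mk m.coeff`. The hypothesis: `q ∣ P (g⁻¹ ξ) - P ξ` for all `g, ξ`; `π` is
transitive on `π ⧸ A`, so `P ξ ≡ c := P (mk 1)` mod `q` for all `ξ`. If `π ⧸ A` is finite, `m' :=
∑_ξ c • gr ξ.out`, whose image is the constant function `c`. If it is infinite there is a `ξ` with
`P ξ = 0`, so `q ∣ c` and `m' := 0` works. -/
def St_T2a : Prop := ∀ (π : Type) [Group π] (A : Subgroup π) (q : ℕ) (m : ZG π),
  (∀ g : π, InI A q (gr g * m - m)) →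
  ∃ m' : ZG π, InI A q (m - m') ∧ ∀ g : π, InI A 0 (gr g * m' - m')

/-- [T2b] (uses W0, L2, L3, L4, C0, T0, T2a) A cocycle modulo `q` which vanishes on a thick shell
and has finite support lifts to a cocycle modulo `A`.

`n2` depends only on `n`. `b` is a finite family `y ↦ b y` on the cells of degree one.

Proof. `n1 := n + 10 u` (`Dat` is monotone in `n`), C0 for `n1`: `n''`; fix `a` with `|a| > n''` (`G` is
infinite); `l0 := n'' + 3 ρ + 10 u`; `l` from C0; `n2 := l + l0 + 10 u`. Given `A, q, b`: let `S` be the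
submodule of T0 (1), `W := ZG π ⧸ S`, `B := mkQ ∘ linearCombination b : Ch → W`. `Coc M T n1 B` by the
hypotheses (`D0`, `E0`), `B x = 0` for `|x| ≤ l`, `deg x = 1`. C0: `p`, `Pot B n'' p`, `p v = 0` for
`n'' < |v| ≤ l0`. L4 (`n' := n''`): `B y = F (D y)` for `|y| > n'' + ρ`, `F := potF B p`.
Let `b y = 0` for `|y| > Q`. `be v h = 0` for `|v| > Q + ρ`, so `p v = gr (T v h) • p (v h)` there (`l h ≤
R`), so `p v = gr (hol w) • p (v * value w)` for words `w` outside `Bl (Q + ρ + n'')`. By `surj` of `Lvl` for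
this radius: for `|v|` large `gr g • p v = p v` for all `g : π`. Fix such a `v1` and a lift `m0` of `p v1`;
T2a: `m'` with `InI q (m0 - m')`, `InI 0 (gr g * m' - m')` for all `g`. By `join` `p v = gr (hol) • p v1 =
mkQ m'` for all `|v| > Q3` (`Q3 ≥ Q + 2 ρ + l0 + n''`, and larger than the two radii). Define
`F' : cells → ZG π`, zero if `deg x ≠ 0`, and for `deg x = 0`: `F' x := 0` if `|x| ≤ n'' + ρ + 5 u`;
`F' x := e x.2 • m'` if `|x| > Q3`; a lift of `F (single x 1)` otherwise. Claim: `mkQ (F' x) = F (single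
x 1)` for all `x` of degree `0` with `|x| > n'' + ρ`: for `|x| ≤ n'' + ρ + 5 u`: `F x = e_x • p x.1 + B (sh
x.1 (ex x.2)) = 0`; for `|x| > Q3`: `F x = e_x • mkQ m' + 0`. Extend `F'` linearly to `Ch → ZG π`. So
`mkQ (F' (D y)) = B y` for all `y` of degree one: if `|y| > n'' + ρ + 2 u` by the claim, otherwise both
are `0`. For `|y| > Q3 + u`: `F' (D y) = ∑ n_x gr (T y x) e_x * m'` is, modulo `InI 0`, `(∑ n_x e_x) • m' =
0` (`De`). `b1 y := F' (D y)` for `deg y = 1`, `|y| ≤ Q3 + u`, else `0`. (i) by `mkQ (F' (D y)) = B y`, and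
`b y = 0` for `|y| > Q`. (ii) if `|x| > n`: `∑_y (D x)(y) * b1 y = F' (D (D x)) - ∑_{|y| > Q3 + u} (D x)(y) *
F' (D y)`, `D (D x) = 0` (T good at `x`, F6), the rest is in `InI 0` (a left ideal). (iii)
`b1 y ≠ 0` only for `|y| > n'' + ρ + 4 u ≥ n + 10 u`. -/
def St_T2b : Prop := ∀ (G α π : Type) [Group G] [Group π] (f : α → G)
  (Rel : Set (List (α × Bool))) (M : Pk G) (R : ℕ) (𝓛 : Loc M R) (N n0 n : ℕ) (T : G → G → π),
  Dat f Rel M 𝓛 N n0 n T → ∃ n2, n ≤ n2 ∧ ∀ (A : Subgroup π) (q : ℕ) (b : Ch M (ZG π)),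
    (∀ y, b y ≠ 0 → M.deg y.2 = 1 ∧ n2 < M.L.l y.1) →
    (∀ x : G × M.I, M.deg x.2 = 2 → n < M.L.l x.1 →
      InI A q (pair (opT M T M.D (Finsupp.single x 1)) (fun y => b y))) →
    (∀ x : G × M.I, M.deg x.2 = 1 → n < M.L.l x.1 →
      pair (opT M T M.E (Finsupp.single x 1)) (fun y => b y) = b x) →
    ∃ b1 : Ch M (ZG π), (∀ y, b1 y ≠ 0 → M.deg y.2 = 1 ∧ n + 10 * M.u < M.L.l y.1) ∧
      (∀ y, InI A q (b y - b1 y)) ∧
      ∀ x : G × M.I, M.deg x.2 = 2 → n < M.L.l x.1 →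
        InI A 0 (pair (opT M T M.D (Finsupp.single x 1)) (fun y => b1 y))

/-- [T2] (uses F0, F6, F9, T1, T2b) Torsion dies.
Proof. `n2 := (n2 of T2b) + 10 u`. `e1 := E e`: `D e1 = D e` (F6), supported beyond `n2 - c`. `b^ := op Ps
e1`, degree one; `c^ := op Dᴴ b^ = op Ps (op D e1)` (F6), `JC A q c^` (T1: `D e = q z - (q z - D e)`).
`b y := star (b^ y)`, a finite chain. `pair (D x) b = star (c^ x)` (F9), `pair (E x) b = star ((op Eᴴ
b^) x) = b x`. T2b: `b1`. `b1^ y := star (b1 y)`. `JC A q (b^ - b1^)`. `JC A 0 (op Dᴴ b1^)`: at a cell `x` of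
degree two with `|x| > n` by F9; at the others `op Dᴴ b1^` vanishes (`b1^` is supported in `|y| > n + 10 u`,
degree one). `e2 := e1 - op Ph b1^ + D (op h e1)`. By `homot` (F6, `E e1 = e1`): `e1 = op Ph b^ - D (op h e1)
- op h (D e1)`, so `e2 = op Ph (b^ - b1^) - op h (D e1)` and `JC A q e2` (T1). `D e2 = D e1 - op Ph (op Dᴴ
b1^)` (`DPh`, `D D = 0`), so `JC A 0 (D e - D e2)`. T1 (6): `e2 = q e' + j`, `JC A 0 j`, `e'` supported where
`e2` is: degree two, beyond `n`. So `q z - q (D e')` is the sum of `q z - D e`, `D e - D e2`, `D e2 - q D e' =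
D j`, all in `JC A 0`, and `JC A 0 (z - D e')` by T1 (5). -/
def St_T2 : Prop := ∀ (G α π : Type) [Group G] [Group π] (f : α → G)
  (Rel : Set (List (α × Bool))) (M : Pk G) (R : ℕ) (𝓛 : Loc M R) (N n0 n : ℕ) (T : G → G → π),
  Dat f Rel M 𝓛 N n0 n T → ∃ n2, n ≤ n2 ∧ ∀ (A : Subgroup π) (q : ℕ) (z e : Ch M (ZG π)), 1 ≤ q →
    (∀ x, z x ≠ 0 → M.deg x.2 = 1) → (∀ x, e x ≠ 0 → M.deg x.2 = 2 ∧ n2 < M.L.l x.1) →
    JC A 0 ((q : ℤ) • z - opT M T M.D e) →
    ∃ e' : Ch M (ZG π), (∀ x, e' x ≠ 0 → M.deg x.2 = 2 ∧ n < M.L.l x.1) ∧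
      JC A 0 (z - opT M T M.D e')

/-- [T3] (uses L2, L5, F6, T0) A loop whose chain is a boundary modulo `A` is a commutator.
Proof. For `g : π` let `α(g) := g * (s g)⁻¹ ∈ A`, where `s g` is a representative of the right coset
`A g`; `ψ g := [α(g)]` in `B := Additive (Abelianization A)`, `ψ (a g) = [a] + ψ g` for `a ∈ A`.
`F : Ch → B` additive: `F (single x m) = ∑_g (m.coeff g * e x.2) • ψ g`. `aug c := ∑_x au (c x) * e x.2`.
(i) `F (gr a • c) - F c = aug c • [a]` for `a ∈ A`. (ii) `aug (D c) = 0` (cell by cell: `aug (D x) =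
∑_j au (D x.2 j) e j = 0`, `au (gr g) = 1`). (iii) `F (D j) = 0` for every chain `j` with `JC A 0 j`: by T0
(6) `j x` is a sum of elements `star (gr g * gr a - gr g) = (gr a⁻¹ - 1) * gr g⁻¹` and their negatives,
so `D j` is a sum of `(gr a⁻¹ - 1) • D (single x (gr g⁻¹))`; use (i), (ii). Let `w` be as in the
statement, `x := hol w ∈ A`: `D (chw v w) = sh v o - gr x • sh v o` (L5), so `F (D (chw v w)) = - aug (sh v
o) • [x] = - [x]` (`aug (sh v o) = augZ e o = 1`). `D (D e') = 0` (F6). `j := chw v w - D e'`: `0 = F (D j) =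
F (D (chw v w)) = - [x]`. So `x` is in the commutator subgroup of `A`, which is `⁅A, A⁆` in `π`. -/
def St_T3 : Prop := ∀ (G α π : Type) [Group G] [Group π] (f : α → G)
  (Rel : Set (List (α × Bool))) (M : Pk G) (R : ℕ) (𝓛 : Loc M R) (N n0 n : ℕ) (T : G → G → π),
  Dat f Rel M 𝓛 N n0 n T → ∀ (A : Subgroup π) (v : G) (w : List (α × Bool)) (e' : Ch M (ZG π)),
    value f w = 1 → Avoids f (Bl M.L n) v w → hol f (lab f T) v w ∈ A →
    (∀ x, e' x ≠ 0 → M.deg x.2 = 2 ∧ n < M.L.l x.1) →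
    JC A 0 (chw f M 𝓛 T v w - opT M T M.D e') → hol f (lab f T) v w ∈ ⁅A, A⁆

/-- [T4] (uses W0, W1, L5, L6, T1, T2, T3, G0-type goodness, L1) Loops `a, b` with `b a ~ aᵏ b`.
Proof. `R`, `𝓛` from L1 (`R` at least `u`, `R0` and the lengths of the relators); `n ≥ n0` with `T` good
beyond `n` (`IsALS`, balls are finite; see `CPD.G0`): `Dat`. `n2` from T2, `N1 := n2 + ρ + n`. Let `N' ≥ N1`
and `a, b` as in the statement, `x := hol a`, `s := hol b`, `A := closure {x, s}`. L6 (`m := N'`): `chw v (b ++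
a) - chw v (aᵏ ++ b) = D e`, `e` of degree two, `N' < |y| + ρ`, so `|y| > n2`. By L5 (1) the left side is
`chw b + gr s • chw a - ∑_{i<k} gr (x^i) • chw a - gr (x^k) • chw b`, which is `- (k - 1) • chw a` modulo
`JC A 0` (T1 (4)). T2 with `q := k - 1 ≥ 1`, `z := chw v a`, `e := - e`: `e'`; T3. -/
def St_T4 : Prop := ∀ (G α π : Type) [Group G] [Group π] (f : α → G)
  (Rel : Set (List (α × Bool))) (M : Pk G) (N n0 : ℕ) (T : G → G → π),
  Base f Rel M.L → Lvl f Rel M.L N n0 T → ∃ N1, n0 ≤ N1 ∧ ∀ N', N1 ≤ N' →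
    ∀ (v : G) (a b : List (α × Bool)) (k : ℕ), value f a = 1 → value f b = 1 →
      Avoids f (Bl M.L N') v a → Avoids f (Bl M.L N') v b → 2 ≤ k →
      Relation.EqvGen (Move f Rel (Bl M.L N') v) (b ++ a) ((List.replicate k a).flatten ++ b) →
      hol f (lab f T) v a ∈ ⁅Subgroup.closure {hol f (lab f T) v a, hol f (lab f T) v b},
        Subgroup.closure {hol f (lab f T) v a, hol f (lab f T) v b}⁆

/-- [TT] (uses W0, W1, `CPD.St_D0`, `CPD.St_D1`, T4, `HSP.St_BSQ`) Baumslag-Solitar relations one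
level deeper are trivial.
Proof. `N1` from T4. Let `N' ≥ N1`, `T'`, `φ`, `m1` be given, `y, t, k`. `m := max m1 (max n0' N')`; `surj` of
`T'` for `m` gives a vertex `v` (`|v| > m`, `G` infinite) and closed words `a, b` at `v` outside `Bl m` with
`hol' a = y`, `hol' b = t`. The closed word `(b ++ a) ++ winv (aᵏ ++ b)` has `hol' = t y (y^k t)⁻¹ = 1`, so
it is homotopic to `[]` outside `Bl N'` (`faith`), and `b ++ a ~ aᵏ ++ b` outside `Bl N'` (append
`aᵏ ++ b`: contexts by `CPD.St_D1`, cancellation by `CPD.St_D0`). T4: `x := hol v a ∈ ⁅A, A⁆`, `A = closure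
{x, s}`, `s := hol v b`; and `s x s⁻¹ = x^k` (W1, `N' ≥ n0`). `φ y = g x g⁻¹` (hypothesis on `φ`), so
`orderOf (φ y) = orderOf x`. BSQ (`H = closure {x, s}`): `x = 1`, so `φ y = 1`. -/
def St_TT : Prop := ∀ (G α π : Type) [Group G] [Group π] (f : α → G)
  (Rel : Set (List (α × Bool))) (M : Pk G) (N n0 : ℕ) (T : G → G → π),
  Base f Rel M.L → Lvl f Rel M.L N n0 T → ∃ N1, ∀ (N' n0' : ℕ) (π' : Type) [Group π']
    (T' : G → G → π') (φ : π' →* π) (m1 : ℕ), N1 ≤ N' → Lvl f Rel M.L N' n0' T' →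
    (∀ v, m1 < M.L.l v → ∃ g : π, ∀ w, value f w = 1 → Avoids f (Bl M.L m1) v w →
      φ (hol f (lab f T') v w) = g * hol f (lab f T) v w * g⁻¹) →
    ∀ (y t : π') (k : ℕ), 3 ≤ k → t * y * t⁻¹ = y ^ k →
      (orderOf (φ y) ≠ 0 → orderOf (φ y) ∣ k - 1) → φ y = 1

end Pool.Agent.SPD
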